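import Pool.Agent.H246K2.Stubs

set_option autoImplicit false

namespace KN

open Finset Filter Topology
open scoped Classical

namespace K2ALL

theorem mem_WS {n : ℕ} {W : List Sy} : W ∈ WS n ↔ W.length = n := by
  unfold WS
  simp only [mem_image, mem_univ, true_and]
  constructor
  · rintro ⟨f, rfl⟩; simp
  · rintro rfl; exact ⟨fun i => W[i], by simp⟩

theorem mem_VN {T L : ℕ} {v : List Dir} {N n : ℕ} {W : List Sy} :
    W ∈ VN T L v N n ↔ W.length = n ∧ nB W = N ∧ Val T L v W := by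
  unfold VN
  rw [mem_filter, mem_WS]

/-- the number of words with `N` blocks -/
theorem step1 (hcnt : T_Wcnt) (hzero : T_Wzero) {T L R : ℕ} {v : List Dir} (hv : SmR L v)
    (hLL : LLat T L R) (hR : 1 ≤ R) (N : ℕ) : ∃ c : ℝ, 0 < c ∧ ∀ᶠ n : ℕ in atTop,
      c * (n : ℝ) ^ (2 * N / 3 : ℝ) * a U n ≤ (VN T L v N n).card := by
  induction N with
  | zero =>
    refine ⟨1, one_pos, Eventually.of_forall fun n => ?_⟩
    rw [hzero T L v n]
    simp
  | succ N ih =>
    obtain ⟨c, hc, h1⟩ := ih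
    obtain ⟨c', hc', h2⟩ := hcnt T L R v hv hLL hR N
    refine ⟨c' * c, by positivity, ?_⟩
    filter_upwards [h1, h2, eventually_gt_atTop 0] with n h1 h2 hn
    have hn' : (0 : ℝ) < n := by exact_mod_cast hn
    have e : (n : ℝ) ^ (2 * ((N + 1 : ℕ) : ℝ) / 3 : ℝ) =
        (n : ℝ) ^ (2 / 3 : ℝ) * (n : ℝ) ^ (2 * (N : ℝ) / 3 : ℝ) := by
      rw [← Real.rpow_add hn']
      congr 1
      push_cast
      ring
    rw [e]
    calc c' * c * ((n : ℝ) ^ (2 / 3 : ℝ) * (n : ℝ) ^ (2 * (N : ℝ) / 3 : ℝ)) * a U n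
        = c' * (n : ℝ) ^ (2 / 3 : ℝ) * (c * (n : ℝ) ^ (2 * (N : ℝ) / 3 : ℝ) * a U n) := by ring
      _ ≤ c' * (n : ℝ) ^ (2 / 3 : ℝ) * (VN T L v N n).card :=
          mul_le_mul_of_nonneg_left h1 (by positivity)
      _ ≤ _ := h2

end K2ALL

open K2ALL in
theorem T_all_proof (hcnt : T_Wcnt) (hzero : T_Wzero) (hmul : T_Wmul) (htype : T_Wtype)
    (htow : T_towu) (hbas : T_Wbas) (hvex : T_vex) (hLL : T_LL) : T_all := by
  intro k hk hex N l hl
  obtain ⟨L, v, hv, hvk⟩ := hvex k hex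
  obtain ⟨R, hR, hLR⟩ := hLL (2 * L + 4) L le_rfl
  obtain ⟨c, hc, h1⟩ := step1 hcnt hzero hv hLR hR N
  obtain ⟨C, hC⟩ := hmul k hk (2 * L + 4) L v hv hvk N
  set T := 2 * L + 4 with hT
  have hlen : (blk T v).length = 2 * (T + 1) + v.length := by
    unfold blk
    simp only [List.length_append, List.length_replicate]
    omega
  have hodd : (v.length + 1) % 2 = 0 := by
    have h2 := even_of_closed (hv.1.2.1)
    simpa using h2
  refine ⟨c / (C + 1), N * ((blk T v).length - 1), by positivity, ?_, ?_⟩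
  · rw [Nat.mul_mod]
    have : ((blk T v).length - 1) % 2 = 0 := by omega
    rw [this]
    simp
  · filter_upwards [h1] with n h1
    have h3 : (VN T L v N n).card ≤ C * a (KT l) (n + N * ((blk T v).length - 1)) := by
      have h4 : (VN T L v N n).card ≤ C * ((VN T L v N n).image (EX T v)).card := by
        apply Finset.card_le_mul_card_image
        intro w _
        exact hC n w
      refine h4.trans (Nat.mul_le_mul_left _ ?_)
      unfold a
      apply Finset.card_le_card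
      intro w hw
      obtain ⟨W, hW, rfl⟩ := Finset.mem_image.1 hw
      obtain ⟨hW1, hW2, hW3⟩ := mem_VN.1 hW
      rw [mem_K]
      refine ⟨?_, hW3.ext, Or.inl ?_⟩
      · rw [(hbas T L v hv W).2.2.1, hW1, hW2]
      · exact htow k N _ _ (htype k T L v hv hvk N W hW2 hW3) hl
    have h5 : ((VN T L v N n).card : ℝ) ≤
        (C + 1) * (a (KT l) (n + N * ((blk T v).length - 1)) : ℝ) := by
      have h6 : ((VN T L v N n).card : ℝ) ≤
          (C : ℝ) * (a (KT l) (n + N * ((blk T v).length - 1)) : ℝ) := by exact_mod_cast h3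
      have h7 : (0 : ℝ) ≤ (a (KT l) (n + N * ((blk T v).length - 1)) : ℝ) := Nat.cast_nonneg _
      linarith
    have hC0 : (0 : ℝ) < (C : ℝ) + 1 := by positivity
    have h8 := h1.trans h5
    have h9 : c / (C + 1) * (n : ℝ) ^ (2 * (N : ℝ) / 3 : ℝ) * (a U n : ℝ) =
        (c * (n : ℝ) ^ (2 * (N : ℝ) / 3 : ℝ) * (a U n : ℝ)) / (C + 1) := by ring
    rw [h9, div_le_iff₀ hC0]
    linarith

end KN
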