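import Pool.Agent.H246K2.Stubs

/-!
# G6: equivalent polygons are ambient homeomorphic
-/

set_option autoImplicit false

namespace KN

open Finset Filter Topology
open scoped Classical

namespace K2AMB

theorem ps_congr {l l' : List V} (h : ∀ e, e ∈ edges l ↔ e ∈ edges l') : ps l = ps l' := by
  unfold ps
  ext x
  rw [Set.mem_ofPred_eq, Set.mem_ofPred_eq]
  constructor
  · rintro ⟨e, he, h1⟩
    exact ⟨e, (h e).1 he, h1⟩
  · rintro ⟨e, he, h1⟩
    exact ⟨e, (h e).2 he, h1⟩

theorem refl_image (S : Set V) : (Homeomorph.refl V) '' S = S := by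
  ext x
  rw [Set.mem_image]
  constructor
  · rintro ⟨y, hy, rfl⟩
    exact hy
  · intro hx
    exact ⟨x, hx, rfl⟩

theorem ps_rot (p : V) (l : List V) : ps (p :: l) = ps (l ++ [p]) := by
  cases l with
  | nil => rfl
  | cons q l =>
    apply ps_congr
    intro e
    have e1 : edges (p :: q :: l) = (p, q) :: chain q (l ++ [p]) := rfl
    have e2 : edges (q :: l ++ [p]) = chain q (l ++ [p]) ++ chain p [q] := by
      have : edges (q :: l ++ [p]) = chain q (l ++ [p] ++ [q]) := rfl
      rw [this, List.append_assoc]
      exact chain_append q p l [q]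
    rw [e1, e2]
    simp only [chain, List.mem_cons, List.mem_append, List.not_mem_nil, or_false]
    tauto

theorem ps_sub (p : V) (l : List V) (q : V) (s : ℝ) (h0 : 0 < s) (h1 : s < 1) :
    ps (p :: l ++ [q]) = ps (p :: l ++ [q, lerp q p s]) := by
  have e1 : edges (p :: l ++ [q]) = chain p (l ++ [q]) ++ [(q, p)] := by
    have : edges (p :: l ++ [q]) = chain p (l ++ [q] ++ [p]) := rfl
    rw [this, List.append_assoc]
    exact chain_append p q l [p]
  have e2 : edges (p :: l ++ [q, lerp q p s]) =
      chain p (l ++ [q]) ++ [(q, lerp q p s), (lerp q p s, p)] := by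
    have : edges (p :: l ++ [q, lerp q p s]) = chain p (l ++ [q, lerp q p s] ++ [p]) := rfl
    rw [this, List.append_assoc]
    exact chain_append p q l [lerp q p s, p]
  unfold ps
  rw [e1, e2]
  ext x
  rw [Set.mem_ofPred_eq, Set.mem_ofPred_eq]
  constructor
  · rintro ⟨e, he, u, u0, u1, rfl⟩
    rw [List.mem_append, List.mem_singleton] at he
    rcases he with he | rfl
    · exact ⟨e, List.mem_append_left _ he, u, u0, u1, rfl⟩
    · rcases le_total u s with h | h
      · refine ⟨(q, lerp q p s), List.mem_append_right _ (by simp), u / s, by positivity,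
          (div_le_one h0).2 h, ?_⟩
        simp only [lerp]
        match_scalars
        · field_simp
          ring
        · field_simp
      · have h2 : 0 < 1 - s := by linarith
        refine ⟨(lerp q p s, p), List.mem_append_right _ (by simp), (u - s) / (1 - s),
          div_nonneg (by linarith) h2.le, (div_le_one h2).2 (by linarith), ?_⟩
        simp only [lerp]
        match_scalars
        · field_simp
          ring
        · field_simp
          ring
  · rintro ⟨e, he, u, u0, u1, rfl⟩
    rw [List.mem_append] at he
    rcases he with he | he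
    · exact ⟨e, List.mem_append_left _ he, u, u0, u1, rfl⟩
    · simp only [List.mem_cons, List.not_mem_nil, or_false] at he
      rcases he with rfl | rfl
      · refine ⟨(q, p), List.mem_append_right _ (by simp), s * u, by positivity, by nlinarith, ?_⟩
        simp only [lerp]
        module
      · refine ⟨(q, p), List.mem_append_right _ (by simp), s + u * (1 - s), ?_, ?_, ?_⟩
        · have : 0 ≤ u * (1 - s) := mul_nonneg u0 (by linarith)
          linarith
        · nlinarith
        · simp only [lerp]
          module

end K2AMB

open K2AMB in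
theorem T_amb_proof (h : T_iso) : T_amb := by
  intro l l' hs
  induction hs with
  | rel l l' hm =>
    cases hm with
    | iso k γ hc hs => exact h k γ hc hs
    | rot p l hs => exact ⟨Homeomorph.refl V, by rw [refl_image, ps_rot]⟩
    | sub p l q s hs h0 h1 =>
      exact ⟨Homeomorph.refl V, by rw [refl_image]; exact ps_sub p l q s h0 h1⟩
  | refl l => exact ⟨Homeomorph.refl V, refl_image _⟩
  | symm l l' _ ih =>
    obtain ⟨f, hf⟩ := ih
    refine ⟨f.symm, ?_⟩
    rw [← hf, ← Set.image_comp]
    simp
  | trans l l' l'' _ _ ih1 ih2 =>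
    obtain ⟨f, hf⟩ := ih1
    obtain ⟨f', hf'⟩ := ih2
    refine ⟨f.trans f', ?_⟩
    rw [← hf', ← hf, ← Set.image_comp]
    rfl

end KN
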