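import Pool.Agent.H246K2.ARC2

/-!
# ARC1: arc with straight connectors
-/

set_option autoImplicit false

namespace KN

open K2ARC2
open scoped Classical

/-- A2: arc with straight connectors -/
theorem T_arc1o_proof : T_arc1o := by
  intro L lw s hlw hs hs1
  obtain ⟨⟨hS, hx, hhd, hlt⟩, hOm⟩ := hlw
  obtain ⟨m, hm⟩ := SHX.split_list (p := ((0, 0, 0) : V)) (q := ((0, 0, 1) : V)) (by
    intro h
    have := congrArg (fun p : V => p.2.2) h
    simp at this) hhd hlt
  have harc := SHX.arc1 s hs hs1 m (by rw [← hm]; exact hS) (by rw [← hm]; exact hx)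
  rw [← hm] at harc
  refine ⟨harc.1, fun e he => ?_⟩
  have h10 : Bx L ((1, 0, 0) : V) := Bx_flat L (by norm_num) le_rfl zero_le_one
  have h11 : Bx L ((1, 0, 1) : V) := Bx_flat L (by norm_num) zero_le_one le_rfl
  have hall : ∀ p ∈ lw.map (Ts s) ++ [((1, 0, 1) : V)], Bx L p := by
    intro p hp
    simp only [List.mem_append, List.mem_cons, List.mem_map, List.not_mem_nil, or_false] at hp
    rcases hp with ⟨q, hq, rfl⟩ | rfl
    · exact Bx_Ts hs hs1 (hOm q hq)
    · exact h11
  have hmem := SHX.mem_chain he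
  refine okO_of (harc.2 e he) ?_ (hall _ hmem.2)
  rcases List.mem_cons.mp hmem.1 with h | h
  · rw [h]
    exact h10
  · exact hall _ h

end KN
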