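import Pool.Agent.H246K2.Stubs

/-!
# ARC2: arc with bent connectors
-/

set_option autoImplicit false

namespace KN.K2ARC2

open Finset Filter Topology
open scoped Classical

/-- the box without the condition `X < 1` -/
structure Bx (L : ℕ) (p : V) : Prop where
  a : -((L : ℝ) + 1) < p.1
  b : -((L : ℝ) + 1) < p.2.1
  c : p.2.1 < (L : ℝ) + 1
  d : -((L : ℝ) + 1) < p.2.2
  e : p.2.2 < (L : ℝ) + 2

theorem conv_gt {x y c u : ℝ} (hx : c < x) (hy : c < y) (h0 : 0 ≤ u) (h1 : u ≤ 1) :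
    c < (1 - u) * x + u * y := by
  rcases h0.lt_or_eq with h | h
  · have e1 : 0 < u * (y - c) := mul_pos h (by linarith)
    have e2 : 0 ≤ (1 - u) * (x - c) := mul_nonneg (by linarith) (by linarith)
    nlinarith
  · rw [← h]
    linarith

theorem conv_lt {x y c u : ℝ} (hx : x < c) (hy : y < c) (h0 : 0 ≤ u) (h1 : u ≤ 1) :
    (1 - u) * x + u * y < c := by
  rcases h0.lt_or_eq with h | h
  · have e1 : 0 < u * (c - y) := mul_pos h (by linarith)
    have e2 : 0 ≤ (1 - u) * (c - x) := mul_nonneg (by linarith) (by linarith)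
    nlinarith
  · rw [← h]
    linarith

theorem Bx_lerp {L : ℕ} {p q : V} (hp : Bx L p) (hq : Bx L q) {u : ℝ} (h0 : 0 ≤ u) (h1 : u ≤ 1) :
    Bx L (lerp p q u) := by
  constructor
  · rw [SHX.lerp_x]; exact conv_gt hp.a hq.a h0 h1
  · rw [SHX.lerp_y]; exact conv_gt hp.b hq.b h0 h1
  · rw [SHX.lerp_y]; exact conv_lt hp.c hq.c h0 h1
  · rw [SHX.lerp_z]; exact conv_gt hp.d hq.d h0 h1
  · rw [SHX.lerp_z]; exact conv_lt hp.e hq.e h0 h1

theorem Bx_Ts {L : ℕ} {s : ℝ} (hs : 0 < s) (hs1 : s ≤ 1) {p : V} (hp : Om L p) :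
    Bx L (Ts s p) := by
  obtain ⟨h1, h2, h3, h4, h5⟩ := hp
  rw [abs_lt] at h3
  have hL : (0 : ℝ) ≤ L := Nat.cast_nonneg L
  refine ⟨?_, ?_, ?_, ?_, ?_⟩
  · show -((L : ℝ) + 1) < 1 + s * (p.1 - 1)
    nlinarith
  · show -((L : ℝ) + 1) < s * p.2.1
    nlinarith
  · show s * p.2.1 < (L : ℝ) + 1
    nlinarith
  · show -((L : ℝ) + 1) < 1 / 2 + s * (p.2.2 - 1 / 2)
    nlinarith
  · show 1 / 2 + s * (p.2.2 - 1 / 2) < (L : ℝ) + 2
    nlinarith

theorem Bx_flat (L : ℕ) {x z : ℝ} (hx : 0 ≤ x) (hz : 0 ≤ z) (hz1 : z ≤ 1) :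
    Bx L ((x, 0, z) : V) := by
  have hL : (0 : ℝ) ≤ L := Nat.cast_nonneg L
  refine ⟨?_, ?_, ?_, ?_, ?_⟩ <;> simp only <;> linarith

theorem okO_of {L : ℕ} {e : V × V} (h : SHX.Ok e) (h1 : Bx L e.1) (h2 : Bx L e.2) : OkO L e := by
  refine ⟨h.1, fun r hr0 hr1 => ?_⟩
  have hb := Bx_lerp h1 h2 hr0 hr1.le
  rcases h.2 r hr0 hr1 with h3 | h3
  · exact Or.inl ⟨hb.a, h3, abs_lt.mpr ⟨hb.b, hb.c⟩, hb.d, hb.e⟩
  · exact Or.inr h3

end KN.K2ARC2

namespace KN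

open K2ARC2

/-- A3: arc with bent connectors -/
theorem T_arc2o_proof : T_arc2o := by
  intro L lw s t hlw hs hs1 ht0 ht1
  obtain ⟨⟨hS, hx, hhd, hlt⟩, hOm⟩ := hlw
  obtain ⟨m, hm⟩ := SHX.split_list (p := ((0, 0, 0) : V)) (q := ((0, 0, 1) : V)) (by
    intro h
    have := congrArg (fun p : V => p.2.2) h
    simp at this) hhd hlt
  have harc := SHX.arc2 s hs hs1 t ht0 ht1 m (by rw [← hm]; exact hS) (by rw [← hm]; exact hx)
  rw [← hm] at harc
  refine ⟨harc.1, fun e he => ?_⟩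
  have hg : Bx L (SHX.gt s t) := by
    unfold SHX.gt
    apply Bx_flat
    · nlinarith [mul_nonneg hs.le (sub_nonneg.mpr ht1)]
    · nlinarith [mul_nonneg (sub_nonneg.mpr hs1.le) (by linarith : (0 : ℝ) ≤ 1 + t)]
    · nlinarith [mul_nonneg (sub_nonneg.mpr hs1.le) (by linarith : (0 : ℝ) ≤ 1 + t)]
  have hh : Bx L (SHX.ht s t) := by
    unfold SHX.ht
    apply Bx_flat
    · nlinarith [mul_nonneg hs.le (sub_nonneg.mpr ht1)]
    · have h1 : 0 ≤ (1 - t) * ((3 + s) / 4) := mul_nonneg (by linarith) (by linarith)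
      have h2 : 0 ≤ t * (1 / 2 + s / 2) := mul_nonneg ht0 (by linarith)
      linarith
    · nlinarith
  have h10 : Bx L ((1, 0, 0) : V) := Bx_flat L (by norm_num) le_rfl zero_le_one
  have h11 : Bx L ((1, 0, 1) : V) := Bx_flat L (by norm_num) zero_le_one le_rfl
  have hall : ∀ p ∈ (((SHX.gt s t :: lw.map (Ts s)) ++ [SHX.ht s t]) ++ [((1, 0, 1) : V)]),
      Bx L p := by
    intro p hp
    simp only [List.mem_append, List.mem_cons, List.mem_map, List.not_mem_nil, or_false] at hp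
    rcases hp with ((rfl | ⟨q, hq, rfl⟩) | rfl) | rfl
    · exact hg
    · exact Bx_Ts hs hs1.le (hOm q hq)
    · exact hh
    · exact h11
  have hmem := SHX.mem_chain he
  refine okO_of (harc.2 e he) ?_ (hall _ hmem.2)
  rcases List.mem_cons.mp hmem.1 with h | h
  · rw [h]
    exact h10
  · exact hall _ h

end KN
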