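import Pool.Agent.H246K2.Stubs

set_option autoImplicit false

namespace KN

namespace K2BLOCK

/-- the potential -/
def ph {G : Type} [Group G] (g : Gauge G) (x0 y0 z0 x y z : ℤ) : G :=
  (if x = x0 then 1 else g.g1 (x0, y0, z0)) * (if y = y0 then 1 else g.g2 (x, y0, z0)) *
    (if z = z0 then 1 else g.g3 (x, y, z0))

theorem stx {G : Type} [Group G] (g : Gauge G) (x0 y0 z0 m2 m3 : ℤ)
    (F12 : m2 = 1 → ∀ z, (z = z0 ∨ z = z0 + 1 ∧ m3 = 1) →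
      g.g1 (x0, y0, z) * g.g2 (x0 + 1, y0, z) = g.g2 (x0, y0, z) * g.g1 (x0, y0 + 1, z))
    (F13 : m3 = 1 → ∀ y, (y = y0 ∨ y = y0 + 1 ∧ m2 = 1) →
      g.g1 (x0, y, z0) * g.g3 (x0 + 1, y, z0) = g.g3 (x0, y, z0) * g.g1 (x0, y, z0 + 1))
    (y z : ℤ) (hy : y = y0 ∨ y = y0 + 1 ∧ m2 = 1) (hz : z = z0 ∨ z = z0 + 1 ∧ m3 = 1) :
    ph g x0 y0 z0 x0 y z * g.g1 (x0, y, z) = ph g x0 y0 z0 (x0 + 1) y z := by
  unfold ph
  rcases hy with rfl | ⟨rfl, hm2⟩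
  · rcases hz with rfl | ⟨rfl, hm3⟩
    · simp
    · have h := F13 hm3 y (Or.inl rfl)
      simp [h]
  · rcases hz with rfl | ⟨rfl, hm3⟩
    · have h := F12 hm2 z (Or.inl rfl)
      simp [h]
    · have h1 := F12 hm2 z0 (Or.inl rfl)
      have h2 := F13 hm3 (y0 + 1) (Or.inr ⟨rfl, hm2⟩)
      simp [h1, h2, mul_assoc]

theorem sty {G : Type} [Group G] (g : Gauge G) (x0 y0 z0 m1 m3 : ℤ)
    (F23 : m3 = 1 → ∀ x, (x = x0 ∨ x = x0 + 1 ∧ m1 = 1) →
      g.g2 (x, y0, z0) * g.g3 (x, y0 + 1, z0) = g.g3 (x, y0, z0) * g.g2 (x, y0, z0 + 1))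
    (x z : ℤ) (hx : x = x0 ∨ x = x0 + 1 ∧ m1 = 1) (hz : z = z0 ∨ z = z0 + 1 ∧ m3 = 1) :
    ph g x0 y0 z0 x y0 z * g.g2 (x, y0, z) = ph g x0 y0 z0 x (y0 + 1) z := by
  unfold ph
  rcases hz with rfl | ⟨rfl, hm3⟩
  · simp
  · have h := F23 hm3 x hx
    simp [h, mul_assoc]

theorem stz {G : Type} [Group G] (g : Gauge G) (x0 y0 z0 x y : ℤ) :
    ph g x0 y0 z0 x y z0 * g.g3 (x, y, z0) = ph g x0 y0 z0 x y (z0 + 1) := by
  unfold ph
  simp

end K2BLOCK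

open K2BLOCK in
theorem T_block_proof : T_block := by
  intro G _ g q m hm1 hm2 hm3 h12 h13 h23
  obtain ⟨q1, q2, q3⟩ := q
  obtain ⟨m1, m2, m3⟩ := m
  simp only at hm1 hm2 hm3 h12 h13 h23 ⊢
  have F12 : m1 = 1 → m2 = 1 → ∀ z, (z = q3 - m3 ∨ z = q3 - m3 + 1 ∧ m3 = 1) →
      g.g1 (q1 - m1, q2 - m2, z) * g.g2 (q1 - m1 + 1, q2 - m2, z) =
      g.g2 (q1 - m1, q2 - m2, z) * g.g1 (q1 - m1, q2 - m2 + 1, z) := by
    intro e1 e2 z hz
    obtain ⟨ha, hb⟩ := h12 e1 e2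
    subst e1 e2
    simp only [Fl12, Prod.mk_sub_mk, sub_zero] at ha hb
    rcases hm3 with rfl | rfl
    · rcases hz with rfl | ⟨_, h⟩
      · simpa using ha
      · exact absurd h (by norm_num)
    · rcases hz with rfl | ⟨rfl, _⟩
      · simpa using hb rfl
      · simpa using ha
  have F13 : m1 = 1 → m3 = 1 → ∀ y, (y = q2 - m2 ∨ y = q2 - m2 + 1 ∧ m2 = 1) →
      g.g1 (q1 - m1, y, q3 - m3) * g.g3 (q1 - m1 + 1, y, q3 - m3) =
      g.g3 (q1 - m1, y, q3 - m3) * g.g1 (q1 - m1, y, q3 - m3 + 1) := by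
    intro e1 e2 y hy
    obtain ⟨ha, hb⟩ := h13 e1 e2
    subst e1 e2
    simp only [Fl13, Prod.mk_sub_mk, sub_zero] at ha hb
    rcases hm2 with rfl | rfl
    · rcases hy with rfl | ⟨_, h⟩
      · simpa using ha
      · exact absurd h (by norm_num)
    · rcases hy with rfl | ⟨rfl, _⟩
      · simpa using hb rfl
      · simpa using ha
  have F23 : m2 = 1 → m3 = 1 → ∀ x, (x = q1 - m1 ∨ x = q1 - m1 + 1 ∧ m1 = 1) →
      g.g2 (x, q2 - m2, q3 - m3) * g.g3 (x, q2 - m2 + 1, q3 - m3) =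
      g.g3 (x, q2 - m2, q3 - m3) * g.g2 (x, q2 - m2, q3 - m3 + 1) := by
    intro e1 e2 x hx
    obtain ⟨ha, hb⟩ := h23 e1 e2
    subst e1 e2
    simp only [Fl23, Prod.mk_sub_mk, sub_zero] at ha hb
    rcases hm1 with rfl | rfl
    · rcases hx with rfl | ⟨_, h⟩
      · simpa using ha
      · exact absurd h (by norm_num)
    · rcases hx with rfl | ⟨rfl, _⟩
      · simpa using hb rfl
      · simpa using ha
  clear h12 h13 h23
  -- coordinates
  have cx : ∀ x : ℤ, q1 - m1 ≤ x → x ≤ q1 → x = q1 - m1 ∨ x = q1 - m1 + 1 ∧ m1 = 1 := by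
    intro x h1 h2; rcases hm1 with h | h <;> omega
  have cy : ∀ x : ℤ, q2 - m2 ≤ x → x ≤ q2 → x = q2 - m2 ∨ x = q2 - m2 + 1 ∧ m2 = 1 := by
    intro x h1 h2; rcases hm2 with h | h <;> omega
  have cz : ∀ x : ℤ, q3 - m3 ≤ x → x ≤ q3 → x = q3 - m3 ∨ x = q3 - m3 + 1 ∧ m3 = 1 := by
    intro x h1 h2; rcases hm3 with h | h <;> omega
  generalize q1 - m1 = x0 at *
  generalize q2 - m2 = y0 at *
  generalize q3 - m3 = z0 at *
  refine ⟨fun c => ph g x0 y0 z0 c.1 c.2.1 c.2.2, ?_⟩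
  rintro ⟨x, y, z⟩ ⟨x', y', z'⟩ hcc
  have hc := hcc (x, y, z) (by simp)
  have hc' := hcc (x', y', z') (by simp)
  simp only at hc hc'
  obtain ⟨a1, a2, a3, a4, a5, a6⟩ := hc
  obtain ⟨b1, b2, b3, b4, b5, b6⟩ := hc'
  have hx := cx x a1 a2
  have hy := cy y a3 a4
  have hz := cz z a5 a6
  have hx' := cx x' b1 b2
  have hy' := cy y' b3 b4
  have hz' := cz z' b5 b6
  unfold gtr
  simp only
  have s1 : gse g (x, y, z) .xp .xm (x' - x) =
      (ph g x0 y0 z0 x y z)⁻¹ * ph g x0 y0 z0 x' y z := by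
    unfold gse gst
    rcases hx with rfl | ⟨rfl, hm⟩
    · rcases hx' with rfl | ⟨rfl, hm'⟩
      · simp
      · rw [if_pos (by ring), ← stx g x y0 z0 m2 m3 (F12 hm') (F13 hm') y z hy hz]
        group
    · rcases hx' with rfl | ⟨rfl, hm'⟩
      · rw [if_neg (by omega), if_pos (by ring)]
        have h := stx g x' y0 z0 m2 m3 (F12 hm) (F13 hm) y z hy hz
        rw [← h]
        simp
      · simp
  have s2 : gse g (x', y, z) .yp .ym (y' - y) =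
      (ph g x0 y0 z0 x' y z)⁻¹ * ph g x0 y0 z0 x' y' z := by
    unfold gse gst
    rcases hy with rfl | ⟨rfl, hm⟩
    · rcases hy' with rfl | ⟨rfl, hm'⟩
      · simp
      · rw [if_pos (by ring), ← sty g x0 y z0 m1 m3 (F23 hm') x' z hx' hz]
        group
    · rcases hy' with rfl | ⟨rfl, hm'⟩
      · rw [if_neg (by omega), if_pos (by ring)]
        have h := sty g x0 y' z0 m1 m3 (F23 hm) x' z hx' hz
        rw [← h]
        simp
      · simp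
  have s3 : gse g (x', y', z) .zp .zm (z' - z) =
      (ph g x0 y0 z0 x' y' z)⁻¹ * ph g x0 y0 z0 x' y' z' := by
    unfold gse gst
    rcases hz with rfl | ⟨rfl, hm⟩
    · rcases hz' with rfl | ⟨rfl, hm'⟩
      · simp
      · rw [if_pos (by ring), ← stz g x0 y0 z x' y']
        group
    · rcases hz' with rfl | ⟨rfl, hm'⟩
      · rw [if_neg (by omega), if_pos (by ring)]
        have h := stz g x0 y0 z' x' y'
        rw [← h]
        simp
      · simp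
  rw [s1, s2, s3]
  group

end KN
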