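import Pool.Agent.H246K2.Stubs
import Pool.Agent.H246KN.All

set_option autoImplicit false

namespace KN

open Finset Filter Topology
open scoped Classical

theorem K2CONO.det {L : ℕ} {lv : List V} (h : HRo L lv) :
    0 < det3 (lv.headD 0 - lv.getLastD 0) (-1, 0, 0) (0, -1, 0) := by
  obtain ⟨-, h1, h2, -⟩ := h
  have e1 : lv.headD 0 = (1, 0, 1) := by
    cases lv with
    | nil => simp at h1
    | cons p l => simpa using h1
  have e2 : lv.getLastD 0 = (1, 0, 0) := by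
    rw [List.getLastD_eq_getLast?, h2]
    rfl
  rw [e1, e2]
  unfold det3
  norm_num

theorem T_connecto_proof (hB : T_shBo) (hC : T_shCo) (hD : T_shDo) : T_connecto := by
  intro L lw lv lv' hl hr hr' hs
  obtain ⟨s, κ, hs0, hs1, hb⟩ := S_shA_proof lw hl.1
  have key : ∀ l : List V, HRo L l → ∀ δ : ℝ, 0 < δ → δ ≤ 1 →
      Same (l ++ lw) (insB l (bd s lw) (δ • (-1, 0, 0)) (δ • (0, -1, 0))) := by
    intro l h δ h0 h1
    exact ((hB L lw l hl h s hs0 hs1).1.trans (hC L lw l hl h s hs0 hs1)).trans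
      (hD L lw l hl h s hs0 hs1 δ h0 h1)
  obtain ⟨δ₀, h0, h1⟩ := c_gs κ lv lv' (bd s lw) hr.1 hr'.1 hb hs (-1, 0, 0) (0, -1, 0) (-1, 0, 0)
    (0, -1, 0) (K2CONO.det hr) (K2CONO.det hr')
  have h2 : 0 < min δ₀ 1 := lt_min h0 one_pos
  have h3 := h1 (min δ₀ 1) (min δ₀ 1) h2 (min_le_left _ _) h2 (min_le_left _ _)
  exact ((key lv hr _ h2 (min_le_right _ _)).trans h3).trans
    (key lv' hr' _ h2 (min_le_right _ _)).symm

end KN
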