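import Pool.Agent.H246K2.Stubs

/-!
# K2, task CONT: many contacts
-/

set_option autoImplicit false

namespace KN

open Finset Filter Topology
open scoped Classical

namespace K2CONT

theorem dt_cs (p e : Z3) : (dt p e) ^ 2 ≤ dt p p * dt e e := by
  unfold dt
  nlinarith [sq_nonneg (p.1 * e.2.1 - p.2.1 * e.1), sq_nonneg (p.1 * e.2.2 - p.2.2 * e.1),
    sq_nonneg (p.2.1 * e.2.2 - p.2.2 * e.2.1)]

theorem dt_le {p e : Z3} {r : ℕ} (he : dt e e = 1) (hp : dt p p ≤ (r : ℤ) ^ 2) : dt p e ≤ r := by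
  have h := dt_cs p e
  rw [he, mul_one] at h
  exact le_of_abs_le (abs_le_of_sq_le_sq (h.trans hp) (by positivity))

theorem dt_sub_left (p q e : Z3) : dt (p - q) e = dt p e - dt q e := by
  unfold dt
  simp only [Prod.fst_sub, Prod.snd_sub]
  ring

theorem dt_add_left (p q e : Z3) : dt (p + q) e = dt p e + dt q e := by
  unfold dt
  simp only [Prod.fst_add, Prod.snd_add]
  ring

theorem dt_comm (p q : Z3) : dt p q = dt q p := by
  unfold dt
  ring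

theorem dt_sub_right (p q e : Z3) : dt e (p - q) = dt e p - dt e q := by
  rw [dt_comm, dt_sub_left, dt_comm p, dt_comm q]

theorem dt_add_right (p q e : Z3) : dt e (p + q) = dt e p + dt e q := by
  rw [dt_comm, dt_add_left, dt_comm p, dt_comm q]

theorem dt_box {p : Z3} {r : ℕ} (hp : dt p p ≤ (r : ℤ) ^ 2) :
    p ∈ (Finset.Icc (-(r : ℤ)) r ×ˢ Finset.Icc (-(r : ℤ)) r ×ˢ Finset.Icc (-(r : ℤ)) r) := by
  simp only [Finset.mem_product, Finset.mem_Icc]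
  have hr : (0 : ℤ) ≤ r := by positivity
  unfold dt at hp
  have h1 : p.1 ^ 2 ≤ (r : ℤ) ^ 2 := by nlinarith [sq_nonneg p.2.1, sq_nonneg p.2.2]
  have h2 : p.2.1 ^ 2 ≤ (r : ℤ) ^ 2 := by nlinarith [sq_nonneg p.1, sq_nonneg p.2.2]
  have h3 : p.2.2 ^ 2 ≤ (r : ℤ) ^ 2 := by nlinarith [sq_nonneg p.1, sq_nonneg p.2.1]
  exact ⟨abs_le.1 (abs_le_of_sq_le_sq h1 hr), abs_le.1 (abs_le_of_sq_le_sq h2 hr),
    abs_le.1 (abs_le_of_sq_le_sq h3 hr)⟩

theorem one_line (R : ℕ) (P : Finset Z3) (π : Z3 → ℤ × ℤ) (e : Z3) (he : dt e e = 1)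
    (hπ : ∀ p, π (p + e) = π p) (p0 : Z3) (hp0 : p0 ∈ P) :
    ∃ z x : Z3, π z = π p0 ∧ x ∈ P ∧ Cont R {p | p ∈ P} x (z - x) := by
  obtain ⟨b, hbP, hb⟩ := Finset.exists_max_image P (fun p => dt p e) ⟨p0, hp0⟩
  obtain ⟨t, ⟨z0, ⟨p1, hp1, hzp⟩, hz0π, hz0t⟩, hmax⟩ := Int.exists_greatest_of_bdd
    (P := fun t => ∃ z : Z3, (∃ p ∈ P, dt (z - p) (z - p) ≤ (R : ℤ) ^ 2) ∧ π z = π p0 ∧
      dt z e = t)
    ⟨dt b e + R, by
      rintro t ⟨z, ⟨p, hp, hzp⟩, -, rfl⟩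
      have h1 := dt_le he hzp
      rw [dt_sub_left] at h1
      have h2 : dt p e ≤ dt b e := hb p hp
      linarith⟩
    ⟨dt p0 e, p0, ⟨p0, hp0, by rw [sub_self]; simp [dt]⟩, rfl, rfl⟩
  have hout : ∀ p ∈ P, (R : ℤ) ^ 2 < dt (z0 + e - p) (z0 + e - p) := by
    intro p hp
    by_contra hcon
    have h1 := hmax (dt (z0 + e) e) ⟨z0 + e, ⟨p, hp, not_lt.1 hcon⟩, by rw [hπ, hz0π], rfl⟩
    rw [dt_add_left, he, hz0t] at h1
    omega
  obtain ⟨x, hx, hxmin⟩ := Finset.exists_min_image P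
    (fun p => dt (z0 + e - p) (z0 + e - p)) ⟨p0, hp0⟩
  refine ⟨z0 + e, x, by rw [hπ, hz0π], hx, hx, hout x hx, ?_, ?_⟩
  · refine (hxmin p1 hp1).trans ?_
    have h1 := dt_le he hzp
    have h2 : dt (z0 + e - p1) (z0 + e - p1) = dt (z0 - p1) (z0 - p1) + 2 * dt (z0 - p1) e + dt e e := by
      unfold dt
      simp only [Prod.fst_sub, Prod.snd_sub, Prod.fst_add, Prod.snd_add]
      ring
    rw [h2, he]
    nlinarith
  · intro p hp
    have h1 : dt (z0 + e - x) (z0 + e - x) ≤ dt (z0 + e - p) (z0 + e - p) := hxmin p hp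
    have h2 : dt (z0 + e - p) (z0 + e - p) = dt (z0 + e - x) (z0 + e - x) -
        2 * dt (z0 + e - x) (p - x) + dt (p - x) (p - x) := by
      unfold dt
      simp only [Prod.fst_sub, Prod.snd_sub, Prod.fst_add, Prod.snd_add]
      ring
    linarith

theorem lines (R : ℕ) (P : Finset Z3) (π : Z3 → ℤ × ℤ) (e : Z3) (he : dt e e = 1)
    (hπ : ∀ p, π (p + e) = π p) :
    ∃ C : Finset Z3, C ⊆ P ∧ (∀ x ∈ C, ∃ N : Z3, Cont R {p | p ∈ P} x N) ∧
      (P.image π).card ≤ (2 * R + 3) ^ 3 * C.card := by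
  have key : ∀ q : ℤ × ℤ, ∃ z x : Z3, q ∈ P.image π → π z = q ∧ x ∈ P ∧
      Cont R {p | p ∈ P} x (z - x) := by
    intro q
    by_cases hq : q ∈ P.image π
    · rw [Finset.mem_image] at hq
      obtain ⟨p0, hp0, rfl⟩ := hq
      obtain ⟨z, x, h1, h2, h3⟩ := one_line R P π e he hπ p0 hp0
      exact ⟨z, x, fun _ => ⟨h1, h2, h3⟩⟩
    · exact ⟨0, 0, fun h => absurd h hq⟩
  choose z x hzx using key
  refine ⟨(P.image π).image x, ?_, ?_, ?_⟩
  · intro y hy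
    rw [Finset.mem_image] at hy
    obtain ⟨q, hq, rfl⟩ := hy
    exact (hzx q hq).2.1
  · intro y hy
    rw [Finset.mem_image] at hy
    obtain ⟨q, hq, rfl⟩ := hy
    exact ⟨_, (hzx q hq).2.2⟩
  · apply Finset.card_le_mul_card_image
    intro y hy
    have hcard : ((Finset.Icc (-((R + 1 : ℕ) : ℤ)) ((R + 1 : ℕ) : ℤ)) ×ˢ
        (Finset.Icc (-((R + 1 : ℕ) : ℤ)) ((R + 1 : ℕ) : ℤ)) ×ˢ
        (Finset.Icc (-((R + 1 : ℕ) : ℤ)) ((R + 1 : ℕ) : ℤ))).card = (2 * R + 3) ^ 3 := by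
      rw [Finset.card_product, Finset.card_product, Int.card_Icc]
      have : ((((R + 1 : ℕ) : ℤ)) + 1 - (-((R + 1 : ℕ) : ℤ))).toNat = 2 * R + 3 := by
        push_cast
        omega
      rw [this]
      ring
    rw [← hcard]
    apply Finset.card_le_card_of_injOn (fun q => z q - y)
    · intro q hq
      simp only [Finset.coe_filter, Set.mem_ofPred_eq] at hq
      obtain ⟨hq1, hq2⟩ := hq
      have h := (hzx q hq1).2.2.2.2.1
      rw [hq2] at h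
      exact dt_box (by push_cast; exact h)
    · intro q hq q' hq' heq
      simp only [Finset.coe_filter, Set.mem_ofPred_eq] at hq hq'
      simp only at heq
      have h1 : z q = z q' := sub_left_injective heq
      rw [← (hzx q hq.1).1, ← (hzx q' hq'.1).1, h1]

end K2CONT

theorem T_cont_proof (hLW : T_LW) : T_cont := by
  intro R _ P hP
  have h := hLW P
  set a := (P.image (fun p => (p.2.1, p.2.2))).card with ha
  set b := (P.image (fun p => (p.1, p.2.2))).card with hb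
  set c := (P.image (fun p => (p.1, p.2.1))).card with hc
  have hfin : ∀ m : ℕ, P.card ^ 2 ≤ m ^ 3 → ∀ C : Finset Z3, m ≤ (2 * R + 3) ^ 3 * C.card →
      ((P.card : ℝ)) ^ (2 / 3 : ℝ) ≤ (2 * R + 3 : ℝ) ^ 3 * C.card := by
    intro m hm C hC
    have h1 : ((P.card : ℝ)) ^ (2 / 3 : ℝ) ≤ m := by
      have h2 : ((P.card : ℝ)) ^ (2 : ℕ) ≤ (m : ℝ) ^ (3 : ℕ) := by exact_mod_cast hm
      have h3 : ((P.card : ℝ)) ^ (2 / 3 : ℝ) = (((P.card : ℝ)) ^ (2 : ℕ)) ^ (1 / 3 : ℝ) := by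
        rw [← Real.rpow_natCast, ← Real.rpow_mul (by positivity)]
        norm_num
      have h4 : (m : ℝ) = ((m : ℝ) ^ (3 : ℕ)) ^ (1 / 3 : ℝ) := by
        rw [← Real.rpow_natCast, ← Real.rpow_mul (by positivity)]
        norm_num
      rw [h3]
      refine (Real.rpow_le_rpow (sq_nonneg _) h2 (by norm_num)).trans ?_
      exact h4.symm.le
    have h5 : (m : ℝ) ≤ (2 * R + 3 : ℝ) ^ 3 * C.card := by exact_mod_cast hC
    exact h1.trans h5
  have hmax : ∀ m : ℕ, a ≤ m → b ≤ m → c ≤ m → P.card ^ 2 ≤ m ^ 3 := by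
    intro m h1 h2 h3
    calc P.card ^ 2 ≤ a * b * c := h
      _ ≤ m * m * m := Nat.mul_le_mul (Nat.mul_le_mul h1 h2) h3
      _ = m ^ 3 := by ring
  by_cases h1 : b ≤ a ∧ c ≤ a
  · obtain ⟨C, hC1, hC2, hC3⟩ := K2CONT.lines R P (fun p => (p.2.1, p.2.2)) (1, 0, 0)
      (by rfl) (fun p => by rw [Prod.mk.injEq]; exact ⟨add_zero _, add_zero _⟩)
    exact ⟨C, hC1, hC2, hfin a (hmax a le_rfl h1.1 h1.2) C hC3⟩
  · by_cases h2 : a ≤ b ∧ c ≤ b
    · obtain ⟨C, hC1, hC2, hC3⟩ := K2CONT.lines R P (fun p => (p.1, p.2.2)) (0, 1, 0)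
        (by rfl) (fun p => by rw [Prod.mk.injEq]; exact ⟨add_zero _, add_zero _⟩)
      exact ⟨C, hC1, hC2, hfin b (hmax b h2.1 le_rfl h2.2) C hC3⟩
    · obtain ⟨C, hC1, hC2, hC3⟩ := K2CONT.lines R P (fun p => (p.1, p.2.1)) (0, 0, 1)
        (by rfl) (fun p => by rw [Prod.mk.injEq]; exact ⟨add_zero _, add_zero _⟩)
      exact ⟨C, hC1, hC2, hfin c (hmax c (by omega) (by omega) le_rfl) C hC3⟩

end KN
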