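import Pool.Agent.H246K2.Stubs

set_option autoImplicit false

namespace KN.K2CONVX

open Finset Filter Topology
open scoped Classical

noncomputable section

/-- the segment from `x` to `y` -/
def sg (x y : V) (s : ℝ) : V := x + s • (y - x)

theorem sg_cont (x y : V) : Continuous (sg x y) := by
  unfold sg
  fun_prop

theorem sg_zero (x y : V) : sg x y 0 = x := by simp [sg]

theorem sg_one (x y : V) : sg x y 1 = y := by simp [sg]

theorem sg_mem {O : Set V} (hO : Convex ℝ O) {x y : V} (hx : x ∈ O) (hy : y ∈ O) {s : ℝ}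
    (h0 : 0 ≤ s) (h1 : s ≤ 1) : sg x y s ∈ O := by
  have h := hO hx hy (sub_nonneg.2 h1) h0 (by ring)
  have e : sg x y s = (1 - s) • x + s • y := by
    unfold sg
    rw [smul_sub, sub_smul, one_smul]
    abel
  rw [e]
  exact h

theorem sg_dist (x y y' : V) {s : ℝ} (h0 : 0 ≤ s) (h1 : s ≤ 1) :
    dist (sg x y' s) (sg x y s) ≤ dist y' y := by
  have e : sg x y' s - sg x y s = s • (y' - y) := by
    unfold sg
    rw [add_sub_add_left_eq_sub, ← smul_sub, sub_sub_sub_cancel_right]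
  rw [dist_eq_norm, dist_eq_norm, e, norm_smul, Real.norm_of_nonneg h0]
  have := norm_nonneg (y' - y)
  nlinarith

end

end KN.K2CONVX

namespace KN

open Finset Filter Topology
open scoped Classical

theorem T_convex_proof (h1 : T_lift) (h2 : T_luniq) : T_convex := by
  intro G _ X T hF O hO hconv hOX
  rcases O.eq_empty_or_nonempty with rfl | ⟨x0, hx0⟩
  · exact ⟨fun _ => 1, fun x hx => absurd hx (Set.notMem_empty x)⟩
  have hlift : ∀ y : V, ∃ u : ℝ → G, y ∈ O → (u 0 = 1 ∧ ∀ t : ℝ, 0 ≤ t → t ≤ 1 →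
      ∀ᶠ s in 𝓝 t, 0 ≤ s → s ≤ 1 →
        u s = u t * T (K2CONVX.sg x0 y t) (K2CONVX.sg x0 y s)) := by
    intro y
    by_cases hy : y ∈ O
    · obtain ⟨u, hu⟩ := h1 G X T hF (K2CONVX.sg x0 y) (K2CONVX.sg_cont x0 y)
        (fun t h0 h1 => hOX (K2CONVX.sg_mem hconv hx0 hy h0 h1))
      exact ⟨u, fun _ => hu⟩
    · exact ⟨fun _ => 1, fun h => absurd h hy⟩
  choose u hu using hlift
  refine ⟨fun y => u y 1, ?_⟩
  intro y hy
  -- uniform multiplicativity along the segment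
  have hK : IsCompact (K2CONVX.sg x0 y '' Set.Icc (0 : ℝ) 1) :=
    isCompact_Icc.image (K2CONVX.sg_cont x0 y)
  have hc : ∀ i : V, ∃ N : Set V, IsOpen N ∧ (i ∈ X → i ∈ N) ∧
      ∀ a ∈ N, ∀ b ∈ N, ∀ c ∈ N, T a b * T b c = T a c := by
    intro i
    by_cases hi : i ∈ X
    · obtain ⟨N, hN, hN2⟩ := hF i hi
      exact ⟨interior N, isOpen_interior, fun _ => mem_interior_iff_mem_nhds.2 hN,
        fun a ha b hb c hc => hN2 a (interior_subset ha) b (interior_subset hb) c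
          (interior_subset hc)⟩
    · exact ⟨∅, isOpen_empty, fun h => absurd h hi, fun a ha => absurd ha (Set.notMem_empty a)⟩
  choose N hNo hNm hNT using hc
  obtain ⟨δ, hδ, hδN⟩ := lebesgue_number_lemma_of_metric hK hNo (by
    rintro _ ⟨s, hs, rfl⟩
    exact Set.mem_iUnion.2 ⟨K2CONVX.sg x0 y s,
      hNm _ (hOX (K2CONVX.sg_mem hconv hx0 hy hs.1 hs.2))⟩)
  have hmul : ∀ s : ℝ, 0 ≤ s → s ≤ 1 → ∀ a ∈ Metric.ball (K2CONVX.sg x0 y s) δ,
      ∀ b ∈ Metric.ball (K2CONVX.sg x0 y s) δ, ∀ c ∈ Metric.ball (K2CONVX.sg x0 y s) δ,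
      T a b * T b c = T a c := by
    intro s hs0 hs1 a ha b hb c hc
    obtain ⟨i, hi⟩ := hδN (K2CONVX.sg x0 y s) ⟨s, ⟨hs0, hs1⟩, rfl⟩
    exact hNT i a (hi ha) b (hi hb) c (hi hc)
  have hself : ∀ s : ℝ, 0 ≤ s → s ≤ 1 → ∀ a ∈ Metric.ball (K2CONVX.sg x0 y s) δ, T a a = 1 := by
    intro s hs0 hs1 a ha
    have := hmul s hs0 hs1 a ha a ha a ha
    exact mul_eq_left.1 this
  obtain ⟨ρ, hρ, hρO⟩ := Metric.isOpen_iff.1 hO y hy
  have key : ∀ y' ∈ Metric.ball y (min ρ (δ / 2)), u y' 1 = u y 1 * T y y' := by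
    intro y' hy'
    have hy'O : y' ∈ O := hρO (Metric.ball_subset_ball (min_le_left _ _) hy')
    have hd : dist y' y < δ / 2 := lt_of_lt_of_le (Metric.mem_ball.1 hy') (min_le_right _ _)
    obtain ⟨a1, a2⟩ := hu y hy
    obtain ⟨b1, b2⟩ := hu y' hy'O
    have hclose : ∀ s : ℝ, 0 ≤ s → s ≤ 1 →
        dist (K2CONVX.sg x0 y' s) (K2CONVX.sg x0 y s) < δ / 2 :=
      fun s h0 h1 => lt_of_le_of_lt (K2CONVX.sg_dist x0 y y' h0 h1) hd
    have hfin := h2 G X T hF (K2CONVX.sg x0 y') (K2CONVX.sg_cont x0 y')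
      (fun t h0 h1 => hOX (K2CONVX.sg_mem hconv hx0 hy'O h0 h1))
      (fun s => u y s * T (K2CONVX.sg x0 y s) (K2CONVX.sg x0 y' s)) (u y')
      (by
        simp only [K2CONVX.sg_zero]
        rw [a1, b1, one_mul]
        have := hself 0 le_rfl zero_le_one x0
          (by rw [K2CONVX.sg_zero]; exact Metric.mem_ball_self hδ)
        exact this)
      (by
        intro t ht0 ht1
        have c1 := (K2CONVX.sg_cont x0 y).continuousAt (x := t)
        have c2 := (K2CONVX.sg_cont x0 y').continuousAt (x := t)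
        have e1 : ∀ᶠ s in 𝓝 t, dist (K2CONVX.sg x0 y s) (K2CONVX.sg x0 y t) < δ / 2 :=
          (Metric.tendsto_nhds.1 c1) (δ / 2) (by positivity)
        have e2 : ∀ᶠ s in 𝓝 t, dist (K2CONVX.sg x0 y' s) (K2CONVX.sg x0 y' t) < δ / 2 :=
          (Metric.tendsto_nhds.1 c2) (δ / 2) (by positivity)
        filter_upwards [a2 t ht0 ht1, e1, e2] with s hs hs1 hs2 h0 h1'
        have m1 : K2CONVX.sg x0 y t ∈ Metric.ball (K2CONVX.sg x0 y t) δ :=
          Metric.mem_ball_self hδ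
        have m2 : K2CONVX.sg x0 y s ∈ Metric.ball (K2CONVX.sg x0 y t) δ := by
          rw [Metric.mem_ball]; linarith
        have m3 : K2CONVX.sg x0 y' t ∈ Metric.ball (K2CONVX.sg x0 y t) δ := by
          rw [Metric.mem_ball]
          have := hclose t ht0 ht1
          linarith
        have m4 : K2CONVX.sg x0 y' s ∈ Metric.ball (K2CONVX.sg x0 y t) δ := by
          rw [Metric.mem_ball]
          have := hclose t ht0 ht1
          have := dist_triangle (K2CONVX.sg x0 y' s) (K2CONVX.sg x0 y' t) (K2CONVX.sg x0 y t)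
          linarith
        have q1 := hmul t ht0 ht1 _ m1 _ m2 _ m4
        have q2 := hmul t ht0 ht1 _ m1 _ m3 _ m4
        rw [hs h0 h1', mul_assoc, mul_assoc, q1, q2])
      b2
    simp only [K2CONVX.sg_one] at hfin
    exact hfin.symm
  refine ⟨Metric.ball y (min ρ (δ / 2)), Metric.ball_mem_nhds y (by positivity), ?_⟩
  intro a ha b hb
  have hsub : ∀ c ∈ Metric.ball y (min ρ (δ / 2)), c ∈ Metric.ball (K2CONVX.sg x0 y 1) δ := by
    intro c hc
    rw [K2CONVX.sg_one, Metric.mem_ball]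
    have := lt_of_lt_of_le (Metric.mem_ball.1 hc) (min_le_right _ _)
    linarith
  have hyy : y ∈ Metric.ball y (min ρ (δ / 2)) := Metric.mem_ball_self (by positivity)
  have q1 := hmul 1 zero_le_one le_rfl y (hsub y hyy) a (hsub a ha) b (hsub b hb)
  simp only
  rw [key a ha, key b hb, ← q1]
  group

end KN
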