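import Pool.Agent.H246KN.Stubs
import Pool.Agent.H246KN.Cls
import Pool.Agent.H246KN.SHX
import Pool.Agent.H246KN.GL1

/-!
# Project K2: inserting local knots.  The statements of the tasks (as propositions `T_...`)
-/

set_option autoImplicit false

namespace KN

open Finset Filter Topology
open scoped Classical

noncomputable section

/-! ## Part A: local connected sums of polygons in `ℝ³` -/

/-- the open box around the left polygon and the connectors -/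
def Om (L : ℕ) (p : V) : Prop :=
  -((L : ℝ) + 1) < p.1 ∧ p.1 < 1 ∧ |p.2.1| < L + 1 ∧ -((L : ℝ) + 1) < p.2.2 ∧ p.2.2 < L + 2

/-- hypotheses on the (small) left polygon -/
def HLo (L : ℕ) (lw : List V) : Prop := HL lw ∧ ∀ p ∈ lw, Om L p

/-- hypotheses on the right polygon: only the box is avoided -/
def HRo (L : ℕ) (lv : List V) : Prop := Simple lv ∧ lv.head? = some (1, 0, 1) ∧
  lv.getLast? = some (1, 0, 0) ∧ ∀ e ∈ oe lv, ∀ r : ℝ, 0 ≤ r → r < 1 → ¬ Om L (lerp e.1 e.2 r)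

/-- an edge in the box, up to points of the half-open closing edge -/
def OkO (L : ℕ) (e : V × V) : Prop := e.1 ≠ e.2 ∧ ∀ r : ℝ, 0 ≤ r → r < 1 →
    Om L (lerp e.1 e.2 r) ∨
      ((lerp e.1 e.2 r).1 = 1 ∧ (lerp e.1 e.2 r).2.1 = 0 ∧ 0 ≤ (lerp e.1 e.2 r).2.2 ∧
        (lerp e.1 e.2 r).2.2 < 1)

/-- A1: an arc in the box -/
def T_hgo : Prop := ∀ (L : ℕ) (lv β : List V), HRo L lv →
  (chain (1, 0, 0) (β ++ [((1, 0, 1) : V)])).Pairwise Disj →
  (∀ e ∈ chain (1, 0, 0) (β ++ [((1, 0, 1) : V)]), OkO L e) →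
  Simple (lv ++ β)

/-- A2: arc with straight connectors -/
def T_arc1o : Prop := ∀ (L : ℕ) (lw : List V) (s : ℝ), HLo L lw → 0 < s → s ≤ 1 →
  (chain (1, 0, 0) (lw.map (Ts s) ++ [((1, 0, 1) : V)])).Pairwise Disj ∧
    ∀ e ∈ chain (1, 0, 0) (lw.map (Ts s) ++ [((1, 0, 1) : V)]), OkO L e

/-- A3: arc with bent connectors -/
def T_arc2o : Prop := ∀ (L : ℕ) (lw : List V) (s t : ℝ), HLo L lw → 0 < s → s < 1 → 0 ≤ t → t ≤ 1 →
  (chain (1, 0, 0) (((SHX.gt s t :: lw.map (Ts s)) ++ [SHX.ht s t]) ++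
      [((1, 0, 1) : V)])).Pairwise Disj ∧
    ∀ e ∈ chain (1, 0, 0) (((SHX.gt s t :: lw.map (Ts s)) ++ [SHX.ht s t]) ++
      [((1, 0, 1) : V)]), OkO L e

/-- A4: scaling of the left polygon -/
def T_shBo : Prop := ∀ (L : ℕ) (lw lv : List V), HLo L lw → HRo L lv → ∀ s : ℝ, 0 < s → s < 1 →
  Same (lv ++ lw) (lv ++ lw.map (Ts s)) ∧ Simple (lv ++ lw.map (Ts s))

/-- A5: the connectors -/
def T_shCo : Prop := ∀ (L : ℕ) (lw lv : List V), HLo L lw → HRo L lv → ∀ s : ℝ, 0 < s → s < 1 →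
  Same (lv ++ lw.map (Ts s))
    (lv ++ ((Ts s (1, 0, 0) :: lw.map (Ts s)) ++ [Ts s (1, 0, 1)]))

/-- A6: transverse scaling -/
def T_shDo : Prop := ∀ (L : ℕ) (lw lv : List V), HLo L lw → HRo L lv → ∀ s : ℝ, 0 < s → s < 1 →
  ∀ δ : ℝ, 0 < δ → δ ≤ 1 →
  Same (lv ++ ((Ts s (1, 0, 0) :: lw.map (Ts s)) ++ [Ts s (1, 0, 1)]))
    (insB lv (bd s lw) (δ • (-1, 0, 0)) (δ • (0, -1, 0)))

/-- A7: the local connected sum only depends on the knot types -/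
def T_connecto : Prop := ∀ (L : ℕ) (lw lv lv' : List V), HLo L lw → HRo L lv → HRo L lv' →
  Same lv lv' → Same (lv ++ lw) (lv' ++ lw)

/-! ## Part B: the same for words -/

/-- small left polygon -/
def SmL (L : ℕ) (l1 l2 : List Dir) : Prop := SAP (l1 ++ .zp :: l2) ∧
  ∀ p ∈ path (l1 ++ .zp :: l2), -(L : ℤ) ≤ p.1 - (pos l2).1 ∧ p.1 ≤ (pos l2).1 ∧
    |p.2.1 - (pos l2).2.1| ≤ L ∧ -(L : ℤ) ≤ p.2.2 - (pos l2).2.2 ∧ p.2.2 - (pos l2).2.2 ≤ L + 1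

/-- right polygon that avoids the box to the left of its distinguished edge -/
def BgR (L : ℕ) (v : List Dir) : Prop := SAP (.zm :: v) ∧
  ∀ p ∈ path v, ¬ (-((L : ℤ) + 1) ≤ p.1 ∧ p.1 ≤ -1 ∧ |p.2.1| ≤ L ∧ -(L : ℤ) ≤ p.2.2 ∧
    p.2.2 ≤ L + 1)

/-- left polygon that avoids the box to the right of its distinguished edge -/
def BgL (L : ℕ) (l1 l2 : List Dir) : Prop := SAP (l1 ++ .zp :: l2) ∧
  ∀ p ∈ path (l1 ++ .zp :: l2), ¬ (1 ≤ p.1 - (pos l2).1 ∧ p.1 - (pos l2).1 ≤ L + 1 ∧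
    |p.2.1 - (pos l2).2.1| ≤ L ∧ -(L : ℤ) ≤ p.2.2 - (pos l2).2.2 ∧
    p.2.2 - (pos l2).2.2 ≤ L + 1)

/-- small right polygon -/
def SmR (L : ℕ) (v : List Dir) : Prop := SAP (.zm :: v) ∧
  ∀ p ∈ path v, 0 ≤ p.1 ∧ p.1 ≤ L ∧ |p.2.1| ≤ L ∧ -(L : ℤ) ≤ p.2.2 ∧ p.2.2 ≤ L + 1

/-- B1 -/
def T_lwo : Prop := ∀ (L : ℕ) (l1 l2 : List Dir), SmL L l1 l2 → HLo L (GL1.lw l1 l2)

/-- B2 -/
def T_lvo : Prop := ∀ (L : ℕ) (v : List Dir), BgR L v → HRo L (GL1.lv v)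

/-- B3 -/
def T_sapR : Prop := ∀ (L : ℕ) (l1 v l2 : List Dir), SmL L l1 l2 → BgR L v → SAP (join l1 v l2)

/-- B4 -/
def T_sapL : Prop := ∀ (L : ℕ) (l1 v l2 : List Dir), BgL L l1 l2 → SmR L v → SAP (join l1 v l2)

/-- B5 -/
def T_wconR : Prop := ∀ (L : ℕ) (l1 l2 v v' : List Dir), SmL L l1 l2 → BgR L v → BgR L v' →
  Same (vl (.zm :: v)) (vl (.zm :: v')) → Same (vl (join l1 v l2)) (vl (join l1 v' l2))

/-- B6 -/
def T_wconL : Prop := ∀ (L : ℕ) (l1 l2 m1 m2 v : List Dir), BgL L l1 l2 → BgL L m1 m2 →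
  SmR L v → Same (vl (l1 ++ .zp :: l2)) (vl (m1 ++ .zp :: m2)) →
  Same (vl (join l1 v l2)) (vl (join m1 v m2))

/-! ## Part C: spots and insertions -/

def hairL (T : ℕ) (l1 : List Dir) : List Dir := l1 ++ List.replicate T .xm
def hairR (T : ℕ) (l2 : List Dir) : List Dir := List.replicate T .xp ++ l2

/-- C1: a hairpin on the edge `zp` in direction `xp` -/
def T_hair : Prop := ∀ (T : ℕ) (l1 l2 : List Dir), SAP (l1 ++ .zp :: l2) →
  (∀ j : ℕ, 1 ≤ j → j ≤ T → pos l2 + ((j : ℤ), 0, 0) ∉ path (l1 ++ .zp :: l2) ∧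
    pos l2 + ((j : ℤ), 0, 1) ∉ path (l1 ++ .zp :: l2)) →
  SAP (hairL T l1 ++ .zp :: hairR T l2) ∧
  Same (vl (l1 ++ .zp :: l2)) (vl (hairL T l1 ++ .zp :: hairR T l2)) ∧
  ∀ p ∈ path (hairL T l1 ++ .zp :: hairR T l2), p ∈ path (l1 ++ .zp :: l2) ∨
    ∃ j : ℕ, 1 ≤ j ∧ j ≤ T ∧ (p = pos l2 + ((j : ℤ), 0, 0) ∨ p = pos l2 + ((j : ℤ), 0, 1))

/-- there is room to the right of the edge from `y` to `y + (0,0,1)`: a corridor of length `T` and
a box of size `L` -/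
def Rm (T L : ℕ) (w : List Dir) (y : Z3) : Prop :=
  (∀ j : ℕ, 1 ≤ j → j ≤ T → y + ((j : ℤ), 0, 0) ∉ path w ∧ y + ((j : ℤ), 0, 1) ∉ path w) ∧
  ∀ h : Z3, (T : ℤ) + 1 ≤ h.1 → h.1 ≤ T + L + 1 → |h.2.1| ≤ L → -(L : ℤ) ≤ h.2.2 →
    h.2.2 ≤ L + 1 → y + h ∉ path w

/-- the edge `zp` between `l1` and `l2` is a spot -/
def Spot (T L : ℕ) (l1 l2 : List Dir) : Prop :=
  SAP (l1 ++ .zp :: l2) ∧ Rm T L (l1 ++ .zp :: l2) (pos l2)

/-- the block that replaces the edge `zp`: `T + 1` steps `xp`, then `v`, then `T + 1` steps `xm` -/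
def blk (T : ℕ) (v : List Dir) : List Dir :=
  List.replicate (T + 1) .xm ++ v ++ List.replicate (T + 1) .xp

/-- C2: insertion of a block -/
def T_master : Prop := ∀ (T L : ℕ) (l1 l2 m1 m2 v : List Dir), Spot T L l1 l2 → SmR L v →
  BgL L m1 m2 → Same (vl (l1 ++ .zp :: l2)) (vl (m1 ++ .zp :: m2)) →
  SAP (l1 ++ blk T v ++ l2) ∧ Same (vl (l1 ++ blk T v ++ l2)) (vl (join m1 v m2))

/-- C3: insertion into an unknotted polygon -/
def T_T1 : Prop := ∀ (T L : ℕ) (l1 l2 v : List Dir), Spot T L l1 l2 → SmR L v →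
  U (l1 ++ .zp :: l2) →
  SAP (l1 ++ blk T v ++ l2) ∧ Same (vl (l1 ++ blk T v ++ l2)) (vl (.zm :: v))

/-- the knot type of `k` has no inverse: no connected sum with `k` is unknotted -/
def NonInv (k : List V) : Prop := ∀ l1 v l2 : List Dir, Facing l1 v l2 →
  Same (vl (.zm :: v)) k → ¬ U (join l1 v l2)

/-- C4: a polygon with an inserted block is knotted -/
def T_T2 : Prop := ∀ k : List V, NonInv k → ∀ (T L : ℕ) (l1 l2 v : List Dir), Spot T L l1 l2 →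
  SmR L v → Same (vl (.zm :: v)) k → ¬ U (l1 ++ blk T v ++ l2)

/-- C5: a good representative of a knot type -/
def T_vex : Prop := ∀ k : List V, (∃ w, SAP w ∧ Same (vl w) k) →
  ∃ (L : ℕ) (v : List Dir), SmR L v ∧ Same (vl (.zm :: v)) k

/-! ## Part D: flips and rotations -/

/-- D1: a vertex jumps over a square -/
def T_flip : Prop := ∀ (l1 l2 : List Dir) (a b : Dir), perp a b → SAP (l1 ++ a :: b :: l2) →
  pos l2 + vec a ∉ path (l1 ++ a :: b :: l2) →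
  SAP (l1 ++ b :: a :: l2) ∧ Same (vl (l1 ++ a :: b :: l2)) (vl (l1 ++ b :: a :: l2)) ∧
  ∀ p ∈ path (l1 ++ b :: a :: l2), p ∈ path (l1 ++ a :: b :: l2) ∨ p = pos l2 + vec a

/-- the vector product of two perpendicular directions -/
def cr (a b : Dir) : Dir :=
  match a, b with
  | .xp, .yp => .zp
  | .yp, .xm => .zp
  | .xm, .ym => .zp
  | .ym, .xp => .zp
  | .yp, .xp => .zm
  | .xm, .yp => .zm
  | .ym, .xm => .zm
  | .xp, .ym => .zm
  | .yp, .zp => .xp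
  | .zp, .ym => .xp
  | .ym, .zm => .xp
  | .zm, .yp => .xp
  | .zp, .yp => .xm
  | .ym, .zp => .xm
  | .zm, .ym => .xm
  | .yp, .zm => .xm
  | .zp, .xp => .yp
  | .xp, .zm => .yp
  | .zm, .xm => .yp
  | .xm, .zp => .yp
  | .xp, .zp => .ym
  | .zm, .xp => .ym
  | .xm, .zm => .ym
  | .zp, .xm => .ym
  | _, _ => .xp

/-- the rotation that maps `xp` to `d` and `zp` to `f` -/
def rt (d f : Dir) : Dir → Dir
  | .xp => d
  | .xm => neg d
  | .yp => cr f d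
  | .ym => neg (cr f d)
  | .zp => f
  | .zm => neg f

/-- the same for points -/
def Rp (d f : Dir) (p : Z3) : Z3 := p.1 • vec d + p.2.1 • vec (cr f d) + p.2.2 • vec f

/-- D2: rotations of words -/
def T_rt : Prop := ∀ d f : Dir, perp d f → ∀ w : List Dir, SAP w →
  SAP (w.map (rt d f)) ∧ Same (vl w) (vl (w.map (rt d f)))

/-- D3: rotations, combinatorics -/
def T_rtc : Prop := ∀ d f : Dir, perp d f →
  (∃ d' f' : Dir, perp d' f' ∧ rt d' f' d = .xp ∧ rt d' f' f = .zp ∧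
    (∀ e, rt d' f' (rt d f e) = e) ∧ (∀ e, rt d f (rt d' f' e) = e) ∧
    (∀ p, Rp d' f' (Rp d f p) = p) ∧ (∀ p, Rp d f (Rp d' f' p) = p)) ∧
  (∀ e, rt d f (neg e) = neg (rt d f e)) ∧
  (∀ w : List Dir, pos (w.map (rt d f)) = Rp d f (pos w) ∧
    path (w.map (rt d f)) = (path w).map (Rp d f)) ∧
  (∀ p q, Rp d f (p + q) = Rp d f p + Rp d f q)

/-! ## Part E: an edge with enough room near every contact -/

/-- scalar product -/
def dt (p q : Z3) : ℤ := p.1 * q.1 + p.2.1 * q.2.1 + p.2.2 * q.2.2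

/-- the open ball with centre `x + N` and radius `|N|` contains no point of `P` -/
def Cont (R : ℕ) (P : Set Z3) (x N : Z3) : Prop :=
  x ∈ P ∧ (R : ℤ) ^ 2 < dt N N ∧ dt N N ≤ ((R : ℤ) + 1) ^ 2 ∧
    ∀ p ∈ P, 2 * dt N (p - x) ≤ dt (p - x) (p - x)

/-- a 2-regular lattice graph: `E y f` = the edge from `y` to `y + vec f` is used -/
structure Gra (P : Set Z3) (E : Z3 → Dir → Prop) : Prop where
  mem : ∀ y f, E y f → y ∈ P ∧ y + vec f ∈ P
  symm : ∀ y f, E y f → E (y + vec f) (neg f)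
  two : ∀ y ∈ P, ∃ f g, f ≠ g ∧ E y f ∧ E y g ∧ ∀ h, E y h → h = f ∨ h = g

/-- sup distance at most `r` -/
def near (r : ℕ) (p q : Z3) : Prop := |p.1 - q.1| ≤ r ∧ |p.2.1 - q.2.1| ≤ r ∧ |p.2.2 - q.2.2| ≤ r

/-- room in direction `d` for the edge from `y` to `y + vec f` -/
def Big (T L : ℕ) (P : Set Z3) (y : Z3) (f d : Dir) : Prop :=
  (∀ j : ℕ, 1 ≤ j → j ≤ T → y + (j : ℤ) • vec d ∉ P ∧ y + vec f + (j : ℤ) • vec d ∉ P) ∧
  ∀ h : Z3, (T : ℤ) + 1 ≤ dt h (vec d) → dt h (vec d) ≤ T + L + 1 →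
    (∀ g : Dir, perp g d → dt h (vec g) ≤ L + 2) → y + h ∉ P

/-- the local statement for the radius `R` -/
def LLat (T L R : ℕ) : Prop := ∀ (P : Set Z3) (E : Z3 → Dir → Prop), Gra P E →
  ∀ x N : Z3, Cont R P x N → ∃ (y : Z3) (f d : Dir), near 3 y x ∧ perp d f ∧ Big T L P y f d ∧
    (E y f ∨ (E y (neg d) ∧ E (y + vec (neg d)) f ∧ y + vec f ∉ P))

/-- E1: sorted frame -/
def T_frame : Prop := ∀ N : Z3, ∃ u₁ u₂ u₃ : Dir, perp u₁ u₂ ∧ perp u₁ u₃ ∧ perp u₂ u₃ ∧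
  0 ≤ dt N (vec u₃) ∧ dt N (vec u₃) ≤ dt N (vec u₂) ∧ dt N (vec u₂) ≤ dt N (vec u₁) ∧
  (∀ f : Dir, f = u₁ ∨ f = u₂ ∨ f = u₃ ∨ f = neg u₁ ∨ f = neg u₂ ∨ f = neg u₃) ∧
  ∀ a b c : ℤ, dt N (a • vec u₁ + b • vec u₂ + c • vec u₃) =
      a * dt N (vec u₁) + b * dt N (vec u₂) + c * dt N (vec u₃) ∧
    dt (a • vec u₁ + b • vec u₂ + c • vec u₃) (a • vec u₁ + b • vec u₂ + c • vec u₃) =
      a ^ 2 + b ^ 2 + c ^ 2

/-- E2: enough room -/
def T_room : Prop := ∀ T L : ℕ, 2 * L + 4 ≤ T → ∃ M₀ : ℤ, 10000 ≤ M₀ ∧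
  ∀ (P : Set Z3) (x N y : Z3) (f d : Dir) (M : ℤ), M₀ ≤ M →
    (∀ p ∈ P, 2 * dt N (p - x) ≤ dt (p - x) (p - x)) →
    (∀ g : Dir, dt N (vec g) ≤ M) → M - 700 ≤ dt N (vec d) → near 3 y x →
    -3000 ≤ dt N (y - x) → perp d f → y + vec f + vec d ∉ P → Big T L P y f d

/-- E3: the local lemma -/
def T_LL : Prop := ∀ T L : ℕ, 2 * L + 4 ≤ T → ∃ R : ℕ, 1 ≤ R ∧ LLat T L R

/-! ## Part F: many contacts -/

/-- F1: Loomis-Whitney inequality -/
def T_LW : Prop := ∀ P : Finset Z3, P.card ^ 2 ≤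
  (P.image (fun p => (p.2.1, p.2.2))).card * (P.image (fun p => (p.1, p.2.2))).card *
    (P.image (fun p => (p.1, p.2.1))).card

/-- F2: many contacts -/
def T_cont : Prop := ∀ R : ℕ, 1 ≤ R → ∀ P : Finset Z3, P.Nonempty → ∃ C : Finset Z3, C ⊆ P ∧
  (∀ x ∈ C, ∃ N : Z3, Cont R {p | p ∈ P} x N) ∧
  ((P.card : ℝ)) ^ (2 / 3 : ℝ) ≤ (2 * R + 3 : ℝ) ^ 3 * C.card

/-- after the rotation `rt d f` and possibly a flip, `w` has a spot at the letter `zp` between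
`l1` and `l2` -/
def Gd (T L : ℕ) (w : List Dir) (d f : Dir) (l1 l2 : List Dir) : Prop :=
  perp d f ∧ Spot T L l1 l2 ∧ Same (vl w) (vl (l1 ++ .zp :: l2)) ∧
  (w.map (rt d f) = l1 ++ .zp :: l2 ∨
    (∃ m, l1 = m ++ [.xm] ∧ w.map (rt d f) = m ++ .zp :: .xm :: l2 ∧
      pos l2 + vec .zp ∉ path (w.map (rt d f))) ∨
    (∃ m, l2 = .xp :: m ∧ w.map (rt d f) = l1 ++ .xp :: .zp :: m ∧
      pos m + vec .xp ∉ path (w.map (rt d f))))

/-- F3: the graph of a polygon -/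
def T_gra : Prop := ∀ w : List Dir, SAP w → Gra {p | p ∈ path w} (fun y f =>
  (∃ l1 l2, w = l1 ++ f :: l2 ∧ pos l2 = y) ∨
    ∃ l1 l2, w = l1 ++ neg f :: l2 ∧ pos l2 = y + vec f)

/-- F4: near every contact there is a good spot -/
def T_step : Prop := ∀ T L R : ℕ, LLat T L R → ∀ w : List Dir, SAP w → ∀ x N : Z3,
  Cont R {p | p ∈ path w} x N → ¬ near 6 x 0 →
  ∃ (d f : Dir) (l1 l2 : List Dir), Gd T L w d f l1 l2 ∧ near 6 (pos l2) (Rp d f x)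

/-! ## Part H: counting (one block) -/

/-- the indices of the spots -/
def spots (T L : ℕ) (w : List Dir) : Finset ℕ :=
  (range w.length).filter (fun i => w.getD i .xp = .zp ∧ Rm T L w (pos (w.drop (i + 1))))

/-- H1 -/
def T_cnt1 : Prop := ∀ (T L n : ℕ) (C : List Dir → Finset Z3),
  (∀ w ∈ K U n, ∀ x ∈ C w, ∃ (d f : Dir) (l1 l2 : List Dir), Gd T L w d f l1 l2 ∧
    near 6 (pos l2) (Rp d f x)) →
  ∑ w ∈ K U n, (C w).card ≤ 36 * 3 * 13 ^ 3 * ∑ w ∈ K U n, (spots T L w).card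

/-- H2 -/
def T_cnt2 : Prop := ∀ k : List V, NonInv k → ∀ (T L : ℕ) (v : List Dir), SmR L v →
  Same (vl (.zm :: v)) k → ∀ n : ℕ,
  ∑ w ∈ K U n, (spots T L w).card ≤ (blk T v).length * a (KT k) (n + (blk T v).length - 1)

/-- H3 -/
def T_many : Prop := ∀ R : ℕ, 1 ≤ R → ∃ c : ℝ, 0 < c ∧ ∀ᶠ n : ℕ in atTop, ∀ w : List Dir,
  SAP w → w.length = n → ∃ C : Finset Z3, c * (n : ℝ) ^ (2 / 3 : ℝ) ≤ C.card ∧
    ∀ x ∈ C, ¬ near 6 x 0 ∧ ∃ N : Z3, Cont R {p | p ∈ path w} x N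

/-- H4: one block -/
def T_one : Prop := ∀ k : List V, NonInv k → (∃ w, SAP w ∧ Same (vl w) k) →
  ∃ (c : ℝ) (m : ℕ), 0 < c ∧ m % 2 = 0 ∧ ∀ᶠ n : ℕ in atTop,
    c * (n : ℝ) ^ (2 / 3 : ℝ) * a U n ≤ a (KT k) (n + m)

/-- H5: shift of the length -/
def T_shift : Prop := ∀ (Q : List Dir → Prop) (s c : ℝ) (m : ℕ), 0 ≤ s → 0 < c → m % 2 = 0 →
  (∀ᶠ n : ℕ in atTop, c * (n : ℝ) ^ s * a U n ≤ a Q (n + m)) →
  ∃ c' : ℝ, 0 < c' ∧ ∀ᶠ j : ℕ in atTop, c' * (2 * j : ℝ) ^ s * pq U (2 * j) ≤ pq Q (2 * j)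

/-! ## Part G: the trefoil has no inverse -/

/-- the points of a closed polygon -/
def ps (l : List V) : Set V := {x | ∃ e ∈ edges l, ∃ u : ℝ, 0 ≤ u ∧ u ≤ 1 ∧ x = lerp e.1 e.2 u}

/-- G1: small Lipschitz perturbations of the identity extend to homeomorphisms of the space -/
def T_mcs : Prop := ∀ (A : Set V) (D : V → V),
  (∀ x ∈ A, ∀ y ∈ A, ‖D x - D y‖ ≤ 1 / 2 * ‖x - y‖) → ∃ h : V ≃ₜ V, ∀ x ∈ A, h x = x + D x

/-- G2: two segments with a common end point -/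
def T_seg2 : Prop := ∀ q a b : V, q ≠ a → q ≠ b →
  (∀ u v : ℝ, 0 < u → u < 1 → 0 < v → v < 1 → lerp q a u ≠ lerp q b v) →
  ∃ c : ℝ, 0 < c ∧ ∀ u v : ℝ, 0 ≤ u → 0 ≤ v → c * (u + v) ≤ ‖lerp q a u - lerp q b v‖

/-- G3: the displacement of a polygon is Lipschitz -/
def T_lip : Prop := ∀ (n : ℕ) (g : Fin (n + 1) → V), Simple (List.ofFn g) →
  ∃ C : ℝ, 0 < C ∧ ∀ (g' : Fin (n + 1) → V) (ε : ℝ), (∀ i, ‖g' i - g i‖ ≤ ε) →
    ∀ i j : Fin (n + 1), ∀ u v : ℝ, 0 ≤ u → u ≤ 1 → 0 ≤ v → v ≤ 1 →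
    ‖(lerp (g' i) (g' (i + 1)) u - lerp (g i) (g (i + 1)) u) -
      (lerp (g' j) (g' (j + 1)) v - lerp (g j) (g (j + 1)) v)‖ ≤
      C * ε * ‖lerp (g i) (g (i + 1)) u - lerp (g j) (g (j + 1)) v‖

/-- G4: nearby polygons are ambient homeomorphic -/
def T_near : Prop := ∀ (n : ℕ) (g : Fin (n + 1) → V), Simple (List.ofFn g) →
  ∃ ε : ℝ, 0 < ε ∧ ∀ g' : Fin (n + 1) → V, (∀ i, ‖g' i - g i‖ ≤ ε) →
    ∃ h : V ≃ₜ V, h '' ps (List.ofFn g) = ps (List.ofFn g')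

/-- G5: motions of polygons -/
def T_iso : Prop := ∀ (k : ℕ) (γ : ℝ → Fin k → V), (∀ i, Continuous (fun t => γ t i)) →
  (∀ t : ℝ, 0 ≤ t → t ≤ 1 → Simple (List.ofFn (γ t))) →
  ∃ h : V ≃ₜ V, h '' ps (List.ofFn (γ 0)) = ps (List.ofFn (γ 1))

/-- G6: equivalent polygons are ambient homeomorphic -/
def T_amb : Prop := ∀ l l' : List V, Same l l' → ∃ h : V ≃ₜ V, h '' ps l = ps l'

/-- a locally flat function of two points with values in a group -/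
def Flat {G : Type} [Group G] (X : Set V) (T : V → V → G) : Prop :=
  ∀ x ∈ X, ∃ N ∈ 𝓝 x, ∀ a ∈ N, ∀ b ∈ N, ∀ c ∈ N, T a b * T b c = T a c

/-- a potential on `O` -/
def Pot {G : Type} [Group G] (O : Set V) (T : V → V → G) (φ : V → G) : Prop :=
  ∀ x ∈ O, ∃ N ∈ 𝓝 x, ∀ a ∈ N, ∀ b ∈ N, T a b = (φ a)⁻¹ * φ b

/-- cyclic holonomy -/
def AbOn {G : Type} [Group G] (X : Set V) (T : V → V → G) : Prop :=
  ∃ (φ : V → G) (κ : G), ∀ x ∈ X, ∃ N ∈ 𝓝 x, ∀ a ∈ N, ∀ b ∈ N,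
    φ a * T a b * (φ b)⁻¹ ∈ Subgroup.zpowers κ

/-- G7: transport along a curve -/
def T_lift : Prop := ∀ (G : Type) [Group G] (X : Set V) (T : V → V → G), Flat X T →
  ∀ σ : ℝ → V, Continuous σ → (∀ t : ℝ, 0 ≤ t → t ≤ 1 → σ t ∈ X) →
  ∃ u : ℝ → G, u 0 = 1 ∧ ∀ t : ℝ, 0 ≤ t → t ≤ 1 → ∀ᶠ s in 𝓝 t, 0 ≤ s → s ≤ 1 →
    u s = u t * T (σ t) (σ s)

/-- G8: uniqueness of the transport -/
def T_luniq : Prop := ∀ (G : Type) [Group G] (X : Set V) (T : V → V → G), Flat X T →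
  ∀ σ : ℝ → V, Continuous σ → (∀ t : ℝ, 0 ≤ t → t ≤ 1 → σ t ∈ X) → ∀ u u' : ℝ → G, u 0 = u' 0 →
  (∀ t : ℝ, 0 ≤ t → t ≤ 1 → ∀ᶠ s in 𝓝 t, 0 ≤ s → s ≤ 1 → u s = u t * T (σ t) (σ s)) →
  (∀ t : ℝ, 0 ≤ t → t ≤ 1 → ∀ᶠ s in 𝓝 t, 0 ≤ s → s ≤ 1 → u' s = u' t * T (σ t) (σ s)) →
  u 1 = u' 1

/-- G9: potentials on convex sets -/
def T_convex : Prop := ∀ (G : Type) [Group G] (X : Set V) (T : V → V → G), Flat X T →
  ∀ O : Set V, IsOpen O → Convex ℝ O → O ⊆ X → ∃ φ : V → G, Pot O T φ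

/-- G10: two potentials -/
def T_pot2 : Prop := ∀ (G : Type) [Group G] (T : V → V → G) (O₁ O₂ : Set V) (φ₁ φ₂ : V → G),
  Pot O₁ T φ₁ → Pot O₂ T φ₂ → IsPreconnected (O₁ ∩ O₂) →
  ∃ κ : G, ∀ x ∈ O₁ ∩ O₂, φ₂ x = κ * φ₁ x

/-- G11: the complement of the square -/
def T_square : Prop := ∀ (G : Type) [Group G] (T : V → V → G), Flat (ps sq)ᶜ T → AbOn (ps sq)ᶜ T

/-- G12: the complement of an unknotted polygon -/
def T_unab : Prop := ∀ w : List Dir, SAP w → U w → ∀ (G : Type) [Group G] (T : V → V → G),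
  Flat (ps (vl w))ᶜ T → AbOn (ps (vl w))ᶜ T

/-- a gauge field on the dual lattice: transport from the cube `c` to the next cube in the three
positive directions -/
structure Gauge (G : Type) where
  g1 : Z3 → G
  g2 : Z3 → G
  g3 : Z3 → G

/-- flatness around the edge from `q` in direction `zp` -/
def Fl12 {G : Type} [Group G] (g : Gauge G) (q : Z3) : Prop :=
  g.g1 (q - (1, 1, 0)) * g.g2 (q - (0, 1, 0)) = g.g2 (q - (1, 1, 0)) * g.g1 (q - (1, 0, 0))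
/-- flatness around the edge from `q` in direction `yp` -/
def Fl13 {G : Type} [Group G] (g : Gauge G) (q : Z3) : Prop :=
  g.g1 (q - (1, 0, 1)) * g.g3 (q - (0, 0, 1)) = g.g3 (q - (1, 0, 1)) * g.g1 (q - (1, 0, 0))
/-- flatness around the edge from `q` in direction `xp` -/
def Fl23 {G : Type} [Group G] (g : Gauge G) (q : Z3) : Prop :=
  g.g2 (q - (0, 1, 1)) * g.g3 (q - (0, 0, 1)) = g.g3 (q - (0, 1, 1)) * g.g2 (q - (0, 1, 0))

/-- `w` uses the edge between `q` and `q + vec f` -/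
def Eg (w : List Dir) (q : Z3) (f : Dir) : Prop := ∃ l1 l2 : List Dir,
  (w = l1 ++ f :: l2 ∧ pos l2 = q) ∨ (w = l1 ++ neg f :: l2 ∧ pos l2 = q + vec f)

/-- the gauge field is flat outside the polygon `w` -/
def GF {G : Type} [Group G] (g : Gauge G) (w : List Dir) : Prop := ∀ q : Z3,
  (Eg w q .zp ∨ Fl12 g q) ∧ (Eg w q .yp ∨ Fl13 g q) ∧ (Eg w q .xp ∨ Fl23 g q)

/-- transport between neighbouring cubes -/
def gst {G : Type} [Group G] (g : Gauge G) (c : Z3) : Dir → G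
  | .xp => g.g1 c
  | .xm => (g.g1 (c - (1, 0, 0)))⁻¹
  | .yp => g.g2 c
  | .ym => (g.g2 (c - (0, 1, 0)))⁻¹
  | .zp => g.g3 c
  | .zm => (g.g3 (c - (0, 0, 1)))⁻¹

/-- transport by `e` steps (`-1, 0` or `1`) in one direction -/
def gse {G : Type} [Group G] (g : Gauge G) (c : Z3) (p m : Dir) (e : ℤ) : G :=
  if e = 1 then gst g c p else if e = -1 then gst g c m else 1

/-- transport between cubes with a common vertex -/
def gtr {G : Type} [Group G] (g : Gauge G) (c c' : Z3) : G :=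
  gse g c .xp .xm (c'.1 - c.1) * gse g (c'.1, c.2.1, c.2.2) .yp .ym (c'.2.1 - c.2.1) *
    gse g (c'.1, c'.2.1, c.2.2) .zp .zm (c'.2.2 - c.2.2)

/-- the cube of a point -/
def cube (x : V) : Z3 := (⌊x.1⌋, ⌊x.2.1⌋, ⌊x.2.2⌋)

/-- the function of two points given by a gauge field -/
def TT {G : Type} [Group G] (g : Gauge G) (a b : V) : G := gtr g (cube a) (cube b)

/-- G13: the gauge field is trivial on small blocks -/
def T_block : Prop := ∀ (G : Type) [Group G] (g : Gauge G) (q : Z3) (m : Z3),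
  (m.1 = 0 ∨ m.1 = 1) → (m.2.1 = 0 ∨ m.2.1 = 1) → (m.2.2 = 0 ∨ m.2.2 = 1) →
  (m.1 = 1 → m.2.1 = 1 → Fl12 g q ∧ (m.2.2 = 1 → Fl12 g (q - (0, 0, 1)))) →
  (m.1 = 1 → m.2.2 = 1 → Fl13 g q ∧ (m.2.1 = 1 → Fl13 g (q - (0, 1, 0)))) →
  (m.2.1 = 1 → m.2.2 = 1 → Fl23 g q ∧ (m.1 = 1 → Fl23 g (q - (1, 0, 0)))) →
  ∃ φ : Z3 → G, ∀ c c' : Z3, (∀ x ∈ [c, c'], q.1 - m.1 ≤ x.1 ∧ x.1 ≤ q.1 ∧
    q.2.1 - m.2.1 ≤ x.2.1 ∧ x.2.1 ≤ q.2.1 ∧ q.2.2 - m.2.2 ≤ x.2.2 ∧ x.2.2 ≤ q.2.2) →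
    gtr g c c' = (φ c)⁻¹ * φ c'

/-- G14: a gauge field that is flat outside `w` gives a locally flat function -/
def T_gauge : Prop := ∀ (G : Type) [Group G] (g : Gauge G) (w : List Dir), SAP w → GF g w →
  Flat (ps (vl w))ᶜ (TT g)

/-- holonomy along a walk from the cube `c` in the dual lattice -/
def hol {G : Type} [Group G] (g : Gauge G) (c : Z3) : List Dir → G
  | [] => 1
  | d :: w => hol g c w * gst g (c + pos w) d

/-- G15: non-commuting holonomies -/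
def T_nonab : Prop := ∀ (G : Type) [Group G] (g : Gauge G) (w : List Dir), SAP w →
  ∀ (c : Z3) (A B : List Dir), pos A = 0 → pos B = 0 →
  hol g c A * hol g c B ≠ hol g c B * hol g c A → ¬ AbOn (ps (vl w))ᶜ (TT g)

/-- number (mod 2) of letters `zp, zm` of the word whose edge is the one between `(x', y, z)` and
`(x', y, z + 1)` for some `x' ≥ x` -/
def cz : List Dir → ℤ → ℤ → ℤ → ZMod 2
  | [], _, _, _ => 0
  | d :: w, x, y, z => cz w x y z +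
      (if d = .zp ∧ x ≤ (pos w).1 ∧ (pos w).2.1 = y ∧ (pos w).2.2 = z then 1 else 0) +
      (if d = .zm ∧ x ≤ (pos w).1 ∧ (pos w).2.1 = y ∧ (pos w).2.2 = z + 1 then 1 else 0)

/-- number (mod 2) of letters `yp, ym` of the word whose edge is the one between `(x', y, z)` and
`(x', y + 1, z)` for some `x' ≥ x` -/
def cy : List Dir → ℤ → ℤ → ℤ → ZMod 2
  | [], _, _, _ => 0
  | d :: w, x, y, z => cy w x y z +
      (if d = .yp ∧ x ≤ (pos w).1 ∧ (pos w).2.1 = y ∧ (pos w).2.2 = z then 1 else 0) +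
      (if d = .ym ∧ x ≤ (pos w).1 ∧ (pos w).2.1 = y + 1 ∧ (pos w).2.2 = z then 1 else 0)

/-- the gauge field of a closed word with values in `{1, τ}` -/
def mgauge {G : Type} [Group G] (τ : G) (w : List Dir) : Gauge G where
  g1 := fun _ => 1
  g2 := fun c => if cz w (c.1 + 1) (c.2.1 + 1) c.2.2 = 0 then 1 else τ
  g3 := fun c => if cy w (c.1 + 1) c.2.1 (c.2.2 + 1) = 0 then 1 else τ

/-- G16: it is flat outside the word -/
def T_mflat : Prop := ∀ (G : Type) [Group G] (τ : G), τ * τ = 1 → ∀ w : List Dir, pos w = 0 →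
  GF (mgauge τ w) w

/-- the trefoil polygon is `zm :: v0` -/
def v0 : List Dir := [.ym, .ym, .ym, .zp, .xm, .xm, .xm, .zm, .yp, .yp, .zp, .xp, .xp, .zm,
  .ym, .ym, .ym, .zp, .xm, .xm, .xm, .zm, .yp, .yp, .zp, .xp, .xp, .zm, .yp, .yp, .zp, .xp, .xp]

/-- the trefoil -/
def tre : List V := vl (.zm :: v0)

abbrev S3 := Equiv.Perm (Fin 3)

/-- the group elements of the rows `y = 0, ..., 4` of the trefoil -/
def trow (r : ℤ) : S3 :=
  if r = 0 then Equiv.swap 0 1 else if r = 1 then Equiv.swap 0 2 else if r = 2 then Equiv.swap 1 2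
  else if r = 3 then Equiv.swap 0 1 else if r = 4 then Equiv.swap 1 2 else 1

/-- does the row `r` cover the interval `[i, i + 1]`? -/
def tcov (r i : ℤ) : Prop := (r = 0 ∧ 0 ≤ i ∧ i < 2) ∨ (r = 1 ∧ 1 ≤ i ∧ i < 3) ∨
  (r = 2 ∧ 2 ≤ i ∧ i < 4) ∨ (r = 3 ∧ 0 ≤ i ∧ i < 3) ∨ (r = 4 ∧ 1 ≤ i ∧ i < 4)

/-- the contribution of the row `r` -/
def tel (r i : ℤ) : S3 := if tcov r i then trow r else 1

/-- the gauge field of the trefoil -/
def tgauge : Gauge S3 where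
  g1 := fun _ => 1
  g2 := fun c => if c.2.2 = 0 then tel (c.2.1 + 1) c.1 else 1
  g3 := fun c => if c.2.2 = 0 then
    (if c.2.1 < 0 then tel 0 c.1 else 1) * (if c.2.1 < 1 then tel 1 c.1 else 1) *
    (if c.2.1 < 2 then tel 2 c.1 else 1) * (if c.2.1 < 3 then tel 3 c.1 else 1) *
    (if c.2.1 < 4 then tel 4 c.1 else 1) else 1

/-- G17: the gauge field of the trefoil -/
def T_tflat : Prop := GF tgauge (.zm :: v0) ∧ (∀ c : Z3, c.1 < 0 → tgauge.g2 c = 1 ∧ tgauge.g3 c = 1) ∧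
  (∀ y z : ℤ, tgauge.g2 (0, y - 1, z) = (if y = 0 ∧ z = 0 then Equiv.swap 0 1 else 1) ∨
    Eg v0 (0, y, z) .zp) ∧
  (∀ y z : ℤ, tgauge.g3 (0, y, z - 1) = 1 ∨ Eg v0 (0, y, z) .yp)

/-- the gauge field of a connected sum with the trefoil; `y` is the point where the connector
starts -/
def jgauge (y : Z3) (m : List Dir) : Gauge S3 where
  g1 := fun _ => 1
  g2 := fun c => if c.1 ≤ y.1 then (mgauge (Equiv.swap 0 1) m).g2 c else
    tgauge.g2 (c - y - (1, 0, 0))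
  g3 := fun c => if c.1 ≤ y.1 then (mgauge (Equiv.swap 0 1) m).g3 c else
    tgauge.g3 (c - y - (1, 0, 0))

/-- G18 -/
def T_jflat : Prop := ∀ l1 l2 : List Dir, Facing l1 v0 l2 →
  GF (jgauge (pos l2) (l1 ++ .xm :: .zp :: .xp :: l2)) (join l1 v0 l2)

/-- G19: two loops -/
def T_jloops : Prop := ∀ (y : Z3) (m : List Dir),
  let c : Z3 := y + (1, -1, -1)
  let A : List Dir := [.ym, .zm, .yp, .zp]
  let B : List Dir := [.xm, .xm, .ym, .ym, .ym, .zm, .yp, .zp, .yp, .yp, .xp, .xp]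
  pos A = 0 ∧ pos B = 0 ∧ hol (jgauge y m) c A * hol (jgauge y m) c B ≠
    hol (jgauge y m) c B * hol (jgauge y m) c A

/-- G20: connected sums with the trefoil are knotted -/
def T_tre : Prop := NonInv tre

/-! ## Part W: several blocks -/

/-- letters and block symbols (`bl d f`: a block in direction `d` on an edge `f`) -/
inductive Sy
  | lt (f : Dir)
  | bl (d f : Dir)
  deriving DecidableEq

instance : Fintype Sy where
  elems := ((univ : Finset Dir).image Sy.lt) ∪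
    ((univ : Finset (Dir × Dir)).image (fun p => Sy.bl p.1 p.2))
  complete := by intro x; cases x <;> simp

/-- the letter of a symbol -/
def syl : Sy → Dir
  | .lt f => f
  | .bl _ f => f

/-- the word of a symbol -/
def syw (T : ℕ) (v : List Dir) : Sy → List Dir
  | .lt f => [f]
  | .bl d f => (blk T v).map (rt d f)

/-- all blocks are replaced by edges -/
def BS (W : List Sy) : List Dir := W.map syl

/-- all blocks are inserted -/
def EX (T : ℕ) (v : List Dir) (W : List Sy) : List Dir := W.flatMap (syw T v)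

def isB : Sy → Bool
  | .lt _ => false
  | .bl _ _ => true

/-- number of blocks -/
def nB (W : List Sy) : ℕ := W.countP isB

/-- rotation of symbols -/
def rS (d f : Dir) : Sy → Sy
  | .lt e => .lt (rt d f e)
  | .bl d' f' => .bl (rt d f d') (rt d f f')

/-- room in direction `d` for the edge from `y` to `y + vec f` -/
def RmD (T L : ℕ) (d f : Dir) (w : List Dir) (y : Z3) : Prop :=
  (∀ j : ℕ, 1 ≤ j → j ≤ T → y + Rp d f ((j : ℤ), 0, 0) ∉ path w ∧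
    y + Rp d f ((j : ℤ), 0, 1) ∉ path w) ∧
  ∀ h : Z3, (T : ℤ) + 1 ≤ h.1 → h.1 ≤ T + L + 1 → |h.2.1| ≤ L → -(L : ℤ) ≤ h.2.2 →
    h.2.2 ≤ L + 1 → y + Rp d f h ∉ path w

/-- words with blocks: the blocks have room, without blocks the polygon is unknotted -/
structure Val (T L : ℕ) (v : List Dir) (W : List Sy) : Prop where
  u : U (BS W)
  base : SAP (BS W)
  ext : SAP (EX T v W)
  room : ∀ (A B : List Sy) (d f : Dir), W = A ++ .bl d f :: B →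
    perp d f ∧ RmD T L d f (EX T v A ++ f :: EX T v B) (pos (EX T v B))

/-- all words of length `n` with symbols -/
def WS (n : ℕ) : Finset (List Sy) := (univ : Finset (Fin n → Sy)).image List.ofFn

/-- valid words of length `n` with `N` blocks -/
def VN (T L : ℕ) (v : List Dir) (N n : ℕ) : Finset (List Sy) :=
  (WS n).filter (fun W => nB W = N ∧ Val T L v W)

/-- a large radius -/
def rad (T L : ℕ) (v : List Dir) : ℕ := 4 * ((blk T v).length + T + L + 10)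

/-- `y` is far from all blocks of `W` -/
def farB (T _L : ℕ) (v : List Dir) (r : ℕ) (W : List Sy) (y : Z3) : Prop :=
  ∀ (A B : List Sy) (d f : Dir), W = A ++ .bl d f :: B → ¬ near r y (pos (EX T v B))

/-- C0: insertion of a block gives a polygon -/
def T_ssap : Prop := ∀ (T L : ℕ) (l1 l2 v : List Dir), Spot T L l1 l2 → SmR L v →
  SAP (l1 ++ blk T v ++ l2)

/-- W1: a subwalk is replaced by an edge -/
def T_Wrep : Prop := ∀ (l1 l2 I : List Dir) (f : Dir), pos I = vec f → I ≠ [] →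
  (∀ p ∈ path (l1 ++ f :: l2), p ∈ path (l1 ++ I ++ l2)) ∧
  (SAP (l1 ++ I ++ l2) → 4 ≤ (l1 ++ f :: l2).length → SAP (l1 ++ f :: l2))

/-- W2: basic facts -/
def T_Wbas : Prop := ∀ (T L : ℕ) (v : List Dir), SmR L v → ∀ W : List Sy,
  pos (EX T v W) = pos (BS W) ∧ (∀ p ∈ path (BS W), p ∈ path (EX T v W)) ∧
  (EX T v W).length = W.length + nB W * ((blk T v).length - 1) ∧
  (SAP (EX T v W) → 4 ≤ W.length → SAP (BS W)) ∧
  (∀ d f : Dir, perp d f → (∀ A B d' f', W = A ++ .bl d' f' :: B → perp d' f') →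
    (EX T v W).map (rt d f) = EX T v (W.map (rS d f)) ∧
    (BS W).map (rt d f) = BS (W.map (rS d f)) ∧ nB (W.map (rS d f)) = nB W)

/-- W3: rotations -/
def T_Wrot : Prop := ∀ (T L : ℕ) (v : List Dir), SmR L v → ∀ W : List Sy, Val T L v W →
  ∀ d f : Dir, perp d f → Val T L v (W.map (rS d f))

/-- W4: looking up a letter far from the blocks -/
def T_Wlook : Prop := ∀ (T L : ℕ) (v : List Dir), SmR L v → ∀ (W : List Sy) (l1 l2 : List Dir)
  (z : Dir), EX T v W = l1 ++ z :: l2 → farB T L v (blk T v).length W (pos l2) →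
  (∀ A B d' f', W = A ++ .bl d' f' :: B → perp d' f') →
  ∃ A B : List Sy, W = A ++ .lt z :: B ∧ EX T v A = l1 ∧ EX T v B = l2

/-- W5: flips -/
def T_Wflip : Prop := ∀ (T L : ℕ) (v : List Dir), SmR L v → ∀ (A B : List Sy) (a b : Dir),
  Val T L v (A ++ .lt a :: .lt b :: B) → perp a b →
  pos (EX T v B) + vec a ∉ path (EX T v (A ++ .lt a :: .lt b :: B)) →
  farB T L v (T + L + 5) (A ++ .lt a :: .lt b :: B) (pos (EX T v B)) →
  Val T L v (A ++ .lt b :: .lt a :: B)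

/-- W6: insertion of a block -/
def T_Wins : Prop := ∀ (T L : ℕ) (v : List Dir), SmR L v → ∀ A B : List Sy,
  Val T L v (A ++ .lt .zp :: B) → Spot T L (EX T v A) (EX T v B) →
  farB T L v (rad T L v - 20) (A ++ .lt .zp :: B) (pos (EX T v B)) →
  Val T L v (A ++ .bl .xp .zp :: B)

/-- the relation between a word with blocks and the one with one more block -/
def Rl (W : List Sy) (d f : Dir) (A B : List Sy) : Prop :=
  W.map (rS d f) = A ++ .lt .zp :: B ∨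
    (∃ M, A = M ++ [.lt .xm] ∧ W.map (rS d f) = M ++ .lt .zp :: .lt .xm :: B) ∨
    (∃ M, B = .lt .xp :: M ∧ W.map (rS d f) = A ++ .lt .xp :: .lt .zp :: M)

/-- W7: a contact far from the blocks gives a place for a new block -/
def T_Wcon : Prop := ∀ (T L R : ℕ) (v : List Dir), SmR L v → LLat T L R → ∀ W : List Sy,
  Val T L v W → ∀ x N : Z3, Cont R {p | p ∈ path (EX T v W)} x N → ¬ near 6 x 0 →
  farB T L v (rad T L v) W x → ∃ (d f : Dir) (A B : List Sy), perp d f ∧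
    Val T L v (A ++ .bl .xp .zp :: B) ∧ near 6 (pos (EX T v B)) (Rp d f x) ∧ Rl W d f A B

/-- W8: counting -/
def T_Wcnt : Prop := ∀ (T L R : ℕ) (v : List Dir), SmR L v → LLat T L R → 1 ≤ R → ∀ N : ℕ,
  ∃ c : ℝ, 0 < c ∧ ∀ᶠ n : ℕ in atTop,
    c * (n : ℝ) ^ (2 / 3 : ℝ) * (VN T L v N n).card ≤ (VN T L v (N + 1) n).card

/-- W9: no blocks -/
def T_Wzero : Prop := ∀ (T L : ℕ) (v : List Dir) (n : ℕ), (VN T L v 0 n).card = a U n

/-- W10: every block of `W` overlaps a block of `W₀` -/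
def T_Wover : Prop := ∀ k : List V, NonInv k → ∀ (T L : ℕ) (v : List Dir), SmR L v →
  Same (vl (.zm :: v)) k → ∀ W₀ W : List Sy, Val T L v W₀ → Val T L v W →
  (blk T v).length + 3 ≤ W₀.length →
  EX T v W₀ = EX T v W → ∀ (A B : List Sy) (d f : Dir), W = A ++ .bl d f :: B →
  ∃ (A₀ B₀ : List Sy) (d₀ f₀ : Dir), W₀ = A₀ ++ .bl d₀ f₀ :: B₀ ∧
    (EX T v A).length < (EX T v A₀).length + (blk T v).length ∧
    (EX T v A₀).length < (EX T v A).length + (blk T v).length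

/-- W11: bounded multiplicity -/
def T_Wmul : Prop := ∀ k : List V, NonInv k → ∀ (T L : ℕ) (v : List Dir), SmR L v →
  Same (vl (.zm :: v)) k → ∀ N : ℕ, ∃ C : ℕ, ∀ (n : ℕ) (w : List Dir),
  ((VN T L v N n).filter (fun W => EX T v W = w)).card ≤ C

/-- `N`-fold connected sums of `k` -/
def Tow (k : List V) : ℕ → List V → Prop
  | 0 => fun l => Same l sq
  | N + 1 => fun l => ∃ l1 v l2 : List Dir, Facing l1 v l2 ∧ Tow k N (vl (l1 ++ .zp :: l2)) ∧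
      Same (vl (.zm :: v)) k ∧ Same l (vl (join l1 v l2))

/-- W12: uniqueness -/
def T_towu : Prop := ∀ (k : List V) (N : ℕ) (l l' : List V), Tow k N l → Tow k N l' → Same l l'

/-- W13: existence -/
def T_towe : Prop := ∀ k : List V, (∃ w, SAP w ∧ Same (vl w) k) → ∀ N : ℕ,
  ∃ w, SAP w ∧ Tow k N (vl w)

/-- W14: the knot type of a word with blocks -/
def T_Wtype : Prop := ∀ (k : List V) (T L : ℕ) (v : List Dir), SmR L v →
  Same (vl (.zm :: v)) k → ∀ (N : ℕ) (W : List Sy), nB W = N → Val T L v W →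
  Tow k N (vl (EX T v W))

/-- W15: several blocks -/
def T_all : Prop := ∀ k : List V, NonInv k → (∃ w, SAP w ∧ Same (vl w) k) → ∀ (N : ℕ)
  (l : List V), Tow k N l → ∃ (c : ℝ) (m : ℕ), 0 < c ∧ m % 2 = 0 ∧ ∀ᶠ n : ℕ in atTop,
    c * (n : ℝ) ^ (2 * N / 3 : ℝ) * a U n ≤ a (KT l) (n + m)

end

end KN
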