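import Pool.Agent.H246KN.All
import Pool.Agent.H246K2.Stubs

/-!
# A vertex jumps over a square (helper439)
-/

set_option autoImplicit false

namespace KN

namespace K2FLIP

open Finset Filter Topology
open scoped Classical
open LOC

/-- a lattice edge that is disjoint from the half-open edges `[P + a + b, P + b)`, `[P + b, P)` and
whose ends avoid `P + a` meets the closed square only in `P` -/
theorem avoid2 (a b g : Dir) (hp : perp a b) (P C : Z3)
    (hD1 : Disj (emb (P + vec b + vec a), emb (P + vec b)) (emb C, emb (C + vec g)))
    (hD2 : Disj (emb (P + vec b), emb P) (emb C, emb (C + vec g)))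
    (h1 : C ≠ P + vec a) (h3 : C + vec g ≠ P + vec a)
    (r α β : ℝ) (hr0 : 0 ≤ r) (hr1 : r < 1)
    (ha0 : 0 ≤ α) (ha1 : α ≤ 1) (hb0 : 0 ≤ β) (hb1 : β ≤ 1)
    (h : lerp (emb C) (emb (C + vec g)) r = emb P + (β • emb (vec b) + α • emb (vec a))) :
    β = 0 ∧ α = 0 := by
  have hlerp : lerp (emb C) (emb (C + vec g)) r = emb C + r • emb (vec g) := by
    rw [emb_add]
    unfold lerp
    module
  have hAQ : C ≠ P + vec b := by
    intro hA
    apply hD2 0 0 (le_refl _) one_pos (le_refl _) one_pos
    rw [lerp_zero, lerp_zero]
    simp only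
    rw [hA]
  have hAR : C ≠ P + vec b + vec a := by
    intro hA
    apply hD1 0 0 (le_refl _) one_pos (le_refl _) one_pos
    rw [lerp_zero, lerp_zero]
    simp only
    rw [hA]
  have hn : emb (C - P) = emb C - emb P := by
    simp [emb]
  rw [hlerp] at h
  have hA0 : ∀ m : Z3, C - P = m → C = P + m := by
    intro m hm
    rw [← hm]
    abel
  rcases eq_or_lt_of_le hr0 with hr | hr
  · subst hr
    have h5 : emb (C - P) = β • emb (vec b) + α • emb (vec a) := by
      rw [hn]
      rw [zero_smul, add_zero] at h
      rw [h]
      abel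
    have h6 := box b a hp _ (geo0 b a hp _ β α hb0 hb1 ha0 ha1 h5)
    rcases h6 with h6 | h6 | h6 | h6
    · have h7 : (0 : ℝ) • emb (vec b) + (0 : ℝ) • emb (vec a)
          = β • emb (vec b) + α • emb (vec a) := by
        rw [← h5, h6]
        simp [emb]
        rfl
      have := coord b a hp _ _ _ _ h7
      exact ⟨this.1.symm, this.2.symm⟩
    · exact absurd (hA0 _ h6) hAQ
    · exact absurd (hA0 _ h6) h1
    · exact absurd (by rw [hA0 _ h6]; abel) hAR
  · exfalso
    have h5 : emb (C - P) + r • emb (vec g) = β • emb (vec b) + α • emb (vec a) := by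
      rw [hn]
      have : emb C - emb P + r • emb (vec g) = emb C + r • emb (vec g) - emb P := by abel
      rw [this, h]
      abel
    obtain ⟨k1, k2⟩ := geo b a g hp _ r β α hr hr1 hb0 hb1 ha0 ha1 h5
    have hB0 : ∀ m : Z3, C - P + vec g = m → C + vec g = P + m := by
      intro m hm
      rw [← hm]
      abel
    rcases box b a hp _ k1 with c1 | c1 | c1 | c1
    · rcases box b a hp _ k2 with c2 | c2 | c2 | c2
      · -- vec g = 0
        rw [c1, zero_add] at c2
        revert c2
        cases g <;> decide
      · -- g = b : the edge from P to P + b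
        rw [c1, zero_add] at c2
        have hge := vec_inj c2
        have hA := hA0 _ c1
        rw [add_zero] at hA
        subst hge
        subst hA
        apply hD2 (1 - r) r (by linarith) (by linarith) hr0 hr1
        simp only [lerp]
        rw [sub_sub_cancel, add_comm]
      · exact h3 (hB0 _ c2)
      · rw [c1, zero_add] at c2
        revert c2 hp
        cases g <;> cases a <;> cases b <;> decide
    · exact hAQ (hA0 _ c1)
    · exact h1 (hA0 _ c1)
    · exact hAR (by rw [hA0 _ c1]; abel)

/-- points of the moving edges -/
theorem qt1 (P A B : V) (t u : ℝ) : lerp (P + B + A) (lerp (P + B) (P + A) t) u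
    = P + ((1 - u * t) • B + (1 - u * (1 - t)) • A) := by
  unfold lerp
  module

theorem qt2 (P A B : V) (t u : ℝ) : lerp (lerp (P + B) (P + A) t) P u
    = P + (((1 - u) * (1 - t)) • B + ((1 - u) * t) • A) := by
  unfold lerp
  module

theorem main2 (X Y : List V) (P : Z3) (a b : Dir)
    (hp : perp a b) (S : Z3 → Prop)
    (hs : Simple (X ++ emb (P + vec b + vec a) :: emb (P + vec b) :: emb P :: Y))
    (hE : ∀ q ∈ edges (X ++ emb (P + vec b + vec a) :: emb (P + vec b) :: emb P :: Y),
      ∃ A g, q = (emb A, emb (A + vec g)) ∧ S A ∧ S (A + vec g))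
    (h1 : ¬ S (P + vec a)) :
    Same (X ++ emb (P + vec b + vec a) :: emb (P + vec b) :: emb P :: Y)
      (X ++ emb (P + vec b + vec a) :: emb (P + vec a) :: emb P :: Y) := by
  set B : V := emb (vec b) with hBd
  set A : V := emb (vec a) with hAd
  have hPB : emb (P + vec b) = emb P + B := emb_add _ _
  have hPA : emb (P + vec a) = emb P + A := emb_add _ _
  have hQ : emb (P + vec b + vec a) = emb P + B + A := by rw [emb_add, emb_add]
  apply S_lin_proof
  · simp
  intro t ht0 ht1
  have hself : ∀ L : List V, List.zipWith (fun p q => lerp p q t) L L = L := by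
    intro L
    induction L with
    | nil => rfl
    | cons a L ih =>
      rw [List.zipWith_cons_cons, ih]
      congr 1
      unfold lerp
      module
  have hlerpself : ∀ p : V, lerp p p t = p := by
    intro p
    unfold lerp
    module
  have hzip : List.zipWith (fun p q => lerp p q t)
      (X ++ emb (P + vec b + vec a) :: emb (P + vec b) :: emb P :: Y)
      (X ++ emb (P + vec b + vec a) :: emb (P + vec a) :: emb P :: Y)
      = X ++ emb (P + vec b + vec a) :: lerp (emb (P + vec b)) (emb (P + vec a)) t ::
        emb P :: Y := by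
    rw [List.zipWith_append rfl, hself]
    simp only [List.zipWith_cons_cons, hself, hlerpself]
  rw [hzip]
  obtain ⟨F, x, hform⟩ := edges_form X (emb (P + vec b + vec a))
  have hold := hform (emb (P + vec b) :: emb P :: Y)
  have hnew := hform (lerp (emb (P + vec b)) (emb (P + vec a)) t :: emb P :: Y)
  simp only [List.cons_append, chain] at hold hnew
  set G := chain (emb P) (Y ++ [x]) with hG
  set Q1 := lerp (emb (P + vec b)) (emb (P + vec a)) t with hQ1
  obtain ⟨hs0, hs1, hs2⟩ := hs
  rw [hold] at hs1 hs2 hE
  have hpermg : ∀ y z : V × V, (F ++ y :: z :: G).Perm (y :: z :: (F ++ G)) := by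
    intro y z
    refine List.perm_middle.trans (List.Perm.cons _ ?_)
    exact List.perm_middle
  have hs1' := ((hpermg _ _).pairwise_iff (fun h => Disj.symm h)).1 hs1
  rw [List.pairwise_cons, List.pairwise_cons] at hs1'
  obtain ⟨hdisj1, hdisj2, hFG⟩ := hs1'
  -- other edges avoid the square
  have hav : ∀ q ∈ F ++ G, ∀ r : ℝ, 0 ≤ r → r < 1 → ∀ β α : ℝ, 0 ≤ β → β ≤ 1 → 0 ≤ α → α ≤ 1 →
      lerp q.1 q.2 r = emb P + (β • B + α • A) → β = 0 ∧ α = 0 := by
    intro q hq r hr0 hr1 β α hb0 hb1 ha0 ha1 h
    have hq' : q ∈ F ++ (emb (P + vec b + vec a), emb (P + vec b)) ::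
        (emb (P + vec b), emb P) :: G := by
      rw [List.mem_append] at hq ⊢
      rcases hq with hq | hq
      · exact Or.inl hq
      · exact Or.inr (List.mem_cons_of_mem _ (List.mem_cons_of_mem _ hq))
    obtain ⟨C, g, hqe, hC1, hC2⟩ := hE q hq'
    have hd1 := hdisj1 q (List.mem_cons_of_mem _ hq)
    have hd2 := hdisj2 q hq
    rw [hqe] at h hd1 hd2
    refine avoid2 a b g hp P C hd1 hd2 ?_ ?_ r α β hr0 hr1 ha0 ha1 hb0 hb1 h
    · rintro rfl; exact h1 hC1
    · intro hh; rw [hh] at hC2; exact h1 hC2
  have p1 : ∀ u : ℝ, lerp (emb (P + vec b + vec a)) Q1 u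
      = emb P + ((1 - u * t) • B + (1 - u * (1 - t)) • A) := by
    intro u
    rw [hQ1, hPB, hPA, hQ]
    exact qt1 _ _ _ _ _
  have p2 : ∀ u : ℝ, lerp Q1 (emb P) u
      = emb P + (((1 - u) * (1 - t)) • B + ((1 - u) * t) • A) := by
    intro u
    rw [hQ1, hPB, hPA]
    exact qt2 _ _ _ _ _
  have key : ∀ a' b' a'' b'' : ℝ, emb P + (a' • B + b' • A) = emb P + (a'' • B + b'' • A) →
      a' = a'' ∧ b' = b'' := fun a' b' a'' b'' h => coord b a hp _ _ _ _ (add_left_cancel h)
  refine ⟨by simp, ?_, ?_⟩
  · rw [hnew]
    apply ((hpermg _ _).pairwise_iff (fun h => Disj.symm h)).2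
    rw [List.pairwise_cons, List.pairwise_cons]
    refine ⟨?_, ?_, hFG⟩
    · intro q hq
      rw [List.mem_cons] at hq
      rcases hq with rfl | hq
      · intro u v hu0 hu1 hv0 hv1 he
        simp only at he
        rw [p1, p2] at he
        obtain ⟨ha, hb⟩ := key _ _ _ _ he
        nlinarith
      · intro u v hu0 hu1 hv0 hv1 he
        simp only at he
        rw [p1] at he
        have h5 := hav q hq v hv0 hv1 _ _ (by nlinarith) (by nlinarith) (by nlinarith)
          (by nlinarith) he.symm
        nlinarith [h5.1, h5.2]
    · intro q hq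
      intro u v hu0 hu1 hv0 hv1 he
      simp only at he
      rw [p2] at he
      have e5 : 0 ≤ (1 - u) * (1 - t) := by
        apply mul_nonneg <;> linarith
      have e6 : 0 ≤ (1 - u) * t := by
        apply mul_nonneg <;> linarith
      have h5 := hav q hq v hv0 hv1 _ _ e5 (by nlinarith) e6 (by nlinarith) he.symm
      nlinarith [h5.1, h5.2]
  · rw [hnew]
    intro q hq
    rw [List.mem_append, List.mem_cons, List.mem_cons] at hq
    have l0 := p1 0
    have l1 := p1 1
    have l3 := p2 1
    rw [lerp_zero] at l0
    rw [lerp_one] at l1 l3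
    rcases hq with hq | rfl | rfl | hq
    · exact hs2 q (List.mem_append_left _ hq)
    · intro he
      simp only at he
      rw [l0, l1] at he
      obtain ⟨ha, hb⟩ := key _ _ _ _ he
      linarith
    · intro he
      simp only at he
      have he' := l1.symm.trans (he.trans l3)
      obtain ⟨ha, hb⟩ := key _ _ _ _ he'
      linarith
    · exact hs2 q (List.mem_append_right _ (List.mem_cons_of_mem _ (List.mem_cons_of_mem _ hq)))

theorem path_two (l1 l2 : List Dir) (a b : Dir) :
    path (l1 ++ a :: b :: l2) = (path l1).dropLast.map (fun p => p + (pos l2 + vec b + vec a)) ++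
      (pos l2 + vec b + vec a) :: (pos l2 + vec b) :: path l2 := by
  rw [path_append]
  rfl

theorem nodup_swap {α : Type*} (X Y : List α) (p q : α) (h : (X ++ p :: Y).Nodup)
    (hq : q ∉ X ++ p :: Y) : (X ++ q :: Y).Nodup := by
  rw [List.nodup_middle, List.nodup_cons] at h ⊢
  refine ⟨?_, h.2⟩
  intro h'
  apply hq
  rw [List.mem_append] at h' ⊢
  rcases h' with h' | h'
  · exact Or.inl h'
  · exact Or.inr (List.mem_cons_of_mem _ h')

end K2FLIP

open K2FLIP LOC in
/-- D1: a vertex jumps over a square -/
theorem T_flip_proof : T_flip := by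
  intro l1 l2 a b hp hw hno
  have hcomm : pos l2 + vec a + vec b = pos l2 + vec b + vec a := by abel
  have hpath1 := path_two l1 l2 a b
  have hpath2 := path_two l1 l2 b a
  rw [hcomm] at hpath2
  -- the new word is a polygon
  have hw' : SAP (l1 ++ b :: a :: l2) := by
    obtain ⟨h4, h0, hnd⟩ := hw
    refine ⟨?_, ?_, ?_⟩
    · simp only [List.length_append, List.length_cons] at h4 ⊢
      exact h4
    · rw [pos_append] at h0 ⊢
      simp only [pos] at h0 ⊢
      rw [hcomm]
      exact h0
    · cases l1 with
      | nil =>
        simp only [List.nil_append, path, List.tail_cons] at hnd ⊢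
        simp only [List.nil_append, path] at hno
        exact nodup_swap [] (path l2) _ _ hnd
          (fun h => hno (List.mem_cons_of_mem _ h))
      | cons f l1' =>
        have e1 : (path (f :: l1' ++ a :: b :: l2)).tail = path (l1' ++ a :: b :: l2) := rfl
        have e2 : (path (f :: l1' ++ b :: a :: l2)).tail = path (l1' ++ b :: a :: l2) := rfl
        rw [e1] at hnd
        rw [e2]
        have hno' : pos l2 + vec a ∉ path (l1' ++ a :: b :: l2) :=
          fun h => hno (List.mem_cons_of_mem _ h)
        rw [path_two] at hnd hno' ⊢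
        rw [hcomm]
        have := nodup_swap (((path l1').dropLast.map
          (fun p => p + (pos l2 + vec b + vec a))) ++ [pos l2 + vec b + vec a]) (path l2)
          (pos l2 + vec b) (pos l2 + vec a) (by simpa using hnd) (by simpa using hno')
        simpa using this
  refine ⟨hw', ?_, ?_⟩
  · have hs := S_simple_proof _ hw
    have hs' := S_simple_proof _ hw'
    have hed := edges_vl _ hw
    have hP2 : path l2 = pos l2 :: (path l2).tail := by
      cases l2 <;> rfl
    cases hl : l1 with
    | nil =>
      rw [hl] at hw hw' hs hs' hed hno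
      rw [List.nil_append] at hw hw' hs hs' hed hno
      rw [List.nil_append, List.nil_append]
      have hpw : pos l2 + vec b + vec a = 0 := hw.2.1
      have hne : (path l2).tail ≠ [] := by
        intro h0
        have h1 := path_length l2
        rw [hP2, h0] at h1
        have h2 := hw.1
        simp at h1 h2
        rw [h1] at h2
        simp at h2
      have hlast : (path l2).tail.getLast hne = 0 := by
        have h1 := path_getLast l2
        rw [List.getLast_tail]
        exact h1
      have hM : (path l2).tail = (path l2).tail.dropLast ++ [0] := by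
        have := List.dropLast_append_getLast hne
        rw [hlast] at this
        exact this.symm
      set M := (path l2).tail.dropLast with hMd
      have hv1 : vl (a :: b :: l2) = (emb (pos l2 + vec b) :: emb (pos l2) :: M.map emb) ++
          [emb (pos l2 + vec b + vec a)] := by
        unfold vl
        rw [List.tail_cons]
        simp only [path]
        rw [hP2, hM, hpw]
        simp
      have hv2 : vl (b :: a :: l2) = (emb (pos l2 + vec a) :: emb (pos l2) :: M.map emb) ++
          [emb (pos l2 + vec b + vec a)] := by
        unfold vl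
        rw [List.tail_cons]
        simp only [path]
        rw [hP2, hM, hpw]
        simp
      rw [hv1] at hs hed
      rw [hv2] at hs'
      have r1 := S_rot_proof _ _ hs
      have r2 := S_rot_proof _ _ hs'
      rw [hv1, hv2]
      refine r1.2.trans (Same.trans ?_ r2.2.symm)
      have hm := main2 [] (M.map emb) (pos l2) a b hp (fun A => A ∈ path (a :: b :: l2))
        r1.1 ?_ hno
      · exact hm
      · intro q hq
        apply hed
        simp only [List.nil_append, edges, List.cons_append, chain, List.mem_cons] at hq ⊢
        have h3 : List.map emb M ++ [emb (pos l2 + vec b + vec a)] ++ [emb (pos l2 + vec b)]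
            = List.map emb M ++ emb (pos l2 + vec b + vec a) :: [emb (pos l2 + vec b)] := by simp
        rw [h3, chain_append, List.mem_append]
        rcases hq with rfl | rfl | hq
        · right
          right
          simp [chain]
        · left
          rfl
        · right
          left
          exact hq
    | cons f l1' =>
      rw [hl] at hw hw' hs hs' hed hno
      have hv1 : vl (f :: l1' ++ a :: b :: l2) =
          ((path l1').dropLast.map (fun p => p + (pos l2 + vec b + vec a))).map emb ++
          emb (pos l2 + vec b + vec a) :: emb (pos l2 + vec b) :: emb (pos l2) ::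
          (path l2).tail.map emb := by
        unfold vl
        rw [List.cons_append, List.tail_cons, path_two]
        conv_lhs => rw [hP2]
        simp
      have hv2 : vl (f :: l1' ++ b :: a :: l2) =
          ((path l1').dropLast.map (fun p => p + (pos l2 + vec b + vec a))).map emb ++
          emb (pos l2 + vec b + vec a) :: emb (pos l2 + vec a) :: emb (pos l2) ::
          (path l2).tail.map emb := by
        unfold vl
        rw [List.cons_append, List.tail_cons, path_two, hcomm]
        conv_lhs => rw [hP2]
        simp
      rw [hv1] at hs hed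
      rw [hv1, hv2]
      exact main2 _ _ (pos l2) a b hp (fun A => A ∈ path (f :: l1' ++ a :: b :: l2)) hs hed hno
  · intro p hpp
    rw [hpath2] at hpp
    rw [hpath1]
    simp only [List.mem_append, List.mem_cons] at hpp ⊢
    tauto

end KN
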