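import Pool.Agent.H246K2.Stubs

namespace KN

namespace K2FRAME

/-- an orthonormal frame of directions -/
def Fr (u₁ u₂ u₃ : Dir) : Prop := perp u₁ u₂ ∧ perp u₁ u₃ ∧ perp u₂ u₃ ∧
  (∀ f : Dir, f = u₁ ∨ f = u₂ ∨ f = u₃ ∨ f = neg u₁ ∨ f = neg u₂ ∨ f = neg u₃) ∧
  ∀ (N : Z3) (a b c : ℤ), dt N (a • vec u₁ + b • vec u₂ + c • vec u₃) =
      a * dt N (vec u₁) + b * dt N (vec u₂) + c * dt N (vec u₃) ∧
    dt (a • vec u₁ + b • vec u₂ + c • vec u₃) (a • vec u₁ + b • vec u₂ + c • vec u₃) =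
      a ^ 2 + b ^ 2 + c ^ 2

theorem perp_comm {a b : Dir} (h : perp a b) : perp b a := fun h' => h h'.symm

theorem fr12 {a b c : Dir} (h : Fr a b c) : Fr b a c := by
  obtain ⟨h1, h2, h3, h4, h5⟩ := h
  refine ⟨perp_comm h1, h3, h2, fun f => ?_, fun N x y z => ?_⟩
  · have := h4 f
    tauto
  · obtain ⟨e1, e2⟩ := h5 N y x z
    have e : x • vec b + y • vec a + z • vec c = y • vec a + x • vec b + z • vec c := by abel
    rw [e, e1, e2]
    constructor <;> ring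

theorem fr23 {a b c : Dir} (h : Fr a b c) : Fr a c b := by
  obtain ⟨h1, h2, h3, h4, h5⟩ := h
  refine ⟨h2, h1, perp_comm h3, fun f => ?_, fun N x y z => ?_⟩
  · have := h4 f
    tauto
  · obtain ⟨e1, e2⟩ := h5 N x z y
    have e : x • vec a + y • vec c + z • vec b = x • vec a + z • vec b + y • vec c := by abel
    rw [e, e1, e2]
    constructor <;> ring

/-- sorted version -/
def Good (N : Z3) : Prop := ∃ u₁ u₂ u₃ : Dir, Fr u₁ u₂ u₃ ∧
  0 ≤ dt N (vec u₃) ∧ dt N (vec u₃) ≤ dt N (vec u₂) ∧ dt N (vec u₂) ≤ dt N (vec u₁)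

theorem sort3 (N : Z3) (a b c : Dir) (h : Fr a b c) (ha : 0 ≤ dt N (vec a))
    (hb : 0 ≤ dt N (vec b)) (hc : 0 ≤ dt N (vec c)) : Good N := by
  rcases le_total (dt N (vec a)) (dt N (vec b)) with h1 | h1 <;>
  rcases le_total (dt N (vec a)) (dt N (vec c)) with h2 | h2 <;>
  rcases le_total (dt N (vec b)) (dt N (vec c)) with h3 | h3
  · exact ⟨c, b, a, fr12 (fr23 (fr12 h)), ha, h1, h3⟩
  · exact ⟨b, c, a, fr23 (fr12 h), ha, h2, h3⟩
  · exact ⟨b, a, c, fr12 h, hc, h2, h1⟩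
  · exact ⟨b, a, c, fr12 h, hc, h2, h1⟩
  · exact ⟨c, a, b, fr12 (fr23 h), hb, h1, h2⟩
  · exact ⟨a, b, c, h, hc, h3, h1⟩
  · exact ⟨a, c, b, fr23 h, hb, h3, h2⟩
  · exact ⟨a, b, c, h, hc, h3, h1⟩

theorem base : Fr .xp .yp .zp ∧ Fr .xp .yp .zm ∧ Fr .xp .ym .zp ∧ Fr .xp .ym .zm ∧
    Fr .xm .yp .zp ∧ Fr .xm .yp .zm ∧ Fr .xm .ym .zp ∧ Fr .xm .ym .zm := by
  refine ⟨?_, ?_, ?_, ?_, ?_, ?_, ?_, ?_⟩ <;>
  · refine ⟨by decide, by decide, by decide, by decide, fun N a b c => ?_⟩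
    constructor
    · simp [dt, vec]
      try ring
    · simp [dt, vec]
      try ring

theorem good (N : Z3) : Good N := by
  obtain ⟨b1, b2, b3, b4, b5, b6, b7, b8⟩ := base
  rcases le_total 0 N.1 with hx | hx <;> rcases le_total 0 N.2.1 with hy | hy <;>
  rcases le_total 0 N.2.2 with hz | hz
  · exact sort3 N .xp .yp .zp b1 (by simpa [dt, vec] using hx) (by simpa [dt, vec] using hy)
      (by simpa [dt, vec] using hz)
  · exact sort3 N .xp .yp .zm b2 (by simpa [dt, vec] using hx) (by simpa [dt, vec] using hy)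
      (by simpa [dt, vec] using hz)
  · exact sort3 N .xp .ym .zp b3 (by simpa [dt, vec] using hx) (by simpa [dt, vec] using hy)
      (by simpa [dt, vec] using hz)
  · exact sort3 N .xp .ym .zm b4 (by simpa [dt, vec] using hx) (by simpa [dt, vec] using hy)
      (by simpa [dt, vec] using hz)
  · exact sort3 N .xm .yp .zp b5 (by simpa [dt, vec] using hx) (by simpa [dt, vec] using hy)
      (by simpa [dt, vec] using hz)
  · exact sort3 N .xm .yp .zm b6 (by simpa [dt, vec] using hx) (by simpa [dt, vec] using hy)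
      (by simpa [dt, vec] using hz)
  · exact sort3 N .xm .ym .zp b7 (by simpa [dt, vec] using hx) (by simpa [dt, vec] using hy)
      (by simpa [dt, vec] using hz)
  · exact sort3 N .xm .ym .zm b8 (by simpa [dt, vec] using hx) (by simpa [dt, vec] using hy)
      (by simpa [dt, vec] using hz)

end K2FRAME

theorem T_frame_proof : T_frame := by
  intro N
  obtain ⟨u₁, u₂, u₃, ⟨h1, h2, h3, h4, h5⟩, h6, h7, h8⟩ := K2FRAME.good N
  exact ⟨u₁, u₂, u₃, h1, h2, h3, h6, h7, h8, h4, fun a b c => h5 N a b c⟩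

end KN
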