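import Pool.Agent.H246K2.Stubs

/-! Task GAUGE (helper835): a gauge field that is flat outside a polygon gives a locally flat
function of two points. -/

set_option autoImplicit false

namespace KN

open Filter Topology

namespace K2GAUGE

theorem mem_chain_mid (r p q : V) (A B : List V) : (p, q) ∈ chain r (A ++ p :: q :: B) := by
  induction A generalizing r with
  | nil => simp [chain]
  | cons a A ih =>
    rw [List.cons_append, chain]
    exact List.mem_cons_of_mem _ (ih a)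

theorem mem_edges_mid (p q : V) (A B : List V) : (p, q) ∈ edges (A ++ p :: q :: B) := by
  cases A with
  | nil => simp [edges, chain]
  | cons a A =>
    rw [List.cons_append, edges]
    have : (A ++ p :: q :: B) ++ [a] = A ++ p :: q :: (B ++ [a]) := by simp
    rw [this]
    exact mem_chain_mid a p q A (B ++ [a])

theorem mem_edges_close (p z : V) (A : List V) : (z, p) ∈ edges (p :: (A ++ [z])) := by
  rw [edges]
  have : (A ++ [z]) ++ [p] = A ++ z :: p :: [] := by simp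
  rw [this]
  exact mem_chain_mid p z p A []

theorem path_cons (w : List Dir) : path w = pos w :: (path w).tail := by
  cases w <;> rfl

theorem path_last (w : List Dir) : path w = (path w).dropLast ++ [0] := by
  have := List.dropLast_append_getLast (path_ne_nil w)
  rw [path_getLast] at this
  exact this.symm

theorem edge_mem (l1 l2 : List Dir) (e : Dir) (hw : SAP (l1 ++ e :: l2)) :
    (emb (pos l2 + vec e), emb (pos l2)) ∈ edges (vl (l1 ++ e :: l2)) := by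
  obtain ⟨h4, h0, -⟩ := hw
  cases l1 with
  | nil =>
    cases l2 with
    | nil => simp at h4
    | cons d l3 =>
      have h0' : pos (d :: l3) + vec e = 0 := h0
      rw [h0']
      unfold vl
      rw [List.nil_append, List.tail_cons, path, path_last l3, List.map_cons, List.map_append]
      exact mem_edges_close _ _ _
  | cons d l1 =>
    unfold vl
    rw [List.cons_append, List.tail_cons, path_append, path, path_cons l2, List.map_append,
      List.map_cons, List.map_cons]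
    exact mem_edges_mid _ _ _ _

theorem lerp_comm (p q : V) (u : ℝ) : lerp p q u = lerp q p (1 - u) := by
  unfold lerp
  rw [sub_sub_cancel, add_comm]

theorem mem_ps (w : List Dir) (hw : SAP w) (q : Z3) (f : Dir) (h : Eg w q f) (u : ℝ) (h0 : 0 ≤ u)
    (h1 : u ≤ 1) : lerp (emb q) (emb (q + vec f)) u ∈ ps (vl w) := by
  obtain ⟨l1, l2, ⟨rfl, rfl⟩ | ⟨rfl, h2⟩⟩ := h
  · refine ⟨_, edge_mem l1 l2 f hw, 1 - u, by linarith, by linarith, ?_⟩
    exact lerp_comm _ _ _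
  · refine ⟨_, edge_mem l1 l2 (neg f) hw, u, h0, h1, ?_⟩
    rw [h2, vec_neg, add_neg_cancel_right]

theorem floor_nhds (x : ℝ) : ∃ m : ℤ, (m = 0 ∨ m = 1) ∧ (m = 1 → x = (⌊x⌋ : ℤ)) ∧
    {a : ℝ | ⌊x⌋ - m ≤ ⌊a⌋ ∧ ⌊a⌋ ≤ ⌊x⌋} ∈ 𝓝 x := by
  by_cases hx : x = (⌊x⌋ : ℤ)
  · refine ⟨1, Or.inr rfl, fun _ => hx, ?_⟩
    refine mem_of_superset (Ioo_mem_nhds (a := x - 1) (b := x + 1) (by linarith) (by linarith)) ?_
    rintro a ⟨h1, h2⟩
    constructor
    · rw [Int.le_floor]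
      push_cast
      rw [← hx]
      exact h1.le
    · rw [← Int.lt_add_one_iff, Int.floor_lt]
      push_cast
      rw [← hx]
      exact h2
  · refine ⟨0, Or.inl rfl, fun h => absurd h (by norm_num), ?_⟩
    have h3 : (⌊x⌋ : ℝ) < x := lt_of_le_of_ne (Int.floor_le x) (fun h => hx h.symm)
    refine mem_of_superset (Ioo_mem_nhds h3 (Int.lt_floor_add_one x)) ?_
    rintro a ⟨h1, h2⟩
    constructor
    · rw [Int.le_floor]
      push_cast
      linarith
    · rw [← Int.lt_add_one_iff, Int.floor_lt]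
      push_cast
      exact h2

theorem fl_nonneg (x : ℝ) : 0 ≤ x - (⌊x⌋ : ℤ) := by
  have := Int.floor_le x
  linarith

theorem fl_le (x : ℝ) : x - (⌊x⌋ : ℤ) ≤ 1 := by
  have := Int.lt_floor_add_one x
  linarith

end K2GAUGE

open K2GAUGE

theorem T_gauge_proof (hb : T_block) : T_gauge := by
  intro G _ g w hw hg x hx
  obtain ⟨m1, hm1, hi1, hn1⟩ := floor_nhds x.1
  obtain ⟨m2, hm2, hi2, hn2⟩ := floor_nhds x.2.1
  obtain ⟨m3, hm3, hi3, hn3⟩ := floor_nhds x.2.2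
  have hps : ∀ (q : Z3) (f : Dir) (u : ℝ), 0 ≤ u → u ≤ 1 →
      x = lerp (emb q) (emb (q + vec f)) u → ¬ Eg w q f := by
    intro q f u h0 h1 hxu he
    apply hx
    rw [hxu]
    exact mem_ps w hw q f he u h0 h1
  have key := hb G g (cube x) (m1, m2, m3) hm1 hm2 hm3 ?_ ?_ ?_
  · obtain ⟨φ, hφ⟩ := key
    refine ⟨_, prod_mem_nhds hn1 (prod_mem_nhds hn2 hn3), ?_⟩
    have hc : ∀ a b : V,
        a ∈ {a : ℝ | ⌊x.1⌋ - m1 ≤ ⌊a⌋ ∧ ⌊a⌋ ≤ ⌊x.1⌋} ×ˢ
          ({a : ℝ | ⌊x.2.1⌋ - m2 ≤ ⌊a⌋ ∧ ⌊a⌋ ≤ ⌊x.2.1⌋} ×ˢ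
            {a : ℝ | ⌊x.2.2⌋ - m3 ≤ ⌊a⌋ ∧ ⌊a⌋ ≤ ⌊x.2.2⌋}) →
        b ∈ {a : ℝ | ⌊x.1⌋ - m1 ≤ ⌊a⌋ ∧ ⌊a⌋ ≤ ⌊x.1⌋} ×ˢ
          ({a : ℝ | ⌊x.2.1⌋ - m2 ≤ ⌊a⌋ ∧ ⌊a⌋ ≤ ⌊x.2.1⌋} ×ˢ
            {a : ℝ | ⌊x.2.2⌋ - m3 ≤ ⌊a⌋ ∧ ⌊a⌋ ≤ ⌊x.2.2⌋}) →
        TT g a b = (φ (cube a))⁻¹ * φ (cube b) := by
      rintro a b ⟨ha1, ha2, ha3⟩ ⟨hb1, hb2, hb3⟩
      refine hφ (cube a) (cube b) ?_
      intro y hy
      simp only [List.mem_cons, List.not_mem_nil, or_false] at hy
      rcases hy with rfl | rfl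
      · exact ⟨ha1.1, ha1.2, ha2.1, ha2.2, ha3.1, ha3.2⟩
      · exact ⟨hb1.1, hb1.2, hb2.1, hb2.2, hb3.1, hb3.2⟩
    intro a ha b hb' c hc'
    rw [hc a b ha hb', hc b c hb' hc', hc a c ha hc']
    group
  · intro h1 h2
    have e1 := hi1 h1
    have e2 := hi2 h2
    refine ⟨((hg (cube x)).1).resolve_left ?_, fun h3 =>
      ((hg (cube x - (0, 0, 1))).1).resolve_left ?_⟩
    · refine hps _ _ (x.2.2 - (⌊x.2.2⌋ : ℤ)) (fl_nonneg _) (fl_le _) ?_
      ext <;> simp [lerp, emb, cube, vec, -Int.self_sub_floor] <;> linarith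
    · have e3 := hi3 h3
      refine hps _ _ 1 (by norm_num) (by norm_num) ?_
      rw [lerp_one]
      ext <;> simp [emb, cube, vec] <;> linarith
  · intro h1 h3
    have e1 := hi1 h1
    have e3 := hi3 h3
    refine ⟨((hg (cube x)).2.1).resolve_left ?_, fun h2 =>
      ((hg (cube x - (0, 1, 0))).2.1).resolve_left ?_⟩
    · refine hps _ _ (x.2.1 - (⌊x.2.1⌋ : ℤ)) (fl_nonneg _) (fl_le _) ?_
      ext <;> simp [lerp, emb, cube, vec, -Int.self_sub_floor] <;> linarith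
    · have e2 := hi2 h2
      refine hps _ _ 1 (by norm_num) (by norm_num) ?_
      rw [lerp_one]
      ext <;> simp [emb, cube, vec] <;> linarith
  · intro h2 h3
    have e2 := hi2 h2
    have e3 := hi3 h3
    refine ⟨((hg (cube x)).2.2).resolve_left ?_, fun h1 =>
      ((hg (cube x - (1, 0, 0))).2.2).resolve_left ?_⟩
    · refine hps _ _ (x.1 - (⌊x.1⌋ : ℤ)) (fl_nonneg _) (fl_le _) ?_
      ext <;> simp [lerp, emb, cube, vec, -Int.self_sub_floor] <;> linarith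
    · have e1 := hi1 h1
      refine hps _ _ 1 (by norm_num) (by norm_num) ?_
      rw [lerp_one]
      ext <;> simp [emb, cube, vec] <;> linarith

end KN
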