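import Pool.Agent.H246K2.Stubs

/-! Task GRA: the graph of a polygon. -/

set_option autoImplicit false

namespace KN

namespace K2GRA

theorem split_iff {w l1 l2 : List Dir} {f : Dir} (h : w = l1 ++ f :: l2) :
    l1.length < w.length ∧ w.getD l1.length .xp = f ∧ w.drop (l1.length + 1) = l2 := by
  subst h
  refine ⟨by simp, ?_, ?_⟩
  · rw [List.getD_append_right _ _ _ _ le_rfl]
    simp
  · rw [List.drop_append]
    simp

theorem exists_split {w : List Dir} {i : ℕ} (hi : i < w.length) :
    w = w.take i ++ w.getD i .xp :: w.drop (i + 1) := by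
  rw [← drop_eq_getD_cons w i hi, List.take_append_drop]

/-- the points `pos (w.drop i)`, `1 ≤ i ≤ n`, are distinct -/
theorem X_inj {w : List Dir} (h : (path w).tail.Nodup) {i j : ℕ} (hi : 1 ≤ i) (hi' : i ≤ w.length)
    (hj : 1 ≤ j) (hj' : j ≤ w.length) (he : pos (w.drop i) = pos (w.drop j)) : i = j := by
  have hl : (path w).tail.length = w.length := by rw [List.length_tail, path_length]; omega
  have h1 : i - 1 < (path w).tail.length := by omega
  have h2 : j - 1 < (path w).tail.length := by omega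
  have e1 : (path w).tail[i - 1] = pos (w.drop i) := by
    rw [List.getElem_tail, path_getElem]
    congr 2
    omega
  have e2 : (path w).tail[j - 1] = pos (w.drop j) := by
    rw [List.getElem_tail, path_getElem]
    congr 2
    omega
  have h3 := (h.getElem_inj_iff (hi := h1) (hj := h2)).1 (by rw [e1, e2, he])
  omega

/-- the edges in terms of indices -/
theorem E_iff (w : List Dir) (y : Z3) (f : Dir) :
    ((∃ l1 l2, w = l1 ++ f :: l2 ∧ pos l2 = y) ∨
      ∃ l1 l2, w = l1 ++ neg f :: l2 ∧ pos l2 = y + vec f) ↔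
    ∃ i < w.length, (w.getD i .xp = f ∧ pos (w.drop (i + 1)) = y) ∨
      (w.getD i .xp = neg f ∧ pos (w.drop (i + 1)) = y + vec f) := by
  constructor
  · rintro (⟨l1, l2, h, hy⟩ | ⟨l1, l2, h, hy⟩)
    · obtain ⟨h1, h2, h3⟩ := split_iff h
      exact ⟨l1.length, h1, Or.inl ⟨h2, by rw [h3]; exact hy⟩⟩
    · obtain ⟨h1, h2, h3⟩ := split_iff h
      exact ⟨l1.length, h1, Or.inr ⟨h2, by rw [h3]; exact hy⟩⟩
  · rintro ⟨i, hi, (⟨h1, h2⟩ | ⟨h1, h2⟩)⟩
    · refine Or.inl ⟨w.take i, w.drop (i + 1), ?_, h2⟩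
      rw [← h1]
      exact exists_split hi
    · refine Or.inr ⟨w.take i, w.drop (i + 1), ?_, h2⟩
      rw [← h1]
      exact exists_split hi

end K2GRA

open K2GRA

theorem T_gra_proof : T_gra := by
  intro w hw
  obtain ⟨h4, h0, hnd⟩ := hw
  have hX : ∀ i, i < w.length →
      pos (w.drop i) = pos (w.drop (i + 1)) + vec (w.getD i .xp) := fun i hi => pos_drop w i hi
  have hX0 : pos (w.drop 0) = 0 := by simpa using h0
  have hXn : pos (w.drop w.length) = 0 := by simp [pos]
  -- the other end of an edge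
  have key : ∀ (y : Z3) (f : Dir) (i : ℕ), i < w.length → w.getD i .xp = neg f →
      pos (w.drop (i + 1)) = y + vec f → pos (w.drop i) = y := by
    intro y f i hi h1 h2
    rw [hX i hi, h1, h2, vec_neg]
    abel
  refine ⟨?_, ?_, ?_⟩
  · intro y f hE
    rw [E_iff] at hE
    obtain ⟨i, hi, (⟨h1, h2⟩ | ⟨h1, h2⟩)⟩ := hE
    · refine ⟨(mem_path_iff w y).2 ⟨i + 1, hi, h2.symm⟩, (mem_path_iff w _).2 ⟨i, hi.le, ?_⟩⟩
      rw [hX i hi, h1, h2]
    · refine ⟨(mem_path_iff w y).2 ⟨i, hi.le, (key y f i hi h1 h2).symm⟩,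
        (mem_path_iff w _).2 ⟨i + 1, hi, h2.symm⟩⟩
  · intro y f hE
    rcases hE with ⟨l1, l2, h1, h2⟩ | ⟨l1, l2, h1, h2⟩
    · refine Or.inr ⟨l1, l2, ?_, ?_⟩
      · rw [neg_neg_dir]
        exact h1
      · rw [h2, vec_neg]
        abel
    · exact Or.inl ⟨l1, l2, h1, h2⟩
  · intro y hy
    obtain ⟨j, hj1, hj2, hjy⟩ : ∃ j, 1 ≤ j ∧ j ≤ w.length ∧ pos (w.drop j) = y := by
      obtain ⟨j, hj, hjy⟩ := (mem_path_iff w y).1 hy
      rcases Nat.eq_zero_or_pos j with hj0 | hj0
      · refine ⟨w.length, by omega, le_rfl, ?_⟩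
        rw [hXn, hjy, hj0, hX0]
      · exact ⟨j, hj0, hj, hjy.symm⟩
    obtain ⟨i₀, hi₀, hi₀y, hi₀j⟩ : ∃ i₀, i₀ < w.length ∧ pos (w.drop i₀) = y ∧
        (i₀ = j ∨ (j = w.length ∧ i₀ = 0)) := by
      rcases Nat.lt_or_ge j w.length with h | h
      · exact ⟨j, h, hjy, Or.inl rfl⟩
      · have hjn : j = w.length := le_antisymm hj2 h
        refine ⟨0, by omega, ?_, Or.inr ⟨hjn, rfl⟩⟩
        rw [hX0, ← hjy, hjn, hXn]
    have hjm : pos (w.drop (j - 1)) = y + vec (w.getD (j - 1) .xp) := by
      have h := hX (j - 1) (by omega)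
      rw [h]
      have e : j - 1 + 1 = j := by omega
      rw [e, hjy]
    have hgp : pos (w.drop (i₀ + 1)) = y + vec (neg (w.getD i₀ .xp)) := by
      have h := hX i₀ hi₀
      rw [hi₀y] at h
      rw [h, vec_neg]
      abel
    refine ⟨w.getD (j - 1) .xp, neg (w.getD i₀ .xp), ?_, ?_, ?_, ?_⟩
    · intro he
      rw [← he] at hgp
      have h1 : pos (w.drop (j - 1)) = pos (w.drop (i₀ + 1)) := by rw [hjm, hgp]
      rcases hi₀j with h | ⟨h, h'⟩
      · rcases Nat.lt_or_ge 1 j with h2 | h2
        · have := X_inj hnd (by omega) (by omega) (by omega) (by omega) h1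
          omega
        · have hj : j = 1 := by omega
          have e : j - 1 = 0 := by omega
          rw [e, hX0, ← hXn] at h1
          have := X_inj hnd (by omega) le_rfl (by omega) (by omega) h1
          omega
      · have := X_inj hnd (by omega) (by omega) (by omega) (by omega) h1
        omega
    · rw [E_iff]
      refine ⟨j - 1, by omega, Or.inl ⟨rfl, ?_⟩⟩
      have e : j - 1 + 1 = j := by omega
      rw [e, hjy]
    · rw [E_iff]
      refine ⟨i₀, hi₀, Or.inr ⟨(neg_neg_dir _).symm, hgp⟩⟩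
    · intro h hE
      rw [E_iff] at hE
      obtain ⟨i, hi, (⟨h1, h2⟩ | ⟨h1, h2⟩)⟩ := hE
      · left
        have := X_inj hnd (by omega) (by omega) hj1 hj2 (h2.trans hjy.symm)
        have e : j - 1 = i := by omega
        rw [e, h1]
      · right
        have h3 := key y h i hi h1 h2
        have e : i₀ = i := by
          rcases Nat.eq_zero_or_pos i with hi0 | hi0
          · rcases hi₀j with h5 | ⟨h5, h6⟩
            · exfalso
              subst hi0
              have h7 : pos (w.drop w.length) = pos (w.drop j) := by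
                rw [hXn, hjy, ← h3, hX0]
              have := X_inj hnd (by omega) le_rfl hj1 hj2 h7
              omega
            · omega
          · have h7 := X_inj hnd hi0 hi.le hj1 hj2 (h3.trans hjy.symm)
            rcases hi₀j with h5 | ⟨h5, h6⟩
            · omega
            · omega
        rw [e, h1, neg_neg_dir]

end KN
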