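import Pool.Agent.H246K2.Stubs
import Pool.Agent.H246KN.All

/-! C1: a hairpin on the edge `zp` in direction `xp` (helper228). -/

set_option autoImplicit false

namespace KN

namespace K2HAIR

theorem pos_repl (T : ℕ) (l : List Dir) :
    pos (List.replicate T .xp ++ l) = pos l + ((T : ℤ), 0, 0) := by
  induction T with
  | zero =>
    rw [List.replicate_zero, List.nil_append]
    have : ((((0 : ℕ) : ℤ), (0 : ℤ), (0 : ℤ)) : Z3) = 0 := rfl
    rw [this, add_zero]
  | succ T ih =>
    rw [List.replicate_succ, List.cons_append, pos, ih, add_assoc]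
    congr 1

theorem pos_hairR (T : ℕ) (l : List Dir) : pos (hairR T l) = pos l + ((T : ℤ), 0, 0) :=
  pos_repl T l

theorem mem_path_new (A B : List Dir) (p : Z3) (h : p ∈ path (A ++ .xm :: .zp :: .xp :: B)) :
    p ∈ path (A ++ .zp :: B) ∨ p = pos B + vec .xp + vec .zp ∨ p = pos B + vec .xp := by
  have e : pos (Dir.xm :: Dir.zp :: Dir.xp :: B) = pos (Dir.zp :: B) := by
    simp only [pos]
    have : vec Dir.xm = - vec Dir.xp := by decide
    rw [this]
    abel
  rw [path_append, e] at h
  rw [path_append]
  rcases List.mem_append.1 h with h | h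
  · exact Or.inl (List.mem_append_left _ h)
  · have h' : p = pos (Dir.xm :: Dir.zp :: Dir.xp :: B) ∨ p = pos B + vec .xp + vec .zp ∨
        p = pos B + vec .xp ∨ p ∈ path B := by
      simpa [path, pos] using h
    rcases h' with h' | h' | h' | h'
    · left
      apply List.mem_append_right
      rw [h', e]
      exact pos_mem_path _
    · exact Or.inr (Or.inl h')
    · exact Or.inr (Or.inr h')
    · left
      apply List.mem_append_right
      exact List.mem_cons_of_mem _ h'

theorem hair_succ (T : ℕ) (l1 l2 : List Dir) :
    hairL (T + 1) l1 ++ .zp :: hairR (T + 1) l2 =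
      hairL T l1 ++ .xm :: .zp :: .xp :: hairR T l2 := by
  unfold hairL hairR
  rw [List.replicate_succ', List.replicate_succ]
  simp

theorem ins_eq (A B : List Dir) :
    ins (A ++ .zp :: B) A.length .xp = A ++ .xm :: .zp :: .xp :: B := by
  unfold ins
  rw [List.take_left' rfl]
  have h1 : (A ++ Dir.zp :: B).getD A.length .xp = .zp := by
    rw [List.getD_eq_getElem?_getD, List.getElem?_append_right le_rfl]
    simp
  have h2 : (A ++ Dir.zp :: B).drop (A.length + 1) = B := by
    rw [← List.drop_drop, List.drop_left' rfl]
    rfl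
  rw [h1, h2]
  simp [neg]

end K2HAIR

open K2HAIR

theorem T_hair_proof : T_hair := by
  intro T l1 l2 hs
  induction T with
  | zero =>
    intro _
    have e1 : hairL 0 l1 = l1 := by simp [hairL]
    have e2 : hairR 0 l2 = l2 := by simp [hairR]
    rw [e1, e2]
    exact ⟨hs, Same.refl _, fun p hp => Or.inl hp⟩
  | succ T ih =>
    intro hroom
    obtain ⟨h1, h2, h3⟩ := ih (fun j hj hj' => hroom j hj (by omega))
    set A := hairL T l1 with hA
    set B := hairR T l2 with hB
    have hposB : pos B = pos l2 + ((T : ℤ), 0, 0) := pos_hairR T l2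
    have hv1 : pos B + vec .xp = pos l2 + (((T + 1 : ℕ) : ℤ), 0, 0) := by
      rw [hposB, add_assoc]
      congr 1
    have hv2 : pos B + vec .xp + vec .zp = pos l2 + (((T + 1 : ℕ) : ℤ), 0, 1) := by
      rw [hv1, add_assoc]
      congr 1
    have hgetD : (A ++ Dir.zp :: B).getD A.length .xp = .zp := by
      rw [List.getD_eq_getElem?_getD, List.getElem?_append_right le_rfl]
      simp
    have hdrop : (A ++ Dir.zp :: B).drop (A.length + 1) = B := by
      rw [← List.drop_drop, List.drop_left' rfl]
      rfl
    have hnew : ∀ q : Z3, (q = pos l2 + (((T + 1 : ℕ) : ℤ), 0, 0) ∨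
        q = pos l2 + (((T + 1 : ℕ) : ℤ), 0, 1)) → q ∉ path (A ++ .zp :: B) := by
      intro q hq hmem
      rcases h3 q hmem with h4 | ⟨j, hj, hj', h4⟩
      · have := hroom (T + 1) (by omega) le_rfl
        rcases hq with rfl | rfl
        · exact this.1 h4
        · exact this.2 h4
      · rcases hq with rfl | rfl
        · rcases h4 with h4 | h4
          · have := congrArg Prod.fst (add_left_cancel h4)
            simp only at this
            omega
          · have := congrArg (fun x : Z3 => x.2.2) (add_left_cancel h4)
            simp at this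
        · rcases h4 with h4 | h4
          · have := congrArg (fun x : Z3 => x.2.2) (add_left_cancel h4)
            simp at this
          · have := congrArg Prod.fst (add_left_cancel h4)
            simp only at this
            omega
    have hsite : site (A ++ .zp :: B) A.length .xp := by
      refine ⟨by simp, ?_, ?_, ?_⟩
      · rw [hgetD]; decide
      · rw [hdrop]
        exact hnew _ (Or.inl hv1)
      · rw [hdrop, hgetD]
        exact hnew _ (Or.inr hv2)
    have hins := S_ins_proof (A ++ .zp :: B) A.length .xp h1 hsite
    have hloc := c_local (A ++ .zp :: B) A.length .xp h1 hsite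
    rw [ins_eq] at hins hloc
    rw [hair_succ]
    refine ⟨hins.1, h2.trans hloc, ?_⟩
    intro p hp
    rcases mem_path_new A B p hp with h4 | h4 | h4
    · rcases h3 p h4 with h5 | ⟨j, hj, hj', h5⟩
      · exact Or.inl h5
      · exact Or.inr ⟨j, hj, by omega, h5⟩
    · exact Or.inr ⟨T + 1, by omega, le_rfl, Or.inr (by rw [h4, hv2])⟩
    · exact Or.inr ⟨T + 1, by omega, le_rfl, Or.inl (by rw [h4, hv1])⟩

end KN
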