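import Pool.Agent.H246K2.Stubs
import Pool.Agent.H246KN.HG

set_option autoImplicit false

namespace KN

open Finset Filter Topology
open scoped Classical

theorem T_hgo_proof : T_hgo := by
  intro L lv β hlv hd he
  obtain ⟨hs, hhead, hlast, hbox⟩ := hlv
  obtain ⟨m, rfl⟩ : ∃ m, lv = (1, 0, 1) :: m := by
    cases lv with
    | nil => simp at hhead
    | cons q m => simp at hhead; exact ⟨m, by rw [hhead]⟩
  have hm : m ≠ [] := by
    rintro rfl
    simp at hlast
  obtain ⟨m', rfl⟩ : ∃ m', m = m' ++ [(1, 0, 0)] := by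
    refine ⟨m.dropLast, ?_⟩
    rw [List.getLast?_cons, List.getLast?_eq_some_getLast hm] at hlast
    simp only [Option.getD_some, Option.some.injEq] at hlast
    rw [← hlast]
    exact (List.dropLast_append_getLast hm).symm
  have e0 : oe (((1, 0, 1) : V) :: (m' ++ [((1, 0, 0) : V)])) =
      chain (1, 0, 1) (m' ++ [(1, 0, 0)]) := rfl
  rw [e0] at hbox
  have e1 : edges (((1, 0, 1) : V) :: (m' ++ [((1, 0, 0) : V)])) =
      chain (1, 0, 1) (m' ++ [(1, 0, 0)]) ++ [((1, 0, 0), (1, 0, 1))] := by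
    have h := chain_append (1, 0, 1) (1, 0, 0) m' [(1, 0, 1)]
    simp only [chain] at h
    simp only [edges, List.append_assoc, List.cons_append, List.nil_append]
    exact h
  have e2 : edges ((((1, 0, 1) : V) :: (m' ++ [((1, 0, 0) : V)])) ++ β) =
      chain (1, 0, 1) (m' ++ [(1, 0, 0)]) ++ chain (1, 0, 0) (β ++ [(1, 0, 1)]) := by
    have h := chain_append (1, 0, 1) (1, 0, 0) m' (β ++ [(1, 0, 1)])
    simp only [edges, List.append_assoc, List.cons_append, List.nil_append]
    exact h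
  obtain ⟨hne, hp, hnd⟩ := hs
  rw [e1, List.pairwise_append] at hp
  rw [e1] at hnd
  refine ⟨by simp, ?_, ?_⟩
  · rw [e2, List.pairwise_append]
    refine ⟨hp.1, hd, ?_⟩
    intro e hea e' hea' u v hu0 hu1 hv0 hv1 heq
    rcases (he e' hea').2 v hv0 hv1 with h4 | ⟨h4, h5, h6, h7⟩
    · apply hbox e hea u hu0 hu1
      rw [heq]
      exact h4
    · have h8 := hp.2.2 e hea ((1, 0, 0), (1, 0, 1)) (by simp) u (lerp e'.1 e'.2 v).2.2 hu0 hu1 h6 h7
      apply h8
      rw [heq]
      have h9 : lerp ((1, 0, 0) : V) (1, 0, 1) (lerp e'.1 e'.2 v).2.2 =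
          (1, 0, (lerp e'.1 e'.2 v).2.2) := by
        simp [lerp]
      rw [h9]
      exact Prod.ext h4 (Prod.ext h5 rfl)
  · rw [e2]
    intro e hea
    rw [List.mem_append] at hea
    rcases hea with hea | hea
    · exact hnd e (List.mem_append_left _ hea)
    · exact (he e hea).1

end KN
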