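import Pool.Agent.H246K2.Stubs

/-!
# Project K2, task ISO: motions of polygons
-/

set_option autoImplicit false

namespace KN

open Finset Filter Topology

/-- G5: motions of polygons, from G4. -/
theorem T_iso_proof (h1 : T_near) : T_iso := by
  intro k γ hc hs
  rcases k with _ | n
  · exact absurd (List.ofFn_zero) (hs 0 le_rfl zero_le_one).1
  · let f : Set.Icc (0 : ℝ) 1 → Prop := fun t =>
      ∃ h : V ≃ₜ V, h '' ps (List.ofFn (γ 0)) = ps (List.ofFn (γ t))
    have hf : IsLocallyConstant f := by
      rw [IsLocallyConstant.iff_eventually_eq]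
      intro t
      obtain ⟨ε, hε, hn⟩ := h1 n (γ t) (hs t t.2.1 t.2.2)
      have hev : ∀ᶠ s : Set.Icc (0 : ℝ) 1 in 𝓝 t, ∀ i, ‖γ s i - γ t i‖ < ε := by
        rw [eventually_all]
        intro i
        have hcont : Continuous (fun s : Set.Icc (0 : ℝ) 1 => ‖γ s i - γ t i‖) :=
          (((hc i).comp continuous_subtype_val).sub continuous_const).norm
        have h0 : ‖γ t i - γ t i‖ < ε := by simpa using hε
        exact hcont.continuousAt.eventually (gt_mem_nhds h0)
      filter_upwards [hev] with s hs'
      obtain ⟨h, hh⟩ := hn (γ s) (fun i => (hs' i).le)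
      refine propext ⟨?_, ?_⟩
      · rintro ⟨k, hk⟩
        refine ⟨k.trans h.symm, ?_⟩
        have e1 : (k.trans h.symm) '' ps (List.ofFn (γ 0)) =
            h.symm '' (k '' ps (List.ofFn (γ 0))) := by
          rw [Set.image_image]
          rfl
        rw [e1, hk, ← hh, Set.image_image]
        simp
      · rintro ⟨k, hk⟩
        refine ⟨k.trans h, ?_⟩
        have e1 : (k.trans h) '' ps (List.ofFn (γ 0)) =
            h '' (k '' ps (List.ofFn (γ 0))) := by
          rw [Set.image_image]
          rfl
        rw [e1, hk, hh]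
    have hf0 : f ⟨0, by simp⟩ := ⟨Homeomorph.refl V, by simp⟩
    have hf1 : f ⟨1, by simp⟩ := by
      rw [hf.apply_eq_of_preconnectedSpace ⟨1, by simp⟩ ⟨0, by simp⟩]
      exact hf0
    exact hf1

end KN
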