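import Pool.Agent.H246K2.Stubs

set_option autoImplicit false

namespace KN.K2JLOOPS

open Finset Filter Topology
open scoped Classical

theorem g2_jg (y : Z3) (m : List Dir) (p : Z3) (hp : 1 ≤ p.1) :
    (jgauge y m).g2 (y + p) = tgauge.g2 (p - (1, 0, 0)) := by
  have h1 : ¬ ((y + p).1 ≤ y.1) := by
    rw [Prod.fst_add]
    omega
  have h2 : y + p - y - (1, 0, 0) = p - (1, 0, 0) := by rw [add_sub_cancel_left]
  change (if (y + p).1 ≤ y.1 then _ else tgauge.g2 (y + p - y - (1, 0, 0))) = _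
  rw [if_neg h1, h2]

theorem g3_jg (y : Z3) (m : List Dir) (p : Z3) (hp : 1 ≤ p.1) :
    (jgauge y m).g3 (y + p) = tgauge.g3 (p - (1, 0, 0)) := by
  have h1 : ¬ ((y + p).1 ≤ y.1) := by
    rw [Prod.fst_add]
    omega
  have h2 : y + p - y - (1, 0, 0) = p - (1, 0, 0) := by rw [add_sub_cancel_left]
  change (if (y + p).1 ≤ y.1 then _ else tgauge.g3 (y + p - y - (1, 0, 0))) = _
  rw [if_neg h1, h2]

theorem gst_jg (y : Z3) (m : List Dir) (p : Z3) (hp : 1 ≤ p.1) (d : Dir) :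
    gst (jgauge y m) (y + p) d = gst tgauge (p - (1, 0, 0)) d := by
  cases d
  · rfl
  · rfl
  · exact g2_jg y m p hp
  · change ((jgauge y m).g2 (y + p - (0, 1, 0)))⁻¹ = (tgauge.g2 (p - (1, 0, 0) - (0, 1, 0)))⁻¹
    rw [add_sub_assoc, g2_jg y m _ (by simpa using hp), sub_right_comm]
  · exact g3_jg y m p hp
  · change ((jgauge y m).g3 (y + p - (0, 0, 1)))⁻¹ = (tgauge.g3 (p - (1, 0, 0) - (0, 0, 1)))⁻¹
    rw [add_sub_assoc, g3_jg y m _ (by simpa using hp), sub_right_comm]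

theorem hol_jg (y : Z3) (m : List Dir) (p : Z3) (w : List Dir)
    (h : ∀ l ∈ w.tails, 1 ≤ (p + pos l).1) :
    hol (jgauge y m) (y + p) w = hol tgauge (p - (1, 0, 0)) w := by
  induction w with
  | nil => rfl
  | cons d w ih =>
    have h2 : 1 ≤ (p + pos w).1 := h w (by simp)
    rw [hol, hol, ih fun l hl => h l (by simp at hl ⊢; exact Or.inr hl), add_assoc, gst_jg y m _ h2,
      sub_add_eq_add_sub]

end KN.K2JLOOPS

namespace KN

open scoped Classical

theorem T_jloops_proof : T_jloops := by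
  intro y m c A B
  refine ⟨by decide, by decide, ?_⟩
  have hA : hol (jgauge y m) c A = hol tgauge ((1, -1, -1) - (1, 0, 0)) A :=
    K2JLOOPS.hol_jg y m (1, -1, -1) A (by decide)
  have hB : hol (jgauge y m) c B = hol tgauge ((1, -1, -1) - (1, 0, 0)) B :=
    K2JLOOPS.hol_jg y m (1, -1, -1) B (by decide)
  rw [hA, hB]
  simp [A, B, hol, gst, tgauge, pos, vec, tel, tcov, trow]
  decide

end KN
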