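import Pool.Agent.H246K2.Stubs

/-! LIFT: transport along a curve. -/

set_option autoImplicit false

open Topology Filter

namespace KN

namespace K2LIFT

/-- a uniform neighbourhood on which `T` is flat along the curve -/
theorem unif {G : Type} [Group G] (X : Set V) (T : V → V → G) (hF : Flat X T)
    (σ : ℝ → V) (hσ : Continuous σ) (hX : ∀ t : ℝ, 0 ≤ t → t ≤ 1 → σ t ∈ X) :
    ∃ δ : ℝ, 0 < δ ∧ ∀ t : ℝ, 0 ≤ t → t ≤ 1 → ∀ a b c : ℝ, |a - t| < δ → |b - t| < δ →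
      |c - t| < δ → T (σ a) (σ b) * T (σ b) (σ c) = T (σ a) (σ c) := by
  choose! N hN hT using hF
  obtain ⟨δ, hδ, h⟩ := lebesgue_number_lemma_of_metric
    (isCompact_Icc : IsCompact (Set.Icc (0 : ℝ) 1))
    (c := fun t : Set.Icc (0 : ℝ) 1 => σ ⁻¹' interior (N (σ t)))
    (fun t => isOpen_interior.preimage hσ)
    (fun t ht => Set.mem_iUnion.2 ⟨⟨t, ht⟩, mem_interior_iff_mem_nhds.2 (hN _ (hX t ht.1 ht.2))⟩)
  refine ⟨δ, hδ, fun t h0 h1 a b c ha hb hc => ?_⟩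
  obtain ⟨i, hi⟩ := h t ⟨h0, h1⟩
  have hm : ∀ x : ℝ, |x - t| < δ → σ x ∈ N (σ i) := fun x hx =>
    interior_subset (hi (show x ∈ Metric.ball t δ from by rwa [Metric.mem_ball, Real.dist_eq]))
  exact hT _ (hX i i.2.1 i.2.2) _ (hm a ha) _ (hm b hb) _ (hm c hc)

/-- existence of the transport on `[0,c]` -/
def Ex {G : Type} [Group G] (T : V → V → G) (σ : ℝ → V) (δ c : ℝ) : Prop :=
  ∃ u : ℝ → G, u 0 = 1 ∧ ∀ t s : ℝ, 0 ≤ t → t ≤ c → 0 ≤ s → s ≤ c → |s - t| < δ →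
    u s = u t * T (σ t) (σ s)

theorem step {G : Type} [Group G] (T : V → V → G) (σ : ℝ → V) (δ c c' : ℝ) (hc0 : 0 ≤ c) (hc1 : c ≤ 1)
    (hcc : c ≤ c') (hc' : c' - c < δ)
    (hL : ∀ t : ℝ, 0 ≤ t → t ≤ 1 → ∀ a b c : ℝ, |a - t| < δ → |b - t| < δ →
      |c - t| < δ → T (σ a) (σ b) * T (σ b) (σ c) = T (σ a) (σ c))
    (h : Ex T σ δ c) : Ex T σ δ c' := by
  obtain ⟨u, hu0, hu⟩ := h
  have hδ : 0 < δ := by linarith
  have hcc0 : |c - c| < δ := by simpa using hδ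
  refine ⟨fun s => if s ≤ c then u s else u c * T (σ c) (σ s), by simp [hc0, hu0], ?_⟩
  intro t s ht0 htc hs0 hsc hst
  rw [abs_lt] at hst
  rcases le_or_gt t c with h1 | h1 <;> rcases le_or_gt s c with h2 | h2
  · simp only [if_pos h1, if_pos h2]
    exact hu t s ht0 h1 hs0 h2 (abs_lt.2 hst)
  · simp only [if_pos h1, if_neg (not_le.2 h2)]
    rw [hu t c ht0 h1 hc0 le_rfl (abs_lt.2 ⟨by linarith, by linarith⟩), mul_assoc,
      hL c hc0 hc1 t c s (abs_lt.2 ⟨by linarith, by linarith⟩) hcc0 (abs_lt.2 ⟨by linarith, by linarith⟩)]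
  · simp only [if_neg (not_le.2 h1), if_pos h2]
    rw [hu c s hc0 le_rfl hs0 h2 (abs_lt.2 ⟨by linarith, by linarith⟩), mul_assoc,
      hL c hc0 hc1 c t s hcc0 (abs_lt.2 ⟨by linarith, by linarith⟩) (abs_lt.2 ⟨by linarith, by linarith⟩)]
  · simp only [if_neg (not_le.2 h1), if_neg (not_le.2 h2)]
    rw [mul_assoc,
      hL c hc0 hc1 c t s hcc0 (abs_lt.2 ⟨by linarith, by linarith⟩) (abs_lt.2 ⟨by linarith, by linarith⟩)]

end K2LIFT

open K2LIFT in
theorem T_lift_proof : T_lift := by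
  intro G _ X T hF σ hσ hX
  obtain ⟨δ, hδ, hL⟩ := unif X T hF σ hσ hX
  obtain ⟨n, hn⟩ := exists_nat_gt (1 / δ)
  have hn0 : (0 : ℝ) < n := lt_trans (by positivity) hn
  have hnδ : 1 / (n : ℝ) < δ := by
    rw [div_lt_iff₀ hδ] at hn
    rw [div_lt_iff₀ hn0]
    linarith
  have key : ∀ k : ℕ, k ≤ n → Ex T σ δ ((k : ℝ) / n) := by
    intro k
    induction k with
    | zero =>
      intro _
      refine ⟨fun _ => 1, rfl, fun t s ht0 htc hs0 hsc _ => ?_⟩
      simp only [Nat.cast_zero, zero_div] at htc hsc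
      have ht : t = 0 := le_antisymm htc ht0
      have hs : s = 0 := le_antisymm hsc hs0
      subst ht hs
      have := hL 0 le_rfl zero_le_one 0 0 0 (by simpa using hδ) (by simpa using hδ) (by simpa using hδ)
      have h1 : T (σ 0) (σ 0) = 1 := by simpa using this
      rw [h1, one_mul]
    | succ k ih =>
      intro hk
      have hkn : (k : ℝ) + 1 ≤ n := by exact_mod_cast hk
      refine step T σ δ ((k : ℝ) / n) _ (by positivity) ?_ ?_ ?_ hL (ih (by omega))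
      · rw [div_le_one hn0]
        linarith
      · push_cast
        gcongr
        linarith
      · push_cast
        rw [← sub_div, add_sub_cancel_left]
        exact hnδ
  obtain ⟨u, hu0, hu⟩ := key n le_rfl
  rw [div_self hn0.ne'] at hu
  refine ⟨u, hu0, fun t ht0 ht1 => ?_⟩
  filter_upwards [Metric.ball_mem_nhds t hδ] with s hs h0 h1
  rw [Metric.mem_ball, Real.dist_eq] at hs
  exact hu t s ht0 ht1 h0 h1 hs

end KN
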