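import Pool.Agent.H246K2.Stubs
import Pool.Agent.H246KN.CONE

/-!
# G3: the displacement of a polygon is Lipschitz
-/

set_option autoImplicit false

namespace KN

open Finset Filter Topology
open scoped Classical

namespace K2LIP

variable {n : ℕ}

/-- the estimate for a pair of edges -/
def PP (g : Fin (n + 1) → V) (i j : Fin (n + 1)) (C : ℝ) : Prop :=
  ∀ (d : Fin (n + 1) → V) (ε : ℝ), (∀ i, ‖d i‖ ≤ ε) → ∀ u v : ℝ, 0 ≤ u → u ≤ 1 → 0 ≤ v → v ≤ 1 →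
    ‖lerp (d i) (d (i + 1)) u - lerp (d j) (d (j + 1)) v‖ ≤
      C * ε * ‖lerp (g i) (g (i + 1)) u - lerp (g j) (g (j + 1)) v‖

theorem PP.symm {g : Fin (n + 1) → V} {i j : Fin (n + 1)} {C : ℝ} (h : PP g i j C) :
    PP g j i C := by
  intro d ε hd u v hu0 hu1 hv0 hv1
  have := h d ε hd v u hv0 hv1 hu0 hu1
  rw [norm_sub_rev, norm_sub_rev (lerp (g j) (g (j + 1)) u)]
  exact this

theorem lerp_bound {p q : V} {ε u : ℝ} (hp : ‖p‖ ≤ ε) (hq : ‖q‖ ≤ ε) (h0 : 0 ≤ u) (h1 : u ≤ 1) :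
    ‖lerp p q u‖ ≤ ε := by
  unfold lerp
  calc ‖(1 - u) • p + u • q‖ ≤ ‖(1 - u) • p‖ + ‖u • q‖ := norm_add_le _ _
    _ = (1 - u) * ‖p‖ + u * ‖q‖ := by
        rw [norm_smul, norm_smul, Real.norm_of_nonneg h0, Real.norm_of_nonneg (by linarith)]
    _ ≤ (1 - u) * ε + u * ε := by
        apply add_le_add
        · exact mul_le_mul_of_nonneg_left hp (by linarith)
        · exact mul_le_mul_of_nonneg_left hq h0
    _ = ε := by ring

theorem same (g : Fin (n + 1) → V) (i : Fin (n + 1)) (h : g i ≠ g (i + 1)) :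
    ∃ C : ℝ, 0 < C ∧ PP g i i C := by
  have hm : 0 < ‖g (i + 1) - g i‖ := norm_pos_iff.2 (sub_ne_zero.2 h.symm)
  refine ⟨2 / ‖g (i + 1) - g i‖, by positivity, ?_⟩
  intro d ε hd u v _ _ _ _
  have e : ∀ p q : V, lerp p q u - lerp p q v = (u - v) • (q - p) := by
    intro p q
    unfold lerp
    module
  rw [e, e, norm_smul, norm_smul]
  have h1 : ‖d (i + 1) - d i‖ ≤ 2 * ε := by
    calc ‖d (i + 1) - d i‖ ≤ ‖d (i + 1)‖ + ‖d i‖ := norm_sub_le _ _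
      _ ≤ 2 * ε := by linarith [hd (i + 1), hd i]
  calc ‖u - v‖ * ‖d (i + 1) - d i‖ ≤ ‖u - v‖ * (2 * ε) :=
        mul_le_mul_of_nonneg_left h1 (norm_nonneg _)
    _ = 2 / ‖g (i + 1) - g i‖ * ε * (‖u - v‖ * ‖g (i + 1) - g i‖) := by
        field_simp

theorem next (hs : T_seg2) (g : Fin (n + 1) → V) (i : Fin (n + 1)) (h1 : g i ≠ g (i + 1))
    (h2 : g (i + 1) ≠ g (i + 1 + 1))
    (hd : Disj (g i, g (i + 1)) (g (i + 1), g (i + 1 + 1))) :
    ∃ C : ℝ, 0 < C ∧ PP g i (i + 1) C := by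
  have hrev : ∀ (p q : V) (u : ℝ), lerp p q u = lerp q p (1 - u) := by
    intro p q u
    unfold lerp
    module
  obtain ⟨c, hc, H⟩ := hs (g (i + 1)) (g i) (g (i + 1 + 1)) h1.symm h2 (by
    intro u v hu0 hu1 hv0 hv1
    rw [hrev]
    exact hd (1 - u) v (by linarith) (by linarith) hv0.le hv1)
  refine ⟨2 / c, by positivity, ?_⟩
  intro d ε hdε u v hu0 hu1 hv0 hv1
  have h3 := H (1 - u) v (by linarith) hv0
  rw [← hrev] at h3
  have hε : 0 ≤ ε := (norm_nonneg _).trans (hdε i)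
  have e : lerp (d i) (d (i + 1)) u - lerp (d (i + 1)) (d (i + 1 + 1)) v =
      (1 - u) • (d i - d (i + 1)) + v • (d (i + 1) - d (i + 1 + 1)) := by
    unfold lerp
    module
  have h4 : ‖d i - d (i + 1)‖ ≤ 2 * ε := by
    calc _ ≤ ‖d i‖ + ‖d (i + 1)‖ := norm_sub_le _ _
      _ ≤ 2 * ε := by linarith [hdε (i + 1), hdε i]
  have h5 : ‖d (i + 1) - d (i + 1 + 1)‖ ≤ 2 * ε := by
    calc _ ≤ ‖d (i + 1)‖ + ‖d (i + 1 + 1)‖ := norm_sub_le _ _
      _ ≤ 2 * ε := by linarith [hdε (i + 1), hdε (i + 1 + 1)]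
  rw [e]
  calc ‖(1 - u) • (d i - d (i + 1)) + v • (d (i + 1) - d (i + 1 + 1))‖
      ≤ ‖(1 - u) • (d i - d (i + 1))‖ + ‖v • (d (i + 1) - d (i + 1 + 1))‖ := norm_add_le _ _
    _ = (1 - u) * ‖d i - d (i + 1)‖ + v * ‖d (i + 1) - d (i + 1 + 1)‖ := by
        rw [norm_smul, norm_smul, Real.norm_of_nonneg hv0, Real.norm_of_nonneg (by linarith)]
    _ ≤ (1 - u) * (2 * ε) + v * (2 * ε) :=
        add_le_add (mul_le_mul_of_nonneg_left h4 (by linarith)) (mul_le_mul_of_nonneg_left h5 hv0)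
    _ = 2 / c * ε * (c * (1 - u + v)) := by field_simp
    _ ≤ _ := mul_le_mul_of_nonneg_left h3 (by positivity)

theorem far (g : Fin (n + 1) → V) (i j : Fin (n + 1))
    (h : ∀ u v : ℝ, 0 ≤ u → u ≤ 1 → 0 ≤ v → v ≤ 1 →
      lerp (g i) (g (i + 1)) u ≠ lerp (g j) (g (j + 1)) v) :
    ∃ C : ℝ, 0 < C ∧ PP g i j C := by
  have hK : IsCompact (Set.Icc (0 : ℝ) 1 ×ˢ Set.Icc (0 : ℝ) 1) := isCompact_Icc.prod isCompact_Icc
  have hne : (Set.Icc (0 : ℝ) 1 ×ˢ Set.Icc (0 : ℝ) 1).Nonempty :=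
    ⟨(0, 0), ⟨le_rfl, zero_le_one⟩, ⟨le_rfl, zero_le_one⟩⟩
  have hc : Continuous (fun z : ℝ × ℝ => ‖lerp (g i) (g (i + 1)) z.1 - lerp (g j) (g (j + 1)) z.2‖) := by
    unfold lerp
    fun_prop
  obtain ⟨z, hz, hmin⟩ := hK.exists_isMinOn hne hc.continuousOn
  set m := ‖lerp (g i) (g (i + 1)) z.1 - lerp (g j) (g (j + 1)) z.2‖ with hm
  have hm0 : 0 < m := norm_pos_iff.2 (sub_ne_zero.2 (h _ _ hz.1.1 hz.1.2 hz.2.1 hz.2.2))
  refine ⟨2 / m, by positivity, ?_⟩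
  intro d ε hd u v hu0 hu1 hv0 hv1
  have hε : 0 ≤ ε := (norm_nonneg _).trans (hd i)
  have h1 : m ≤ ‖lerp (g i) (g (i + 1)) u - lerp (g j) (g (j + 1)) v‖ :=
    hmin (show ((u, v) : ℝ × ℝ) ∈ _ from ⟨⟨hu0, hu1⟩, ⟨hv0, hv1⟩⟩)
  calc ‖lerp (d i) (d (i + 1)) u - lerp (d j) (d (j + 1)) v‖
      ≤ ‖lerp (d i) (d (i + 1)) u‖ + ‖lerp (d j) (d (j + 1)) v‖ := norm_sub_le _ _
    _ ≤ ε + ε := add_le_add (lerp_bound (hd _) (hd _) hu0 hu1) (lerp_bound (hd _) (hd _) hv0 hv1)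
    _ = 2 / m * ε * m := by field_simp; ring
    _ ≤ _ := mul_le_mul_of_nonneg_left h1 (by positivity)

theorem pair (hs : T_seg2) (g : Fin (n + 1) → V) (hg : Simple (List.ofFn g)) (i j : Fin (n + 1)) :
    ∃ C : ℝ, 0 < C ∧ PP g i j C := by
  obtain ⟨hD, hN⟩ := CONE.facts n g hg
  have hsucc : ∀ i : Fin (n + 1), i ≠ i + 1 := by
    intro i h
    apply hN i
    rw [← h]
  by_cases hij : i = j
  · subst hij
    exact same g i (hN i)
  by_cases h1 : j = i + 1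
  · subst h1
    exact next hs g i (hN i) (hN (i + 1)) (hD i (i + 1) (hsucc i))
  by_cases h2 : i = j + 1
  · subst h2
    obtain ⟨C, hC, h⟩ := next hs g j (hN j) (hN (j + 1)) (hD j (j + 1) (hsucc j))
    exact ⟨C, hC, h.symm⟩
  apply far
  intro u v hu0 hu1 hv0 hv1
  rcases hu1.eq_or_lt with hu | hu
  · have e1 : lerp (g i) (g (i + 1)) u = lerp (g (i + 1)) (g (i + 1 + 1)) 0 := by
      rw [hu, lerp_one, lerp_zero]
    rcases hv1.eq_or_lt with hv | hv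
    · have e2 : lerp (g j) (g (j + 1)) v = lerp (g (j + 1)) (g (j + 1 + 1)) 0 := by
        rw [hv, lerp_one, lerp_zero]
      rw [e1, e2]
      exact hD (i + 1) (j + 1) (fun h => hij (add_right_cancel h)) 0 0 le_rfl one_pos le_rfl one_pos
    · rw [e1]
      exact hD (i + 1) j (fun h => h1 h.symm) 0 v le_rfl one_pos hv0 hv
  · rcases hv1.eq_or_lt with hv | hv
    · have e2 : lerp (g j) (g (j + 1)) v = lerp (g (j + 1)) (g (j + 1 + 1)) 0 := by
        rw [hv, lerp_one, lerp_zero]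
      rw [e2]
      exact hD i (j + 1) h2 u 0 hu0 hu le_rfl one_pos
    · exact hD i j hij u v hu0 hu hv0 hv

end K2LIP

open K2LIP in
theorem T_lip_proof (hs : T_seg2) : T_lip := by
  intro n g hg
  choose C hC hP using pair hs g hg
  refine ⟨∑ i, ∑ j, C i j, ?_, ?_⟩
  · apply Finset.sum_pos
    · intro i _
      exact Finset.sum_pos (fun j _ => hC i j) ⟨0, Finset.mem_univ _⟩
    · exact ⟨0, Finset.mem_univ _⟩
  · intro g' ε hε i j u v hu0 hu1 hv0 hv1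
    have e : ∀ (i : Fin (n + 1)) (u : ℝ), lerp (g' i) (g' (i + 1)) u - lerp (g i) (g (i + 1)) u =
        lerp ((fun i => g' i - g i) i) ((fun i => g' i - g i) (i + 1)) u := by
      intro i u
      unfold lerp
      simp only
      module
    rw [e, e]
    have h1 := hP i j (fun i => g' i - g i) ε hε u v hu0 hu1 hv0 hv1
    refine h1.trans ?_
    have hε0 : 0 ≤ ε := (norm_nonneg _).trans (hε i)
    have h2 : C i j ≤ ∑ i, ∑ j, C i j := by
      calc C i j ≤ ∑ j, C i j :=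
            Finset.single_le_sum (fun j _ => (hC i j).le) (Finset.mem_univ j)
        _ ≤ _ := Finset.single_le_sum (f := fun i => ∑ j, C i j)
            (fun i _ => Finset.sum_nonneg (fun j _ => (hC i j).le)) (Finset.mem_univ i)
    apply mul_le_mul_of_nonneg_right _ (norm_nonneg _)
    exact mul_le_mul_of_nonneg_right h2 hε0

end KN
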