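import Pool.Agent.H246K2.Stubs

/-!
# K2, task LUNIQ (`T_luniq`) (helper51)
-/

set_option autoImplicit false

namespace KN

open Finset Filter Topology
open scoped Classical

theorem T_luniq_proof : T_luniq := by
  intro G _ X T hF σ hσ hX u u' h0 hu hu'
  have key : IsLocallyConstant (fun t : Set.Icc (0 : ℝ) 1 => (u t.1 = u' t.1 : Prop)) := by
    rw [IsLocallyConstant.iff_eventually_eq]
    intro t
    have h1 : ∀ᶠ s : Set.Icc (0 : ℝ) 1 in 𝓝 t, 0 ≤ s.1 → s.1 ≤ 1 →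
        u s.1 = u t.1 * T (σ t.1) (σ s.1) :=
      (continuous_subtype_val.tendsto t).eventually (hu t.1 t.2.1 t.2.2)
    have h2 : ∀ᶠ s : Set.Icc (0 : ℝ) 1 in 𝓝 t, 0 ≤ s.1 → s.1 ≤ 1 →
        u' s.1 = u' t.1 * T (σ t.1) (σ s.1) :=
      (continuous_subtype_val.tendsto t).eventually (hu' t.1 t.2.1 t.2.2)
    filter_upwards [h1, h2] with s e1 e2
    have e1 := e1 s.2.1 s.2.2
    have e2 := e2 s.2.1 s.2.2
    rw [e1, e2]
    simp only [mul_left_inj]
  have h3 := key.apply_eq_of_preconnectedSpace (⟨0, by simp⟩ : Set.Icc (0 : ℝ) 1)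
    (⟨1, by simp⟩ : Set.Icc (0 : ℝ) 1)
  simp only [h0, true_iff, eq_iff_iff] at h3
  exact h3

end KN
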