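import Pool.Agent.H246K2.Stubs
import Pool.Agent.H246KN.LOC
import Pool.Agent.H246KN.MOT
import Pool.Agent.H246KN.SIM

/-! Task LVO (helper311). -/

set_option autoImplicit false

namespace KN

open Finset Filter Topology
open scoped Classical

namespace K2LVO

theorem box1 (a b n : ℤ) (r : ℝ) (hr0 : 0 ≤ r) (hr1 : r < 1) (h1 : (a:ℝ) < n + r)
    (h2 : (n:ℝ) + r < b) (hab : a + 2 ≤ b) : (a < n ∧ n < b) ∨ (a < n + 1 ∧ n + 1 < b) := by
  have e1 : n < b := by
    have : (n:ℝ) < b := by linarith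
    exact_mod_cast this
  have e2 : a < n + 1 := by
    have : (a:ℝ) < n + 1 := by linarith
    exact_mod_cast this
  omega

theorem box2 (a b n : ℤ) (r : ℝ) (hr0 : 0 ≤ r) (hr1 : r < 1) (h1 : (a:ℝ) < n - r)
    (h2 : (n:ℝ) - r < b) (hab : a + 2 ≤ b) : (a < n ∧ n < b) ∨ (a < n - 1 ∧ n - 1 < b) := by
  have e1 : a < n := by
    have : (a:ℝ) < n := by linarith
    exact_mod_cast this
  have e2 : n - 1 < b := by
    have : (n:ℝ) - 1 < b := by linarith
    exact_mod_cast this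
  omega

theorem box0 (a b n : ℤ) (h1 : (a:ℝ) < n) (h2 : (n:ℝ) < b) : a < n ∧ n < b :=
  ⟨by exact_mod_cast h1, by exact_mod_cast h2⟩

/-- the closed integer box -/
def IB (L : ℕ) (p : Z3) : Prop :=
  -((L : ℤ) + 1) ≤ p.1 ∧ p.1 ≤ -1 ∧ |p.2.1| ≤ L ∧ -(L : ℤ) ≤ p.2.2 ∧ p.2.2 ≤ L + 1

theorem ib_of {L : ℕ} {p : Z3} (h1 : -((L:ℤ) + 2) < p.1 ∧ p.1 < 0)
    (h2 : -((L:ℤ) + 1) < p.2.1 ∧ p.2.1 < L + 1) (h3 : -((L:ℤ) + 1) < p.2.2 ∧ p.2.2 < L + 2) :
    IB L p := by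
  refine ⟨by omega, by omega, ?_, by omega, by omega⟩
  rw [abs_le]; omega

theorem edge (L : ℕ) (A : Z3) (g : Dir) (r : ℝ) (hr0 : 0 ≤ r) (hr1 : r < 1)
    (h : Om L (lerp (emb A + (1, 0, 0)) (emb (A + vec g) + (1, 0, 0)) r)) :
    IB L A ∨ IB L (A + vec g) := by
  obtain ⟨x, y, z⟩ := A
  obtain ⟨h1, h2, h3, h4, h5⟩ := h
  rw [abs_lt] at h3
  obtain ⟨h3, h3'⟩ := h3
  rw [SHX.lerp_x] at h1 h2
  rw [SHX.lerp_y] at h3 h3'
  rw [SHX.lerp_z] at h4 h5
  have gx : ∀ (u : ℝ), -((L:ℝ) + 1) < u + 1 → u + 1 < 1 →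
      (((-((L:ℤ) + 2) : ℤ)) : ℝ) < u ∧ u < ((0:ℤ):ℝ) := by
    intro u hu hu'; push_cast; constructor <;> linarith
  have gy : ∀ (u : ℝ), -((L:ℝ) + 1) < u → u < L + 1 →
      (((-((L:ℤ) + 1) : ℤ)) : ℝ) < u ∧ u < ((((L:ℤ) + 1) : ℤ) : ℝ) := by
    intro u hu hu'; push_cast; constructor <;> linarith
  have gz : ∀ (u : ℝ), -((L:ℝ) + 1) < u → u < L + 2 →
      (((-((L:ℤ) + 1) : ℤ)) : ℝ) < u ∧ u < ((((L:ℤ) + 2) : ℤ) : ℝ) := by
    intro u hu hu'; push_cast; constructor <;> linarith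
  cases g <;> simp only [emb, vec, Prod.mk_add_mk, Prod.fst_add, Prod.snd_add, add_zero,
    Int.cast_add, Int.cast_one, Int.cast_zero, Int.cast_neg] at h1 h2 h3 h3' h4 h5
  · -- xp
    obtain ⟨a1, a2⟩ := gx ((x:ℝ) + r) (by linarith) (by linarith)
    obtain ⟨b1, b2⟩ := gy (y:ℝ) (by linarith) (by linarith)
    obtain ⟨c1, c2⟩ := gz (z:ℝ) (by linarith) (by linarith)
    rcases box1 _ _ _ r hr0 hr1 a1 a2 (by omega) with h | h
    · exact Or.inl (ib_of h (box0 _ _ _ b1 b2) (box0 _ _ _ c1 c2))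
    · exact Or.inr (ib_of (by simpa [vec] using h) (by simpa [vec] using box0 _ _ _ b1 b2)
        (by simpa [vec] using box0 _ _ _ c1 c2))
  · -- xm
    obtain ⟨a1, a2⟩ := gx ((x:ℝ) - r) (by linarith) (by linarith)
    obtain ⟨b1, b2⟩ := gy (y:ℝ) (by linarith) (by linarith)
    obtain ⟨c1, c2⟩ := gz (z:ℝ) (by linarith) (by linarith)
    rcases box2 _ _ _ r hr0 hr1 a1 a2 (by omega) with h | h
    · exact Or.inl (ib_of h (box0 _ _ _ b1 b2) (box0 _ _ _ c1 c2))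
    · exact Or.inr (ib_of (by simpa [vec, sub_eq_add_neg] using h)
        (by simpa [vec] using box0 _ _ _ b1 b2) (by simpa [vec] using box0 _ _ _ c1 c2))
  · -- yp
    obtain ⟨a1, a2⟩ := gx (x:ℝ) (by linarith) (by linarith)
    obtain ⟨b1, b2⟩ := gy ((y:ℝ) + r) (by linarith) (by linarith)
    obtain ⟨c1, c2⟩ := gz (z:ℝ) (by linarith) (by linarith)
    rcases box1 _ _ _ r hr0 hr1 b1 b2 (by omega) with h | h
    · exact Or.inl (ib_of (box0 _ _ _ a1 a2) h (box0 _ _ _ c1 c2))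
    · exact Or.inr (ib_of (by simpa [vec] using box0 _ _ _ a1 a2) (by simpa [vec] using h)
        (by simpa [vec] using box0 _ _ _ c1 c2))
  · -- ym
    obtain ⟨a1, a2⟩ := gx (x:ℝ) (by linarith) (by linarith)
    obtain ⟨b1, b2⟩ := gy ((y:ℝ) - r) (by linarith) (by linarith)
    obtain ⟨c1, c2⟩ := gz (z:ℝ) (by linarith) (by linarith)
    rcases box2 _ _ _ r hr0 hr1 b1 b2 (by omega) with h | h
    · exact Or.inl (ib_of (box0 _ _ _ a1 a2) h (box0 _ _ _ c1 c2))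
    · exact Or.inr (ib_of (by simpa [vec] using box0 _ _ _ a1 a2)
        (by simpa [vec, sub_eq_add_neg] using h) (by simpa [vec] using box0 _ _ _ c1 c2))
  · -- zp
    obtain ⟨a1, a2⟩ := gx (x:ℝ) (by linarith) (by linarith)
    obtain ⟨b1, b2⟩ := gy (y:ℝ) (by linarith) (by linarith)
    obtain ⟨c1, c2⟩ := gz ((z:ℝ) + r) (by linarith) (by linarith)
    rcases box1 _ _ _ r hr0 hr1 c1 c2 (by omega) with h | h
    · exact Or.inl (ib_of (box0 _ _ _ a1 a2) (box0 _ _ _ b1 b2) h)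
    · exact Or.inr (ib_of (by simpa [vec] using box0 _ _ _ a1 a2)
        (by simpa [vec] using box0 _ _ _ b1 b2) (by simpa [vec] using h))
  · -- zm
    obtain ⟨a1, a2⟩ := gx (x:ℝ) (by linarith) (by linarith)
    obtain ⟨b1, b2⟩ := gy (y:ℝ) (by linarith) (by linarith)
    obtain ⟨c1, c2⟩ := gz ((z:ℝ) - r) (by linarith) (by linarith)
    rcases box2 _ _ _ r hr0 hr1 c1 c2 (by omega) with h | h
    · exact Or.inl (ib_of (box0 _ _ _ a1 a2) (box0 _ _ _ b1 b2) h)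
    · exact Or.inr (ib_of (by simpa [vec] using box0 _ _ _ a1 a2)
        (by simpa [vec] using box0 _ _ _ b1 b2) (by simpa [vec, sub_eq_add_neg] using h))

end K2LVO

open K2LVO GL1 in
theorem T_lvo_proof : T_lvo := by
  intro L v hB
  obtain ⟨hs, hbox⟩ := hB
  have h1 : Simple (vl (.zm :: v)) := S_simple_proof _ hs
  refine ⟨((S_motion_proof _ h1).1 (1, 0, 0)).2, ?_, ?_, ?_⟩
  · unfold lv vl
    rw [List.tail_cons]
    have : (path v).map emb = emb (pos v) :: ((path v).tail.map emb) := by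
      cases v <;> rfl
    rw [this, pos_v hs]
    simp [emb]
  · unfold lv vl
    rw [List.tail_cons, List.getLast?_map, List.getLast?_map,
      List.getLast?_eq_getLast_of_ne_nil (path_ne_nil v), path_getLast]
    simp [emb_zero]
  · intro e he r hr0 hr1 hOm
    have e1 : lv v = (emb (pos v) + ((1, 0, 0) : V)) ::
        (((path v).tail.map emb).map (fun p => p + ((1, 0, 0) : V))) := by
      unfold lv vl
      rw [List.tail_cons]
      have : (path v).map emb = emb (pos v) :: ((path v).tail.map emb) := by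
        cases v <;> rfl
      rw [this, List.map_cons]
    rw [e1] at he
    have e2 : oe ((emb (pos v) + ((1, 0, 0) : V)) ::
        (((path v).tail.map emb).map (fun p => p + ((1, 0, 0) : V)))) =
        (chain (emb (pos v)) ((path v).tail.map emb)).map
          (fun e => (e.1 + ((1, 0, 0) : V), e.2 + ((1, 0, 0) : V))) :=
      chain_map (fun p => p + ((1, 0, 0) : V)) (emb (pos v)) ((path v).tail.map emb)
    rw [e2, List.mem_map] at he
    obtain ⟨q, hq, rfl⟩ := he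
    obtain ⟨A, g, rfl, hA, hA'⟩ := LOC.chain_path v q hq
    rcases edge L A g r hr0 hr1 hOm with h | h
    · exact hbox A hA h
    · exact hbox _ hA' h

end KN
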