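import Pool.Agent.H246K2.Stubs

/-! Task LW: the Loomis-Whitney inequality in three dimensions. -/

namespace KN

namespace K2LW

theorem lw (P : Finset (ℤ × ℤ × ℤ)) : P.card ^ 2 ≤
    (P.image (fun p => (p.2.1, p.2.2))).card * (P.image (fun p => (p.1, p.2.2))).card *
      (P.image (fun p => (p.1, p.2.1))).card := by
  classical
  obtain ⟨f, hf⟩ : ∃ f : ℤ × ℤ × ℤ → ℤ × ℤ, f = fun p => (p.2.1, p.2.2) := ⟨_, rfl⟩
  rw [← hf]
  obtain ⟨I, hI⟩ : ∃ I, I = P.image f := ⟨_, rfl⟩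
  have h1 : P.card = ∑ b ∈ I, (P.filter (fun p => f p = b)).card := by
    rw [hI]
    exact Finset.card_eq_sum_card_image f P
  have h2 : P.card ^ 2 ≤ I.card * ∑ b ∈ I, (P.filter (fun p => f p = b)).card ^ 2 := by
    rw [h1]
    exact sq_sum_le_card_mul_sum_sq
  obtain ⟨S, hS⟩ : ∃ S, S = (P ×ˢ P).filter (fun x => f x.1 = f x.2) := ⟨_, rfl⟩
  have h3 : ∑ b ∈ I, (P.filter (fun p => f p = b)).card ^ 2 = S.card := by
    have hm : ∀ x ∈ S, f x.1 ∈ I := by
      intro x hx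
      rw [hS, Finset.mem_filter, Finset.mem_product] at hx
      rw [hI]
      exact Finset.mem_image_of_mem f hx.1.1
    rw [Finset.card_eq_sum_card_fiberwise hm]
    refine Finset.sum_congr rfl fun b _ => ?_
    rw [_root_.sq, ← Finset.card_product]
    congr 1
    ext x
    rw [hS]
    simp only [Finset.mem_product, Finset.mem_filter]
    constructor
    · rintro ⟨⟨h1, h2⟩, h3, h4⟩
      exact ⟨⟨⟨h1, h3⟩, h2.trans h4.symm⟩, h2⟩
    · rintro ⟨⟨⟨h1, h3⟩, h5⟩, h2⟩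
      exact ⟨⟨h1, h2⟩, h3, h5.symm.trans h2⟩
  have h4 : S.card ≤ (P.image (fun p => (p.1, p.2.2))).card * (P.image (fun p => (p.1, p.2.1))).card := by
    rw [← Finset.card_product]
    refine Finset.card_le_card_of_injOn (fun x => ((x.1.1, x.1.2.2), (x.2.1, x.2.2.1))) ?_ ?_
    · intro x hx
      rw [Finset.mem_coe, hS, Finset.mem_filter, Finset.mem_product] at hx
      rw [Finset.mem_coe, Finset.mem_product]
      exact ⟨Finset.mem_image_of_mem (fun p : ℤ × ℤ × ℤ => (p.1, p.2.2)) hx.1.1,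
        Finset.mem_image_of_mem (fun p : ℤ × ℤ × ℤ => (p.1, p.2.1)) hx.1.2⟩
    · rintro ⟨⟨x, y, z⟩, x', y', z'⟩ hx ⟨⟨u, v, w⟩, u', v', w'⟩ hu h
      rw [Finset.mem_coe, hS, Finset.mem_filter, hf] at hx hu
      simp only [Prod.mk.injEq] at h hx hu ⊢
      obtain ⟨⟨e1, e2⟩, e3, e4⟩ := h
      obtain ⟨-, e5, e6⟩ := hx
      obtain ⟨-, e7, e8⟩ := hu
      refine ⟨⟨e1, ?_, e2⟩, e3, e4, ?_⟩
      · rw [e5, e4, e7]
      · rw [← e6, e2, e8]
  calc P.card ^ 2 ≤ I.card * ∑ b ∈ I, (P.filter (fun p => f p = b)).card ^ 2 := h2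
    _ = I.card * S.card := by rw [h3]
    _ ≤ I.card * ((P.image (fun p => (p.1, p.2.2))).card *
        (P.image (fun p => (p.1, p.2.1))).card) := Nat.mul_le_mul_left _ h4
    _ = _ := by rw [hI, mul_assoc]

end K2LW

theorem T_LW_proof : T_LW := fun P => K2LW.lw P

end KN
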