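import Pool.Agent.H246K2.Stubs
import Pool.Agent.H246KN.SIM
import Pool.Agent.H246KN.ROT
import Pool.Agent.H246KN.MOT

set_option autoImplicit false

namespace KN

namespace K2LWO

theorem mem_lw {l1 l2 : List Dir} {p : V} (hp : p ∈ GL1.lw l1 l2) :
    ∃ q ∈ path (l1 ++ .zp :: l2), p = emb q + (-emb (pos l2)) := by
  unfold GL1.lw at hp
  rw [List.mem_map] at hp
  obtain ⟨q, hq, rfl⟩ := hp
  rw [List.mem_append] at hq
  rw [GL1.path_append_cons]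
  rcases hq with hq | hq
  · unfold GL1.L2 at hq
    rw [List.mem_map] at hq
    obtain ⟨r, hr, rfl⟩ := hq
    exact ⟨r, List.mem_append_right _ hr, rfl⟩
  · unfold GL1.L1 at hq
    rw [List.mem_map] at hq
    obtain ⟨r, hr, rfl⟩ := hq
    rw [List.mem_map] at hr
    obtain ⟨s, hs', rfl⟩ := hr
    exact ⟨_, List.mem_append_left _ (List.mem_map.2 ⟨s, List.mem_of_mem_tail hs', rfl⟩), rfl⟩

end K2LWO

theorem T_lwo_proof : T_lwo := by
  intro L l1 l2 h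
  obtain ⟨hs, hb⟩ := h
  refine ⟨GL1.HL_lw S_simple_proof S_rot_proof S_motion_proof l1 l2 hs
    (fun p hp => (hb p hp).2.1), ?_⟩
  intro p hp
  obtain ⟨q, hq, rfl⟩ := K2LWO.mem_lw hp
  obtain ⟨b1, b2, b3, b4, b5⟩ := hb q hq
  have c1 : -(L : ℝ) ≤ (q.1 : ℝ) - ((pos l2).1 : ℝ) := by exact_mod_cast b1
  have c2 : (q.1 : ℝ) ≤ ((pos l2).1 : ℝ) := by exact_mod_cast b2
  have c3 : |(q.2.1 : ℝ) - ((pos l2).2.1 : ℝ)| ≤ L := by exact_mod_cast b3
  have c4 : -(L : ℝ) ≤ (q.2.2 : ℝ) - ((pos l2).2.2 : ℝ) := by exact_mod_cast b4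
  have c5 : (q.2.2 : ℝ) - ((pos l2).2.2 : ℝ) ≤ L + 1 := by exact_mod_cast b5
  unfold Om
  simp only [emb, ← sub_eq_add_neg, Prod.fst_sub, Prod.snd_sub]
  refine ⟨by linarith, by linarith, ?_, by linarith, by linarith⟩
  linarith

end KN
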