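import Pool.Agent.H246K2.Stubs

/-!
# Project K2, task MANY: many contacts far from the origin
-/

set_option autoImplicit false

namespace KN

open Finset Filter Topology
open scoped Classical

noncomputable section

namespace K2MANY

theorem card_path (w : List Dir) (h : SAP w) : (path w).toFinset.card = w.length := by
  obtain ⟨h4, h0, hnd⟩ := h
  obtain ⟨p, t, ht⟩ : ∃ p t, path w = p :: t := List.exists_cons_of_ne_nil (path_ne_nil w)
  have hlen := path_length w
  have hp : p = 0 := by
    have := head_path w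
    simp only [ht, List.head_cons] at this
    rw [this, h0]
  have hlast : (0 : Z3) ∈ t := by
    have hg := path_getLast w
    have htne : t ≠ [] := by
      intro e
      rw [ht, e] at hlen
      simp only [List.length_cons, List.length_nil] at hlen
      omega
    have : (path w).getLast (path_ne_nil w) = t.getLast htne := by
      simp only [ht]
      exact List.getLast_cons htne
    rw [this] at hg
    rw [← hg]
    exact List.getLast_mem htne
  rw [ht] at hlen hnd ⊢
  simp only [List.tail_cons] at hnd
  have e : (p :: t).toFinset = t.toFinset := by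
    rw [List.toFinset_cons, hp]
    exact Finset.insert_eq_of_mem (List.mem_toFinset.2 hlast)
  rw [e, List.toFinset_card_of_nodup hnd]
  simp at hlen
  exact hlen

theorem card_near (C : Finset Z3) : (C.filter (fun x => near 6 x 0)).card ≤ 2197 := by
  have h : C.filter (fun x => near 6 x 0) ⊆
      (Finset.Icc (-6 : ℤ) 6) ×ˢ ((Finset.Icc (-6 : ℤ) 6) ×ˢ (Finset.Icc (-6 : ℤ) 6)) := by
    intro x hx
    rw [Finset.mem_filter] at hx
    obtain ⟨_, h1, h2, h3⟩ := hx
    have e1 : (0 : Z3).1 = 0 := rfl
    have e2 : (0 : Z3).2.1 = 0 := rfl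
    have e3 : (0 : Z3).2.2 = 0 := rfl
    rw [e1, sub_zero, abs_le] at h1
    rw [e2, sub_zero, abs_le] at h2
    rw [e3, sub_zero, abs_le] at h3
    push_cast at h1 h2 h3
    rw [Finset.mem_product, Finset.mem_product, Finset.mem_Icc, Finset.mem_Icc, Finset.mem_Icc]
    exact ⟨h1, h2, h3⟩
  refine (Finset.card_le_card h).trans ?_
  rw [Finset.card_product, Finset.card_product]
  simp

end K2MANY

open K2MANY in
theorem T_many_proof (h : T_cont) : T_many := by
  intro R hR
  have hD : (0 : ℝ) < (2 * R + 3 : ℝ) ^ 3 := by positivity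
  set D : ℝ := (2 * R + 3 : ℝ) ^ 3 with hDdef
  refine ⟨1 / (2 * D), by positivity, ?_⟩
  have hlim : Tendsto (fun n : ℕ => (n : ℝ) ^ (2 / 3 : ℝ)) atTop atTop :=
    (tendsto_rpow_atTop (by norm_num)).comp tendsto_natCast_atTop_atTop
  filter_upwards [hlim.eventually_ge_atTop (2 * 2197 * D)] with n hn w hw hlen
  obtain ⟨C0, hC0, hc, hcard⟩ := h R hR (path w).toFinset
    ⟨0, List.mem_toFinset.2 (zero_mem_path w)⟩
  rw [card_path w hw, hlen] at hcard
  refine ⟨C0.filter (fun x => ¬ near 6 x 0), ?_, ?_⟩
  · have h1 := Finset.card_filter_add_card_filter_not (s := C0) (fun x => near 6 x 0)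
    have h2 := card_near C0
    have h3 : (C0.card : ℝ) ≤ 2197 + ((C0.filter (fun x => ¬ near 6 x 0)).card : ℝ) := by
      have : C0.card ≤ 2197 + (C0.filter (fun x => ¬ near 6 x 0)).card := by omega
      exact_mod_cast this
    have h4 : (n : ℝ) ^ (2 / 3 : ℝ) ≤ D * (2197 + ((C0.filter (fun x => ¬ near 6 x 0)).card : ℝ)) :=
      hcard.trans (mul_le_mul_of_nonneg_left h3 hD.le)
    rw [div_mul_eq_mul_div, one_mul, div_le_iff₀ (by positivity)]
    nlinarith
  · intro x hx
    rw [Finset.mem_filter] at hx
    refine ⟨hx.2, ?_⟩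
    obtain ⟨N, hN⟩ := hc x hx.1
    refine ⟨N, ?_⟩
    have e : {p | p ∈ (path w).toFinset} = {p | p ∈ path w} := by
      ext p; simp
    rw [e] at hN
    exact hN

end

end KN
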