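import Pool.Agent.H246K2.Stubs

/-! C2: insertion of a block (helper228). -/

set_option autoImplicit false

namespace KN

namespace K2MAST

theorem pos_repl (T : ℕ) (l : List Dir) :
    pos (List.replicate T .xp ++ l) = pos l + ((T : ℤ), 0, 0) := by
  induction T with
  | zero =>
    rw [List.replicate_zero, List.nil_append]
    have : ((((0 : ℕ) : ℤ), (0 : ℤ), (0 : ℤ)) : Z3) = 0 := rfl
    rw [this, add_zero]
  | succ T ih =>
    rw [List.replicate_succ, List.cons_append, pos, ih, add_assoc]
    congr 1

theorem blk_eq (T : ℕ) (l1 v l2 : List Dir) :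
    l1 ++ blk T v ++ l2 = join (hairL T l1) v (hairR T l2) := by
  unfold blk join hairL hairR
  rw [List.replicate_succ', List.replicate_succ]
  simp

end K2MAST

open K2MAST

theorem T_master_proof (h1 : T_hair) (h2 : T_wconL) (h3 : T_sapL) : T_master := by
  intro T L l1 l2 m1 m2 v hspot hv hm hsame
  obtain ⟨hsap, hroom1, hroom2⟩ := hspot
  obtain ⟨g1, g2, g3⟩ := h1 T l1 l2 hsap hroom1
  have hpos : pos (hairR T l2) = pos l2 + ((T : ℤ), 0, 0) := pos_repl T l2
  have hB : BgL L (hairL T l1) (hairR T l2) := by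
    refine ⟨g1, fun p hp => ?_⟩
    rw [hpos]
    rintro ⟨k1, k2, k3, k4, k5⟩
    simp only [Prod.fst_add, Prod.snd_add, add_zero] at k1 k2 k3 k4 k5
    rcases g3 p hp with h4 | ⟨j, hj, hj', h4⟩
    · refine hroom2 (p - pos l2) ?_ ?_ ?_ ?_ ?_ ?_
      · simp only [Prod.fst_sub]; omega
      · simp only [Prod.fst_sub]; omega
      · simpa only [Prod.snd_sub, Prod.fst_sub] using k3
      · simpa only [Prod.snd_sub] using k4
      · simpa only [Prod.snd_sub] using k5
      · rw [add_sub_cancel]
        exact h4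
    · rcases h4 with h4 | h4
      · rw [h4] at k1
        simp only [Prod.fst_add] at k1
        omega
      · rw [h4] at k1
        simp only [Prod.fst_add] at k1
        omega
  rw [blk_eq]
  exact ⟨h3 L _ v _ hB hv, h2 L _ _ m1 m2 v hB hm hv (g2.symm.trans hsame)⟩

end KN
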