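import Pool.Agent.H246K2.Stubs

namespace KN

open Set

theorem T_mcs_proof : T_mcs := by
  intro A D hD
  have hL : ∀ (p : V → ℝ), (∀ a b : V, |p a - p b| ≤ ‖a - b‖) →
      ∃ g : V → ℝ, LipschitzWith (1/2) g ∧ EqOn (fun x => p (D x)) g A := by
    intro p hp
    have h1 : LipschitzOnWith (1/2) (fun x => p (D x)) A := by
      apply LipschitzOnWith.of_dist_le_mul
      intro x hx y hy
      rw [Real.dist_eq, dist_eq_norm]
      refine (hp _ _).trans ?_
      have := hD x hx y hy
      simpa using this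
    exact h1.extend_real
  obtain ⟨g1, hg1, e1⟩ := hL (fun a => a.1) (fun a b => by
    have := norm_fst_le (a - b)
    simpa [Real.norm_eq_abs] using this)
  obtain ⟨g2, hg2, e2⟩ := hL (fun a => a.2.1) (fun a b => by
    have h1 := norm_snd_le (a - b)
    have h2 := norm_fst_le (a - b).2
    have h3 := h2.trans h1
    simpa [Real.norm_eq_abs] using h3)
  obtain ⟨g3, hg3, e3⟩ := hL (fun a => a.2.2) (fun a b => by
    have h1 := norm_snd_le (a - b)
    have h2 := norm_snd_le (a - b).2
    have h3 := h2.trans h1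
    simpa [Real.norm_eq_abs] using h3)
  set D' : V → V := fun x => (g1 x, g2 x, g3 x) with hD'
  have hLD : LipschitzWith (1/2) D' := by
    have := hg1.prodMk (hg2.prodMk hg3)
    simpa using this
  have hDA : ∀ x ∈ A, D' x = D x := by
    intro x hx
    have a1 := e1 hx
    have a2 := e2 hx
    have a3 := e3 hx
    simp only at a1 a2 a3
    simp only [hD']
    rw [← a1, ← a2, ← a3]
  have happ : ApproximatesLinearOn (fun x : V => x + D' x)
      ((ContinuousLinearEquiv.refl ℝ V : V ≃L[ℝ] V) : V →L[ℝ] V) univ (1/2) := by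
    intro x _ y _
    have h1 := hLD.dist_le_mul x y
    rw [dist_eq_norm, dist_eq_norm] at h1
    have : x + D' x - (y + D' y) -
        ((ContinuousLinearEquiv.refl ℝ V : V ≃L[ℝ] V) : V →L[ℝ] V) (x - y) = D' x - D' y := by
      simp only [ContinuousLinearEquiv.coe_refl, ContinuousLinearMap.coe_id', id_eq]
      abel
    rw [this]
    exact h1
  have hc : Subsingleton V ∨ (1/2 : NNReal) <
      ‖((ContinuousLinearEquiv.refl ℝ V).symm : V →L[ℝ] V)‖₊⁻¹ := by
    right
    have h1 : ‖((ContinuousLinearEquiv.refl ℝ V).symm : V →L[ℝ] V)‖₊ = 1 := by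
      rw [ContinuousLinearEquiv.refl_symm, ContinuousLinearEquiv.coe_refl]
      exact ContinuousLinearMap.nnnorm_id
    rw [h1, inv_one]
    exact NNReal.half_lt_self one_ne_zero
  refine ⟨happ.toHomeomorph _ hc, ?_⟩
  intro x hx
  show x + D' x = x + D x
  rw [hDA x hx]

end KN
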