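import Mathlib
import Pool.Agent.H246K2.Stubs

/-! Project K2, task MFLAT: the gauge field of a closed word is flat outside the word. -/

set_option autoImplicit false

namespace KN

open Finset Filter Topology

lemma K2MFLAT.z2 : ∀ s : ZMod 2, s = 0 ∨ s = 1 := by decide

lemma K2MFLAT.key : ∀ s t u v e : ZMod 2, s + t + (u + v) = e + e → v = s + t + u := by decide

lemma K2MFLAT.two : (1 + 1 : ZMod 2) = 0 := by decide

open scoped Classical

namespace K2MFLAT

lemma Eg_cons {w : List Dir} {q : Z3} {f : Dir} (d : Dir) (h : Eg w q f) : Eg (d :: w) q f := by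
  obtain ⟨l1, l2, h | h⟩ := h
  · exact ⟨d :: l1, l2, Or.inl ⟨by rw [h.1, List.cons_append], h.2⟩⟩
  · exact ⟨d :: l1, l2, Or.inr ⟨by rw [h.1, List.cons_append], h.2⟩⟩

lemma Eg_head {w : List Dir} {q : Z3} {f : Dir} (h : pos w = q) : Eg (f :: w) q f :=
  ⟨[], w, Or.inl ⟨rfl, h⟩⟩

lemma Eg_head' {w : List Dir} {q : Z3} {f : Dir} (h : pos w = q + vec f) :
    Eg (neg f :: w) q f :=
  ⟨[], w, Or.inr ⟨rfl, h⟩⟩

lemma cz_step (w : List Dir) (x y z : ℤ) :
    Eg w (x, y, z) .zp ∨ cz w (x + 1) y z = cz w x y z := by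
  induction w with
  | nil => exact Or.inr rfl
  | cons d w ih =>
    rcases ih with h | h
    · exact Or.inl (Eg_cons d h)
    · by_cases h1 : pos w = (x, y, z) ∧ d = .zp
      · obtain ⟨h1, rfl⟩ := h1
        exact Or.inl (Eg_head h1)
      by_cases h2 : pos w = (x, y, z + 1) ∧ d = .zm
      · obtain ⟨h2, rfl⟩ := h2
        exact Or.inl (Eg_head' (f := .zp) (by rw [h2]; simp [vec]))
      right
      obtain ⟨⟨a, b, c⟩, hp⟩ : ∃ p, pos w = p := ⟨_, rfl⟩
      simp only [cz, h, hp]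
      rw [hp] at h1 h2
      simp only [Prod.mk.injEq] at h1 h2
      have e1 : (d = .zp ∧ x + 1 ≤ a ∧ b = y ∧ c = z) ↔ (d = .zp ∧ x ≤ a ∧ b = y ∧ c = z) := by
        constructor
        · rintro ⟨g1, g2, g3, g4⟩
          exact ⟨g1, by omega, g3, g4⟩
        · rintro ⟨g1, g2, g3, g4⟩
          refine ⟨g1, ?_, g3, g4⟩
          by_contra hlt
          exact h1 ⟨⟨by omega, g3, g4⟩, g1⟩
      have e2 : (d = .zm ∧ x + 1 ≤ a ∧ b = y ∧ c = z + 1) ↔
          (d = .zm ∧ x ≤ a ∧ b = y ∧ c = z + 1) := by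
        constructor
        · rintro ⟨g1, g2, g3, g4⟩
          exact ⟨g1, by omega, g3, g4⟩
        · rintro ⟨g1, g2, g3, g4⟩
          refine ⟨g1, ?_, g3, g4⟩
          by_contra hlt
          exact h2 ⟨⟨by omega, g3, g4⟩, g1⟩
      simp only [e1, e2]

lemma cy_step (w : List Dir) (x y z : ℤ) :
    Eg w (x, y, z) .yp ∨ cy w (x + 1) y z = cy w x y z := by
  induction w with
  | nil => exact Or.inr rfl
  | cons d w ih =>
    rcases ih with h | h
    · exact Or.inl (Eg_cons d h)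
    · by_cases h1 : pos w = (x, y, z) ∧ d = .yp
      · obtain ⟨h1, rfl⟩ := h1
        exact Or.inl (Eg_head h1)
      by_cases h2 : pos w = (x, y + 1, z) ∧ d = .ym
      · obtain ⟨h2, rfl⟩ := h2
        exact Or.inl (Eg_head' (f := .yp) (by rw [h2]; simp [vec]))
      right
      obtain ⟨⟨a, b, c⟩, hp⟩ : ∃ p, pos w = p := ⟨_, rfl⟩
      simp only [cy, h, hp]
      rw [hp] at h1 h2
      simp only [Prod.mk.injEq] at h1 h2
      have e1 : (d = .yp ∧ x + 1 ≤ a ∧ b = y ∧ c = z) ↔ (d = .yp ∧ x ≤ a ∧ b = y ∧ c = z) := by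
        constructor
        · rintro ⟨g1, g2, g3, g4⟩
          exact ⟨g1, by omega, g3, g4⟩
        · rintro ⟨g1, g2, g3, g4⟩
          refine ⟨g1, ?_, g3, g4⟩
          by_contra hlt
          exact h1 ⟨⟨by omega, g3, g4⟩, g1⟩
      have e2 : (d = .ym ∧ x + 1 ≤ a ∧ b = y + 1 ∧ c = z) ↔
          (d = .ym ∧ x ≤ a ∧ b = y + 1 ∧ c = z) := by
        constructor
        · rintro ⟨g1, g2, g3, g4⟩
          exact ⟨g1, by omega, g3, g4⟩
        · rintro ⟨g1, g2, g3, g4⟩
          refine ⟨g1, ?_, g3, g4⟩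
          by_contra hlt
          exact h2 ⟨⟨by omega, g3, g4⟩, g1⟩
      simp only [e1, e2]

/-- indicator of the column -/
def col (x y z : ℤ) (p : Z3) : ZMod 2 := if x + 1 ≤ p.1 ∧ p.2.1 = y ∧ p.2.2 = z then 1 else 0

lemma parity (w : List Dir) (x y z : ℤ) : Eg w (x, y, z) .xp ∨
    cz w (x + 1) y (z - 1) + cz w (x + 1) y z + (cy w (x + 1) y z + cy w (x + 1) (y - 1) z) =
      col x y z (pos w) + col x y z 0 := by
  induction w with
  | nil =>
    right
    simp only [cz, cy, pos]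
    have : ∀ t : ZMod 2, 0 + 0 + (0 + 0) = t + t := by decide
    exact this _
  | cons d w ih =>
    rcases ih with h | h
    · exact Or.inl (Eg_cons d h)
    · by_cases h1 : pos w = (x, y, z) ∧ d = .xp
      · obtain ⟨h1, rfl⟩ := h1
        exact Or.inl (Eg_head h1)
      by_cases h2 : pos w = (x + 1, y, z) ∧ d = .xm
      · obtain ⟨h2, rfl⟩ := h2
        exact Or.inl (Eg_head' (f := .xp) (by rw [h2]; simp [vec]))
      right
      obtain ⟨⟨a, b, c⟩, hp⟩ : ∃ p, pos w = p := ⟨_, rfl⟩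
      rw [hp] at h1 h2 h
      simp only [Prod.mk.injEq] at h1 h2
      simp only [cz, cy, pos, hp]
      have red : ∀ s t u v m e s1 s2 t1 t2 u1 u2 v1 v2 m' : ZMod 2, s + t + (u + v) = m + e →
          s1 + s2 + (t1 + t2) + (u1 + u2) + (v1 + v2) = m + m' →
          (s + s1 + s2) + (t + t1 + t2) + ((u + u1 + u2) + (v + v1 + v2)) = m' + e := by
        decide +revert
      refine red _ _ _ _ _ _ _ _ _ _ _ _ _ _ _ h ?_
      cases d <;> simp only [reduceCtorEq, false_and, if_false, true_and, not_false_iff,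
        vec, col, add_zero, zero_add, Prod.mk_add_mk, and_true, and_false] at h1 h2 ⊢ <;>
      split_ifs <;> first
        | (exfalso; omega)
        | rfl

end K2MFLAT

theorem T_mflat_proof : T_mflat := by
  intro G _ τ hτ w hw q
  obtain ⟨q1, q2, q3⟩ := q
  refine ⟨?_, ?_, ?_⟩
  · rcases K2MFLAT.cz_step w q1 q2 q3 with h | h
    · exact Or.inl h
    · right
      simp only [Fl12, mgauge, Prod.mk_sub_mk, sub_zero, sub_add_cancel, one_mul, mul_one, h]
  · rcases K2MFLAT.cy_step w q1 q2 q3 with h | h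
    · exact Or.inl h
    · right
      simp only [Fl13, mgauge, Prod.mk_sub_mk, sub_zero, sub_add_cancel, one_mul, mul_one, h]
  · rcases K2MFLAT.parity w q1 q2 q3 with h | h
    · exact Or.inl h
    · right
      rw [hw] at h
      simp only [Fl23, mgauge, Prod.mk_sub_mk, sub_zero, sub_add_cancel]
      generalize cz w (q1 + 1) q2 (q3 - 1) = s at h ⊢
      generalize cz w (q1 + 1) q2 q3 = t at h ⊢
      generalize cy w (q1 + 1) q2 q3 = u at h ⊢
      generalize cy w (q1 + 1) (q2 - 1) q3 = v at h ⊢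
      generalize K2MFLAT.col q1 q2 q3 0 = e at h
      have hv := K2MFLAT.key s t u v e h
      subst hv
      rcases K2MFLAT.z2 s with rfl | rfl <;> rcases K2MFLAT.z2 t with rfl | rfl <;>
      rcases K2MFLAT.z2 u with rfl | rfl <;> simp [K2MFLAT.two, hτ]

end KN
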