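import Pool.Agent.H246K2.Stubs
import Pool.Agent.H246KN.CONE

/-!
# G4: nearby polygons are ambient homeomorphic
-/

set_option autoImplicit false

namespace KN

open Finset Filter Topology
open scoped Classical

namespace K2NEAR

theorem mem_ps {n : ℕ} (g : Fin (n + 1) → V) (x : V) :
    x ∈ ps (List.ofFn g) ↔ ∃ (i : Fin (n + 1)) (u : ℝ), (0 ≤ u ∧ u ≤ 1) ∧
      x = lerp (g i) (g (i + 1)) u := by
  unfold ps
  rw [Set.mem_ofPred_eq, CONE.edges_ofFn]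
  constructor
  · rintro ⟨e, he, u, h0, h1, rfl⟩
    rw [List.mem_ofFn] at he
    obtain ⟨i, rfl⟩ := he
    exact ⟨i, u, ⟨h0, h1⟩, rfl⟩
  · rintro ⟨i, u, ⟨h0, h1⟩, rfl⟩
    exact ⟨(g i, g (i + 1)), by rw [List.mem_ofFn]; exact ⟨i, rfl⟩, u, h0, h1, rfl⟩

end K2NEAR

open K2NEAR in
theorem T_near_proof (h1 : T_lip) (h2 : T_mcs) : T_near := by
  intro n g hg
  obtain ⟨C, hC, H⟩ := h1 n g hg
  refine ⟨1 / (2 * C), by positivity, ?_⟩
  intro g' hg'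
  have hCε : C * (1 / (2 * C)) = 1 / 2 := by field_simp
  have H' := H g' (1 / (2 * C)) hg'
  rw [hCε] at H'
  -- the displacement
  set Ψ : Fin (n + 1) → ℝ → V := fun i u =>
    lerp (g' i) (g' (i + 1)) u - lerp (g i) (g (i + 1)) u with hΨ
  set D : V → V := fun x => if h : ∃ (i : Fin (n + 1)) (u : ℝ), (0 ≤ u ∧ u ≤ 1) ∧
      x = lerp (g i) (g (i + 1)) u then Ψ h.choose h.choose_spec.choose else 0 with hDdef
  have hD : ∀ (i : Fin (n + 1)) (u : ℝ), 0 ≤ u → u ≤ 1 → D (lerp (g i) (g (i + 1)) u) = Ψ i u := by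
    intro i u h0 h1
    have hex : ∃ (j : Fin (n + 1)) (v : ℝ), (0 ≤ v ∧ v ≤ 1) ∧
        lerp (g i) (g (i + 1)) u = lerp (g j) (g (j + 1)) v := ⟨i, u, ⟨h0, h1⟩, rfl⟩
    have e : D (lerp (g i) (g (i + 1)) u) = Ψ hex.choose hex.choose_spec.choose := by
      rw [hDdef]
      simp only
      rw [dif_pos hex]
    rw [e]
    obtain ⟨⟨k0, k1⟩, k2⟩ := hex.choose_spec.choose_spec
    have := H' hex.choose i hex.choose_spec.choose u k0 k1 h0 h1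
    have hz : ‖lerp (g hex.choose) (g (hex.choose + 1)) hex.choose_spec.choose -
        lerp (g i) (g (i + 1)) u‖ = 0 := by
      rw [← k2, sub_self, norm_zero]
    rw [hz, mul_zero] at this
    have h3 := norm_le_zero_iff.1 this
    exact sub_eq_zero.1 h3
  obtain ⟨h, hh⟩ := h2 (ps (List.ofFn g)) D (by
    intro x hx y hy
    rw [mem_ps] at hx hy
    obtain ⟨i, u, ⟨u0, u1⟩, rfl⟩ := hx
    obtain ⟨j, v, ⟨v0, v1⟩, rfl⟩ := hy
    rw [hD i u u0 u1, hD j v v0 v1]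
    exact H' i j u v u0 u1 v0 v1)
  have hval : ∀ (i : Fin (n + 1)) (u : ℝ), 0 ≤ u → u ≤ 1 →
      h (lerp (g i) (g (i + 1)) u) = lerp (g' i) (g' (i + 1)) u := by
    intro i u u0 u1
    rw [hh _ ((mem_ps g _).2 ⟨i, u, ⟨u0, u1⟩, rfl⟩), hD i u u0 u1, hΨ]
    simp only
    abel
  refine ⟨h, ?_⟩
  ext y
  rw [Set.mem_image, mem_ps]
  constructor
  · rintro ⟨x, hx, rfl⟩
    rw [mem_ps] at hx
    obtain ⟨i, u, ⟨u0, u1⟩, rfl⟩ := hx
    exact ⟨i, u, ⟨u0, u1⟩, hval i u u0 u1⟩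
  · rintro ⟨i, u, ⟨u0, u1⟩, rfl⟩
    exact ⟨lerp (g i) (g (i + 1)) u, (mem_ps g _).2 ⟨i, u, ⟨u0, u1⟩, rfl⟩, hval i u u0 u1⟩

end KN
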