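import Pool.Agent.H246K2.Stubs

namespace KN

open Set Filter Topology

namespace K2NONAB

/-- centre of a cube, displaced by `s` in direction `d` -/
noncomputable def gam (c : Z3) (d : Dir) (s : ℝ) : V :=
  ((c.1 : ℝ) + 1 / 2 + s * ((vec d).1 : ℝ), (c.2.1 : ℝ) + 1 / 2 + s * ((vec d).2.1 : ℝ),
    (c.2.2 : ℝ) + 1 / 2 + s * ((vec d).2.2 : ℝ))

/-- centre of a cube -/
noncomputable def mid (c : Z3) : V := ((c.1 : ℝ) + 1 / 2, (c.2.1 : ℝ) + 1 / 2, (c.2.2 : ℝ) + 1 / 2)

theorem gam_zero (c : Z3) (d : Dir) : gam c d 0 = mid c := by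
  simp [gam, mid]

theorem gam_one (c : Z3) (d : Dir) : gam c d 1 = mid (c + vec d) := by
  simp only [gam, mid, one_mul, Prod.fst_add, Prod.snd_add, Int.cast_add]
  ext
  · simp only; ring
  · simp only; ring
  · simp only; ring

theorem gam_cont (c : Z3) (d : Dir) : Continuous (gam c d) := by
  unfold gam
  fun_prop

/-- lattice edges -/
def Good (e : V × V) : Prop := ∃ (p : Z3) (d : Dir), e = (emb p, emb (p + vec d))

theorem good_sub (q : Z3) (d : Dir) : Good (emb (q + vec d), emb q) := by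
  refine ⟨q + vec d, neg d, ?_⟩
  rw [vec_neg, add_neg_cancel_right]

theorem path_cons (w : List Dir) : ∃ l : List Z3, path w = pos w :: l := by
  cases w with
  | nil => exact ⟨[], rfl⟩
  | cons d w => exact ⟨path w, rfl⟩

theorem good_chain (w : List Dir) : ∀ (a : Z3) (l : List Z3), path w = a :: l →
    ∀ e ∈ chain (emb a) (l.map emb), Good e := by
  induction w with
  | nil =>
    intro a l h e he
    simp only [path, List.cons.injEq] at h
    obtain ⟨rfl, rfl⟩ := h
    simp [chain] at he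
  | cons d w ih =>
    intro a l h e he
    simp only [path, List.cons.injEq] at h
    obtain ⟨rfl, rfl⟩ := h
    obtain ⟨l', hl'⟩ := path_cons w
    rw [hl'] at he
    simp only [List.map_cons, chain, List.mem_cons] at he
    rcases he with rfl | he
    · exact good_sub _ _
    · exact ih _ _ hl' e he

theorem chain_snoc (l : List V) : ∀ (p q : V) (e : V × V), e ∈ chain p (l ++ [q]) →
    e ∈ chain p l ∨ e = ((p :: l).getLast (List.cons_ne_nil _ _), q) := by
  induction l with
  | nil =>
    intro p q e he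
    simp only [List.nil_append, chain, List.mem_cons, List.not_mem_nil, or_false] at he
    exact Or.inr he
  | cons a l ih =>
    intro p q e he
    simp only [List.cons_append, chain, List.mem_cons] at he
    rcases he with rfl | he
    · left; simp [chain]
    · rcases ih a q e he with h | h
      · left; simp only [chain, List.mem_cons]; exact Or.inr h
      · right
        rw [h, List.getLast_cons (List.cons_ne_nil _ _)]

theorem good_edges (w : List Dir) (hw : SAP w) : ∀ e ∈ edges (vl w), Good e := by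
  obtain ⟨h4, h0, -⟩ := hw
  cases w with
  | nil => simp at h4
  | cons d w =>
    intro e he
    have hvl : vl (d :: w) = (path w).map emb := rfl
    rw [hvl] at he
    obtain ⟨l, hl⟩ := path_cons w
    have hlast : ((pos w :: l).getLast (List.cons_ne_nil _ _)) = 0 := by
      have := path_getLast w
      simp only [hl] at this
      exact this
    rw [hl] at he
    simp only [List.map_cons, edges] at he
    rcases chain_snoc _ _ _ _ he with h | h
    · exact good_chain w _ _ hl e h
    · have e1 : ((emb (pos w) :: l.map emb).getLast (List.cons_ne_nil _ _)) = emb 0 := by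
        have : (emb (pos w) :: l.map emb) = (pos w :: l).map emb := rfl
        simp only [this]
        rw [List.getLast_map, hlast]
      rw [e1] at h
      have h2 : pos w = 0 + vec (neg d) := by
        have h3 : pos w + vec d = 0 := h0
        rw [vec_neg, zero_add]
        exact eq_neg_of_add_eq_zero_left h3
      rw [h, h2]
      exact ⟨0, neg d, rfl⟩

/-- a real number which is an integer plus one half is not an integer -/
theorem half_ne (a b : ℤ) : (a : ℝ) + 1 / 2 ≠ (b : ℝ) := by
  intro h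
  have h2 : ((2 * a + 1 : ℤ) : ℝ) = ((2 * b : ℤ) : ℝ) := by push_cast; linarith
  have h3 : 2 * a + 1 = 2 * b := by exact_mod_cast h2
  omega

theorem gam_not_mem (w : List Dir) (hw : SAP w) (c : Z3) (d : Dir) (s : ℝ) :
    gam c d s ∈ (ps (vl w))ᶜ := by
  intro h
  obtain ⟨e, he, u, -, -, hx⟩ := h
  obtain ⟨p, f, rfl⟩ := good_edges w hw e he
  have h1 : (c.1 : ℝ) + 1 / 2 + s * ((vec d).1 : ℝ) = (p.1 : ℝ) + u * ((vec f).1 : ℝ) := by
    have := congrArg (fun x : V => x.1) hx
    simp only [gam, lerp, emb, Prod.fst_add, Prod.smul_fst, smul_eq_mul, Int.cast_add] at this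
    rw [this]; ring
  have h2 : (c.2.1 : ℝ) + 1 / 2 + s * ((vec d).2.1 : ℝ) = (p.2.1 : ℝ) + u * ((vec f).2.1 : ℝ) := by
    have := congrArg (fun x : V => x.2.1) hx
    simp only [gam, lerp, emb, Prod.fst_add, Prod.snd_add, Prod.smul_fst, Prod.smul_snd, smul_eq_mul,
      Int.cast_add] at this
    rw [this]; ring
  have h3 : (c.2.2 : ℝ) + 1 / 2 + s * ((vec d).2.2 : ℝ) = (p.2.2 : ℝ) + u * ((vec f).2.2 : ℝ) := by
    have := congrArg (fun x : V => x.2.2) hx
    simp only [gam, lerp, emb, Prod.snd_add, Prod.smul_snd, smul_eq_mul, Int.cast_add] at this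
    rw [this]; ring
  have n1 := half_ne c.1 p.1
  have n2 := half_ne c.2.1 p.2.1
  have n3 := half_ne c.2.2 p.2.2
  cases d <;> cases f <;> simp only [vec, Int.cast_zero, mul_zero, add_zero] at h1 h2 h3 <;>
    first
    | exact n1 h1
    | exact n2 h2
    | exact n3 h3

theorem floor_half (a : ℤ) : ⌊(a : ℝ) + 1 / 2⌋ = a := by
  rw [Int.floor_eq_iff]; constructor <;> linarith

theorem floor_half_add (a : ℤ) (s : ℝ) (h0 : 0 ≤ s) (h1 : s ≤ 1) :
    ⌊(a : ℝ) + 1 / 2 + s * ((1 : ℤ) : ℝ)⌋ = a ∨ ⌊(a : ℝ) + 1 / 2 + s * ((1 : ℤ) : ℝ)⌋ = a + 1 := by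
  by_cases h : s < 1 / 2
  · left; rw [Int.floor_eq_iff]; push_cast; constructor <;> linarith
  · right; rw [Int.floor_eq_iff]; push_cast; constructor <;> linarith

theorem floor_half_sub (a : ℤ) (s : ℝ) (h0 : 0 ≤ s) (h1 : s ≤ 1) :
    ⌊(a : ℝ) + 1 / 2 + s * ((-1 : ℤ) : ℝ)⌋ = a ∨ ⌊(a : ℝ) + 1 / 2 + s * ((-1 : ℤ) : ℝ)⌋ = a + -1 := by
  by_cases h : s ≤ 1 / 2
  · left; rw [Int.floor_eq_iff]; push_cast; constructor <;> linarith
  · right; rw [Int.floor_eq_iff]; push_cast; constructor <;> linarith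

theorem cube_gam (c : Z3) (d : Dir) (s : ℝ) (h0 : 0 ≤ s) (h1 : s ≤ 1) :
    cube (gam c d s) = c ∨ cube (gam c d s) = c + vec d := by
  obtain ⟨c1, c2, c3⟩ := c
  cases d <;> simp only [cube, gam, vec, Int.cast_zero, mul_zero, add_zero, floor_half,
    Prod.mk_add_mk]
  · rcases floor_half_add c1 s h0 h1 with h | h
    · left; rw [h]
    · right; rw [h]
  · rcases floor_half_sub c1 s h0 h1 with h | h
    · left; rw [h]
    · right; rw [h]
  · rcases floor_half_add c2 s h0 h1 with h | h
    · left; rw [h]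
    · right; rw [h]
  · rcases floor_half_sub c2 s h0 h1 with h | h
    · left; rw [h]
    · right; rw [h]
  · rcases floor_half_add c3 s h0 h1 with h | h
    · left; rw [h]
    · right; rw [h]
  · rcases floor_half_sub c3 s h0 h1 with h | h
    · left; rw [h]
    · right; rw [h]

theorem cube_mid (c : Z3) : cube (mid c) = c := by
  simp only [cube, mid, floor_half]

variable {G : Type} [Group G]

theorem gtr_self (g : Gauge G) (c : Z3) : gtr g c c = 1 := by
  simp [gtr, gse]

theorem gtr_step (g : Gauge G) (c : Z3) (d : Dir) : gtr g c (c + vec d) = gst g c d := by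
  obtain ⟨c1, c2, c3⟩ := c
  cases d <;> simp [gtr, gse, vec, gst]

theorem gtr_back (g : Gauge G) (c : Z3) (d : Dir) : gtr g (c + vec d) c = (gst g c d)⁻¹ := by
  obtain ⟨c1, c2, c3⟩ := c
  cases d <;> simp [gtr, gse, vec, gst, sub_eq_add_neg]

theorem gtr_two (g : Gauge G) (c : Z3) (d : Dir) (a b : Z3) (ha : a = c ∨ a = c + vec d)
    (hb : b = c ∨ b = c + vec d) : gtr g a b = (gtr g c a)⁻¹ * gtr g c b := by
  rcases ha with rfl | rfl <;> rcases hb with rfl | rfl
  · simp [gtr_self]
  · simp [gtr_self]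
  · simp [gtr_self, gtr_step, gtr_back]
  · simp [gtr_self]

/-- the step lemma -/
theorem step (g : Gauge G) (w : List Dir) (hw : SAP w) (φ : V → G) (κ : G)
    (hφ : ∀ x ∈ (ps (vl w))ᶜ, ∃ N ∈ 𝓝 x, ∀ a ∈ N, ∀ b ∈ N,
      φ a * TT g a b * (φ b)⁻¹ ∈ Subgroup.zpowers κ) (c : Z3) (d : Dir) :
    φ (mid c) * gst g c d * (φ (mid (c + vec d)))⁻¹ ∈ Subgroup.zpowers κ := by
  set F : ℝ → G := fun s => φ (mid c) * gtr g c (cube (gam c d s)) * (φ (gam c d s))⁻¹ with hF
  set cl : ℝ → ℝ := fun s => max 0 (min s 1) with hcl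
  have hclc : Continuous cl := by fun_prop
  have hcl0 : ∀ s, 0 ≤ cl s := fun s => le_max_left _ _
  have hcl1 : ∀ s, cl s ≤ 1 := fun s => max_le zero_le_one (min_le_right _ _)
  have hloc : IsLocallyConstant (fun s : ℝ => (F (cl s) ∈ Subgroup.zpowers κ : Prop)) := by
    rw [IsLocallyConstant.iff_eventually_eq]
    intro s
    obtain ⟨N, hN, hab⟩ := hφ (gam c d (cl s)) (gam_not_mem w hw c d (cl s))
    have hcont : Continuous (fun s => gam c d (cl s)) := (gam_cont c d).comp hclc
    filter_upwards [hcont.continuousAt.preimage_mem_nhds hN] with s' hs'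
    have h1 := hab _ (mem_of_mem_nhds hN) _ hs'
    have h2 : TT g (gam c d (cl s)) (gam c d (cl s')) =
        (gtr g c (cube (gam c d (cl s))))⁻¹ * gtr g c (cube (gam c d (cl s'))) :=
      gtr_two g c d _ _ (cube_gam c d _ (hcl0 _) (hcl1 _)) (cube_gam c d _ (hcl0 _) (hcl1 _))
    rw [h2] at h1
    have h3 : F (cl s') = F (cl s) * (φ (gam c d (cl s)) *
        ((gtr g c (cube (gam c d (cl s))))⁻¹ * gtr g c (cube (gam c d (cl s')))) *
        (φ (gam c d (cl s')))⁻¹) := by
      simp only [hF]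
      group
    apply propext
    rw [h3]
    exact Subgroup.mul_mem_cancel_right _ h1
  have heq := hloc.apply_eq_of_preconnectedSpace 0 1
  have c0 : cl 0 = 0 := by simp [hcl]
  have c1 : cl 1 = 1 := by simp [hcl]
  have hF0 : F (cl 0) ∈ Subgroup.zpowers κ := by
    rw [c0]
    simp only [hF, gam_zero, cube_mid, gtr_self, mul_one, mul_inv_cancel]
    exact Subgroup.one_mem _
  have hF1 : F (cl 1) ∈ Subgroup.zpowers κ := by
    exact cast heq hF0
  rw [c1] at hF1
  simp only [hF, gam_one, cube_mid, gtr_step] at hF1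
  exact hF1

end K2NONAB

open K2NONAB in
theorem T_nonab_proof : T_nonab := by
  intro G _ g w hw c A B hA hB hne hab
  obtain ⟨φ, κ, hφ⟩ := hab
  have hstep := step g w hw φ κ hφ
  have hword : ∀ A : List Dir, φ (mid c) * hol g c A * (φ (mid (c + pos A)))⁻¹ ∈
      Subgroup.zpowers κ := by
    intro A
    induction A with
    | nil =>
      simp only [hol, pos, add_zero, mul_one, mul_inv_cancel]
      exact Subgroup.one_mem _
    | cons d A ih =>
      have h1 := hstep (c + pos A) d
      have h2 := Subgroup.mul_mem _ ih h1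
      simp only [hol, pos]
      rw [← add_assoc]
      convert h2 using 1
      group
  have h1 := hword A
  have h2 := hword B
  rw [hA, add_zero] at h1
  rw [hB, add_zero] at h2
  obtain ⟨m, hm⟩ := Subgroup.mem_zpowers_iff.mp h1
  obtain ⟨n, hn⟩ := Subgroup.mem_zpowers_iff.mp h2
  apply hne
  have hcomm : κ ^ m * κ ^ n = κ ^ n * κ ^ m := by
    rw [← zpow_add, ← zpow_add, add_comm]
  rw [hm, hn] at hcomm
  have e1 : φ (mid c) * hol g c A * (φ (mid c))⁻¹ * (φ (mid c) * hol g c B * (φ (mid c))⁻¹) =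
      φ (mid c) * (hol g c A * hol g c B) * (φ (mid c))⁻¹ := by group
  have e2 : φ (mid c) * hol g c B * (φ (mid c))⁻¹ * (φ (mid c) * hol g c A * (φ (mid c))⁻¹) =
      φ (mid c) * (hol g c B * hol g c A) * (φ (mid c))⁻¹ := by group
  rw [e1, e2] at hcomm
  exact mul_left_cancel (mul_right_cancel hcomm)

end KN
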