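import Mathlib
import Pool.Agent.H246K2.Stubs

open Topology Filter

namespace KN

theorem T_pot2_proof : T_pot2 := by
  intro G _ T O₁ O₂ φ₁ φ₂ h1 h2 hc
  rcases Set.eq_empty_or_nonempty (O₁ ∩ O₂) with he | ⟨x₀, hx₀⟩
  · refine ⟨1, ?_⟩
    intro x hx
    rw [he] at hx
    exact absurd hx (Set.notMem_empty x)
  · letI : TopologicalSpace G := ⊥
    haveI : DiscreteTopology G := ⟨rfl⟩
    have hcont : ContinuousOn (fun x => φ₂ x * (φ₁ x)⁻¹) (O₁ ∩ O₂) := by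
      intro x hx
      obtain ⟨N₁, hN₁, H₁⟩ := h1 x hx.1
      obtain ⟨N₂, hN₂, H₂⟩ := h2 x hx.2
      have hx1 : x ∈ N₁ := mem_of_mem_nhds hN₁
      have hx2 : x ∈ N₂ := mem_of_mem_nhds hN₂
      have hev : (fun _ : V => φ₂ x * (φ₁ x)⁻¹) =ᶠ[𝓝[O₁ ∩ O₂] x]
          (fun y => φ₂ y * (φ₁ y)⁻¹) := by
        have hm : N₁ ∩ N₂ ∈ 𝓝[O₁ ∩ O₂] x := mem_nhdsWithin_of_mem_nhds (inter_mem hN₁ hN₂)
        filter_upwards [hm] with y hy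
        have e1 := H₁ x hx1 y hy.1
        have e2 := H₂ x hx2 y hy.2
        have e3 : (φ₁ x)⁻¹ * φ₁ y = (φ₂ x)⁻¹ * φ₂ y := by rw [← e1, ← e2]
        have e4 : φ₂ x * (φ₁ x)⁻¹ * φ₁ y = φ₂ y := by
          rw [mul_assoc, e3, mul_inv_cancel_left]
        rw [← e4, mul_inv_cancel_right]
      exact (tendsto_const_nhds (x := φ₂ x * (φ₁ x)⁻¹)).congr' hev
    refine ⟨φ₂ x₀ * (φ₁ x₀)⁻¹, ?_⟩
    intro x hx
    have h : φ₂ x * (φ₁ x)⁻¹ = φ₂ x₀ * (φ₁ x₀)⁻¹ := hc.constant hcont hx hx₀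
    rw [← h, inv_mul_cancel_right]

end KN
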