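import Pool.Agent.H246K2.Stubs

/-!
# Project K2: enough room (E2)
-/

set_option autoImplicit false

namespace KN

open Finset Filter Topology
open scoped Classical

namespace K2ROOM

theorem dt_add (N u v : Z3) : dt N (u + v) = dt N u + dt N v := by
  simp only [dt, Prod.fst_add, Prod.snd_add]; ring

theorem dt_smul (N u : Z3) (j : ℤ) : dt N (j • u) = j * dt N u := by
  simp only [dt, Prod.smul_fst, Prod.smul_snd, smul_eq_mul]; ring

theorem dt_neg (N u : Z3) : dt N (-u) = - dt N u := by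
  simp only [dt, Prod.fst_neg, Prod.snd_neg]; ring

/-- sup norm at most `B` -/
def bnd (B : ℤ) (u : Z3) : Prop := |u.1| ≤ B ∧ |u.2.1| ≤ B ∧ |u.2.2| ≤ B

theorem bnd_add {A B : ℤ} {u v : Z3} (hu : bnd A u) (hv : bnd B v) : bnd (A + B) (u + v) := by
  refine ⟨?_, ?_, ?_⟩
  · exact (abs_add_le _ _).trans (add_le_add hu.1 hv.1)
  · exact (abs_add_le _ _).trans (add_le_add hu.2.1 hv.2.1)
  · exact (abs_add_le _ _).trans (add_le_add hu.2.2 hv.2.2)

theorem bnd_vec (d : Dir) : bnd 1 (vec d) := by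
  cases d <;> simp [bnd, vec]

theorem bnd_smul {j : ℤ} (hj : 0 ≤ j) (d : Dir) : bnd j (j • vec d) := by
  cases d <;> simp [bnd, vec, abs_of_nonneg hj, hj]

theorem dt_self_le {B : ℤ} {u : Z3} (hu : bnd B u) : dt u u ≤ 3 * B ^ 2 := by
  have h1 : u.1 * u.1 ≤ B ^ 2 := by
    have := sq_le_sq' (by have := abs_le.mp hu.1; linarith) (abs_le.mp hu.1).2
    nlinarith
  have h2 : u.2.1 * u.2.1 ≤ B ^ 2 := by
    have := sq_le_sq' (by have := abs_le.mp hu.2.1; linarith) (abs_le.mp hu.2.1).2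
    nlinarith
  have h3 : u.2.2 * u.2.2 ≤ B ^ 2 := by
    have := sq_le_sq' (by have := abs_le.mp hu.2.2; linarith) (abs_le.mp hu.2.2).2
    nlinarith
  unfold dt
  linarith

theorem mul_ge {a b A B : ℤ} (ha : a ≤ A) (ha' : -a ≤ A) (hb : b ≤ B) (hb' : -b ≤ B) :
    -(A * B) ≤ a * b := by
  have h1 : |a * b| ≤ A * B := by
    rw [abs_mul]
    exact mul_le_mul (abs_le.mpr ⟨by linarith, ha⟩) (abs_le.mpr ⟨by linarith, hb⟩) (abs_nonneg _)
      (by linarith)
  exact (abs_le.mp h1).1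

theorem key {n1 n2 n3 h1 h2 h3 M T L : ℤ} (hn1 : M - 700 ≤ n1) (hM : 700 ≤ M) (hT : 0 ≤ T)
    (hh1 : T + 1 ≤ h1) (a2 : n2 ≤ M) (a2' : -n2 ≤ M) (a3 : n3 ≤ M) (a3' : -n3 ≤ M)
    (b2 : h2 ≤ L + 2) (b2' : -h2 ≤ L + 2) (b3 : h3 ≤ L + 2) (b3' : -h3 ≤ L + 2) :
    (M - 700) * (T + 1) - 2 * (M * (L + 2)) ≤ n1 * h1 + n2 * h2 + n3 * h3 := by
  have h1' : (M - 700) * (T + 1) ≤ n1 * h1 :=
    mul_le_mul hn1 hh1 (by linarith) (by linarith)
  have h2' := mul_ge a2 a2' b2 b2'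
  have h3' := mul_ge a3 a3' b3 b3'
  linarith

theorem box {N h : Z3} {d : Dir} {M T L : ℤ} (hM : 700 ≤ M) (hT : 0 ≤ T) (hL : 0 ≤ L)
    (hN : ∀ g : Dir, dt N (vec g) ≤ M) (hd : M - 700 ≤ dt N (vec d))
    (h1 : T + 1 ≤ dt h (vec d)) (h2 : dt h (vec d) ≤ T + L + 1) (hLT : L + 2 ≤ T + L + 1)
    (h3 : ∀ g : Dir, perp g d → dt h (vec g) ≤ L + 2) :
    (M - 700) * (T + 1) - 2 * (M * (L + 2)) ≤ dt N h ∧ bnd (T + L + 1) h := by
  have a1 := hN .xp
  have a2 := hN .xm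
  have a3 := hN .yp
  have a4 := hN .ym
  have a5 := hN .zp
  have a6 := hN .zm
  cases d
  · have b3 := h3 .yp (by decide)
    have b4 := h3 .ym (by decide)
    have b5 := h3 .zp (by decide)
    have b6 := h3 .zm (by decide)
    simp only [dt, vec, mul_one, mul_zero, mul_neg, add_zero, zero_add, neg_zero] at *
    refine ⟨?_, abs_le.mpr ⟨?_, ?_⟩, abs_le.mpr ⟨?_, ?_⟩, abs_le.mpr ⟨?_, ?_⟩⟩ <;> try linarith
    have := key (n1 := N.1) (n2 := N.2.1) (n3 := N.2.2) (h1 := h.1) (h2 := h.2.1) (h3 := h.2.2)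
      (M := M) (T := T) (L := L) (by linarith) hM hT (by linarith) a3 a4 a5 a6 b3 b4 b5 b6
    linarith
  · have b3 := h3 .yp (by decide)
    have b4 := h3 .ym (by decide)
    have b5 := h3 .zp (by decide)
    have b6 := h3 .zm (by decide)
    simp only [dt, vec, mul_one, mul_zero, mul_neg, add_zero, zero_add, neg_zero] at *
    refine ⟨?_, abs_le.mpr ⟨?_, ?_⟩, abs_le.mpr ⟨?_, ?_⟩, abs_le.mpr ⟨?_, ?_⟩⟩ <;> try linarith
    have := key (n1 := -N.1) (n2 := N.2.1) (n3 := N.2.2) (h1 := -h.1) (h2 := h.2.1) (h3 := h.2.2)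
      (M := M) (T := T) (L := L) (by linarith) hM hT (by linarith) a3 a4 a5 a6 b3 b4 b5 b6
    linarith
  · have b3 := h3 .xp (by decide)
    have b4 := h3 .xm (by decide)
    have b5 := h3 .zp (by decide)
    have b6 := h3 .zm (by decide)
    simp only [dt, vec, mul_one, mul_zero, mul_neg, add_zero, zero_add, neg_zero] at *
    refine ⟨?_, abs_le.mpr ⟨?_, ?_⟩, abs_le.mpr ⟨?_, ?_⟩, abs_le.mpr ⟨?_, ?_⟩⟩ <;> try linarith
    have := key (n1 := N.2.1) (n2 := N.1) (n3 := N.2.2) (h1 := h.2.1) (h2 := h.1) (h3 := h.2.2)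
      (M := M) (T := T) (L := L) (by linarith) hM hT (by linarith) a1 a2 a5 a6 b3 b4 b5 b6
    linarith
  · have b3 := h3 .xp (by decide)
    have b4 := h3 .xm (by decide)
    have b5 := h3 .zp (by decide)
    have b6 := h3 .zm (by decide)
    simp only [dt, vec, mul_one, mul_zero, mul_neg, add_zero, zero_add, neg_zero] at *
    refine ⟨?_, abs_le.mpr ⟨?_, ?_⟩, abs_le.mpr ⟨?_, ?_⟩, abs_le.mpr ⟨?_, ?_⟩⟩ <;> try linarith
    have := key (n1 := -N.2.1) (n2 := N.1) (n3 := N.2.2) (h1 := -h.2.1) (h2 := h.1) (h3 := h.2.2)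
      (M := M) (T := T) (L := L) (by linarith) hM hT (by linarith) a1 a2 a5 a6 b3 b4 b5 b6
    linarith
  · have b3 := h3 .xp (by decide)
    have b4 := h3 .xm (by decide)
    have b5 := h3 .yp (by decide)
    have b6 := h3 .ym (by decide)
    simp only [dt, vec, mul_one, mul_zero, mul_neg, add_zero, zero_add, neg_zero] at *
    refine ⟨?_, abs_le.mpr ⟨?_, ?_⟩, abs_le.mpr ⟨?_, ?_⟩, abs_le.mpr ⟨?_, ?_⟩⟩ <;> try linarith
    have := key (n1 := N.2.2) (n2 := N.1) (n3 := N.2.1) (h1 := h.2.2) (h2 := h.1) (h3 := h.2.1)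
      (M := M) (T := T) (L := L) (by linarith) hM hT (by linarith) a1 a2 a3 a4 b3 b4 b5 b6
    linarith
  · have b3 := h3 .xp (by decide)
    have b4 := h3 .xm (by decide)
    have b5 := h3 .yp (by decide)
    have b6 := h3 .ym (by decide)
    simp only [dt, vec, mul_one, mul_zero, mul_neg, add_zero, zero_add, neg_zero] at *
    refine ⟨?_, abs_le.mpr ⟨?_, ?_⟩, abs_le.mpr ⟨?_, ?_⟩, abs_le.mpr ⟨?_, ?_⟩⟩ <;> try linarith
    have := key (n1 := -N.2.2) (n2 := N.1) (n3 := N.2.1) (h1 := -h.2.2) (h2 := h.1) (h3 := h.2.1)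
      (M := M) (T := T) (L := L) (by linarith) hM hT (by linarith) a1 a2 a3 a4 b3 b4 b5 b6
    linarith

end K2ROOM

open K2ROOM in
theorem T_room_proof : T_room := by
  intro T L hTL
  have hT0 : (0 : ℤ) ≤ T := Int.natCast_nonneg T
  have hL0 : (0 : ℤ) ≤ L := Int.natCast_nonneg L
  have hTL' : 2 * (L : ℤ) + 4 ≤ T := by exact_mod_cast hTL
  have hsq : 0 ≤ ((T : ℤ) + L + 20) ^ 2 := sq_nonneg _
  refine ⟨10 * ((T : ℤ) + L + 20) ^ 2 + 10000 * (T + 10), by linarith, ?_⟩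
  intro P x N y f d M hM hP hN hd hyx hyN _ hyf
  have hyx' : bnd 3 (y - x) := hyx
  have out : ∀ (v : Z3) (B : ℤ), bnd B v → 0 ≤ B → B ≤ T + L + 17 →
      3 * ((T : ℤ) + L + 20) ^ 2 < 2 * (-3000 + dt N v) → y + v ∉ P := by
    intro v B hv hB hB' hlt hmem
    have h1 := hP _ hmem
    have h2 : y + v - x = (y - x) + v := by abel
    rw [h2, dt_add] at h1
    have h3 := dt_self_le (bnd_add hyx' hv)
    have h4 : (3 + B) ^ 2 ≤ ((T : ℤ) + L + 20) ^ 2 := by
      apply pow_le_pow_left₀ (by linarith) (by linarith)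
    linarith
  refine ⟨?_, ?_⟩
  · intro j hj1 hjT
    have hj1' : (1 : ℤ) ≤ j := by exact_mod_cast hj1
    have hjT' : (j : ℤ) ≤ T := by exact_mod_cast hjT
    refine ⟨?_, ?_⟩
    · apply out _ _ (bnd_smul (by linarith) d) (by linarith) (by linarith)
      rw [dt_smul]
      have h1 : 1 * (M - 700) ≤ (j : ℤ) * dt N (vec d) :=
        mul_le_mul hj1' hd (by linarith) (by linarith)
      linarith
    · rcases Nat.lt_or_ge j 2 with h2 | h2
      · have : j = 1 := by omega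
        subst this
        simpa using hyf
      · have h2' : (2 : ℤ) ≤ j := by exact_mod_cast h2
        rw [add_assoc]
        apply out _ _ (bnd_add (bnd_vec f) (bnd_smul (by linarith : (0 : ℤ) ≤ j) d)) (by linarith)
          (by linarith)
        rw [dt_add, dt_smul]
        have h1 : 2 * (M - 700) ≤ (j : ℤ) * dt N (vec d) :=
          mul_le_mul h2' hd (by linarith) (by linarith)
        have h3 := hN (neg f)
        rw [vec_neg, dt_neg] at h3
        linarith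
  · intro h h1 h2 h3
    obtain ⟨hb1, hb2⟩ := box (by linarith) hT0 hL0 hN hd h1 h2 (by linarith) h3
    apply out _ _ hb2 (by linarith) (by linarith)
    have h4 : 0 ≤ (M - 0) * ((T : ℤ) - 2 * L - 4) := mul_nonneg (by linarith) (by linarith)
    nlinarith

end KN
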