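import Pool.Agent.H246K2.Stubs

/-!
# Project K2, task RTC: the combinatorics of the rotations `rt d f`
-/

set_option autoImplicit false

namespace KN

namespace K2RTC

lemma inv_exists : ∀ d f : Dir, perp d f → ∃ d' f' : Dir, perp d' f' ∧ rt d' f' d = .xp ∧
    rt d' f' f = .zp ∧ (∀ e, rt d' f' (rt d f e) = e) ∧ (∀ e, rt d f (rt d' f' e) = e) := by
  decide +kernel

lemma rt_neg : ∀ d f e : Dir, rt d f (neg e) = neg (rt d f e) := by
  decide +kernel

lemma vec_neg (e : Dir) : vec (neg e) = -vec e := by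
  cases e <;> simp [neg, vec]

lemma vec_rt (d f e : Dir) : vec (rt d f e) = Rp d f (vec e) := by
  cases e <;> simp [rt, Rp, vec_neg] <;> simp [vec]

lemma Rp_add (d f : Dir) (p q : Z3) : Rp d f (p + q) = Rp d f p + Rp d f q := by
  simp only [Rp, Prod.fst_add, Prod.snd_add, add_smul]
  abel

lemma Rp_smul (d f : Dir) (c : ℤ) (p : Z3) : Rp d f (c • p) = c • Rp d f p := by
  simp only [Rp, Prod.smul_fst, Prod.smul_snd, smul_eq_mul, mul_smul, smul_add]

lemma Rp_zero (d f : Dir) : Rp d f 0 = 0 := by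
  simp [Rp]

/-- a point in the standard frame -/
lemma Rp_std (p : Z3) : p.1 • vec .xp + p.2.1 • vec .yp + p.2.2 • vec .zp = p := by
  obtain ⟨a, b, c⟩ := p
  simp [vec]

lemma Rp_comp (d f d' f' : Dir) (h : ∀ e, rt d' f' (rt d f e) = e) (p : Z3) :
    Rp d' f' (Rp d f p) = p := by
  have h1 : Rp d f p = p.1 • vec (rt d f .xp) + p.2.1 • vec (rt d f .yp) +
      p.2.2 • vec (rt d f .zp) := rfl
  rw [h1, Rp_add, Rp_add, Rp_smul, Rp_smul, Rp_smul, ← vec_rt, ← vec_rt, ← vec_rt, h, h, h]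
  exact Rp_std p

lemma pos_map (d f : Dir) (w : List Dir) : pos (w.map (rt d f)) = Rp d f (pos w) := by
  induction w with
  | nil => simp [pos, Rp_zero]
  | cons e w ih => simp [pos, ih, Rp_add, vec_rt]

lemma path_map (d f : Dir) (w : List Dir) :
    path (w.map (rt d f)) = (path w).map (Rp d f) := by
  induction w with
  | nil => simp [path, Rp_zero]
  | cons e w ih => simp [path, ih, Rp_add, vec_rt, pos_map]

end K2RTC

open K2RTC in
/-- D3: rotations, combinatorics -/
theorem T_rtc_proof : T_rtc := by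
  intro d f hdf
  refine ⟨?_, rt_neg d f, fun w => ⟨pos_map d f w, path_map d f w⟩, Rp_add d f⟩
  obtain ⟨d', f', h1, h2, h3, h4, h5⟩ := inv_exists d f hdf
  exact ⟨d', f', h1, h2, h3, h4, h5, Rp_comp d f d' f' h4, Rp_comp d' f' d f h5⟩

end KN
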