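import Pool.Agent.H246K2.Stubs
import Pool.Agent.H246KN.GSAP

/-! Task SAPL (helper835): the joined word is a polygon (big left polygon, small right one). -/

set_option autoImplicit false

namespace KN

open GSAP in
theorem T_sapL_proof : T_sapL := by
  intro L l1 v l2 ⟨hP, hPx⟩ ⟨hz, hv⟩
  obtain ⟨hP1, hP2, hP3⟩ := hP
  obtain ⟨hz1, hz2, hz3⟩ := hz
  have hpv : pos v = vec .zp := by
    have h : pos v + vec .zm = 0 := hz2
    have h2 : vec Dir.zm = - vec Dir.zp := vec_neg .zp
    rw [h2, ← sub_eq_add_neg, sub_eq_zero] at h
    exact h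
  have hxx : vec Dir.xm = - vec Dir.xp := vec_neg .xp
  have hA : pos (.xm :: (v ++ .xp :: l2)) = pos l2 + vec .zp := by
    simp only [pos, pos_append]
    rw [hpv, hxx]
    abel
  have hpathP : path (l1 ++ .zp :: l2) =
      (path l1).dropLast.map (fun p => p + (pos l2 + vec .zp)) ++
        (pos l2 + vec .zp) :: path l2 := by
    rw [path_append]
    rfl
  have hrest : path (v ++ .xp :: l2) =
      (path v).map (fun p => p + (pos l2 + vec .xp)) ++ path l2 := by
    rw [path_append, ← dropLast_map_append]
    simp [path, pos]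
  have hpathG : path (join l1 v l2) =
      (path l1).dropLast.map (fun p => p + (pos l2 + vec .zp)) ++
        (pos l2 + vec .zp) :: ((path v).map (fun p => p + (pos l2 + vec .xp)) ++ path l2) := by
    unfold join
    rw [path_append, hA]
    have : path (.xm :: (v ++ .xp :: l2)) = pos (.xm :: (v ++ .xp :: l2)) :: path (v ++ .xp :: l2) :=
      rfl
    rw [this, hA, hrest]
  refine ⟨?_, ?_, ?_⟩
  · unfold join
    simp only [List.length_append, List.length_cons] at hz1 ⊢
    omega
  · unfold join
    rw [pos_append, hA]
    rw [pos_append] at hP2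
    exact hP2
  · rw [hpathG]
    rw [hpathP] at hP3
    apply nodup_insert _ _ _ _ hP3
    · refine List.Nodup.map (fun a b hab => ?_) hz3
      exact add_right_cancel hab
    · intro x hx hx2
      rw [List.mem_map] at hx
      obtain ⟨p, hp, rfl⟩ := hx
      obtain ⟨h1, h2, h3, h4, h5⟩ := hv p hp
      refine hPx _ (by rw [hpathP]; exact hx2) ?_
      simp only [Prod.fst_add, Prod.snd_add, vec]
      refine ⟨by omega, by omega, ?_, by omega, by omega⟩
      have : p.2.1 + ((pos l2).2.1 + 0) - (pos l2).2.1 = p.2.1 := by ring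
      rw [this]
      exact h3

end KN
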