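import Pool.Agent.H246K2.Stubs

/-! SEG2: two segments with a common end point. -/

set_option autoImplicit false

namespace KN

open Set

theorem T_seg2_proof : T_seg2 := by
  intro q a b hqa hqb h
  have hA : a - q ≠ 0 := sub_ne_zero.mpr (Ne.symm hqa)
  have hB : b - q ≠ 0 := sub_ne_zero.mpr (Ne.symm hqb)
  have key : ∀ u v : ℝ, lerp q a u - lerp q b v = u • (a - q) - v • (b - q) := by
    intro u v
    simp only [lerp]
    module
  have hpos : ∀ s ∈ Icc (0 : ℝ) 1, 0 < ‖s • (a - q) - (1 - s) • (b - q)‖ := by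
    intro s hs
    rw [norm_pos_iff]
    intro h0
    have hs0 : 0 < s := by
      rcases eq_or_lt_of_le hs.1 with h1 | h1
      · exfalso
        rw [← h1, zero_smul, sub_zero, one_smul, zero_sub, neg_eq_zero] at h0
        exact hB h0
      · exact h1
    have hs1 : s < 1 := by
      rcases eq_or_lt_of_le hs.2 with h1 | h1
      · exfalso
        rw [h1, one_smul, sub_self, zero_smul, sub_zero] at h0
        exact hA h0
      · exact h1
    refine h (s / 2) ((1 - s) / 2) (by linarith) (by linarith) (by linarith) (by linarith) ?_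
    rw [← sub_eq_zero, key]
    have e : (s / 2) • (a - q) - ((1 - s) / 2) • (b - q) =
        (1 / 2 : ℝ) • (s • (a - q) - (1 - s) • (b - q)) := by module
    rw [e, h0, smul_zero]
  have hcont : ContinuousOn (fun s : ℝ => ‖s • (a - q) - (1 - s) • (b - q)‖) (Icc 0 1) := by
    apply Continuous.continuousOn
    fun_prop
  obtain ⟨s₀, hs₀, hmin⟩ := isCompact_Icc.exists_isMinOn
    (nonempty_Icc.mpr (zero_le_one' ℝ)) hcont
  refine ⟨_, hpos s₀ hs₀, ?_⟩
  intro u v hu hv
  rw [key]
  rcases eq_or_lt_of_le (add_nonneg hu hv) with hr | hr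
  · rw [← hr, mul_zero]
    exact norm_nonneg _
  · have hs : u / (u + v) ∈ Icc (0 : ℝ) 1 :=
      ⟨div_nonneg hu hr.le, (div_le_one hr).mpr (by linarith)⟩
    have h1 : ‖s₀ • (a - q) - (1 - s₀) • (b - q)‖ ≤
        ‖(u / (u + v)) • (a - q) - (1 - u / (u + v)) • (b - q)‖ := hmin hs
    have e1 : (u + v) * (u / (u + v)) = u := by field_simp
    have e2 : (u + v) * (1 - u / (u + v)) = v := by field_simp; ring
    have e : u • (a - q) - v • (b - q) =
        (u + v) • ((u / (u + v)) • (a - q) - (1 - u / (u + v)) • (b - q)) := by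
      rw [smul_sub (u + v), smul_smul, smul_smul, e1, e2]
    rw [e, norm_smul, Real.norm_of_nonneg hr.le, mul_comm]
    exact mul_le_mul_of_nonneg_left h1 hr.le

end KN
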