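import Pool.Agent.H246K2.Stubs

set_option autoImplicit false

namespace KN.K2SHBO

open Finset Filter Topology
open scoped Classical

theorem lerp_self (p : V) (t : ℝ) : lerp p p t = p := by
  apply Prod.ext
  · simp only [SHX.lerp_x]; ring
  · apply Prod.ext
    · simp only [SHX.lerp_y]; ring
    · simp only [SHX.lerp_z]; ring

theorem lerp_Ts (s : ℝ) (p : V) (t : ℝ) : lerp p (Ts s p) t = Ts (1 - t + t * s) p := by
  apply Prod.ext
  · simp only [SHX.lerp_x, Ts]; ring
  · apply Prod.ext
    · simp only [SHX.lerp_y, Ts]; ring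
    · simp only [SHX.lerp_z, Ts]; ring

theorem zip_self (l : List V) (t : ℝ) : List.zipWith (fun p q => lerp p q t) l l = l := by
  induction l with
  | nil => rfl
  | cons p l ih => simp only [List.zipWith_cons_cons, lerp_self, ih]

theorem zip_map (f g : V → V) (t : ℝ) (h : ∀ p, lerp p (f p) t = g p) (l : List V) :
    List.zipWith (fun p q => lerp p q t) l (l.map f) = l.map g := by
  induction l with
  | nil => rfl
  | cons p l ih => simp only [List.map_cons, List.zipWith_cons_cons, h, ih]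

theorem simple_map (h1 : T_hgo) (h2 : T_arc1o) {L : ℕ} {lw lv : List V} (hw : HLo L lw)
    (hv : HRo L lv) (s : ℝ) (hs : 0 < s) (hs1 : s ≤ 1) : Simple (lv ++ lw.map (Ts s)) := by
  obtain ⟨a1, a2⟩ := h2 L lw s hw hs hs1
  exact h1 L lv (lw.map (Ts s)) hv a1 a2

end KN.K2SHBO

namespace KN

theorem T_shBo_proof (hlin : S_lin) (h1 : T_hgo) (h2 : T_arc1o) : T_shBo := by
  intro L lw lv hw hv s hs hs1
  refine ⟨?_, K2SHBO.simple_map h1 h2 hw hv s hs hs1.le⟩
  apply hlin _ _ (by simp)
  intro t ht0 ht1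
  rw [List.zipWith_append rfl, K2SHBO.zip_self,
    K2SHBO.zip_map (Ts s) (Ts (1 - t + t * s)) t (fun p => K2SHBO.lerp_Ts s p t)]
  apply K2SHBO.simple_map h1 h2 hw hv
  · nlinarith
  · nlinarith

end KN
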