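import Pool.Agent.H246K2.Stubs
import Pool.Agent.H246KN.SHC

set_option autoImplicit false

namespace KN

open Finset Filter Topology
open scoped Classical

theorem T_shCo_proof (hrot : S_rot) (hsub : S_sub) (hlin : S_lin) (hgo : T_hgo) (harc1 : T_arc1o)
    (harc2 : T_arc2o) : T_shCo := by
  intro L lw lv hw hv s hs hs1
  obtain ⟨m, hm⟩ := SHX.split_list (p := (0, 0, 0)) (q := (0, 0, 1)) (by simp) hw.1.2.2.1 hw.1.2.2.2
  obtain ⟨m', hm'⟩ := SHX.split_list (p := (1, 0, 1)) (q := (1, 0, 0)) (by simp) hv.2.1 hv.2.2.1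
  have hsimp : Simple (lv ++ lw.map (Ts s)) :=
    hgo L lv (lw.map (Ts s)) hv (harc1 L lw s hw hs hs1.le).1 (harc1 L lw s hw hs hs1.le).2
  -- step 1
  have s1 := hsub (((1, 0, 1) : V) :: m') (m.map (Ts s) ++ [Ts s (0, 0, 1)]) (1, 0, 0)
    (Ts s (0, 0, 0)) [1 / 2] (by simp) (by intro x hx; simp at hx; subst hx; norm_num)
  rw [List.map_cons, List.map_nil, SHC.g_zero] at s1
  have e1 : lv ++ lw.map (Ts s) = ((1, 0, 1) : V) :: m' ++ (1, 0, 0) :: Ts s (0, 0, 0) ::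
      (m.map (Ts s) ++ [Ts s (0, 0, 1)]) := by
    rw [hm, hm']; simp
  rw [e1] at hsimp
  have t1 := s1.2 hsimp
  have u1 := s1.1.mp hsimp
  -- step 2
  set R := m' ++ (((1, 0, 0) : V) :: SHX.gt s 0 :: Ts s (0, 0, 0) :: m.map (Ts s)) with hR
  have e2 : ((1, 0, 1) : V) :: m' ++ (1, 0, 0) :: [SHX.gt s 0] ++ Ts s (0, 0, 0) ::
      (m.map (Ts s) ++ [Ts s (0, 0, 1)]) = [(1, 0, 1)] ++ (R ++ [Ts s (0, 0, 1)]) := by
    rw [hR]; simp
  rw [e2] at t1 u1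
  have s2 := hrot _ _ u1
  have e3 : R ++ [Ts s (0, 0, 1)] ++ [((1, 0, 1) : V)] = R ++ Ts s (0, 0, 1) :: (1, 0, 1) :: [] := by
    simp
  -- step 3
  have s3 := hsub R [] (Ts s (0, 0, 1)) (1, 0, 1) [1 / 2] (by simp)
    (by intro x hx; simp at hx; subst hx; norm_num)
  rw [List.map_cons, List.map_nil, SHC.h_zero] at s3
  rw [e3] at s2
  have t3 := s3.2 s2.1
  have u3 := s3.1.mp s2.1
  have e4 : R ++ Ts s (0, 0, 1) :: [SHX.ht s 0] ++ ((1, 0, 1) : V) :: [] =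
      (R ++ [Ts s (0, 0, 1), SHX.ht s 0]) ++ [(1, 0, 1)] := by simp
  rw [e4] at t3 u3
  have s4 := hrot _ _ u3
  have e5 : [((1, 0, 1) : V)] ++ (R ++ [Ts s (0, 0, 1), SHX.ht s 0]) =
      lv ++ ((SHX.gt s 0 :: lw.map (Ts s)) ++ [SHX.ht s 0]) := by
    rw [hR, hm, hm']; simp
  rw [e5] at s4
  -- step 5
  have s5 : Same (lv ++ ((SHX.gt s 0 :: lw.map (Ts s)) ++ [SHX.ht s 0]))
      (lv ++ ((Ts s (1, 0, 0) :: lw.map (Ts s)) ++ [Ts s (1, 0, 1)])) := by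
    apply hlin _ _ (by simp)
    intro t ht0 ht1
    rw [List.zipWith_append rfl, SHB.zip_self, List.zipWith_append (by simp),
      List.zipWith_cons_cons, SHB.zip_self, SHC.g_lerp]
    have e6 : List.zipWith (fun p q => lerp p q t) [SHX.ht s 0] [Ts s (1, 0, 1)] = [SHX.ht s t] := by
      simp only [List.zipWith_cons_cons, List.zipWith_nil_left, SHC.h_lerp]
    rw [e6]
    obtain ⟨a1, a2⟩ := harc2 L lw s t hw hs hs1 ht0 ht1
    exact hgo L lv _ hv a1 a2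
  rw [e1]
  exact t1.trans (s2.2.trans (t3.trans (s4.2.trans s5)))

end KN
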