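import Pool.Agent.H246K2.Stubs
import Pool.Agent.H246KN.SHD
import Pool.Agent.H246KN.LIN

set_option autoImplicit false

namespace KN.K2SHDO

open Finset Filter Topology
open scoped Classical

theorem insB_eq {lw lv : List V} (hh : lv.head? = some (1, 0, 1))
    (hl : lv.getLast? = some (1, 0, 0)) (s δ : ℝ) :
    insB lv (bd s lw) (δ • (-1, 0, 0)) (δ • (0, -1, 0)) =
      lv ++ ((Ts s (1, 0, 0) :: lw.map (Ts s)) ++ [Ts s (1, 0, 1)]).map (SHD.Se δ) := by
  have h1 : lv.getLastD 0 = (1, 0, 0) := by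
    rw [List.getLastD_eq_getLast?, hl]; rfl
  have h2 : lv.headD 0 = (1, 0, 1) := by
    rw [List.headD_eq_head?_getD, hh]; rfl
  unfold insB bd
  rw [h1, h2]
  congr 1
  rw [List.map_map]
  congr 1
  funext p
  simp only [Function.comp, Fm, loc, SHD.Se]
  refine Prod.ext ?_ (Prod.ext ?_ ?_)
  · simp; ring
  · simp; ring
  · simp

theorem Om_Se {L : ℕ} {p : V} {ε : ℝ} (h0 : 0 < ε) (h1 : ε ≤ 1) (h : Om L p) :
    Om L (SHD.Se ε p) := by
  obtain ⟨a1, a2, a3, a4, a5⟩ := h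
  refine ⟨?_, ?_, ?_, a4, a5⟩
  · show -((L : ℝ) + 1) < 1 - ε * (1 - p.1)
    nlinarith
  · show 1 - ε * (1 - p.1) < 1
    nlinarith
  · show |ε * p.2.1| < (L : ℝ) + 1
    rw [abs_mul, abs_of_pos h0]
    have : 0 ≤ |p.2.1| := abs_nonneg _
    nlinarith

end KN.K2SHDO

namespace KN

theorem T_shDo_proof (h1 : T_hgo) (h2 : T_arc2o) : T_shDo := by
  intro L lw lv hw hv s hs hs1 δ hδ hδ1
  rw [K2SHDO.insB_eq hv.2.1 hv.2.2.1]
  set M := ((Ts s (1, 0, 0) :: lw.map (Ts s)) ++ [Ts s (1, 0, 1)]) with hM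
  apply S_lin_proof _ _ (by simp)
  intro t ht0 ht1
  have hε : 0 < 1 - t + t * δ := by nlinarith
  have hε1 : 1 - t + t * δ ≤ 1 := by nlinarith
  rw [List.zipWith_append rfl, SHB.zip_self,
    SHB.zip_map (SHD.Se δ) (SHD.Se (1 - t + t * δ)) t (fun p => by
      apply Prod.ext
      · simp only [SHX.lerp_x, SHD.Se]; ring
      · apply Prod.ext
        · simp only [SHX.lerp_y, SHD.Se]; ring
        · simp only [SHX.lerp_z, SHD.Se]; ring)]
  set ε := 1 - t + t * δ with hεd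
  obtain ⟨a1, a2⟩ := h2 L lw s 1 hw hs hs1 zero_le_one le_rfl
  rw [SHD.gt_one, SHD.ht_one] at a1 a2
  have e0 := SHD.chain_Se ε M
  apply h1 L lv _ hv
  · rw [e0, List.pairwise_map]
    refine a1.imp ?_
    intro e e' h u v hu0 hu1 hv0 hv1 heq
    simp only at heq
    rw [← SHD.Se_lerp, ← SHD.Se_lerp] at heq
    exact h u v hu0 hu1 hv0 hv1 (SHD.Se_inj hε heq)
  · intro e he
    rw [e0, List.mem_map] at he
    obtain ⟨e', he', rfl⟩ := he
    obtain ⟨b1, b2⟩ := a2 e' he'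
    refine ⟨fun h => b1 (SHD.Se_inj hε h), ?_⟩
    intro r hr0 hr1
    simp only
    rw [← SHD.Se_lerp]
    rcases b2 r hr0 hr1 with b3 | ⟨b3, b4, b5, b6⟩
    · left
      exact K2SHDO.Om_Se hε hε1 b3
    · right
      refine ⟨?_, ?_, b5, b6⟩
      · show 1 - ε * (1 - (lerp e'.1 e'.2 r).1) = 1
        rw [b3]; ring
      · show ε * (lerp e'.1 e'.2 r).2.1 = 0
        rw [b4]; ring

end KN
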