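import Pool.Agent.H246K2.Stubs
import Pool.Agent.H246KN.GEN

/-!
# T_shift: shift of the length
-/

set_option autoImplicit false

namespace KN

open Finset Filter Topology
open scoped Classical

noncomputable section

namespace K2SHIFT

theorem pow_bound (t : ℕ → ℝ) (B : ℝ) (hB : 0 ≤ B) (i0 : ℕ) (h : ∀ i ≥ i0, t (i + 1) ≤ B * t i)
    (r : ℕ) : ∀ i ≥ i0, t (i + r) ≤ B ^ r * t i := by
  induction r with
  | zero => intro i _; simp
  | succ r ih =>
    intro i hi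
    calc t (i + (r + 1)) = t ((i + r) + 1) := by rw [Nat.add_assoc]
      _ ≤ B * t (i + r) := h _ (by omega)
      _ ≤ B * (B ^ r * t i) := mul_le_mul_of_nonneg_left (ih i hi) hB
      _ = B ^ (r + 1) * t i := by ring

theorem u_ne : ∃ w, SAP w ∧ U w := ⟨sqw, c_sq.2.1, Or.inl (Same.refl _)⟩

theorem ratio_U : ∃ B : ℝ, 0 < B ∧ ∃ i0 : ℕ, ∀ i ≥ i0,
    (a U (2 * (i + 1)) : ℝ) ≤ B * a U (2 * i) := by
  have h1 := (class_sum U (GEN.kt_class sq) u_ne GEN.u_csum).2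
  rw [GEN.ratio_iff] at h1
  have h2 : ∀ᶠ j : ℕ in atTop, (a U (2 * j + 2) : ℝ) / a U (2 * j) < gr U ^ 2 + 1 :=
    h1.eventually (gt_mem_nhds (by linarith))
  have h3 : ∀ᶠ j : ℕ in atTop, 0 < (a U (2 * j) : ℝ) := by
    filter_upwards [class_pos U (GEN.kt_class sq) u_ne, eventually_gt_atTop 0] with j h3 hj
      using h3.trans_le (GEN.pn_le_a U j hj)
  obtain ⟨i0, hi0⟩ := eventually_atTop.1 (h2.and h3)
  refine ⟨gr U ^ 2 + 1, by positivity, i0, fun i hi => ?_⟩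
  obtain ⟨h4, h5⟩ := hi0 i hi
  rw [div_lt_iff₀ h5] at h4
  have e : 2 * (i + 1) = 2 * i + 2 := by ring
  rw [e]
  exact h4.le

end K2SHIFT

theorem T_shift_proof : T_shift := by
  intro Q s c m hs hc hm H
  obtain ⟨r, rfl⟩ : ∃ r, m = 2 * r := ⟨m / 2, by omega⟩
  obtain ⟨B, hB, i0, hi0⟩ := K2SHIFT.ratio_U
  obtain ⟨n0, hn0⟩ := eventually_atTop.1 H
  have hpow := K2SHIFT.pow_bound (fun i => (a U (2 * i) : ℝ)) B hB.le i0 hi0 r
  refine ⟨c / (2 ^ s * B ^ r), by positivity, ?_⟩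
  filter_upwards [eventually_ge_atTop (i0 + n0 + 2 * r + 1)] with j hj
  obtain ⟨i, rfl⟩ : ∃ i, j = i + r := ⟨j - r, by omega⟩
  have h1 := hpow i (by omega)
  have h2 := hn0 (2 * i) (by omega)
  have e1 : 2 * i + 2 * r = 2 * (i + r) := by ring
  rw [e1] at h2
  push_cast at h2
  have hj0 : (0 : ℝ) < ((i + r : ℕ) : ℝ) := by
    have : 0 < i + r := by omega
    exact_mod_cast this
  have h3 : (2 * ((i + r : ℕ) : ℝ)) ^ s ≤ 2 ^ s * (2 * (i : ℝ)) ^ s := by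
    rw [← Real.mul_rpow (by norm_num) (by positivity)]
    refine Real.rpow_le_rpow (by positivity) ?_ hs
    have : (r : ℝ) ≤ i := by
      have : r ≤ i := by omega
      exact_mod_cast this
    push_cast
    linarith
  have hpU : 0 ≤ (a U (2 * i) : ℝ) := Nat.cast_nonneg _
  have hpU' : 0 ≤ (a U (2 * (i + r)) : ℝ) := Nat.cast_nonneg _
  have h2s : (0 : ℝ) < 2 ^ s := by positivity
  have hBr : 0 < B ^ r := by positivity
  have key : c / (2 ^ s * B ^ r) * (2 * ((i + r : ℕ) : ℝ)) ^ s * (a U (2 * (i + r)) : ℝ) ≤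
      a Q (2 * (i + r)) := by
    calc c / (2 ^ s * B ^ r) * (2 * ((i + r : ℕ) : ℝ)) ^ s * (a U (2 * (i + r)) : ℝ)
        ≤ c / (2 ^ s * B ^ r) * (2 ^ s * (2 * (i : ℝ)) ^ s) * (B ^ r * a U (2 * i)) := by
          gcongr
      _ = c * (2 * (i : ℝ)) ^ s * a U (2 * i) := by
          field_simp
      _ ≤ a Q (2 * (i + r)) := h2
  rw [GEN.pn_eq, GEN.pn_eq, ← mul_div_assoc]
  gcongr

end

end KN
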