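import Pool.Agent.H246K2.Stubs

/-!
# The complement of the square
-/

set_option autoImplicit false

namespace KN

namespace K2SQUARE

open Filter Topology
open scoped Classical

noncomputable section

theorem sq_eq : sq = [((0 : ℝ), (0 : ℝ), (1 : ℝ)), (1, 0, 1), (1, 0, 0), (0, 0, 0)] := by
  simp [sq, vl, sqw, path, pos, vec, emb]

theorem edges_sq : edges sq = [(((0 : ℝ), (0 : ℝ), (1 : ℝ)), ((1 : ℝ), (0 : ℝ), (1 : ℝ))),
    ((1, 0, 1), (1, 0, 0)), ((1, 0, 0), (0, 0, 0)), ((0, 0, 0), (0, 0, 1))] := by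
  rw [sq_eq]; rfl

def SqS (x : V) : Prop := x.2.1 = 0 ∧ ((0 ≤ x.1 ∧ x.1 ≤ 1 ∧ (x.2.2 = 0 ∨ x.2.2 = 1)) ∨
  (0 ≤ x.2.2 ∧ x.2.2 ≤ 1 ∧ (x.1 = 0 ∨ x.1 = 1)))

theorem mem_ps_sq (x : V) : x ∈ ps sq ↔ SqS x := by
  constructor
  · rintro ⟨e, he, u, h0, h1, rfl⟩
    rw [edges_sq] at he
    simp only [List.mem_cons, List.not_mem_nil, or_false] at he
    rcases he with rfl | rfl | rfl | rfl
    · refine ⟨by simp [lerp], Or.inl ⟨by simp [lerp, h0], by simp [lerp, h1], Or.inr ?_⟩⟩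
      simp [lerp]
    · refine ⟨by simp [lerp], Or.inr ⟨by simp [lerp, h1], by simp [lerp, h0], Or.inr ?_⟩⟩
      simp [lerp]
    · refine ⟨by simp [lerp], Or.inl ⟨by simp [lerp, h1], by simp [lerp, h0], Or.inl ?_⟩⟩
      simp [lerp]
    · refine ⟨by simp [lerp], Or.inr ⟨by simp [lerp, h0], by simp [lerp, h1], Or.inl ?_⟩⟩
      simp [lerp]
  · obtain ⟨a, b, c⟩ := x
    rintro ⟨hy, h⟩
    simp only at hy h
    subst hy
    rcases h with ⟨h0, h1, h2 | h2⟩ | ⟨h0, h1, h2 | h2⟩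
    · subst h2
      refine ⟨((1, 0, 0), (0, 0, 0)), by rw [edges_sq]; simp, 1 - a, by linarith, by linarith, ?_⟩
      simp [lerp]
    · subst h2
      refine ⟨((0, 0, 1), (1, 0, 1)), by rw [edges_sq]; simp, a, by linarith, by linarith, ?_⟩
      simp [lerp]
    · subst h2
      refine ⟨((0, 0, 0), (0, 0, 1)), by rw [edges_sq]; simp, c, by linarith, by linarith, ?_⟩
      simp [lerp]
    · subst h2
      refine ⟨((1, 0, 1), (1, 0, 0)), by rw [edges_sq]; simp, 1 - c, by linarith, by linarith, ?_⟩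
      simp [lerp]

section glue

variable {G : Type} [Group G]

theorem glue (hp : T_pot2) {T : V → V → G} {O₁ O₂ : Set V} (o1 : IsOpen O₁) (o2 : IsOpen O₂)
    (h1 : ∃ φ : V → G, Pot O₁ T φ) (h2 : ∃ φ : V → G, Pot O₂ T φ)
    (hc : IsPreconnected (O₁ ∩ O₂)) : ∃ φ : V → G, Pot (O₁ ∪ O₂) T φ := by
  obtain ⟨φ₁, h1⟩ := h1
  obtain ⟨φ₂, h2⟩ := h2
  obtain ⟨κ, hκ⟩ := hp G T O₁ O₂ φ₁ φ₂ h1 h2 hc
  let φ : V → G := fun x => if x ∈ O₁ then φ₁ x else κ⁻¹ * φ₂ x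
  have e1 : ∀ x ∈ O₁, φ x = φ₁ x := fun x hx => if_pos hx
  have e2 : ∀ x ∈ O₂, φ x = κ⁻¹ * φ₂ x := by
    intro x hx
    by_cases h : x ∈ O₁
    · rw [e1 x h, hκ x ⟨h, hx⟩, inv_mul_cancel_left]
    · exact if_neg h
  refine ⟨φ, ?_⟩
  rintro x (hx | hx)
  · obtain ⟨N, hN, hN'⟩ := h1 x hx
    refine ⟨N ∩ O₁, inter_mem hN (o1.mem_nhds hx), ?_⟩
    intro a ha b hb
    rw [e1 a ha.2, e1 b hb.2]
    exact hN' a ha.1 b hb.1
  · obtain ⟨N, hN, hN'⟩ := h2 x hx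
    refine ⟨N ∩ O₂, inter_mem hN (o2.mem_nhds hx), ?_⟩
    intro a ha b hb
    rw [e2 a ha.2, e2 b hb.2, hN' a ha.1 b hb.1]
    group

end glue

def Hp : Set V := {x | 0 < x.2.1}
def Hm : Set V := {x | x.2.1 < 0}
def W1 : Set V := {x | x.1 < 0}
def W2 : Set V := {x | 1 < x.1}
def W3 : Set V := {x | x.2.2 < 0}
def W4 : Set V := {x | 1 < x.2.2}
def Vv : Set V := {x | (0 < x.1 ∧ x.1 < 1) ∧ (0 < x.2.2 ∧ x.2.2 < 1)}

theorem oHp : IsOpen Hp := isOpen_lt continuous_const (by fun_prop)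
theorem oHm : IsOpen Hm := isOpen_lt (by fun_prop) continuous_const
theorem oW1 : IsOpen W1 := isOpen_lt (by fun_prop) continuous_const
theorem oW2 : IsOpen W2 := isOpen_lt continuous_const (by fun_prop)
theorem oW3 : IsOpen W3 := isOpen_lt (by fun_prop) continuous_const
theorem oW4 : IsOpen W4 := isOpen_lt continuous_const (by fun_prop)
theorem oVv : IsOpen Vv := by
  have a1 : IsOpen {x : V | 0 < x.1} := isOpen_lt continuous_const (by fun_prop)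
  have a2 : IsOpen {x : V | x.1 < 1} := isOpen_lt (by fun_prop) continuous_const
  have a3 : IsOpen {x : V | 0 < x.2.2} := isOpen_lt continuous_const (by fun_prop)
  have a4 : IsOpen {x : V | x.2.2 < 1} := isOpen_lt (by fun_prop) continuous_const
  exact (a1.inter a2).inter (a3.inter a4)

theorem cl (f : V →ₗ[ℝ] ℝ) (r : ℝ) : Convex ℝ {x : V | f x < r} :=
  convex_halfSpace_lt f.isLinear r
theorem cg (f : V →ₗ[ℝ] ℝ) (r : ℝ) : Convex ℝ {x : V | r < f x} :=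
  convex_halfSpace_gt f.isLinear r

def l1 : V →ₗ[ℝ] ℝ := LinearMap.fst ℝ ℝ (ℝ × ℝ)
def l2 : V →ₗ[ℝ] ℝ := (LinearMap.fst ℝ ℝ ℝ).comp (LinearMap.snd ℝ ℝ (ℝ × ℝ))
def l3 : V →ₗ[ℝ] ℝ := (LinearMap.snd ℝ ℝ ℝ).comp (LinearMap.snd ℝ ℝ (ℝ × ℝ))

theorem cHp : Convex ℝ Hp := cg l2 0
theorem cHm : Convex ℝ Hm := cl l2 0
theorem cW1 : Convex ℝ W1 := cl l1 0
theorem cW2 : Convex ℝ W2 := cg l1 1
theorem cW3 : Convex ℝ W3 := cl l3 0
theorem cW4 : Convex ℝ W4 := cg l3 1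
theorem cVv : Convex ℝ Vv := ((cg l1 0).inter (cl l1 1)).inter ((cg l3 0).inter (cl l3 1))

theorem T_square_aux (hcv : T_convex) (hp : T_pot2) {G : Type} [Group G] {T : V → V → G}
    (hT : Flat (ps sq)ᶜ T) : AbOn (ps sq)ᶜ T := by
  have sub : ∀ O : Set V, (∀ x ∈ O, ¬ SqS x) → O ⊆ (ps sq)ᶜ := by
    intro O h x hx hx'
    exact h x hx ((mem_ps_sq x).1 hx')
  have pHp : ∃ φ : V → G, Pot Hp T φ := hcv G _ T hT Hp oHp cHp (sub _ (by
    rintro x hx ⟨h, -⟩; have : 0 < x.2.1 := hx; linarith))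
  have pHm : ∃ φ : V → G, Pot Hm T φ := hcv G _ T hT Hm oHm cHm (sub _ (by
    rintro x hx ⟨h, -⟩; have : x.2.1 < 0 := hx; linarith))
  have pW1 : ∃ φ : V → G, Pot W1 T φ := hcv G _ T hT W1 oW1 cW1 (sub _ (by
    rintro x hx ⟨-, ⟨h, -⟩ | ⟨-, -, h | h⟩⟩ <;> have : x.1 < 0 := hx <;> linarith))
  have pW2 : ∃ φ : V → G, Pot W2 T φ := hcv G _ T hT W2 oW2 cW2 (sub _ (by
    rintro x hx ⟨-, ⟨-, h, -⟩ | ⟨-, -, h | h⟩⟩ <;> have : 1 < x.1 := hx <;> linarith))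
  have pW3 : ∃ φ : V → G, Pot W3 T φ := hcv G _ T hT W3 oW3 cW3 (sub _ (by
    rintro x hx ⟨-, ⟨-, -, h | h⟩ | ⟨h, -⟩⟩ <;> have : x.2.2 < 0 := hx <;> linarith))
  have pW4 : ∃ φ : V → G, Pot W4 T φ := hcv G _ T hT W4 oW4 cW4 (sub _ (by
    rintro x hx ⟨-, ⟨-, -, h | h⟩ | ⟨-, h, -⟩⟩ <;> have : 1 < x.2.2 := hx <;> linarith))
  obtain ⟨φV, pV⟩ : ∃ φ : V → G, Pot Vv T φ := hcv G _ T hT Vv oVv cVv (sub _ (by
    rintro x ⟨⟨ha, hb⟩, hc, hd⟩ ⟨-, ⟨-, -, h | h⟩ | ⟨-, -, h | h⟩⟩ <;> linarith))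
  -- the union
  have q1 : ∃ φ : V → G, Pot (Hp ∪ W1) T φ := glue hp oHp oW1 pHp pW1
    (cHp.inter cW1).isPreconnected
  have o1 : IsOpen (Hp ∪ W1) := oHp.union oW1
  have q2 : ∃ φ : V → G, Pot (Hp ∪ W1 ∪ W3) T φ := by
    refine glue hp o1 oW3 q1 pW3 ?_
    rw [Set.union_inter_distrib_right]
    refine IsPreconnected.union ((-1, 1, -1) : V) ?_ ?_ (cHp.inter cW3).isPreconnected
      (cW1.inter cW3).isPreconnected
    · constructor <;> simp [Hp, W3]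
    · constructor <;> simp [W1, W3]
  have o2 : IsOpen (Hp ∪ W1 ∪ W3) := o1.union oW3
  have q3 : ∃ φ : V → G, Pot (Hp ∪ W1 ∪ W3 ∪ W2) T φ := by
    refine glue hp o2 oW2 q2 pW2 ?_
    have e : (Hp ∪ W1 ∪ W3) ∩ W2 = (Hp ∩ W2) ∪ (W3 ∩ W2) := by
      ext x
      constructor
      · rintro ⟨(h | h) | h, h2⟩
        · exact Or.inl ⟨h, h2⟩
        · exfalso
          have a : x.1 < 0 := h
          have b : 1 < x.1 := h2
          linarith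
        · exact Or.inr ⟨h, h2⟩
      · rintro (⟨h, h2⟩ | ⟨h, h2⟩)
        · exact ⟨Or.inl (Or.inl h), h2⟩
        · exact ⟨Or.inr h, h2⟩
    rw [e]
    refine IsPreconnected.union ((2, 1, -1) : V) ?_ ?_ (cHp.inter cW2).isPreconnected
      (cW3.inter cW2).isPreconnected
    · constructor <;> simp [Hp, W2]
    · constructor <;> simp [W3, W2]
  have o3 : IsOpen (Hp ∪ W1 ∪ W3 ∪ W2) := o2.union oW2
  have q4 : ∃ φ : V → G, Pot (Hp ∪ W1 ∪ W3 ∪ W2 ∪ W4) T φ := by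
    refine glue hp o3 oW4 q3 pW4 ?_
    have e : (Hp ∪ W1 ∪ W3 ∪ W2) ∩ W4 = (W1 ∩ W4) ∪ (Hp ∩ W4) ∪ (W2 ∩ W4) := by
      ext x
      constructor
      · rintro ⟨((h | h) | h) | h, h2⟩
        · exact Or.inl (Or.inr ⟨h, h2⟩)
        · exact Or.inl (Or.inl ⟨h, h2⟩)
        · exfalso
          have a : x.2.2 < 0 := h
          have b : 1 < x.2.2 := h2
          linarith
        · exact Or.inr ⟨h, h2⟩
      · rintro ((⟨h, h2⟩ | ⟨h, h2⟩) | ⟨h, h2⟩)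
        · exact ⟨Or.inl (Or.inl (Or.inr h)), h2⟩
        · exact ⟨Or.inl (Or.inl (Or.inl h)), h2⟩
        · exact ⟨Or.inr h, h2⟩
    rw [e]
    refine IsPreconnected.union ((2, 1, 2) : V) ?_ ?_ (IsPreconnected.union ((-1, 1, 2) : V) ?_ ?_
      (cW1.inter cW4).isPreconnected (cHp.inter cW4).isPreconnected)
      (cW2.inter cW4).isPreconnected
    · right; constructor <;> simp [Hp, W4]
    · constructor <;> simp [W2, W4]
    · constructor <;> simp [W1, W4]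
    · constructor <;> simp [Hp, W4]
  have o4 : IsOpen (Hp ∪ W1 ∪ W3 ∪ W2 ∪ W4) := o3.union oW4
  obtain ⟨φU, pU⟩ : ∃ φ : V → G, Pot (Hp ∪ W1 ∪ W3 ∪ W2 ∪ W4 ∪ Hm) T φ := by
    refine glue hp o4 oHm q4 pHm ?_
    have e : (Hp ∪ W1 ∪ W3 ∪ W2 ∪ W4) ∩ Hm = (W1 ∩ Hm) ∪ (W3 ∩ Hm) ∪ (W2 ∩ Hm) ∪ (W4 ∩ Hm) := by
      ext x
      constructor
      · rintro ⟨(((h | h) | h) | h) | h, h2⟩
        · exfalso
          have a : 0 < x.2.1 := h
          have b : x.2.1 < 0 := h2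
          linarith
        · exact Or.inl (Or.inl (Or.inl ⟨h, h2⟩))
        · exact Or.inl (Or.inl (Or.inr ⟨h, h2⟩))
        · exact Or.inl (Or.inr ⟨h, h2⟩)
        · exact Or.inr ⟨h, h2⟩
      · rintro (((⟨h, h2⟩ | ⟨h, h2⟩) | ⟨h, h2⟩) | ⟨h, h2⟩)
        · exact ⟨Or.inl (Or.inl (Or.inl (Or.inr h))), h2⟩
        · exact ⟨Or.inl (Or.inl (Or.inr h)), h2⟩
        · exact ⟨Or.inl (Or.inr h), h2⟩
        · exact ⟨Or.inr h, h2⟩
    rw [e]
    refine IsPreconnected.union ((-1, -1, 2) : V) ?_ ?_ (IsPreconnected.union ((2, -1, -1) : V)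
      ?_ ?_ (IsPreconnected.union ((-1, -1, -1) : V) ?_ ?_
      (cW1.inter cHm).isPreconnected (cW3.inter cHm).isPreconnected)
      (cW2.inter cHm).isPreconnected) (cW4.inter cHm).isPreconnected
    · left; left; constructor <;> simp [W1, Hm]
    · constructor <;> simp [W4, Hm]
    · right; constructor <;> simp [W3, Hm]
    · constructor <;> simp [W2, Hm]
    · constructor <;> simp [W1, Hm]
    · constructor <;> simp [W3, Hm]
  have oU : IsOpen (Hp ∪ W1 ∪ W3 ∪ W2 ∪ W4 ∪ Hm) := o4.union oHm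
  set Uu : Set V := Hp ∪ W1 ∪ W3 ∪ W2 ∪ W4 ∪ Hm with hUu
  have sHp : Hp ⊆ Uu := fun x hx => Or.inl (Or.inl (Or.inl (Or.inl (Or.inl hx))))
  have sHm : Hm ⊆ Uu := fun x hx => Or.inr hx
  have mono : ∀ {O O' : Set V} {φ : V → G}, O ⊆ O' → Pot O' T φ → Pot O T φ :=
    fun h h' x hx => h' x (h hx)
  obtain ⟨κ₁, hκ₁⟩ := hp G T Hp Vv φU φV (mono sHp pU) pV (cHp.inter cVv).isPreconnected
  obtain ⟨κ₂, hκ₂⟩ := hp G T Hm Vv φU φV (mono sHm pU) pV (cHm.inter cVv).isPreconnected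
  let φ : V → G := fun x => if x ∈ Uu then φU x else κ₁⁻¹ * φV x
  have e1 : ∀ x ∈ Uu, φ x = φU x := fun x hx => if_pos hx
  have e2 : ∀ x ∈ Vv, φ x = κ₁⁻¹ * φV x ∨ φ x = κ₂⁻¹ * φV x := by
    intro x hx
    rcases lt_trichotomy x.2.1 0 with h | h | h
    · right
      have hm : x ∈ Hm := h
      rw [e1 x (sHm hm), hκ₂ x ⟨hm, hx⟩, inv_mul_cancel_left]
    · left
      refine if_neg ?_
      rw [hUu]
      obtain ⟨⟨ha, hb⟩, hc, hd⟩ := hx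
      rintro (((((h' | h') | h') | h') | h') | h')
      · have : 0 < x.2.1 := h'
        linarith
      · have : x.1 < 0 := h'
        linarith
      · have : x.2.2 < 0 := h'
        linarith
      · have : 1 < x.1 := h'
        linarith
      · have : 1 < x.2.2 := h'
        linarith
      · have : x.2.1 < 0 := h'
        linarith
    · left
      have hm : x ∈ Hp := h
      rw [e1 x (sHp hm), hκ₁ x ⟨hm, hx⟩, inv_mul_cancel_left]
  have cov : ∀ x ∈ (ps sq)ᶜ, x ∈ Uu ∨ x ∈ Vv := by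
    intro x hx
    by_contra hcon
    push Not at hcon
    obtain ⟨hU, hV⟩ := hcon
    apply hx
    rw [mem_ps_sq]
    have n1 : ¬ (0 < x.2.1) := fun h => hU (sHp h)
    have n2 : ¬ (x.2.1 < 0) := fun h => hU (sHm h)
    have n3 : ¬ (x.1 < 0) := fun h => hU (Or.inl (Or.inl (Or.inl (Or.inl (Or.inr h)))))
    have n4 : ¬ (x.2.2 < 0) := fun h => hU (Or.inl (Or.inl (Or.inl (Or.inr h))))
    have n5 : ¬ (1 < x.1) := fun h => hU (Or.inl (Or.inl (Or.inr h)))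
    have n6 : ¬ (1 < x.2.2) := fun h => hU (Or.inl (Or.inr h))
    have n7 : ¬ ((0 < x.1 ∧ x.1 < 1) ∧ (0 < x.2.2 ∧ x.2.2 < 1)) := hV
    push Not at n1 n2 n3 n4 n5 n6
    refine ⟨le_antisymm n1 n2, ?_⟩
    by_contra hc2
    push Not at hc2
    obtain ⟨c1, c2⟩ := hc2
    have d1 := c1 n3 n5
    have d2 := c2 n4 n6
    exact n7 ⟨⟨lt_of_le_of_ne n3 (Ne.symm d2.1), lt_of_le_of_ne n5 d2.2⟩,
      lt_of_le_of_ne n4 (Ne.symm d1.1), lt_of_le_of_ne n6 d1.2⟩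
  refine ⟨φ, κ₁⁻¹ * κ₂, ?_⟩
  intro x hx
  rcases cov x hx with h | h
  · obtain ⟨N, hN, hN'⟩ := pU x h
    refine ⟨N ∩ Uu, inter_mem hN (oU.mem_nhds h), ?_⟩
    intro a ha b hb
    have : φ a * T a b * (φ b)⁻¹ = 1 := by
      rw [e1 a ha.2, e1 b hb.2, hN' a ha.1 b hb.1]
      group
    rw [this]
    exact one_mem _
  · obtain ⟨N, hN, hN'⟩ := pV x h
    refine ⟨N ∩ Vv, inter_mem hN (oVv.mem_nhds h), ?_⟩
    intro a ha b hb
    rw [hN' a ha.1 b hb.1]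
    have hk : κ₁⁻¹ * κ₂ ∈ Subgroup.zpowers (κ₁⁻¹ * κ₂) := Subgroup.mem_zpowers _
    rcases e2 a ha.2 with h1 | h1 <;> rcases e2 b hb.2 with h2 | h2 <;> rw [h1, h2]
    · have : κ₁⁻¹ * φV a * ((φV a)⁻¹ * φV b) * (κ₁⁻¹ * φV b)⁻¹ = 1 := by group
      rw [this]
      exact one_mem _
    · have : κ₁⁻¹ * φV a * ((φV a)⁻¹ * φV b) * (κ₂⁻¹ * φV b)⁻¹ = κ₁⁻¹ * κ₂ := by group
      rw [this]
      exact hk
    · have : κ₂⁻¹ * φV a * ((φV a)⁻¹ * φV b) * (κ₁⁻¹ * φV b)⁻¹ = (κ₁⁻¹ * κ₂)⁻¹ := by group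
      rw [this]
      exact inv_mem hk
    · have : κ₂⁻¹ * φV a * ((φV a)⁻¹ * φV b) * (κ₂⁻¹ * φV b)⁻¹ = 1 := by group
      rw [this]
      exact one_mem _

end

end K2SQUARE

theorem T_square_proof (h1 : T_convex) (h2 : T_pot2) : T_square :=
  fun _ _ _ hT => K2SQUARE.T_square_aux h1 h2 hT

end KN
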