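import Pool.Agent.H246K2.Stubs

/-!
# Task SSAP: insertion of a block gives a polygon
-/

set_option autoImplicit false

namespace KN

open Finset Filter Topology
open scoped Classical

namespace K2SSAP

theorem pos_replicate_xp (T : ℕ) : pos (List.replicate T Dir.xp) = ((T : ℤ), 0, 0) := by
  induction T with
  | zero => rfl
  | succ n ih =>
    rw [List.replicate_succ, pos, ih]
    ext <;> simp [vec]

theorem pos_hairR (T : ℕ) (l2 : List Dir) : pos (hairR T l2) = pos l2 + ((T : ℤ), 0, 0) := by
  unfold hairR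
  rw [pos_append, pos_replicate_xp, add_comm]

theorem eq_join (T : ℕ) (l1 v l2 : List Dir) :
    l1 ++ blk T v ++ l2 = join (hairL T l1) v (hairR T l2) := by
  unfold blk join hairL hairR
  have h : List.replicate (T + 1) Dir.xm = List.replicate T Dir.xm ++ [Dir.xm] :=
    List.replicate_succ'
  rw [h, List.replicate_succ (a := Dir.xp)]
  simp

end K2SSAP

open K2SSAP

theorem T_ssap_proof (h1 : T_hair) (h2 : T_sapL) : T_ssap := by
  intro T L l1 l2 v hS hv
  obtain ⟨hsap, hcor, hbox⟩ := hS
  obtain ⟨hs, -, hp⟩ := h1 T l1 l2 hsap hcor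
  rw [eq_join]
  refine h2 L _ v _ ⟨hs, ?_⟩ hv
  intro p hpm hb
  rw [pos_hairR] at hb
  obtain ⟨hb1, hb2, hb3, hb4, hb5⟩ := hb
  simp only [Prod.fst_add, Prod.snd_add, add_zero] at hb1 hb2 hb3 hb4 hb5
  rcases hp p hpm with h | ⟨j, hj1, hj2, h | h⟩
  · have := hbox (p - pos l2) (by simp only [Prod.fst_sub]; linarith)
      (by simp only [Prod.fst_sub]; linarith)
      (by simpa only [Prod.fst_sub, Prod.snd_sub] using hb3)
      (by simpa only [Prod.fst_sub, Prod.snd_sub] using hb4)
      (by simpa only [Prod.fst_sub, Prod.snd_sub] using hb5)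
    apply this
    rw [add_sub_cancel]
    exact h
  · subst h
    simp only [Prod.fst_add] at hb1
    have : (j : ℤ) ≤ T := by exact_mod_cast hj2
    linarith
  · subst h
    simp only [Prod.fst_add] at hb1
    have : (j : ℤ) ≤ T := by exact_mod_cast hj2
    linarith

end KN
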