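import Pool.Agent.H246K2.Stubs

/-!
# K2 STEP: near every contact there is a good spot
-/

set_option autoImplicit false

namespace KN

open Finset Filter Topology
open scoped Classical

namespace K2STEP

theorem near_Rp (r : ℕ) (d f : Dir) (h : perp d f) (p q : Z3) (hn : near r p q) :
    near r (Rp d f p) (Rp d f q) := by
  obtain ⟨a, b, c⟩ := p
  obtain ⟨a', b', c'⟩ := q
  unfold near at hn ⊢
  unfold Rp
  simp only [abs_le] at hn ⊢
  cases d <;> cases f <;>
    first
      | exact absurd h (by decide)
      | (simp only [cr, vec, neg, Prod.smul_mk, Prod.mk_add_mk, smul_eq_mul, mul_one, mul_zero,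
          mul_neg, add_zero, zero_add] at *; omega)

theorem rmD_of_big (T L : ℕ) (w : List Dir) (y : Z3) (d f : Dir) (hdf : perp d f)
    (hB : Big T L {p | p ∈ path w} y f d) : RmD T L d f w y := by
  obtain ⟨hB1, hB2⟩ := hB
  refine ⟨fun j hj hj' => ?_, fun h h1 h2 h3 h4 h5 => ?_⟩
  · have := hB1 j hj hj'
    refine ⟨?_, ?_⟩
    · have e : Rp d f ((j : ℤ), 0, 0) = (j : ℤ) • vec d := by simp [Rp]
      rw [e]; exact this.1
    · have e : y + Rp d f ((j : ℤ), 0, 1) = y + vec f + (j : ℤ) • vec d := by
        simp only [Rp, zero_smul, one_smul, add_zero]; abel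
      rw [e]; exact this.2
  · obtain ⟨a, b, c⟩ := h
    simp only [abs_le] at h1 h2 h3 h4 h5
    refine hB2 _ ?_ ?_ ?_
    · cases d <;> cases f <;>
      first
        | exact absurd hdf (by decide)
        | (simp only [Rp, dt, cr, vec, neg, Prod.smul_mk, Prod.mk_add_mk, smul_eq_mul, mul_one,
            mul_zero, mul_neg, add_zero, zero_add]; omega)
    · cases d <;> cases f <;>
      first
        | exact absurd hdf (by decide)
        | (simp only [Rp, dt, cr, vec, neg, Prod.smul_mk, Prod.mk_add_mk, smul_eq_mul, mul_one,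
            mul_zero, mul_neg, add_zero, zero_add]; omega)
    · intro g hg
      cases d <;> cases f <;>
      first
        | exact absurd hdf (by decide)
        | (cases g <;>
          first
            | exact absurd hg (by decide)
            | (simp only [Rp, dt, cr, vec, neg, Prod.smul_mk, Prod.mk_add_mk, smul_eq_mul,
                mul_one, mul_zero, mul_neg, add_zero, zero_add]; omega))

theorem rmD_of_big' (T L : ℕ) (w : List Dir) (y : Z3) (d f : Dir) (hdf : perp d f)
    (hB : Big T L {p | p ∈ path w} y f d) : RmD T L d (neg f) w (y + vec f) := by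
  obtain ⟨hB1, hB2⟩ := hB
  refine ⟨fun j hj hj' => ?_, fun h h1 h2 h3 h4 h5 => ?_⟩
  · have := hB1 j hj hj'
    refine ⟨?_, ?_⟩
    · have e : Rp d (neg f) ((j : ℤ), 0, 0) = (j : ℤ) • vec d := by simp [Rp]
      rw [e]; exact this.2
    · have e : y + vec f + Rp d (neg f) ((j : ℤ), 0, 1) = y + (j : ℤ) • vec d := by
        simp only [Rp, zero_smul, one_smul, add_zero, vec_neg]; abel
      rw [e]; exact this.1
  · obtain ⟨a, b, c⟩ := h
    simp only [abs_le] at h1 h2 h3 h4 h5
    rw [add_assoc]
    refine hB2 _ ?_ ?_ ?_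
    · cases d <;> cases f <;>
      first
        | exact absurd hdf (by decide)
        | (simp only [Rp, dt, cr, vec, neg, Prod.smul_mk, Prod.mk_add_mk, smul_eq_mul, mul_one,
            mul_zero, mul_neg, add_zero, zero_add]; omega)
    · cases d <;> cases f <;>
      first
        | exact absurd hdf (by decide)
        | (simp only [Rp, dt, cr, vec, neg, Prod.smul_mk, Prod.mk_add_mk, smul_eq_mul, mul_one,
            mul_zero, mul_neg, add_zero, zero_add]; omega)
    · intro g hg
      cases d <;> cases f <;>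
      first
        | exact absurd hdf (by decide)
        | (cases g <;>
          first
            | exact absurd hg (by decide)
            | (simp only [Rp, dt, cr, vec, neg, Prod.smul_mk, Prod.mk_add_mk, smul_eq_mul,
                mul_one, mul_zero, mul_neg, add_zero, zero_add]; omega))

/-- a rotation that maps `d` to `xp` and `f` to `zp` -/
theorem frame (h2 : T_rt) (h3 : T_rtc) (d f : Dir) (hdf : perp d f) :
    ∃ d' f' : Dir, perp d' f' ∧ rt d' f' d = .xp ∧ rt d' f' f = .zp ∧ rt d' f' (neg d) = .xm ∧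
      (∀ l : List Dir, pos (l.map (rt d' f')) = Rp d' f' (pos l)) ∧
      (∀ (l : List Dir) (p : Z3), p ∈ path (l.map (rt d' f')) → Rp d f p ∈ path l) ∧
      (∀ y h : Z3, Rp d f (Rp d' f' y + h) = y + Rp d f h) ∧
      (∀ l : List Dir, SAP l →
        SAP (l.map (rt d' f')) ∧ Same (vl l) (vl (l.map (rt d' f')))) := by
  obtain ⟨⟨d', f', hp, hd, hf, he1, he2, hR1, hR2⟩, hneg, hpos, hadd⟩ := h3 d f hdf
  obtain ⟨-, hneg', hpos', hadd'⟩ := h3 d' f' hp
  refine ⟨d', f', hp, hd, hf, ?_, fun l => (hpos' l).1, ?_, ?_, fun l hl => h2 d' f' hp l hl⟩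
  · rw [hneg', hd]; rfl
  · intro l p h
    rw [(hpos' l).2, List.mem_map] at h
    obtain ⟨q, hq, rfl⟩ := h
    rw [hR2]; exact hq
  · intro y h
    rw [hadd, hR2]

/-- two occurrences of a vertex of a polygon -/
theorem uniq {w : List Dir} (hw : SAP w) {a b a' b' : List Dir} (h : w = a ++ b)
    (h' : w = a' ++ b') (hp : pos b = pos b') (h0 : pos b ≠ 0) : a = a' ∧ b = b' := by
  obtain ⟨-, hcl, hnd⟩ := hw
  have hlen : a.length = a'.length := by
    have key : ∀ (u v : List Dir), w = u ++ v → pos v ≠ 0 → ∃ hi : u.length - 1 <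
        (path w).tail.length, (path w).tail[u.length - 1] = pos v ∧ 1 ≤ u.length := by
      intro u v huv hv
      have hu : 1 ≤ u.length := by
        rcases Nat.eq_zero_or_pos u.length with h | h
        · exfalso
          rw [List.length_eq_zero_iff] at h
          rw [h, List.nil_append] at huv
          rw [huv] at hcl
          exact hv hcl
        · exact h
      have hle : u.length - 1 < (path w).tail.length := by
        rw [List.length_tail, path_length, huv, List.length_append]; omega
      refine ⟨hle, ?_, hu⟩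
      rw [List.getElem_tail, path_getElem]
      rw [show u.length - 1 + 1 = u.length by omega, huv, List.drop_left]
    obtain ⟨hi, hi1, hi2⟩ := key a b h h0
    obtain ⟨hi', hi1', hi2'⟩ := key a' b' h' (by rw [← hp]; exact h0)
    have : a.length - 1 = a'.length - 1 := by
      refine (List.Nodup.getElem_inj_iff hnd (hi := hi) (hj := hi')).1 ?_
      rw [hi1, hi1', hp]
    omega
  exact List.append_inj (h.symm.trans h') hlen

/-- room in the rotated frame -/
theorem rm_rot (T L : ℕ) (w : List Dir) (y : Z3) (d f d' f' : Dir)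
    (hmem : ∀ (l : List Dir) (p : Z3), p ∈ path (l.map (rt d' f')) → Rp d f p ∈ path l)
    (hadd : ∀ y h : Z3, Rp d f (Rp d' f' y + h) = y + Rp d f h)
    (hR : RmD T L d f w y) : Rm T L (w.map (rt d' f')) (Rp d' f' y) := by
  obtain ⟨h1, h2⟩ := hR
  refine ⟨fun j hj hj' => ⟨fun h => ?_, fun h => ?_⟩, fun g g1 g2 g3 g4 g5 h => ?_⟩
  · have := hmem _ _ h
    rw [hadd] at this
    exact (h1 j hj hj').1 this
  · have := hmem _ _ h
    rw [hadd] at this
    exact (h1 j hj hj').2 this
  · have := hmem _ _ h
    rw [hadd] at this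
    exact h2 g g1 g2 g3 g4 g5 this

/-- room for a smaller polygon -/
theorem rm_mono (T L : ℕ) (w w' : List Dir) (y z : Z3)
    (hsub : ∀ p ∈ path w', p ∈ path w ∨ p = z) (hz : z.1 = y.1)
    (hR : Rm T L w y) : Rm T L w' y := by
  obtain ⟨h1, h2⟩ := hR
  have key : ∀ g : Z3, 1 ≤ g.1 → y + g ∉ path w → y + g ∉ path w' := by
    intro g hg hn h
    rcases hsub _ h with h | h
    · exact hn h
    · have := congrArg Prod.fst h
      rw [Prod.fst_add, hz] at this
      omega
  refine ⟨fun j hj hj' => ⟨key _ (by simp; omega) (h1 j hj hj').1,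
    key _ (by simp; omega) (h1 j hj hj').2⟩, fun g g1 g2 g3 g4 g5 => key g (by omega)
    (h2 g g1 g2 g3 g4 g5)⟩

theorem near_le {r s : ℕ} (h : r ≤ s) {p q : Z3} (hn : near r p q) : near s p q := by
  unfold near at *
  have : (r : ℤ) ≤ s := by exact_mod_cast h
  exact ⟨hn.1.trans this, hn.2.1.trans this, hn.2.2.trans this⟩

theorem near_add {r : ℕ} {p q : Z3} (f : Dir) (hn : near r p q) : near (r + 1) (p + vec f) q := by
  obtain ⟨a, b, c⟩ := p
  obtain ⟨a', b', c'⟩ := q
  unfold near at *
  simp only [abs_le] at *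
  cases f <;> simp only [vec, Prod.mk_add_mk] at * <;> push_cast <;> omega

end K2STEP

open K2STEP in
theorem T_step_proof (h1 : T_gra) (h2 : T_rt) (h3 : T_rtc) (h4 : T_flip) : T_step := by
  intro T L R hL w hw x N hx h60
  obtain ⟨y, f, d, hyx, hdf, hB, hE⟩ := hL _ _ (h1 w hw) x N hx
  have hdf' : perp d (neg f) := by
    revert hdf; cases d <;> cases f <;> decide
  have R1 := rmD_of_big T L w y d f hdf hB
  have R2 := rmD_of_big' T L w y d f hdf hB
  rcases hE with hE | ⟨hE1, hE2, hyf⟩
  · rcases hE with ⟨l1, l2, hl, hl2⟩ | ⟨l1, l2, hl, hl2⟩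
    · obtain ⟨d', f', hp, hd, hf, -, hpos, hmem, hadd, hsap⟩ := frame h2 h3 d f hdf
      have hmap : w.map (rt d' f') = l1.map (rt d' f') ++ .zp :: l2.map (rt d' f') := by
        rw [hl, List.map_append, List.map_cons, hf]
      refine ⟨d', f', l1.map (rt d' f'), l2.map (rt d' f'), ⟨hp, ⟨?_, ?_⟩, ?_, Or.inl hmap⟩, ?_⟩
      · rw [← hmap]; exact (hsap w hw).1
      · rw [← hmap, hpos, hl2]
        exact rm_rot T L w y d f d' f' hmem hadd R1
      · rw [← hmap]; exact (hsap w hw).2
      · rw [hpos, hl2]
        exact near_Rp 6 d' f' hp _ _ (near_le (by norm_num) hyx)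
    · obtain ⟨d', f', hp, hd, hf, -, hpos, hmem, hadd, hsap⟩ := frame h2 h3 d (neg f) hdf'
      have hmap : w.map (rt d' f') = l1.map (rt d' f') ++ .zp :: l2.map (rt d' f') := by
        rw [hl, List.map_append, List.map_cons, hf]
      refine ⟨d', f', l1.map (rt d' f'), l2.map (rt d' f'), ⟨hp, ⟨?_, ?_⟩, ?_, Or.inl hmap⟩, ?_⟩
      · rw [← hmap]; exact (hsap w hw).1
      · rw [← hmap, hpos, hl2]
        exact rm_rot T L w _ d (neg f) d' f' hmem hadd R2
      · rw [← hmap]; exact (hsap w hw).2
      · rw [hpos, hl2]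
        exact near_Rp 6 d' f' hp _ _ (near_le (by norm_num) (near_add f hyx))
  · have hq0 : y + vec (neg d) ≠ 0 := by
      intro h
      apply h60
      have hy : y = vec d := by
        rw [vec_neg] at h
        exact eq_of_sub_eq_zero (by rw [sub_eq_add_neg]; exact h)
      rw [hy] at hyx
      obtain ⟨a, b, c⟩ := x
      unfold near at *
      simp only [abs_le] at *
      cases d <;> simp only [vec, Prod.fst_zero, Prod.snd_zero] at * <;> omega
    rcases hE1 with ⟨l1, l2, hl, hl2⟩ | ⟨l1, l2, hl, hl2⟩
    · have hl2' : pos (neg d :: l2) = y + vec (neg d) := by rw [pos, hl2]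
      rcases hE2 with ⟨m1, m2, hm, hm2⟩ | ⟨m1, m2, hm, hm2⟩
      · -- first `neg d`, then `f`
        have hA : w = (l1 ++ []) ++ neg d :: l2 := by rw [List.append_nil]; exact hl
        have hA' : w = (m1 ++ [f]) ++ m2 := by rw [hm]; simp
        obtain ⟨-, hA2⟩ := uniq hw hA hA' (by rw [hl2', hm2]) (by rw [hl2']; exact hq0)
        subst hA2
        obtain ⟨d', f', hp, hd, hf, hdn, hpos, hmem, hadd, hsap⟩ := frame h2 h3 d f hdf
        have hmap : w.map (rt d' f') = m1.map (rt d' f') ++ .zp :: .xm :: l2.map (rt d' f') := by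
          rw [hm, List.map_append, List.map_cons, List.map_cons, hf, hdn]
        have hvz : Rp d f (vec .zp) = vec f := by simp [Rp, vec]
        have hnew : pos (l2.map (rt d' f')) + vec .zp ∉ path (w.map (rt d' f')) := by
          intro h
          have := hmem _ _ h
          rw [hpos, hl2, hadd, hvz] at this
          exact hyf this
        obtain ⟨g1, g2, g3⟩ := h4 (m1.map (rt d' f')) (l2.map (rt d' f')) .zp .xm (by decide)
          (by rw [← hmap]; exact (hsap w hw).1) (by rw [← hmap]; exact hnew)
        have hl' : (m1.map (rt d' f') ++ [.xm]) ++ .zp :: l2.map (rt d' f') =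
          m1.map (rt d' f') ++ .xm :: .zp :: l2.map (rt d' f') := by simp
        refine ⟨d', f', m1.map (rt d' f') ++ [.xm], l2.map (rt d' f'), ⟨hp, ⟨?_, ?_⟩, ?_,
          Or.inr (Or.inl ⟨_, rfl, hmap, hnew⟩)⟩, ?_⟩
        · rw [hl']; exact g1
        · rw [hl']
          refine rm_mono T L (w.map (rt d' f')) _ _ _ (by rw [hmap]; exact g3) ?_ ?_
          · simp [vec]
          · rw [hpos, hl2]
            exact rm_rot T L w y d f d' f' hmem hadd R1
        · rw [hl']
          refine (hsap w hw).2.trans ?_
          rw [hmap]; exact g2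
        · rw [hpos, hl2]
          exact near_Rp 6 d' f' hp _ _ (near_le (by norm_num) hyx)
      · exfalso
        have hm2' : pos (neg f :: m2) = y + vec (neg d) := by
          rw [pos, hm2, vec_neg f]; abel
        obtain ⟨-, hA2⟩ := uniq hw hl hm (by rw [hl2', hm2']) (by rw [hl2']; exact hq0)
        have := (List.cons.inj hA2).1
        have h' : d = f := by rw [← neg_neg_dir d, this, neg_neg_dir]
        rw [h'] at hdf
        exact hdf rfl
    · rw [neg_neg_dir] at hl
      rcases hE2 with ⟨m1, m2, hm, hm2⟩ | ⟨m1, m2, hm, hm2⟩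
      · exfalso
        have hA : w = (l1 ++ [d]) ++ l2 := by rw [hl]; simp
        have hA' : w = (m1 ++ [f]) ++ m2 := by rw [hm]; simp
        obtain ⟨hA1, -⟩ := uniq hw hA hA' (by rw [hl2, hm2]) (by rw [hl2]; exact hq0)
        have := List.append_inj_right' hA1 rfl
        have h' : d = f := (List.cons.inj this).1
        rw [h'] at hdf
        exact hdf rfl
      · -- first `neg f`, then `d`
        have hm2' : pos (neg f :: m2) = y + vec (neg d) := by
          rw [pos, hm2, vec_neg f]; abel
        have hA : w = (l1 ++ [d]) ++ l2 := by rw [hl]; simp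
        obtain ⟨-, hA2⟩ := uniq hw hA hm (by rw [hl2, hm2']) (by rw [hl2]; exact hq0)
        subst hA2
        obtain ⟨d', f', hp, hd, hf, hdn, hpos, hmem, hadd, hsap⟩ := frame h2 h3 d (neg f) hdf'
        have hmap : w.map (rt d' f') = l1.map (rt d' f') ++ .xp :: .zp :: m2.map (rt d' f') := by
          rw [hl, List.map_append, List.map_cons, List.map_cons, hf, hd]
        have hvx : Rp d (neg f) (vec .xp) = vec d := by simp [Rp, vec]
        have hpd : pos (m2.map (rt d' f')) + vec .xp = Rp d' f' (y + vec f) := by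
          obtain ⟨-, -, -, hadd2⟩ := h3 d' f' hp
          rw [hpos, hm2, show y + vec f = (y + vec (neg d) + vec f) + vec d by
            rw [vec_neg]; abel, hadd2 _ (vec d)]
          congr 1
          have := hpos [d]
          simp only [List.map_cons, List.map_nil, pos, zero_add, hd] at this
          exact this
        have hnew : pos (m2.map (rt d' f')) + vec .xp ∉ path (w.map (rt d' f')) := by
          intro h
          have := hmem _ _ h
          rw [hpos, hadd, hvx, hm2, show y + vec (neg d) + vec f + vec d = y + vec f by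
            rw [vec_neg]; abel] at this
          exact hyf this
        obtain ⟨g1, g2, g3⟩ := h4 (l1.map (rt d' f')) (m2.map (rt d' f')) .xp .zp (by decide)
          (by rw [← hmap]; exact (hsap w hw).1) (by rw [← hmap]; exact hnew)
        refine ⟨d', f', l1.map (rt d' f'), .xp :: m2.map (rt d' f'), ⟨hp, ⟨g1, ?_⟩, ?_,
          Or.inr (Or.inr ⟨_, rfl, hmap, hnew⟩)⟩, ?_⟩
        · refine rm_mono T L (w.map (rt d' f')) _ _ _ (by rw [hmap]; exact g3) rfl ?_
          rw [show pos (Dir.xp :: m2.map (rt d' f')) = Rp d' f' (y + vec f) from hpd]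
          exact rm_rot T L w _ d (neg f) d' f' hmem hadd R2
        · refine (hsap w hw).2.trans ?_
          rw [hmap]; exact g2
        · rw [show pos (Dir.xp :: m2.map (rt d' f')) = Rp d' f' (y + vec f) from hpd]
          exact near_Rp 6 d' f' hp _ _ (near_le (by norm_num) (near_add f hyx))

end KN
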