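import Pool.Agent.H246K2.Stubs

/-!
# G17: the gauge field of the trefoil
-/

set_option autoImplicit false

namespace KN

namespace K2TFLAT

/-- computable version of `Eg` -/
def EgB (w : List Dir) (q : Z3) (f : Dir) : Bool :=
  (List.range w.length).any (fun i =>
    (decide (w.getD i .xp = f) && decide (pos (w.drop (i + 1)) = q)) ||
    (decide (w.getD i .xp = neg f) && decide (pos (w.drop (i + 1)) = q + vec f)))

theorem split_at (w : List Dir) (i : ℕ) (h : i < w.length) :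
    w = w.take i ++ w.getD i .xp :: w.drop (i + 1) := by
  rw [List.getD_eq_getElem _ _ h, List.getElem_cons_drop, List.take_append_drop]

theorem Eg_of_EgB {w : List Dir} {q : Z3} {f : Dir} (h : EgB w q f = true) : Eg w q f := by
  unfold EgB at h
  rw [List.any_eq_true] at h
  obtain ⟨i, hi, h⟩ := h
  rw [List.mem_range] at hi
  rw [Bool.or_eq_true, Bool.and_eq_true, Bool.and_eq_true, decide_eq_true_eq, decide_eq_true_eq,
    decide_eq_true_eq, decide_eq_true_eq] at h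
  refine ⟨w.take i, w.drop (i + 1), ?_⟩
  rcases h with ⟨h1, h2⟩ | ⟨h1, h2⟩
  · left
    refine ⟨?_, h2⟩
    rw [← h1]
    exact split_at w i hi
  · right
    refine ⟨?_, h2⟩
    rw [← h1]
    exact split_at w i hi

/-- computable version of `tel` -/
def telc (r i : ℤ) : S3 := if (r = 0 ∧ 0 ≤ i ∧ i < 2) ∨ (r = 1 ∧ 1 ≤ i ∧ i < 3) ∨
  (r = 2 ∧ 2 ≤ i ∧ i < 4) ∨ (r = 3 ∧ 0 ≤ i ∧ i < 3) ∨ (r = 4 ∧ 1 ≤ i ∧ i < 4) then trow r else 1

theorem tel_eq (r i : ℤ) : tel r i = telc r i := by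
  unfold tel telc
  split_ifs with h1 h2 h2
  · rfl
  · exact absurd h1 h2
  · exact absurd h2 h1
  · rfl

theorem telc_out (r i : ℤ) (h : r < 0 ∨ 4 < r ∨ i < 0 ∨ 4 ≤ i) : telc r i = 1 := by
  unfold telc
  apply if_neg
  omega

/-- the products -/
def Pc (y i : ℤ) : S3 :=
    (if y < 0 then telc 0 i else 1) * (if y < 1 then telc 1 i else 1) *
    (if y < 2 then telc 2 i else 1) * (if y < 3 then telc 3 i else 1) *
    (if y < 4 then telc 4 i else 1)

theorem g2_eq (c : Z3) : tgauge.g2 c = if c.2.2 = 0 then telc (c.2.1 + 1) c.1 else 1 := by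
  show (if c.2.2 = 0 then tel (c.2.1 + 1) c.1 else 1) = _
  rw [tel_eq]

theorem g3_eq (c : Z3) : tgauge.g3 c = if c.2.2 = 0 then Pc c.2.1 c.1 else 1 := by
  show (if c.2.2 = 0 then
    (if c.2.1 < 0 then tel 0 c.1 else 1) * (if c.2.1 < 1 then tel 1 c.1 else 1) *
    (if c.2.1 < 2 then tel 2 c.1 else 1) * (if c.2.1 < 3 then tel 3 c.1 else 1) *
    (if c.2.1 < 4 then tel 4 c.1 else 1) else 1) = _
  simp only [tel_eq]
  rfl

theorem Pc_out (y i : ℤ) (h : i < 0 ∨ 4 ≤ i) : Pc y i = 1 := by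
  unfold Pc
  simp only [telc_out _ i (Or.inr (Or.inr h)), ite_self, mul_one]

theorem Pc_big (y i : ℤ) (h : 4 ≤ y) : Pc y i = 1 := by
  unfold Pc
  rw [if_neg (by omega), if_neg (by omega), if_neg (by omega), if_neg (by omega),
    if_neg (by omega)]
  rfl

theorem Pc_neg' (y i : ℤ) (h : y < 0) : Pc y i = Pc (-1) i := by
  unfold Pc
  rw [if_pos (by omega), if_pos (by omega), if_pos (by omega), if_pos (by omega),
    if_pos (by omega), if_pos (by omega), if_pos (by omega), if_pos (by omega),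
    if_pos (by omega), if_pos (by omega)]

theorem chk1 : ∀ i : Fin 4, Pc (-1) (i : ℕ) = 1 := by decide +kernel

theorem Pc_neg (y i : ℤ) (h : y < 0) : Pc y i = 1 := by
  rw [Pc_neg' y i h]
  by_cases h1 : i < 0 ∨ 4 ≤ i
  · exact Pc_out _ _ h1
  · obtain ⟨n, rfl⟩ := Int.eq_ofNat_of_zero_le (show 0 ≤ i by omega)
    exact chk1 ⟨n, by omega⟩

theorem chk2 : ∀ a : Fin 5, ∀ b : Fin 5,
    EgB (.zm :: v0) (((a : ℕ) : ℤ), ((b : ℕ) : ℤ), 0) .zp = true ∨
      telc (b : ℕ) (a : ℕ) = telc (b : ℕ) ((a : ℕ) - 1) := by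
  decide +kernel

theorem chk3 : ∀ a : Fin 5, ∀ b : Fin 5,
    EgB (.zm :: v0) (((a : ℕ) : ℤ), ((b : ℕ) : ℤ), 1) .yp = true ∨
      Pc (b : ℕ) (a : ℕ) = Pc (b : ℕ) ((a : ℕ) - 1) := by
  decide +kernel

theorem chk4 : ∀ a : Fin 4, ∀ b : Fin 5,
    EgB (.zm :: v0) (((a : ℕ) : ℤ), ((b : ℕ) : ℤ), 0) .xp = true ∨
      telc (b : ℕ) (a : ℕ) = 1 := by
  decide +kernel

theorem chk5 : ∀ a : Fin 4, ∀ b : Fin 5,
      telc (b : ℕ) (a : ℕ) * Pc (b : ℕ) (a : ℕ) = Pc ((b : ℕ) - 1) (a : ℕ) := by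
  decide +kernel

theorem chk6 : ∀ b : Fin 5, telc (b : ℕ) 0 = (if ((b : ℕ) : ℤ) = 0 then Equiv.swap 0 1 else 1) ∨
    EgB v0 (0, ((b : ℕ) : ℤ), 0) .zp = true := by
  decide +kernel

theorem chk7 : ∀ b : Fin 5, Pc (b : ℕ) 0 = 1 ∨
    EgB v0 (0, ((b : ℕ) : ℤ), 1) .yp = true := by
  decide +kernel

theorem f12 (x y z : ℤ) : Eg (.zm :: v0) (x, y, z) .zp ∨ Fl12 tgauge (x, y, z) := by
  unfold Fl12
  rw [g2_eq, g2_eq]
  show _ ∨ (1 * (if z - 0 = 0 then telc (y - 1 + 1) (x - 0) else 1) =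
    (if z - 0 = 0 then telc (y - 1 + 1) (x - 1) else 1) * 1)
  rw [one_mul, mul_one, sub_zero, sub_zero, sub_add_cancel]
  by_cases hz : z = 0
  · subst hz
    rw [if_pos rfl, if_pos rfl]
    by_cases hy : y < 0 ∨ 4 < y
    · right
      rw [telc_out _ _ (by omega), telc_out _ _ (by omega)]
    · by_cases hx : x < 0 ∨ 4 < x
      · right
        rw [telc_out _ _ (by omega), telc_out _ _ (by omega)]
      · obtain ⟨a, rfl⟩ := Int.eq_ofNat_of_zero_le (show 0 ≤ x by omega)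
        obtain ⟨b, rfl⟩ := Int.eq_ofNat_of_zero_le (show 0 ≤ y by omega)
        rcases chk2 ⟨a, by omega⟩ ⟨b, by omega⟩ with h | h
        · exact Or.inl (Eg_of_EgB h)
        · exact Or.inr h
  · right
    rw [if_neg hz, if_neg hz]

theorem f13 (x y z : ℤ) : Eg (.zm :: v0) (x, y, z) .yp ∨ Fl13 tgauge (x, y, z) := by
  unfold Fl13
  rw [g3_eq, g3_eq]
  show _ ∨ (1 * (if z - 1 = 0 then Pc (y - 0) (x - 0) else 1) =
    (if z - 1 = 0 then Pc (y - 0) (x - 1) else 1) * 1)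
  rw [one_mul, mul_one, sub_zero, sub_zero]
  by_cases hz : z - 1 = 0
  · have hz1 : z = 1 := by omega
    subst hz1
    rw [if_pos (by norm_num), if_pos (by norm_num)]
    by_cases hy : y < 0
    · right
      rw [Pc_neg _ _ hy, Pc_neg _ _ hy]
    · by_cases hy2 : 4 < y
      · right
        rw [Pc_big _ _ (by omega), Pc_big _ _ (by omega)]
      · by_cases hx : x < 0 ∨ 4 < x
        · right
          rw [Pc_out _ _ (by omega), Pc_out _ _ (by omega)]
        · obtain ⟨a, rfl⟩ := Int.eq_ofNat_of_zero_le (show 0 ≤ x by omega)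
          obtain ⟨b, rfl⟩ := Int.eq_ofNat_of_zero_le (show 0 ≤ y by omega)
          rcases chk3 ⟨a, by omega⟩ ⟨b, by omega⟩ with h | h
          · exact Or.inl (Eg_of_EgB h)
          · exact Or.inr h
  · right
    rw [if_neg hz, if_neg hz]

theorem f23 (x y z : ℤ) : Eg (.zm :: v0) (x, y, z) .xp ∨ Fl23 tgauge (x, y, z) := by
  unfold Fl23
  rw [g3_eq, g3_eq, g2_eq, g2_eq]
  show _ ∨ ((if z - 1 = 0 then telc (y - 1 + 1) (x - 0) else 1) *
    (if z - 1 = 0 then Pc (y - 0) (x - 0) else 1) =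
    (if z - 1 = 0 then Pc (y - 1) (x - 0) else 1) *
    (if z - 0 = 0 then telc (y - 1 + 1) (x - 0) else 1))
  rw [sub_zero, sub_zero, sub_zero, sub_add_cancel]
  by_cases hz : z - 1 = 0
  · have hz1 : z = 1 := by omega
    subst hz1
    right
    rw [if_pos (by norm_num), if_pos (by norm_num), if_pos (by norm_num), if_neg (by norm_num),
      mul_one]
    by_cases hy : y < 0
    · rw [Pc_neg _ _ hy, Pc_neg _ _ (by omega), telc_out _ _ (by omega), one_mul]
    · by_cases hy2 : 4 < y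
      · rw [Pc_big _ _ (by omega), Pc_big _ _ (by omega), telc_out _ _ (by omega), one_mul]
      · by_cases hx : x < 0 ∨ 4 ≤ x
        · rw [Pc_out _ _ (by omega), Pc_out _ _ (by omega), telc_out _ _ (by omega), one_mul]
        · obtain ⟨a, rfl⟩ := Int.eq_ofNat_of_zero_le (show 0 ≤ x by omega)
          obtain ⟨b, rfl⟩ := Int.eq_ofNat_of_zero_le (show 0 ≤ y by omega)
          exact chk5 ⟨a, by omega⟩ ⟨b, by omega⟩
  · rw [if_neg hz, if_neg hz, if_neg hz, one_mul, one_mul]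
    by_cases hz0 : z = 0
    · subst hz0
      rw [if_pos rfl]
      by_cases hh : y < 0 ∨ 4 < y ∨ x < 0 ∨ 4 ≤ x
      · right
        rw [telc_out _ _ hh]
      · obtain ⟨a, rfl⟩ := Int.eq_ofNat_of_zero_le (show 0 ≤ x by omega)
        obtain ⟨b, rfl⟩ := Int.eq_ofNat_of_zero_le (show 0 ≤ y by omega)
        rcases chk4 ⟨a, by omega⟩ ⟨b, by omega⟩ with h | h
        · exact Or.inl (Eg_of_EgB h)
        · exact Or.inr h.symm
    · right
      rw [if_neg hz0]

end K2TFLAT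

open K2TFLAT in
theorem T_tflat_proof : T_tflat := by
  refine ⟨?_, ?_, ?_, ?_⟩
  · rintro ⟨x, y, z⟩
    exact ⟨f12 x y z, f13 x y z, f23 x y z⟩
  · intro c hc
    rw [g2_eq, g3_eq, telc_out _ _ (by omega), Pc_out _ _ (by omega), ite_self]
    exact ⟨rfl, rfl⟩
  · intro y z
    rw [g2_eq]
    show (if z = 0 then telc (y - 1 + 1) 0 else 1) = _ ∨ _
    rw [sub_add_cancel]
    by_cases hz : z = 0
    · subst hz
      rw [if_pos rfl]
      by_cases hy : y < 0 ∨ 4 < y
      · left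
        rw [telc_out _ _ (by omega), if_neg (by omega)]
      · obtain ⟨b, rfl⟩ := Int.eq_ofNat_of_zero_le (show 0 ≤ y by omega)
        rcases chk6 ⟨b, by omega⟩ with h | h
        · left
          have h' : telc (b : ℤ) 0 = (if ((b : ℕ) : ℤ) = 0 then Equiv.swap 0 1 else 1) := h
          rw [h']
          by_cases hb : ((b : ℕ) : ℤ) = 0
          · rw [if_pos hb, if_pos ⟨hb, rfl⟩]
          · rw [if_neg hb, if_neg (fun h => hb h.1)]
        · exact Or.inr (Eg_of_EgB h)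
    · left
      rw [if_neg hz, if_neg (fun h => hz h.2)]
  · intro y z
    rw [g3_eq]
    show (if z - 1 = 0 then Pc y 0 else 1) = _ ∨ _
    by_cases hz : z - 1 = 0
    · have hz1 : z = 1 := by omega
      subst hz1
      rw [if_pos (by norm_num)]
      by_cases hy : y < 0
      · left
        exact Pc_neg _ _ hy
      · by_cases hy2 : 4 < y
        · left
          exact Pc_big _ _ (by omega)
        · obtain ⟨b, rfl⟩ := Int.eq_ofNat_of_zero_le (show 0 ≤ y by omega)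
          rcases chk7 ⟨b, by omega⟩ with h | h
          · exact Or.inl h
          · exact Or.inr (Eg_of_EgB h)
    · left
      rw [if_neg hz]

end KN
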