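import Pool.Agent.H246KN.All
import Pool.Agent.H246K2.Stubs

set_option autoImplicit false

namespace KN

open Finset Filter Topology
open scoped Classical

namespace K2TONE

lemma u_same {w : List Dir} (h : U w) : Same (vl w) sq := by
  rcases h with h | h
  · exact h
  · exact Relation.EqvGen.trans _ _ _ h (Relation.EqvGen.symm _ _ c_sq.2.2)

lemma sq_path : ∀ p ∈ path sqw, p.1 ≤ 1 := by decide

end K2TONE

theorem T_T1_proof (h : T_master) : T_T1 := by
  intro T L l1 l2 v hS hv hU
  have hsq : SAP ([.zm, .xm] ++ .zp :: [.xp]) := c_sq.2.1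
  have hpos : (pos [Dir.xp]).1 = 1 := by decide
  have hB : BgL L [.zm, .xm] [.xp] := by
    refine ⟨hsq, ?_⟩
    intro p hp hc
    have h1 := K2TONE.sq_path p hp
    rw [hpos] at hc
    have := hc.1
    omega
  have h1 := h T L l1 l2 [.zm, .xm] [.xp] v hS hv hB (K2TONE.u_same hU)
  refine ⟨h1.1, Relation.EqvGen.trans _ _ _ h1.2 ?_⟩
  refine c_glue2 [.zm, .xm] v [.xp] ⟨hsq, ?_, hv.1, fun p hp => (hv.2 p hp).1⟩
    (Relation.EqvGen.refl _)
  intro p hp
  rw [hpos]
  exact K2TONE.sq_path p hp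

end KN
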