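import Pool.Agent.H246K2.Stubs
import Pool.Agent.H246KN.All

/-!
# Task TOWE: existence of iterated connected sums
-/

set_option autoImplicit false

namespace KN

open Finset Filter Topology
open scoped Classical

namespace K2TOWE

theorem tow_same {k : List V} {N : ℕ} {l l' : List V} (h : Tow k N l) (hs : Same l l') :
    Tow k N l' := by
  cases N with
  | zero => exact hs.symm.trans h
  | succ N =>
    obtain ⟨l1, v, l2, hF, ht, hk, hl⟩ := h
    exact ⟨l1, v, l2, hF, ht, hk, hs.symm.trans hl⟩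

/-- a representative with an edge `zp` in the plane of maximal first coordinate -/
theorem rep_R {w : List Dir} (hw : SAP w) : ∃ l1 l2 : List Dir, SAP (l1 ++ .zp :: l2) ∧
    (∀ p ∈ path (l1 ++ .zp :: l2), p.1 ≤ (pos l2).1) ∧ Same (vl (l1 ++ .zp :: l2)) (vl w) := by
  have hW : S_words := S_words_proof S_simple_proof S_motion_proof S_rot_proof
  have h1 : ∀ u, SAP u → (Same (vl u) (vl w) ↔ Same (vl (u.map rx)) (vl w)) := fun u hu =>
    ⟨fun h => ((hW u hu).1.2.symm).trans h, fun h => ((hW u hu).1.2).trans h⟩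
  have h3 := S_quartR_proof (fun u => Same (vl u) (vl w)) h1 w.length
  have h4 : 0 < a (fun u => Same (vl u) (vl w)) w.length := by
    unfold a
    rw [Finset.card_pos]
    exact ⟨w, mem_K.2 ⟨rfl, hw, Same.refl _⟩⟩
  have h5 : 0 < ((K (fun u => Same (vl u) (vl w)) w.length).filter (fun w => ∃ l1 l2 : List Dir,
      w = l1 ++ .zp :: l2 ∧ ∀ p ∈ path w, p.1 ≤ (pos l2).1)).card := by
    rcases Nat.eq_zero_or_pos ((K (fun u => Same (vl u) (vl w)) w.length).filter (fun w =>
      ∃ l1 l2 : List Dir, w = l1 ++ .zp :: l2 ∧ ∀ p ∈ path w, p.1 ≤ (pos l2).1)).card with h | h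
    · rw [h] at h3
      omega
    · exact h
  obtain ⟨u, hu⟩ := Finset.card_pos.1 h5
  rw [Finset.mem_filter, mem_K] at hu
  obtain ⟨⟨_, hu1, hu2⟩, l1, l2, rfl, hv⟩ := hu
  exact ⟨l1, l2, hu1, hv, hu2⟩

end K2TOWE

open K2TOWE in
theorem T_towe_proof (hvex : T_vex) : T_towe := by
  intro k hk N
  induction N with
  | zero => exact ⟨sqw, c_sq.2.1, Same.refl _⟩
  | succ N ih =>
    obtain ⟨w, hw, ht⟩ := ih
    obtain ⟨l1, l2, h1, h2, h3⟩ := rep_R hw
    obtain ⟨L, v, hv, hvk⟩ := hvex k hk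
    have hF : Facing l1 v l2 := ⟨h1, h2, hv.1, fun p hp => (hv.2 p hp).1⟩
    refine ⟨join l1 v l2, S_glueSAP_proof l1 v l2 hF, l1, v, l2, hF, tow_same ht h3.symm, hvk,
      Same.refl _⟩

end KN
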