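import Pool.Agent.H246K2.Stubs
import Pool.Agent.H246KN.All

/-!
# Task TOWU: iterated connected sums are unique
-/

set_option autoImplicit false

namespace KN

open Finset Filter Topology
open scoped Classical

namespace K2TOWU

theorem vec_bd (d : Dir) : |(vec d).1| ≤ 1 ∧ |(vec d).2.1| ≤ 1 ∧ |(vec d).2.2| ≤ 1 := by
  cases d <;> decide

theorem path_bd : ∀ (v : List Dir) (p : Z3), p ∈ path v →
    |p.1| ≤ (v.length : ℤ) ∧ |p.2.1| ≤ (v.length : ℤ) ∧ |p.2.2| ≤ (v.length : ℤ) := by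
  intro v
  induction v with
  | nil =>
    intro p hp
    have : p = 0 := by simpa [path] using hp
    subst this
    simp
  | cons d v ih =>
    intro p hp
    have hl : ((d :: v).length : ℤ) = v.length + 1 := by simp
    rw [hl]
    have hp' : p = pos v + vec d ∨ p ∈ path v := by simpa [path] using hp
    rcases hp' with rfl | hp'
    · obtain ⟨h1, h2, h3⟩ := ih _ (pos_mem_path v)
      obtain ⟨g1, g2, g3⟩ := vec_bd d
      refine ⟨?_, ?_, ?_⟩
      · exact (abs_add_le _ _).trans (add_le_add h1 g1)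
      · exact (abs_add_le _ _).trans (add_le_add h2 g2)
      · exact (abs_add_le _ _).trans (add_le_add h3 g3)
    · obtain ⟨h1, h2, h3⟩ := ih _ hp'
      exact ⟨by linarith, by linarith, by linarith⟩

theorem smR {v : List Dir} (h : SAP (.zm :: v)) (hx : ∀ p ∈ path v, 0 ≤ p.1) :
    SmR v.length v := by
  refine ⟨h, fun p hp => ?_⟩
  obtain ⟨g1, g2, g3⟩ := path_bd v p hp
  exact ⟨hx p hp, (abs_le.1 g1).2, g2, (abs_le.1 g3).1, by linarith [(abs_le.1 g3).2]⟩

theorem bgL (L : ℕ) {l1 l2 : List Dir} (h : SAP (l1 ++ .zp :: l2))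
    (hx : ∀ p ∈ path (l1 ++ .zp :: l2), p.1 ≤ (pos l2).1) : BgL L l1 l2 := by
  refine ⟨h, fun p hp hc => ?_⟩
  have h1 := hx p hp
  have h2 := hc.1
  omega

/-- the right polygon can be replaced -/
theorem join_same {l1 v v' l2 : List Dir} (hF : Facing l1 v l2) (hF' : Facing l1 v' l2)
    (h : Same (vl (.zm :: v)) (vl (.zm :: v'))) :
    Same (vl (join l1 v l2)) (vl (join l1 v' l2)) := by
  obtain ⟨hP, hPx, hV, hVx⟩ := hF
  obtain ⟨-, -, hV', hVx'⟩ := hF'
  have hG : SAP (glue l1 v l2) := S_glueSAP_proof l1 v l2 ⟨hP, hPx, hV, hVx⟩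
  have hG' : SAP (glue l1 v' l2) := S_glueSAP_proof l1 v' l2 ⟨hP, hPx, hV', hVx'⟩
  have e1 := GL1.glue_same S_simple_proof S_rot_proof S_motion_proof l1 v l2 (GL1.pos_v hV) hG
  have e2 := GL1.glue_same S_simple_proof S_rot_proof S_motion_proof l1 v' l2 (GL1.pos_v hV') hG'
  have e3 : Same (GL1.lv v) (GL1.lv v') := by
    have a1 := ((S_motion_proof _ (S_simple_proof _ hV)).1 (1, 0, 0)).1
    have a2 := ((S_motion_proof _ (S_simple_proof _ hV')).1 (1, 0, 0)).1
    exact (a1.symm.trans h).trans a2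
  have e4 := c_connect _ _ _ (GL1.HL_lw S_simple_proof S_rot_proof S_motion_proof l1 l2 hP hPx)
    (GL1.HR_lv S_simple_proof S_motion_proof v hV hVx)
    (GL1.HR_lv S_simple_proof S_motion_proof v' hV' hVx') e3
  exact e1.trans (e4.trans e2.symm)

end K2TOWU

open K2TOWU in
theorem T_towu_proof (hW : T_wconL) : T_towu := by
  intro k N
  induction N with
  | zero =>
    intro l l' h h'
    exact Same.trans h (Same.symm h')
  | succ N ih =>
    rintro l l' ⟨l1, v, l2, hF, ht, hk, hl⟩ ⟨m1, v', m2, hF', ht', hk', hl'⟩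
    have h1 := ih _ _ ht ht'
    have h2 : Same (vl (.zm :: v)) (vl (.zm :: v')) := hk.trans hk'.symm
    have hFm : Facing l1 v' l2 := ⟨hF.1, hF.2.1, hF'.2.2.1, hF'.2.2.2⟩
    have h3 := join_same hF hFm h2
    have h4 := hW v'.length l1 l2 m1 m2 v' (bgL _ hF.1 hF.2.1) (bgL _ hF'.1 hF'.2.1)
      (smR hF'.2.2.1 hF'.2.2.2) h1
    exact hl.trans ((h3.trans h4).trans hl'.symm)

end KN
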