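import Pool.Agent.H246KN.All
import Pool.Agent.H246K2.Stubs

set_option autoImplicit false

namespace KN

namespace K2TRE

theorem SAP_tre : SAP (.zm :: v0) := by
  refine ⟨by decide, by decide, by decide⟩

theorem nonneg_v0 : ∀ p ∈ path v0, 0 ≤ p.1 := by decide

/-- the connected sum only depends on the knot type of the right polygon -/
theorem join_same (l1 v v' l2 : List Dir) (h : Facing l1 v l2) (h' : Facing l1 v' l2)
    (hs : Same (vl (.zm :: v)) (vl (.zm :: v'))) :
    Same (vl (join l1 v l2)) (vl (join l1 v' l2)) := by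
  have hg := S_glueSAP_proof l1 v l2 h
  have hg' := S_glueSAP_proof l1 v' l2 h'
  obtain ⟨hP, hPx, hV, hVx⟩ := h
  obtain ⟨-, -, hV', hVx'⟩ := h'
  have e1 := GL1.glue_same S_simple_proof S_rot_proof S_motion_proof l1 v l2 (GL1.pos_v hV) hg
  have e2 := GL1.glue_same S_simple_proof S_rot_proof S_motion_proof l1 v' l2 (GL1.pos_v hV') hg'
  have e3 : Same (GL1.lv v) (GL1.lv v') := by
    have a1 := ((S_motion_proof _ (S_simple_proof _ hV)).1 (1, 0, 0)).1
    have a2 := ((S_motion_proof _ (S_simple_proof _ hV')).1 (1, 0, 0)).1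
    exact (a1.symm.trans hs).trans a2
  have e4 := c_connect _ _ _ (GL1.HL_lw S_simple_proof S_rot_proof S_motion_proof l1 l2 hP hPx)
    (GL1.HR_lv S_simple_proof S_motion_proof v hV hVx)
    (GL1.HR_lv S_simple_proof S_motion_proof v' hV' hVx') e3
  exact e1.trans (e4.trans e2.symm)

end K2TRE

open K2TRE in
/-- G20: connected sums with the trefoil are knotted -/
theorem T_tre_proof (h1 : T_unab) (h2 : T_gauge) (h3 : T_nonab) (h4 : T_jflat) (h5 : T_jloops) :
    T_tre := by
  intro l1 v l2 hF hs hU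
  have hF' : Facing l1 v0 l2 := ⟨hF.1, hF.2.1, SAP_tre, nonneg_v0⟩
  have hsame := join_same l1 v v0 l2 hF hF' hs
  have hSAP : SAP (join l1 v0 l2) := S_glueSAP_proof l1 v0 l2 hF'
  have hU' : U (join l1 v0 l2) := by
    rcases hU with hU | hU
    · exact Or.inl (hsame.symm.trans hU)
    · exact Or.inr (hsame.symm.trans hU)
  have hGF := h4 l1 l2 hF'
  obtain ⟨hA, hB, hne⟩ := h5 (pos l2) (l1 ++ .xm :: .zp :: .xp :: l2)
  exact h3 S3 _ _ hSAP _ _ _ hA hB hne (h1 _ hSAP hU' S3 _ (h2 S3 _ _ hSAP hGF))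

end KN
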