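import Pool.Agent.H246K2.Stubs

/-!
# Cyclic holonomy on the complement of an unknotted polygon (task UNAB)
-/

set_option autoImplicit false

namespace KN

open Finset Filter Topology
open scoped Classical

namespace K2UNAB

theorem same_sq (hsq : S_sq) (w : List Dir) (h : U w) : Same (vl w) sq := by
  rcases h with h | h
  · exact h
  · exact Relation.EqvGen.trans _ _ _ h (Relation.EqvGen.symm _ _ hsq.2.2)

end K2UNAB

theorem T_unab_proof (h1 : T_amb) (h2 : T_square) (hsq : S_sq) : T_unab := by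
  intro w _ hU G _ T hflat
  obtain ⟨h, hh⟩ := h1 (vl w) sq (K2UNAB.same_sq hsq w hU)
  have hflat' : Flat (ps sq)ᶜ (fun a b => T (h.symm a) (h.symm b)) := by
    intro x hx
    have hx' : h.symm x ∈ (ps (vl w))ᶜ := by
      intro hcon
      apply hx
      rw [← hh]
      exact ⟨h.symm x, hcon, h.apply_symm_apply x⟩
    obtain ⟨N, hN, hN2⟩ := hflat (h.symm x) hx'
    refine ⟨h.symm ⁻¹' N, h.symm.continuous.continuousAt hN, ?_⟩
    intro a ha b hb c hc
    exact hN2 _ ha _ hb _ hc
  obtain ⟨φ', κ, hφ⟩ := h2 G _ hflat'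
  refine ⟨fun a => φ' (h a), κ, ?_⟩
  intro x hx
  have hx' : h x ∈ (ps sq)ᶜ := by
    intro hcon
    apply hx
    rw [← hh] at hcon
    obtain ⟨y, hy, hyx⟩ := hcon
    rwa [← h.injective hyx]
  obtain ⟨N, hN, hN2⟩ := hφ (h x) hx'
  refine ⟨h ⁻¹' N, h.continuous.continuousAt hN, ?_⟩
  intro a ha b hb
  have h3 := hN2 (h a) ha (h b) hb
  simpa only [Homeomorph.symm_apply_apply] using h3

end KN
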