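import Pool.Agent.H246K2.Stubs
import Pool.Agent.H246KN.ROT
import Pool.Agent.H246KN.MOT
import Pool.Agent.H246KN.SIM
import Pool.Agent.H246KN.WRD
import Pool.Agent.H246KN.QL

set_option autoImplicit false

namespace KN

open Finset Filter Topology
open scoped Classical

namespace K2VEX

theorem vec_bd (d : Dir) : |(vec d).1| ≤ 1 ∧ |(vec d).2.1| ≤ 1 ∧ |(vec d).2.2| ≤ 1 := by
  cases d <;> decide

theorem path_bd : ∀ (v : List Dir) (p : Z3), p ∈ path v →
    |p.1| ≤ (v.length : ℤ) ∧ |p.2.1| ≤ (v.length : ℤ) ∧ |p.2.2| ≤ (v.length : ℤ) := by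
  intro v
  induction v with
  | nil =>
    intro p hp
    have : p = 0 := by simpa [path] using hp
    subst this
    simp
  | cons d v ih =>
    intro p hp
    have hl : ((d :: v).length : ℤ) = v.length + 1 := by simp
    rw [hl]
    have hp' : p = pos v + vec d ∨ p ∈ path v := by simpa [path] using hp
    rcases hp' with rfl | hp'
    · obtain ⟨h1, h2, h3⟩ := ih _ (pos_mem_path v)
      obtain ⟨g1, g2, g3⟩ := vec_bd d
      refine ⟨?_, ?_, ?_⟩
      · exact (abs_add_le _ _).trans (add_le_add h1 g1)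
      · exact (abs_add_le _ _).trans (add_le_add h2 g2)
      · exact (abs_add_le _ _).trans (add_le_add h3 g3)
    · obtain ⟨h1, h2, h3⟩ := ih _ hp'
      exact ⟨by linarith, by linarith, by linarith⟩

end K2VEX

theorem T_vex_proof : T_vex := by
  have hW : S_words := S_words_proof S_simple_proof S_motion_proof S_rot_proof
  intro k ⟨w, hw, hwk⟩
  have h1 : ∀ u, SAP u → (Same (vl u) k ↔ Same (vl (u.map rx)) k) := fun u hu =>
    ⟨fun h => ((hW u hu).1.2.symm).trans h, fun h => ((hW u hu).1.2).trans h⟩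
  have h2 : ∀ u, SAP u → ∀ j : ℕ, (Same (vl u) k ↔ Same (vl (u.rotate j)) k) := fun u hu j =>
    ⟨fun h => (((hW u hu).2.2 j).2.symm).trans h, fun h => (((hW u hu).2.2 j).2).trans h⟩
  have h3 := S_quartL_proof (fun u => Same (vl u) k) h1 h2 w.length
  have h4 : 0 < a (fun u => Same (vl u) k) w.length := by
    unfold a
    rw [Finset.card_pos]
    exact ⟨w, mem_K.2 ⟨rfl, hw, hwk⟩⟩
  have h5 : 0 < ((K (fun u => Same (vl u) k) w.length).filter (fun w => ∃ v : List Dir,
      w = .zm :: v ∧ ∀ p ∈ path v, 0 ≤ p.1)).card := by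
    rcases Nat.eq_zero_or_pos ((K (fun u => Same (vl u) k) w.length).filter (fun w =>
      ∃ v : List Dir, w = .zm :: v ∧ ∀ p ∈ path v, 0 ≤ p.1)).card with h | h
    · rw [h] at h3
      omega
    · exact h
  obtain ⟨u, hu⟩ := Finset.card_pos.1 h5
  rw [Finset.mem_filter, mem_K] at hu
  obtain ⟨⟨_, hu1, hu2⟩, v, rfl, hv⟩ := hu
  refine ⟨v.length, v, ⟨hu1, fun p hp => ?_⟩, hu2⟩
  obtain ⟨g1, g2, g3⟩ := K2VEX.path_bd v p hp
  exact ⟨hv p hp, (abs_le.1 g1).2, g2, (abs_le.1 g3).1, by linarith [(abs_le.1 g3).2]⟩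

end KN
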