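import Pool.Agent.H246K2.Stubs

set_option autoImplicit false

namespace KN

open Finset Filter Topology
open scoped Classical

namespace K2WBAS

lemma vec_rt (d f e : Dir) : vec (rt d f e) = Rp d f (vec e) := by
  have hxm : vec .xm = - vec .xp := by decide
  have hym : vec .ym = - vec .yp := by decide
  have hzm : vec .zm = - vec .zp := by decide
  have h1 : Rp d f (vec .xp) = vec d := by simp [Rp, vec]
  have h2 : Rp d f (vec .yp) = vec (cr f d) := by simp [Rp, vec]
  have h3 : Rp d f (vec .zp) = vec f := by simp [Rp, vec]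
  have hn : ∀ p : Z3, Rp d f (-p) = - Rp d f p := by
    intro p
    simp only [Rp, Prod.fst_neg, Prod.snd_neg, neg_smul]
    abel
  cases e
  · exact h1.symm
  · rw [hxm, hn, h1]
    exact vec_neg d
  · exact h2.symm
  · rw [hym, hn, h2]
    exact vec_neg _
  · exact h3.symm
  · rw [hzm, hn, h3]
    exact vec_neg f

lemma Rp_add (d f : Dir) (p q : Z3) : Rp d f (p + q) = Rp d f p + Rp d f q := by
  simp only [Rp, Prod.fst_add, Prod.snd_add, add_smul]
  abel

lemma Rp_zero (d f : Dir) : Rp d f 0 = 0 := by
  simp [Rp]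

lemma pos_map_rt (d f : Dir) (w : List Dir) : pos (w.map (rt d f)) = Rp d f (pos w) := by
  induction w with
  | nil => simp [pos, Rp_zero]
  | cons e w ih => simp only [List.map_cons, pos, ih, vec_rt, Rp_add]

lemma pos_rep (n : ℕ) (e : Dir) : pos (List.replicate n e) = n • vec e := by
  induction n with
  | zero => simp [pos]
  | succ n ih => rw [List.replicate_succ, pos, ih, succ_nsmul]

lemma pos_blk {L : ℕ} (T : ℕ) {v : List Dir} (hv : SmR L v) : pos (blk T v) = vec .zp := by
  have h1 : pos v + vec .zm = 0 := hv.1.2.1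
  have h2 : vec .zp + vec .zm = 0 := by decide
  have h3 : pos v = vec .zp := by
    have := h1.trans h2.symm
    exact add_right_cancel this
  have h4 : vec .xm = - vec .xp := by decide
  rw [blk, pos_append, pos_append, pos_rep, pos_rep, h3, h4, smul_neg]
  abel

lemma Rp_zp (d f : Dir) : Rp d f (vec .zp) = vec f := by
  simp [Rp, vec]

lemma pos_syw {L : ℕ} (T : ℕ) {v : List Dir} (hv : SmR L v) (s : Sy) :
    pos (syw T v s) = vec (syl s) := by
  cases s with
  | lt f => simp [syw, syl, pos]
  | bl d f => rw [syw, syl, pos_map_rt, pos_blk T hv, Rp_zp]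

lemma syw_len (T : ℕ) (v : List Dir) (s : Sy) :
    (syw T v s).length = 1 + (if isB s then 1 else 0) * ((blk T v).length - 1) := by
  cases s with
  | lt f => simp [syw, isB]
  | bl d f =>
    have : 1 ≤ (blk T v).length := by
      simp [blk]
      omega
    simp [syw, isB]
    omega

lemma syw_ne (T : ℕ) (v : List Dir) (s : Sy) : syw T v s ≠ [] := by
  intro h
  have := syw_len T v s
  rw [h] at this
  simp at this
  omega

lemma EX_cons (T : ℕ) (v : List Dir) (s : Sy) (W : List Sy) :
    EX T v (s :: W) = syw T v s ++ EX T v W := by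
  simp [EX]

lemma BS_cons (s : Sy) (W : List Sy) : BS (s :: W) = syl s :: BS W := by
  simp [BS]

lemma EX_len (T : ℕ) (v : List Dir) (W : List Sy) :
    (EX T v W).length = W.length + nB W * ((blk T v).length - 1) := by
  induction W with
  | nil => simp [EX, nB]
  | cons s W ih =>
    have h1 : nB (s :: W) = nB W + (if isB s then 1 else 0) := by
      rw [nB, nB, List.countP_cons]
    rw [EX_cons, List.length_append, ih, syw_len, h1, List.length_cons]
    ring

lemma BS_len (W : List Sy) : (BS W).length = W.length := by simp [BS]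

lemma EX_ge (T : ℕ) (v : List Dir) (W : List Sy) : W.length ≤ (EX T v W).length := by
  rw [EX_len]
  exact Nat.le_add_right _ _

lemma pos_EX {L : ℕ} (T : ℕ) {v : List Dir} (hv : SmR L v) (W : List Sy) :
    pos (EX T v W) = pos (BS W) := by
  induction W with
  | nil => simp [EX, BS]
  | cons s W ih =>
    rw [EX_cons, BS_cons, pos_append, ih, pos_syw T hv, pos]
    abel

lemma key (h : T_Wrep) {L : ℕ} (T : ℕ) {v : List Dir} (hv : SmR L v) (W : List Sy) :
    ∀ P : List Dir, (∀ p ∈ path (P ++ BS W), p ∈ path (P ++ EX T v W)) ∧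
      (SAP (P ++ EX T v W) → 4 ≤ (P ++ BS W).length → SAP (P ++ BS W)) := by
  induction W with
  | nil =>
    intro P
    exact ⟨fun p hp => by simpa [EX, BS] using hp, fun h1 _ => by simpa [EX, BS] using h1⟩
  | cons s W ih =>
    intro P
    obtain ⟨h1, h2⟩ := h P (EX T v W) (syw T v s) (syl s) (pos_syw T hv s) (syw_ne T v s)
    obtain ⟨h3, h4⟩ := ih (P ++ [syl s])
    have e1 : P ++ BS (s :: W) = P ++ [syl s] ++ BS W := by
      rw [BS_cons]
      simp
    have e2 : P ++ EX T v (s :: W) = P ++ syw T v s ++ EX T v W := by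
      rw [EX_cons]
      simp
    have e3 : P ++ [syl s] ++ EX T v W = P ++ syl s :: EX T v W := by simp
    rw [e1, e2]
    rw [e3] at h3 h4
    refine ⟨fun p hp => h1 p (h3 p hp), fun h5 h6 => h4 (h2 h5 ?_) h6⟩
    have h7 := EX_ge T v W
    have h8 := BS_len W
    simp only [List.length_append, List.length_cons, List.length_nil] at h6 ⊢
    omega

lemma rt_rt : ∀ d f d' f' e : Dir, perp d f → perp d' f' →
    rt d f (rt d' f' e) = rt (rt d f d') (rt d f f') e := by
  decide +kernel

lemma rot (T : ℕ) (v : List Dir) (d f : Dir) (hdf : perp d f) (W : List Sy)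
    (hW : ∀ A B d' f', W = A ++ .bl d' f' :: B → perp d' f') :
    (EX T v W).map (rt d f) = EX T v (W.map (rS d f)) ∧
    (BS W).map (rt d f) = BS (W.map (rS d f)) ∧ nB (W.map (rS d f)) = nB W := by
  induction W with
  | nil => simp [EX, BS, nB]
  | cons s W ih =>
    obtain ⟨h1, h2, h3⟩ := ih (fun A B d' f' e => hW (s :: A) B d' f' (by rw [e]; rfl))
    refine ⟨?_, ?_, ?_⟩
    · rw [EX_cons, List.map_append, h1, List.map_cons, EX_cons]
      congr 1
      cases s with
      | lt e => simp [syw, rS]
      | bl d' f' =>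
        have hp : perp d' f' := hW [] W d' f' rfl
        simp only [syw, rS, List.map_map]
        apply List.map_congr_left
        intro e _
        exact rt_rt d f d' f' e hdf hp
    · rw [BS_cons, List.map_cons, h2, List.map_cons, BS_cons]
      congr 1
      cases s <;> rfl
    · rw [List.map_cons, nB, nB, List.countP_cons, List.countP_cons]
      rw [nB, nB] at h3
      rw [h3]
      congr 1
      cases s <;> rfl

end K2WBAS

theorem T_Wbas_proof (h : T_Wrep) : T_Wbas := by
  intro T L v hv W
  have hk := K2WBAS.key h T hv W []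
  simp only [List.nil_append] at hk
  refine ⟨K2WBAS.pos_EX T hv W, hk.1, K2WBAS.EX_len T v W, ?_, ?_⟩
  · intro h1 h2
    exact hk.2 h1 (by rw [K2WBAS.BS_len]; exact h2)
  · intro d f hdf hW
    exact K2WBAS.rot T v d f hdf W hW

end KN
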