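import Pool.Agent.H246K2.Stubs
import Pool.Agent.H246KN.All

/-!
# K2, task WCL: the local connected sum only depends on the knot types, left polygon
-/

set_option autoImplicit false

namespace KN

open Finset Filter Topology
open scoped Classical

namespace K2WCL

open GL2

/-- the rotated join -/
theorem join_rot {l1 v l2 : List Dir} (hg : SAP (join l1 v l2)) :
    Same (vl (join l1 v l2)) (vl (join [] ((l2 ++ l1).map rR) (v.map rR))) := by
  set V : List Dir := (l2 ++ l1).map rR with hV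
  have hrot1 : (join l1 v l2).rotate (l1.length + 1) = v ++ Dir.xp :: (l2 ++ (l1 ++ [Dir.xm])) := by
    have e : join l1 v l2 = (l1 ++ [.xm]) ++ (v ++ .xp :: l2) := by simp [join]
    have e2 : l1.length + 1 = (l1 ++ [Dir.xm]).length := by simp
    rw [e, e2, rotate_append]; simp
  have hrot2 : ((v ++ Dir.xp :: (l2 ++ (l1 ++ [Dir.xm]))).map rR).rotate v.length =
      join [] V (v.map rR) := by
    have e : (v ++ Dir.xp :: (l2 ++ (l1 ++ [Dir.xm]))).map rR =
        v.map rR ++ (Dir.xm :: (V ++ [Dir.xp])) := by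
      rw [hV]; simp only [List.map_append, List.map_cons, List.map_nil, List.append_assoc]
      rfl
    have e2 : v.length = (v.map rR).length := by simp
    rw [e, e2, rotate_append]; simp [join]
  obtain ⟨ha, sa⟩ := SAP_rot c_words hg (l1.length + 1)
  rw [hrot1] at ha sa
  obtain ⟨hb, sb⟩ := SAP_map c_words ha
  obtain ⟨hc, sc⟩ := SAP_rot c_words hb v.length
  rw [hrot2] at hc sc
  exact (sa.trans sb).trans sc

/-- the rotated left polygon -/
theorem left_rot {l1 l2 : List Dir} (hA : SAP (l1 ++ .zp :: l2)) :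
    SAP (.zm :: (l2 ++ l1).map rR) ∧
      Same (vl (l1 ++ .zp :: l2)) (vl (.zm :: (l2 ++ l1).map rR)) := by
  have hrotA : (l1 ++ .zp :: l2).rotate l1.length = .zp :: (l2 ++ l1) := by
    rw [rotate_append]; simp
  obtain ⟨hA1, sA1⟩ := SAP_rot c_words hA l1.length
  rw [hrotA] at hA1 sA1
  obtain ⟨hA2, sA2⟩ := SAP_map c_words hA1
  have eA : (Dir.zp :: (l2 ++ l1)).map rR = .zm :: (l2 ++ l1).map rR := rfl
  rw [eA] at hA2 sA2
  exact ⟨hA2, sA1.trans sA2⟩

/-- vertices of the rotated left polygon -/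
theorem mem_rot {l1 l2 : List Dir} (hA : SAP (l1 ++ .zp :: l2)) {p : Z3}
    (hp : p ∈ path ((l2 ++ l1).map rR)) : ∃ q ∈ path (l1 ++ .zp :: l2),
      p.1 = -(q.1 - (pos l2).1) ∧ p.2.1 = q.2.1 - (pos l2).2.1 ∧
        p.2.2 = 1 - (q.2.2 - (pos l2).2.2) := by
  rw [path_map, List.mem_map] at hp
  obtain ⟨q, hq, rfl⟩ := hp
  have hpos : pos (l1 ++ .zp :: l2) = 0 := hA.2.1
  rw [pos_append, pos] at hpos
  have hp1 : (pos l1).1 + (pos l2).1 = 0 := by
    have := congrArg Prod.fst hpos
    simpa [vec] using this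
  have hp2 : (pos l1).2.1 + (pos l2).2.1 = 0 := by
    have := congrArg (fun t : Z3 => t.2.1) hpos
    simpa [vec] using this
  have hp3 : (pos l1).2.2 + ((pos l2).2.2 + 1) = 0 := by
    have := congrArg (fun t : Z3 => t.2.2) hpos
    simpa [vec] using this
  rw [mem_path_suffix] at hq
  obtain ⟨a, b, hab, rfl⟩ := hq
  rw [List.append_eq_append_iff] at hab
  rcases hab with ⟨c, h1, h2⟩ | ⟨c, h1, h2⟩
  · -- `b` is a suffix of `l1`
    refine ⟨pos (b ++ .zp :: l2), ?_, ?_⟩
    · rw [mem_path_suffix]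
      exact ⟨c, b ++ .zp :: l2, by rw [h2]; simp, rfl⟩
    · rw [pos_append, pos]
      simp only [R, Prod.fst_add, Prod.snd_add, vec, add_zero]
      refine ⟨by ring, by ring, by ring⟩
  · -- `b = c ++ l1`, `c` a suffix of `l2`
    refine ⟨pos c, ?_, ?_⟩
    · rw [mem_path_suffix]
      exact ⟨l1 ++ .zp :: a, c, by rw [h1]; simp, rfl⟩
    · rw [h2, pos_append]
      simp only [R, Prod.fst_add, Prod.snd_add]
      refine ⟨by omega, by omega, by omega⟩

theorem bgR_of_bgL {L : ℕ} {l1 l2 : List Dir} (h : BgL L l1 l2) :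
    BgR L ((l2 ++ l1).map rR) := by
  refine ⟨(left_rot h.1).1, ?_⟩
  intro p hp hbox
  obtain ⟨q, hq, e1, e2, e3⟩ := mem_rot h.1 hp
  refine h.2 q hq ?_
  rw [← e2]
  obtain ⟨b1, b2, b3, b4, b5⟩ := hbox
  refine ⟨by omega, by omega, b3, by omega, by omega⟩

theorem smL_of_smR {L : ℕ} {v : List Dir} (h : SmR L v) : SmL L [] (v.map rR) := by
  obtain ⟨hB, hBx⟩ := h
  have hpos : pos v + vec .zm = 0 := hB.2.1
  have hp1 : (pos v).1 = 0 := by
    have := congrArg Prod.fst hpos
    simpa [vec] using this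
  have hp2 : (pos v).2.1 = 0 := by
    have := congrArg (fun t : Z3 => t.2.1) hpos
    simpa [vec] using this
  have hp3 : (pos v).2.2 + -1 = 0 := by
    have := congrArg (fun t : Z3 => t.2.2) hpos
    simpa [vec] using this
  obtain ⟨hB', -⟩ := SAP_map c_words hB
  have eB : (Dir.zm :: v).map rR = .zp :: v.map rR := rfl
  rw [eB] at hB'
  refine ⟨hB', ?_⟩
  intro p hp
  rw [List.nil_append, path, List.mem_cons] at hp
  rw [pos_map] at hp ⊢
  rcases hp with rfl | hp
  · simp only [R, vec, Prod.fst_add, Prod.snd_add, hp1, hp2]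
    refine ⟨by omega, by omega, ?_, by omega, by omega⟩
    simp
  · rw [path_map, List.mem_map] at hp
    obtain ⟨q, hq, rfl⟩ := hp
    obtain ⟨c1, c2, c3, c4, c5⟩ := hBx q hq
    simp only [R, hp1, hp2]
    refine ⟨by omega, by omega, ?_, by omega, by omega⟩
    rw [sub_zero]; exact c3

end K2WCL

open K2WCL in
theorem T_wconL_proof (hR : T_wconR) (hS : T_sapL) : T_wconL := by
  intro L l1 l2 m1 m2 v hl hm hv hsame
  have s1 := join_rot (hS L l1 v l2 hl hv)
  have s2 := join_rot (hS L m1 v m2 hm hv)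
  have t1 := (left_rot hl.1).2
  have t2 := (left_rot hm.1).2
  have key := hR L [] (v.map GL2.rR) ((l2 ++ l1).map GL2.rR) ((m2 ++ m1).map GL2.rR)
    (smL_of_smR hv) (bgR_of_bgL hl) (bgR_of_bgL hm) ((t1.symm.trans hsame).trans t2)
  exact (s1.trans key).trans s2.symm

end KN
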