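import Pool.Agent.H246K2.Stubs

/-!
# Task WCNT: counting words with one more block
-/

set_option autoImplicit false

namespace KN

open Finset Filter Topology
open scoped Classical

noncomputable section

namespace K2WCNT

theorem mem_WS {n : ℕ} {W : List Sy} : W ∈ WS n ↔ W.length = n := by
  unfold WS
  simp only [mem_image, mem_univ, true_and]
  constructor
  · rintro ⟨f, rfl⟩; simp
  · rintro rfl; exact ⟨fun i => W[i], by simp⟩

theorem mem_VN {T L : ℕ} {v : List Dir} {N n : ℕ} {W : List Sy} :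
    W ∈ VN T L v N n ↔ W.length = n ∧ nB W = N ∧ Val T L v W := by
  unfold VN
  rw [mem_filter, mem_WS]

/-- positions of the blocks -/
def bps (T : ℕ) (v : List Dir) : List Sy → List Z3
  | [] => []
  | s :: B => if isB s = true then pos (EX T v B) :: bps T v B else bps T v B

theorem bps_length (T : ℕ) (v : List Dir) (W : List Sy) : (bps T v W).length = nB W := by
  induction W with
  | nil => rfl
  | cons s B ih =>
    unfold nB at ih ⊢
    rw [List.countP_cons, bps]
    split_ifs with h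
    · rw [List.length_cons, ih]
    · rw [ih]; rfl

theorem mem_bps (T : ℕ) (v : List Dir) (A B : List Sy) (d f : Dir) :
    pos (EX T v B) ∈ bps T v (A ++ .bl d f :: B) := by
  induction A with
  | nil => simp [bps, isB]
  | cons s A ih =>
    rw [List.cons_append, bps]
    split_ifs
    · exact List.mem_cons_of_mem _ ih
    · exact ih

/-- a box -/
def box (r : ℕ) (q : Z3) : Finset Z3 :=
  Icc (q.1 - r) (q.1 + r) ×ˢ Icc (q.2.1 - r) (q.2.1 + r) ×ˢ Icc (q.2.2 - r) (q.2.2 + r)

theorem mem_box {r : ℕ} {p q : Z3} : p ∈ box r q ↔ near r p q := by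
  unfold box near
  rw [mem_product, mem_product, mem_Icc, mem_Icc, mem_Icc, abs_le, abs_le, abs_le]
  constructor
  · rintro ⟨⟨h1, h2⟩, ⟨h3, h4⟩, h5, h6⟩
    exact ⟨⟨by linarith, by linarith⟩, ⟨by linarith, by linarith⟩, by linarith, by linarith⟩
  · rintro ⟨⟨h1, h2⟩, ⟨h3, h4⟩, h5, h6⟩
    exact ⟨⟨by linarith, by linarith⟩, ⟨by linarith, by linarith⟩, by linarith, by linarith⟩

theorem card_box (r : ℕ) (q : Z3) : (box r q).card = (2 * r + 1) ^ 3 := by
  unfold box
  have h : ∀ x : ℤ, (x + (r : ℤ) + 1 - (x - r)).toNat = 2 * r + 1 := by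
    intro x
    have : x + (r : ℤ) + 1 - (x - r) = ((2 * r + 1 : ℕ) : ℤ) := by push_cast; ring
    rw [this, Int.toNat_natCast]
  rw [card_product, card_product, Int.card_Icc, Int.card_Icc, Int.card_Icc, h, h, h]
  ring

theorem nB_append (A B : List Sy) : nB (A ++ B) = nB A + nB B := by
  unfold nB
  rw [List.countP_append]

theorem nB_cons_bl (d f : Dir) (B : List Sy) : nB (.bl d f :: B) = nB B + 1 := by
  unfold nB
  rw [List.countP_cons]
  simp [isB]

theorem nB_cons_lt (f : Dir) (B : List Sy) : nB (.lt f :: B) = nB B := by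
  unfold nB
  rw [List.countP_cons]
  simp [isB]

theorem nB_cons_of (s : Sy) (B : List Sy) (h : isB s = true) : nB (s :: B) = nB B + 1 := by
  unfold nB
  rw [List.countP_cons, if_pos h]

theorem nB_map (d f : Dir) (W : List Sy) : nB (W.map (rS d f)) = nB W := by
  unfold nB
  rw [List.countP_map]
  congr 1
  funext s
  cases s <;> rfl

theorem split_unique : ∀ (A A' B B' : List Sy) (b b' : Sy), isB b = true → isB b' = true →
    nB A = nB A' → A ++ b :: B = A' ++ b' :: B' → A = A' ∧ B = B' := by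
  intro A
  induction A with
  | nil =>
    intro A' B B' b b' hb hb' hn h
    cases A' with
    | nil =>
      simp only [List.nil_append, List.cons.injEq] at h
      exact ⟨rfl, h.2⟩
    | cons a A' =>
      simp only [List.nil_append, List.cons_append, List.cons.injEq] at h
      rw [← h.1, nB_cons_of _ _ hb] at hn
      simp [nB] at hn
  | cons s A ih =>
    intro A' B B' b b' hb hb' hn h
    cases A' with
    | nil =>
      simp only [List.nil_append, List.cons_append, List.cons.injEq] at h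
      rw [h.1, nB_cons_of _ _ hb'] at hn
      simp [nB] at hn
    | cons a A' =>
      simp only [List.cons_append, List.cons.injEq] at h
      obtain ⟨h1, h2⟩ := h
      subst h1
      have hn' : nB A = nB A' := by
        unfold nB at hn ⊢
        rw [List.countP_cons, List.countP_cons] at hn
        omega
      obtain ⟨h3, h4⟩ := ih A' B B' b b' hb hb' hn' h2
      exact ⟨by rw [h3], h4⟩

theorem rS_inj (hrtc : T_rtc) {d f : Dir} (h : perp d f) : Function.Injective (rS d f) := by
  obtain ⟨⟨d', f', -, -, -, h1, -, -, -⟩, -⟩ := hrtc d f h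
  have hi : ∀ s, rS d' f' (rS d f s) = s := by
    intro s
    cases s <;> simp [rS, h1]
  exact Function.LeftInverse.injective hi

theorem Rp_inj (hrtc : T_rtc) {d f : Dir} (h : perp d f) : Function.Injective (Rp d f) := by
  obtain ⟨⟨d', f', -, -, -, -, -, h1, -⟩, -⟩ := hrtc d f h
  exact Function.LeftInverse.injective h1

/-- the alternatives of `Rl` -/
def Ra (i : Fin 3) (W : List Sy) (d f : Dir) (A B : List Sy) : Prop :=
  (i = 0 ∧ W.map (rS d f) = A ++ .lt .zp :: B) ∨
    (i = 1 ∧ ∃ M, A = M ++ [.lt .xm] ∧ W.map (rS d f) = M ++ .lt .zp :: .lt .xm :: B) ∨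
    (i = 2 ∧ ∃ M, B = .lt .xp :: M ∧ W.map (rS d f) = A ++ .lt .xp :: .lt .zp :: M)

theorem exists_Ra {W : List Sy} {d f : Dir} {A B : List Sy} (h : Rl W d f A B) :
    ∃ i : Fin 3, Ra i W d f A B := by
  rcases h with h | h | h
  · exact ⟨0, Or.inl ⟨rfl, h⟩⟩
  · exact ⟨1, Or.inr (Or.inl ⟨rfl, h⟩)⟩
  · exact ⟨2, Or.inr (Or.inr ⟨rfl, h⟩)⟩

theorem Ra_unique {i : Fin 3} {W W' : List Sy} {d f : Dir} {A B : List Sy}
    (h : Ra i W d f A B) (h' : Ra i W' d f A B) : W.map (rS d f) = W'.map (rS d f) := by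
  rcases h with ⟨rfl, h⟩ | ⟨rfl, M, hM, h⟩ | ⟨rfl, M, hM, h⟩
  · rcases h' with ⟨_, h'⟩ | ⟨h0, _⟩ | ⟨h0, _⟩
    · rw [h, h']
    · exact absurd h0 (by decide)
    · exact absurd h0 (by decide)
  · rcases h' with ⟨h0, _⟩ | ⟨_, M', hM', h'⟩ | ⟨h0, _⟩
    · exact absurd h0 (by decide)
    · have : M = M' := by
        rw [hM] at hM'
        exact List.append_cancel_right hM'
      rw [h, h', this]
    · exact absurd h0 (by decide)
  · rcases h' with ⟨h0, _⟩ | ⟨h0, _⟩ | ⟨_, M', hM', h'⟩
    · exact absurd h0 (by decide)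
    · exact absurd h0 (by decide)
    · have : M = M' := by
        rw [hM] at hM'
        exact (List.cons.inj hM').2
      rw [h, h', this]

theorem Ra_nB {i : Fin 3} {W : List Sy} {d f : Dir} {A B : List Sy}
    (h : Ra i W d f A B) : nB (A ++ .bl .xp .zp :: B) = nB W + 1 ∧
      (A ++ .bl .xp .zp :: B).length = W.length := by
  have e1 := nB_map d f W
  have e2 : (W.map (rS d f)).length = W.length := List.length_map _
  rcases h with ⟨-, h⟩ | ⟨-, M, hM, h⟩ | ⟨-, M, hM, h⟩
  · rw [h] at e1 e2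
    rw [nB_append, nB_cons_lt] at e1
    rw [nB_append, nB_cons_bl]
    rw [List.length_append, List.length_cons] at e2 ⊢
    omega
  · rw [h] at e1 e2
    subst hM
    rw [nB_append, nB_cons_lt, nB_cons_lt] at e1
    rw [nB_append, nB_append, nB_cons_bl, nB_cons_lt]
    have e3 : nB [] = 0 := rfl
    simp only [List.length_append, List.length_cons, List.length_nil] at e2 ⊢
    omega
  · rw [h] at e1 e2
    subst hM
    rw [nB_append, nB_cons_lt, nB_cons_lt] at e1
    rw [nB_append, nB_cons_bl, nB_cons_lt]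
    simp only [List.length_append, List.length_cons] at e2 ⊢
    omega

/-- the counting -/
theorem count (hrtc : T_rtc) (T L : ℕ) (v : List Dir) (N n : ℕ) (C : List Sy → Finset Z3)
    (h : ∀ W ∈ VN T L v N n, ∀ x ∈ C W, ∃ (d f : Dir) (A B : List Sy), perp d f ∧
      Val T L v (A ++ .bl .xp .zp :: B) ∧ near 6 (pos (EX T v B)) (Rp d f x) ∧ Rl W d f A B) :
    ∑ W ∈ VN T L v N n, (C W).card ≤
      (VN T L v (N + 1) n).card * ((N + 1) * (6 * (6 * (3 * 13 ^ 3)))) := by
  rw [← Finset.card_sigma]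
  have hcard : (VN T L v (N + 1) n ×ˢ (range (N + 1) ×ˢ ((univ : Finset Dir) ×ˢ
      ((univ : Finset Dir) ×ˢ ((univ : Finset (Fin 3)) ×ˢ box 6 0))))).card =
      (VN T L v (N + 1) n).card * ((N + 1) * (6 * (6 * (3 * 13 ^ 3)))) := by
    rw [card_product, card_product, card_product, card_product, card_product, card_box, card_range,
      card_univ, card_univ]
    have e1 : Fintype.card Dir = 6 := rfl
    have e2 : Fintype.card (Fin 3) = 3 := rfl
    rw [e1, e2]
  rw [← hcard]
  apply Finset.card_le_card_of_forall_subsingleton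
    (fun (p : (_ : List Sy) × Z3) (q : List Sy × ℕ × Dir × Dir × Fin 3 × Z3) =>
      ∃ A B : List Sy, perp q.2.2.1 q.2.2.2.1 ∧ q.1 = A ++ .bl .xp .zp :: B ∧ nB A = q.2.1 ∧
        Ra q.2.2.2.2.1 p.1 q.2.2.1 q.2.2.2.1 A B ∧
        q.2.2.2.2.2 = Rp q.2.2.1 q.2.2.2.1 p.2 - pos (EX T v B))
  · rintro ⟨W, x⟩ hp
    rw [mem_sigma] at hp
    obtain ⟨hW, hx⟩ := hp
    simp only at hW hx
    obtain ⟨d, f, A, B, h1, h2, h3, h4⟩ := h W hW x hx
    obtain ⟨i, hi⟩ := exists_Ra h4
    obtain ⟨k1, k2⟩ := Ra_nB hi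
    rw [mem_VN] at hW
    refine ⟨(A ++ .bl .xp .zp :: B, nB A, d, f, i, Rp d f x - pos (EX T v B)), ?_, A, B, h1, rfl,
      rfl, hi, rfl⟩
    simp only [mem_product, mem_range, mem_univ, true_and]
    refine ⟨?_, ?_, ?_⟩
    · rw [mem_VN, k1, k2]
      exact ⟨hW.1, by rw [hW.2.1], h2⟩
    · rw [nB_append, nB_cons_bl, hW.2.1] at k1
      omega
    · rw [mem_box]
      unfold near at h3 ⊢
      obtain ⟨h5, h6, h7⟩ := h3
      rw [abs_sub_comm] at h5 h6 h7
      refine ⟨?_, ?_, ?_⟩
      · simpa using h5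
      · simpa using h6
      · simpa using h7
  · rintro ⟨W', k, d, f, i, y⟩ _ ⟨W₁, x₁⟩ h1 ⟨W₂, x₂⟩ h2
    simp only [Set.mem_setOf_eq] at h1 h2
    obtain ⟨-, A, B, hp, e1, e2, e3, e4⟩ := h1
    obtain ⟨-, A', B', -, e1', e2', e3', e4'⟩ := h2
    rw [e1] at e1'
    obtain ⟨rfl, rfl⟩ := split_unique A A' B B' (.bl .xp .zp) (.bl .xp .zp) rfl rfl
      (by rw [e2, e2']) e1'
    have hW : W₁ = W₂ := (List.map_injective_iff.2 (rS_inj hrtc hp)) (Ra_unique e3 e3')
    have hx : x₁ = x₂ := by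
      rw [e4] at e4'
      exact Rp_inj hrtc hp (sub_left_injective e4')
    subst hW hx
    rfl

end K2WCNT

open K2WCNT

theorem T_Wcnt_proof (hcon : T_Wcon) (hbas : T_Wbas) (hmany : T_many) (hrtc : T_rtc) :
    T_Wcnt := by
  intro T L R v hv hLL hR N
  obtain ⟨c, hc, hev⟩ := hmany R hR
  set D := (blk T v).length - 1 with hD
  set r := rad T L v with hr
  set M0 : ℕ := N * (2 * r + 1) ^ 3 with hM0
  set Q : ℕ := (N + 1) * (6 * (6 * (3 * 13 ^ 3))) with hQ
  have hQ0 : (0 : ℝ) < Q := by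
    rw [hQ]
    positivity
  refine ⟨c / (2 * Q), by positivity, ?_⟩
  have h1 := (tendsto_add_atTop_nat (N * D)).eventually hev
  have h2 : ∀ᶠ n : ℕ in atTop, (M0 : ℝ) ≤ c / 2 * (n : ℝ) ^ (2 / 3 : ℝ) := by
    have ht : Tendsto (fun n : ℕ => c / 2 * (n : ℝ) ^ (2 / 3 : ℝ)) atTop atTop := by
      apply Tendsto.const_mul_atTop (by positivity)
      exact (tendsto_rpow_atTop (by norm_num)).comp tendsto_natCast_atTop_atTop
    exact ht.eventually_ge_atTop _
  filter_upwards [h1, h2] with n hn1 hn2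
  have hC : ∀ W : List Sy, ∃ C : Finset Z3, W ∈ VN T L v N n →
      (c / 2 * (n : ℝ) ^ (2 / 3 : ℝ) ≤ C.card ∧ ∀ x ∈ C, ¬ near 6 x 0 ∧
        (∃ N, Cont R {p | p ∈ path (EX T v W)} x N) ∧ farB T L v r W x) := by
    intro W
    by_cases hW : W ∈ VN T L v N n
    swap
    · exact ⟨∅, fun h => absurd h hW⟩
    rw [mem_VN] at hW
    obtain ⟨hW1, hW2, hW3⟩ := hW
    have hlen : (EX T v W).length = n + N * D := by
      rw [(hbas T L v hv W).2.2.1, hW1, hW2]
    obtain ⟨C, hC1, hC2⟩ := hn1 (EX T v W) hW3.ext hlen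
    refine ⟨C.filter (fun x => farB T L v r W x), fun _ => ⟨?_, ?_⟩⟩
    · have hbad : (C.filter (fun x => ¬ farB T L v r W x)).card ≤ M0 := by
        have hsub : C.filter (fun x => ¬ farB T L v r W x) ⊆
            (bps T v W).toFinset.biUnion (fun q => box r q) := by
          intro x hx
          rw [mem_filter] at hx
          obtain ⟨-, hx⟩ := hx
          unfold farB at hx
          push Not at hx
          obtain ⟨A, B, d, f, hAB, hx⟩ := hx
          rw [mem_biUnion]
          refine ⟨pos (EX T v B), ?_, mem_box.2 hx⟩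
          rw [List.mem_toFinset, hAB]
          exact mem_bps T v A B d f
        refine (card_le_card hsub).trans ?_
        refine (card_biUnion_le_card_mul _ _ ((2 * r + 1) ^ 3) (fun q _ => (card_box r q).le)).trans
          ?_
        rw [hM0]
        apply Nat.mul_le_mul_right
        refine (List.toFinset_card_le _).trans ?_
        rw [bps_length, hW2]
      have hsum := card_filter_add_card_filter_not (s := C) (fun x => farB T L v r W x)
      have hn3 : (n : ℝ) ^ (2 / 3 : ℝ) ≤ ((n + N * D : ℕ) : ℝ) ^ (2 / 3 : ℝ) := by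
        apply Real.rpow_le_rpow (by positivity) _ (by norm_num)
        exact_mod_cast Nat.le_add_right _ _
      have hn4 : c * (n : ℝ) ^ (2 / 3 : ℝ) ≤ C.card :=
        (mul_le_mul_of_nonneg_left hn3 hc.le).trans hC1
      have hb' : ((C.filter (fun x => ¬ farB T L v r W x)).card : ℝ) ≤ M0 := by
        exact_mod_cast hbad
      have hs' : ((C.filter (fun x => farB T L v r W x)).card : ℝ) +
          ((C.filter (fun x => ¬ farB T L v r W x)).card : ℝ) = C.card := by
        exact_mod_cast hsum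
      linarith
    · intro x hx
      rw [mem_filter] at hx
      exact ⟨(hC2 x hx.1).1, (hC2 x hx.1).2, hx.2⟩
  choose C hC using hC
  have key := count hrtc T L v N n C (by
    intro W hW x hx
    obtain ⟨-, h3⟩ := hC W hW
    obtain ⟨h4, ⟨N', h5⟩, h6⟩ := h3 x hx
    exact hcon T L R v hv hLL W (mem_VN.1 hW).2.2 x N' h5 h4 h6)
  have hlow : c / 2 * (n : ℝ) ^ (2 / 3 : ℝ) * (VN T L v N n).card ≤
      ((∑ W ∈ VN T L v N n, (C W).card : ℕ) : ℝ) := by
    push_cast
    rw [mul_comm, ← nsmul_eq_mul]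
    exact Finset.card_nsmul_le_sum _ _ _ (fun W hW => (hC W hW).1)
  have key' : ((∑ W ∈ VN T L v N n, (C W).card : ℕ) : ℝ) ≤ (VN T L v (N + 1) n).card * Q := by
    exact_mod_cast key
  have hfin := hlow.trans key'
  rw [div_mul_eq_mul_div, div_mul_eq_mul_div, div_le_iff₀ (by positivity)]
  calc c * (n : ℝ) ^ (2 / 3 : ℝ) * (VN T L v N n).card
      = 2 * (c / 2 * (n : ℝ) ^ (2 / 3 : ℝ) * (VN T L v N n).card) := by ring
    _ ≤ 2 * ((VN T L v (N + 1) n).card * Q) := by linarith
    _ = (VN T L v (N + 1) n).card * (2 * Q) := by ring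

end

end KN
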