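import Pool.Agent.H246K2.Stubs

/-!
# K2, task WCR (`T_wconR`) (helper51)
-/

set_option autoImplicit false

namespace KN

open Finset Filter Topology
open scoped Classical

open GL1 in
theorem T_wconR_proof (hcon : T_connecto) (hlw : T_lwo) (hlv : T_lvo) (hsap : T_sapR)
    (hsimple : S_simple) (hrot : S_rot) (hmot : S_motion) : T_wconR := by
  intro L l1 l2 v v' hS hB hB' hsame
  have hj : SAP (glue l1 v l2) := hsap L l1 v l2 hS hB
  have hj' : SAP (glue l1 v' l2) := hsap L l1 v' l2 hS hB'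
  have e1 := glue_same hsimple hrot hmot l1 v l2 (pos_v hB.1) hj
  have e2 := glue_same hsimple hrot hmot l1 v' l2 (pos_v hB'.1) hj'
  have e3 : Same (lv v) (lv v') := by
    have a1 := ((hmot _ (hsimple _ hB.1)).1 (1, 0, 0)).1
    have a2 := ((hmot _ (hsimple _ hB'.1)).1 (1, 0, 0)).1
    exact (a1.symm.trans hsame).trans a2
  have e4 := hcon L _ _ _ (hlw L l1 l2 hS) (hlv L v hB) (hlv L v' hB') e3
  exact e1.trans (e4.trans e2.symm)

end KN
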