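import Pool.Agent.H246K2.Stubs

/-!
# WFLIP: flips of words with blocks
-/

set_option autoImplicit false

namespace KN

open Finset Filter Topology
open scoped Classical

namespace K2WFLIP

theorem Rp_le (d f : Dir) (hp : perp d f) (h : Z3) (M : ℤ) (h1 : |h.1| ≤ M) (h2 : |h.2.1| ≤ M)
    (h3 : |h.2.2| ≤ M) :
    |(Rp d f h).1| ≤ M ∧ |(Rp d f h).2.1| ≤ M ∧ |(Rp d f h).2.2| ≤ M := by
  obtain ⟨x, y, z⟩ := h
  simp only at h1 h2 h3
  rw [abs_le] at h1 h2 h3
  cases d <;> cases f <;> first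
    | (exact absurd rfl hp)
    | (simp only [Rp, vec, cr, Prod.smul_mk, smul_eq_mul, mul_one, mul_zero, mul_neg, Prod.mk_add_mk,
        add_zero, zero_add, abs_le]
       refine ⟨⟨?_, ?_⟩, ⟨?_, ?_⟩, ?_, ?_⟩ <;> linarith [h1.1, h1.2, h2.1, h2.2, h3.1, h3.2])

theorem vec_le (a : Dir) : |(vec a).1| ≤ 1 ∧ |(vec a).2.1| ≤ 1 ∧ |(vec a).2.2| ≤ 1 := by
  cases a <;> decide

theorem rmD_of (T L : ℕ) (d f a : Dir) (hp : perp d f) (w0 w0' : List Dir) (Q y : Z3)
    (hsub : ∀ p ∈ path w0', p ∈ path w0 ∨ p = Q + vec a) (hR : RmD T L d f w0 y)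
    (hfar : ¬ near (T + L + 5) Q y) : RmD T L d f w0' y := by
  have key : ∀ h : Z3, |h.1| ≤ T + L + 1 → |h.2.1| ≤ T + L + 1 → |h.2.2| ≤ T + L + 1 →
      y + Rp d f h ∉ path w0 → y + Rp d f h ∉ path w0' := by
    intro h h1 h2 h3 h4 h5
    rcases hsub _ h5 with h6 | h6
    · exact h4 h6
    · apply hfar
      obtain ⟨r1, r2, r3⟩ := Rp_le d f hp h _ h1 h2 h3
      obtain ⟨v1, v2, v3⟩ := vec_le a
      have e1 := congrArg (fun p : Z3 => p.1) h6
      have e2 := congrArg (fun p : Z3 => p.2.1) h6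
      have e3 := congrArg (fun p : Z3 => p.2.2) h6
      simp only [Prod.fst_add, Prod.snd_add] at e1 e2 e3
      rw [abs_le] at r1 r2 r3 v1 v2 v3
      refine ⟨?_, ?_, ?_⟩ <;> rw [abs_le] <;> push_cast <;> constructor <;> omega
  constructor
  · intro j hj1 hj2
    have hj1' : (1:ℤ) ≤ j := by exact_mod_cast hj1
    have hj2' : (j:ℤ) ≤ T := by exact_mod_cast hj2
    have hL : (0:ℤ) ≤ L := Nat.cast_nonneg L
    constructor
    · refine key _ ?_ ?_ ?_ (hR.1 j hj1 hj2).1
      · simp only; rw [abs_le]; constructor <;> omega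
      · simp only [abs_zero]; omega
      · simp only [abs_zero]; omega
    · refine key _ ?_ ?_ ?_ (hR.1 j hj1 hj2).2
      · simp only; rw [abs_le]; constructor <;> omega
      · simp only [abs_zero]; omega
      · simp only [abs_one]; omega
  · intro h h1 h2 h3 h4 h5
    have hT : (0:ℤ) ≤ T := Nat.cast_nonneg T
    have hL : (0:ℤ) ≤ L := Nat.cast_nonneg L
    refine key h ?_ ?_ ?_ (hR.2 h h1 h2 h3 h4 h5)
    · rw [abs_le]; constructor <;> omega
    · omega
    · rw [abs_le]; constructor <;> omega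

theorem EX_append (T : ℕ) (v : List Dir) (A B : List Sy) : EX T v (A ++ B) = EX T v A ++ EX T v B := by
  unfold EX
  rw [List.flatMap_append]

theorem EX_lt (T : ℕ) (v : List Dir) (a : Dir) (B : List Sy) :
    EX T v (.lt a :: B) = a :: EX T v B := by
  unfold EX
  rw [List.flatMap_cons]
  rfl

theorem EX_bl (T : ℕ) (v : List Dir) (d f : Dir) (B : List Sy) :
    EX T v (.bl d f :: B) = (blk T v).map (rt d f) ++ EX T v B := by
  unfold EX
  rw [List.flatMap_cons]
  rfl

theorem blk_ne (T : ℕ) (v : List Dir) (d f : Dir) : (blk T v).map (rt d f) ≠ [] := by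
  unfold blk
  simp [List.replicate_succ]

theorem pos_blk (h1 : T_Wbas) (T L : ℕ) (v : List Dir) (hv : SmR L v) (d f : Dir) :
    pos ((blk T v).map (rt d f)) = vec f := by
  have h := (h1 T L v hv [.bl d f]).1
  rw [EX_bl] at h
  simpa [EX, BS, syl, pos] using h

theorem length_EX (h1 : T_Wbas) (T L : ℕ) (v : List Dir) (hv : SmR L v) (W : List Sy) :
    W.length ≤ (EX T v W).length := by
  rw [(h1 T L v hv W).2.2.1]
  exact Nat.le_add_right _ _

/-- the word with a block replaced by an edge -/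
theorem rep (h1 : T_Wbas) (h2 : T_Wrep) (T L : ℕ) (v : List Dir) (hv : SmR L v) (A B : List Sy)
    (d f : Dir) (hV : Val T L v (A ++ .bl d f :: B)) :
    (∀ p ∈ path (EX T v A ++ f :: EX T v B), p ∈ path (EX T v (A ++ .bl d f :: B))) ∧
    SAP (EX T v A ++ f :: EX T v B) := by
  have e : EX T v (A ++ .bl d f :: B) = EX T v A ++ (blk T v).map (rt d f) ++ EX T v B := by
    rw [EX_append, EX_bl, List.append_assoc]
  obtain ⟨h3, h4⟩ := h2 (EX T v A) (EX T v B) ((blk T v).map (rt d f)) f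
    (pos_blk h1 T L v hv d f) (blk_ne T v d f)
  rw [← e] at h3 h4
  refine ⟨h3, h4 hV.ext ?_⟩
  have h5 := hV.base.1
  unfold BS at h5
  rw [List.length_map, List.length_append, List.length_cons] at h5
  have h6 := length_EX h1 T L v hv A
  have h7 := length_EX h1 T L v hv B
  rw [List.length_append, List.length_cons]
  omega

end K2WFLIP

open K2WFLIP in
theorem T_Wflip_proof (h1 : T_Wbas) (h2 : T_Wrep) (h3 : T_flip) : T_Wflip := by
  intro T L v hv A B a b hV hab hP hfar
  have eW : EX T v (A ++ .lt a :: .lt b :: B) = EX T v A ++ a :: b :: EX T v B := by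
    rw [EX_append, EX_lt, EX_lt]
  have eW' : EX T v (A ++ .lt b :: .lt a :: B) = EX T v A ++ b :: a :: EX T v B := by
    rw [EX_append, EX_lt, EX_lt]
  have eB : BS (A ++ .lt a :: .lt b :: B) = BS A ++ a :: b :: BS B := by
    unfold BS; simp [syl]
  have eB' : BS (A ++ .lt b :: .lt a :: B) = BS A ++ b :: a :: BS B := by
    unfold BS; simp [syl]
  have hpB : pos (EX T v B) = pos (BS B) := (h1 T L v hv B).1
  have hsubW := (h1 T L v hv (A ++ .lt a :: .lt b :: B)).2.1
  -- base
  obtain ⟨b1, b2, _⟩ := h3 (BS A) (BS B) a b hab (by rw [← eB]; exact hV.base)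
    (by
      rw [← hpB, ← eB]
      exact fun h => hP (hsubW _ h))
  rw [← eB, ← eB'] at b2
  obtain ⟨x1, _, _⟩ := h3 (EX T v A) (EX T v B) a b hab (by rw [← eW]; exact hV.ext)
    (by rw [← eW]; exact hP)
  refine ⟨?_, ?_, ?_, ?_⟩
  · rcases hV.u with h | h
    · exact Or.inl (b2.symm.trans h)
    · exact Or.inr (b2.symm.trans h)
  · rw [eB']; exact b1
  · rw [eW']; exact x1
  · intro A1 B1 d f hW
    rcases List.append_eq_append_iff.1 hW with ⟨C, hC1, hC2⟩ | ⟨C, hC1, hC2⟩
    · -- A1 = A ++ C, lt b :: lt a :: B = C ++ bl d f :: B1 : the block lies in B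
      obtain ⟨B2, rfl⟩ : ∃ B2, C = .lt b :: .lt a :: B2 := by
        rcases C with _ | ⟨c1, C⟩
        · simp at hC2
        · rcases C with _ | ⟨c2, C⟩
          · simp at hC2
          · simp only [List.cons_append, List.cons.injEq] at hC2
            exact ⟨C, by rw [hC2.1, hC2.2.1]⟩
      simp only [List.cons_append, List.cons.injEq, true_and] at hC2
      subst hC1
      subst hC2
      have hW0 : A ++ .lt a :: .lt b :: (B2 ++ .bl d f :: B1) =
          (A ++ .lt a :: .lt b :: B2) ++ .bl d f :: B1 := by simp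
      rw [hW0] at hV hfar hP
      obtain ⟨hperp, hR⟩ := hV.room _ _ d f rfl
      refine ⟨hperp, ?_⟩
      obtain ⟨r1, r2⟩ := rep h1 h2 T L v hv _ _ d f hV
      have e0 : EX T v (A ++ .lt a :: .lt b :: B2) ++ f :: EX T v B1 =
          EX T v A ++ a :: b :: (EX T v B2 ++ f :: EX T v B1) := by
        rw [EX_append, EX_lt, EX_lt]; simp
      have e0' : EX T v (A ++ .lt b :: .lt a :: B2) ++ f :: EX T v B1 =
          EX T v A ++ b :: a :: (EX T v B2 ++ f :: EX T v B1) := by
        rw [EX_append, EX_lt, EX_lt]; simp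
      have ep : pos (EX T v B2 ++ f :: EX T v B1) = pos (EX T v (B2 ++ .bl d f :: B1)) := by
        rw [EX_append, EX_bl, pos_append, pos_append, pos_append, pos_blk h1 T L v hv, pos]
        abel
      rw [e0'] 
      rw [e0] at hR r1 r2
      have hPn : pos (EX T v B2 ++ f :: EX T v B1) + vec a ∉
          path (EX T v A ++ a :: b :: (EX T v B2 ++ f :: EX T v B1)) := by
        rw [ep]
        exact fun h => hP (r1 _ h)
      obtain ⟨_, _, f3⟩ := h3 (EX T v A) (EX T v B2 ++ f :: EX T v B1) a b hab r2 hPn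
      refine rmD_of T L d f a hperp _ _ (pos (EX T v B2 ++ f :: EX T v B1)) _ f3 hR ?_
      rw [ep]
      exact hfar _ _ d f rfl
    · -- A = A1 ++ C, bl d f :: B1 = C ++ lt b :: lt a :: B : the block lies in A
      obtain ⟨A2, rfl⟩ : ∃ A2, C = .bl d f :: A2 := by
        rcases C with _ | ⟨c1, C⟩
        · simp at hC2
        · simp only [List.cons_append, List.cons.injEq] at hC2
          exact ⟨C, by rw [hC2.1]⟩
      simp only [List.cons_append, List.cons.injEq, true_and] at hC2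
      subst hC1
      subst hC2
      have hW0 : (A1 ++ .bl d f :: A2) ++ .lt a :: .lt b :: B =
          A1 ++ .bl d f :: (A2 ++ .lt a :: .lt b :: B) := by simp
      rw [hW0] at hV hfar hP
      obtain ⟨hperp, hR⟩ := hV.room _ _ d f rfl
      refine ⟨hperp, ?_⟩
      obtain ⟨r1, r2⟩ := rep h1 h2 T L v hv _ _ d f hV
      have e0 : EX T v A1 ++ f :: EX T v (A2 ++ .lt a :: .lt b :: B) =
          (EX T v A1 ++ f :: EX T v A2) ++ a :: b :: EX T v B := by
        rw [EX_append, EX_lt, EX_lt]; simp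
      have e0' : EX T v A1 ++ f :: EX T v (A2 ++ .lt b :: .lt a :: B) =
          (EX T v A1 ++ f :: EX T v A2) ++ b :: a :: EX T v B := by
        rw [EX_append, EX_lt, EX_lt]; simp
      have ep : pos (EX T v (A2 ++ .lt b :: .lt a :: B)) = pos (EX T v (A2 ++ .lt a :: .lt b :: B)) := by
        rw [EX_append, EX_append, EX_lt, EX_lt, EX_lt, EX_lt, pos_append, pos_append]
        simp only [pos]
        abel
      rw [e0', ep]
      rw [e0] at hR r1 r2
      have hPn : pos (EX T v B) + vec a ∉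
          path ((EX T v A1 ++ f :: EX T v A2) ++ a :: b :: EX T v B) := fun h => hP (r1 _ h)
      obtain ⟨_, _, f3⟩ := h3 (EX T v A1 ++ f :: EX T v A2) (EX T v B) a b hab r2 hPn
      refine rmD_of T L d f a hperp _ _ (pos (EX T v B)) _ f3 hR ?_
      exact hfar _ _ d f rfl

end KN
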