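import Pool.Agent.H246K2.Stubs

/-!
# Project K2, task WLOOK: looking up a letter far from the blocks
-/

set_option autoImplicit false

namespace KN

namespace K2WLOOK

theorem pos_le (w : List Dir) : |(pos w).1| ≤ w.length ∧ |(pos w).2.1| ≤ w.length ∧
    |(pos w).2.2| ≤ w.length := by
  induction w with
  | nil => simp [pos]
  | cons d w ih =>
    obtain ⟨h1, h2, h3⟩ := ih
    rw [abs_le] at h1 h2 h3
    simp only [pos, List.length_cons, Prod.fst_add, Prod.snd_add, abs_le]
    push_cast
    cases d <;> simp only [vec] <;> omega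

theorem flatMap_split {α β : Type} (g : α → List β) : ∀ (W : List α) (l1 l2 : List β) (z : β),
    W.flatMap g = l1 ++ z :: l2 → ∃ (A : List α) (s : α) (B : List α) (s1 s2 : List β),
      W = A ++ s :: B ∧ g s = s1 ++ z :: s2 ∧ l1 = A.flatMap g ++ s1 ∧ l2 = s2 ++ B.flatMap g := by
  intro W
  induction W with
  | nil =>
    intro l1 l2 z h
    simp at h
  | cons s W ih =>
    intro l1 l2 z h
    rw [List.flatMap_cons, List.append_eq_append_iff] at h
    rcases h with ⟨as, h1, h2⟩ | ⟨bs, h1, h2⟩
    · obtain ⟨A, t, B, s1, s2, e1, e2, e3, e4⟩ := ih as l2 z h2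
      refine ⟨s :: A, t, B, s1, s2, ?_, e2, ?_, e4⟩
      · rw [e1]; rfl
      · rw [h1, e3, List.flatMap_cons, List.append_assoc]
    · cases bs with
      | nil =>
        rw [List.nil_append] at h2
        obtain ⟨A, t, B, s1, s2, e1, e2, e3, e4⟩ := ih [] l2 z (by rw [← h2]; rfl)
        refine ⟨s :: A, t, B, s1, s2, ?_, e2, ?_, e4⟩
        · rw [e1]; rfl
        · rw [List.flatMap_cons, List.append_assoc, ← e3, h1, List.append_nil, List.append_nil]
      | cons b bs =>
        rw [List.cons_append, List.cons.injEq] at h2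
        obtain ⟨h2, h3⟩ := h2
        refine ⟨[], s, W, l1, bs, rfl, ?_, rfl, h3⟩
        rw [h1, h2]

end K2WLOOK

theorem T_Wlook_proof : T_Wlook := by
  intro T L v _ W l1 l2 z hW hfar _
  obtain ⟨A, s, B, s1, s2, e1, e2, e3, e4⟩ := K2WLOOK.flatMap_split (syw T v) W l1 l2 z hW
  cases s with
  | lt f =>
    have h1 : s1 = [] ∧ f = z ∧ s2 = [] := by
      have h2 : [f] = s1 ++ z :: s2 := e2
      cases s1 with
      | nil =>
        rw [List.nil_append, List.cons.injEq] at h2
        exact ⟨rfl, h2.1, h2.2.symm⟩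
      | cons a s1 =>
        rw [List.cons_append, List.cons.injEq] at h2
        exact absurd h2.2 (by simp)
    obtain ⟨h1, h2, h3⟩ := h1
    refine ⟨A, B, ?_, ?_, ?_⟩
    · rw [e1, h2]
    · rw [e3, h1, List.append_nil]
      rfl
    · rw [e4, h3, List.nil_append]
      rfl
  | bl d' f' =>
    exfalso
    refine hfar A B d' f' e1 ?_
    have hlen : s2.length < (blk T v).length := by
      have h1 : ((blk T v).map (rt d' f')).length = (s1 ++ z :: s2).length := by
        rw [← e2]
        rfl
      rw [List.length_map, List.length_append, List.length_cons] at h1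
      omega
    have hp : pos l2 = pos s2 + pos (EX T v B) := by
      rw [e4, pos_append]
      rfl
    obtain ⟨p1, p2, p3⟩ := K2WLOOK.pos_le s2
    have hlen' : (s2.length : ℤ) ≤ ((blk T v).length : ℤ) := by exact_mod_cast hlen.le
    rw [hp]
    refine ⟨?_, ?_, ?_⟩
    · rw [Prod.fst_add, add_sub_cancel_right]
      exact p1.trans hlen'
    · rw [Prod.snd_add, Prod.fst_add, add_sub_cancel_right]
      exact p2.trans hlen'
    · rw [Prod.snd_add, Prod.snd_add, add_sub_cancel_right]
      exact p3.trans hlen'

end KN
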