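import Pool.Agent.H246K2.Stubs

set_option autoImplicit false

namespace KN

open Finset Filter Topology
open scoped Classical

namespace K2WMUL

theorem blk_pos (T : ℕ) (v : List Dir) : 1 ≤ (blk T v).length := by
  simp only [blk, List.length_append, List.length_replicate]
  omega

theorem EX_nil (T : ℕ) (v : List Dir) : EX T v [] = [] := rfl

theorem EX_cons (T : ℕ) (v : List Dir) (s : Sy) (W : List Sy) :
    EX T v (s :: W) = syw T v s ++ EX T v W := by
  simp [EX, List.flatMap_cons]

theorem EX_append (T : ℕ) (v : List Dir) (A B : List Sy) :
    EX T v (A ++ B) = EX T v A ++ EX T v B := by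
  simp [EX, List.flatMap_append]

/-- positions of the blocks -/
noncomputable def Sp (T : ℕ) (v : List Dir) : ℕ → List Sy → Finset (ℕ × Dir × Dir)
  | _, [] => ∅
  | o, .lt _ :: W => Sp T v (o + 1) W
  | o, .bl d f :: W => insert (o, d, f) (Sp T v (o + (blk T v).length) W)

theorem Sp_ge (T : ℕ) (v : List Dir) : ∀ (W : List Sy) (o : ℕ) (q : ℕ × Dir × Dir),
    q ∈ Sp T v o W → o ≤ q.1 := by
  intro W
  induction W with
  | nil => intro o q hq; simp [Sp] at hq
  | cons s W ih =>
    intro o q hq
    cases s with
    | lt f =>
      have := ih (o + 1) q hq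
      omega
    | bl d f =>
      simp only [Sp, Finset.mem_insert] at hq
      rcases hq with rfl | hq
      · exact le_refl _
      · have := ih _ q hq
        omega

theorem Sp_mem (T : ℕ) (v : List Dir) : ∀ (W : List Sy) (o : ℕ) (m : ℕ) (d f : Dir),
    (m, d, f) ∈ Sp T v o W → ∃ A B : List Sy, W = A ++ .bl d f :: B ∧
      m = o + (EX T v A).length := by
  intro W
  induction W with
  | nil => intro o m d f hq; simp [Sp] at hq
  | cons s W ih =>
    intro o m d f hq
    cases s with
    | lt e =>
      obtain ⟨A, B, h1, h2⟩ := ih (o + 1) m d f hq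
      refine ⟨.lt e :: A, B, by rw [h1]; rfl, ?_⟩
      rw [EX_cons, List.length_append, h2]
      simp only [syw, List.length_cons, List.length_nil]
      omega
    | bl d' f' =>
      simp only [Sp, Finset.mem_insert] at hq
      rcases hq with hq | hq
      · simp only [Prod.mk.injEq] at hq
        obtain ⟨rfl, rfl, rfl⟩ := hq
        exact ⟨[], W, rfl, by simp [EX_nil]⟩
      · obtain ⟨A, B, h1, h2⟩ := ih _ m d f hq
        refine ⟨.bl d' f' :: A, B, by rw [h1]; rfl, ?_⟩
        rw [EX_cons, List.length_append, h2]
        simp only [syw, List.length_map]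
        omega

theorem mem_Sp (T : ℕ) (v : List Dir) : ∀ (A B : List Sy) (o : ℕ) (d f : Dir),
    (o + (EX T v A).length, d, f) ∈ Sp T v o (A ++ .bl d f :: B) := by
  intro A
  induction A with
  | nil => intro B o d f; simp [Sp, EX_nil]
  | cons s A ih =>
    intro B o d f
    cases s with
    | lt e =>
      have := ih B (o + 1) d f
      rw [EX_cons, List.length_append]
      simp only [syw, List.length_cons, List.length_nil, List.cons_append, Sp]
      convert this using 2
      omega
    | bl d' f' =>
      have := ih B (o + (blk T v).length) d f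
      rw [EX_cons, List.length_append]
      simp only [syw, List.length_map, List.cons_append, Sp, Finset.mem_insert]
      right
      convert this using 2
      omega

theorem Sp_card (T : ℕ) (v : List Dir) : ∀ (W : List Sy) (o : ℕ),
    (Sp T v o W).card ≤ nB W := by
  intro W
  induction W with
  | nil => intro o; simp [Sp]
  | cons s W ih =>
    intro o
    cases s with
    | lt e =>
      have := ih (o + 1)
      simpa [Sp, nB, List.countP_cons, isB] using this
    | bl d f =>
      have h1 := ih (o + (blk T v).length)
      have h2 := Finset.card_insert_le (o, d, f) (Sp T v (o + (blk T v).length) W)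
      simp only [Sp, nB, List.countP_cons, isB] at h1 ⊢
      simp only [if_true]
      omega

theorem inj (T : ℕ) (v : List Dir) : ∀ (W W' : List Sy) (o : ℕ), EX T v W = EX T v W' →
    Sp T v o W = Sp T v o W' → W = W' := by
  have hb := blk_pos T v
  intro W
  induction W with
  | nil =>
    intro W' o h1 _
    cases W' with
    | nil => rfl
    | cons s W' =>
      exfalso
      rw [EX_nil, EX_cons] at h1
      have h3 := congrArg List.length h1
      rw [List.length_append] at h3
      cases s <;> simp only [syw, List.length_map, List.length_cons, List.length_nil] at h3 <;> omega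
  | cons s W ih =>
    intro W' o h1 h2
    cases W' with
    | nil =>
      exfalso
      rw [EX_nil, EX_cons] at h1
      have h3 := congrArg List.length h1
      rw [List.length_append] at h3
      cases s <;> simp only [syw, List.length_map, List.length_cons, List.length_nil] at h3 <;> omega
    | cons s' W' =>
      rw [EX_cons, EX_cons] at h1
      cases s with
      | lt e =>
        cases s' with
        | lt e' =>
          simp only [syw, List.singleton_append, List.cons.injEq] at h1
          rw [h1.1, ih W' (o + 1) h1.2 h2]
        | bl d f =>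
          exfalso
          have h3 : (o, d, f) ∈ Sp T v o (.lt e :: W) := by
            rw [h2]; simp [Sp]
          have := Sp_ge T v W (o + 1) _ h3
          simp at this
      | bl d f =>
        cases s' with
        | lt e' =>
          exfalso
          have h3 : (o, d, f) ∈ Sp T v o (.lt e' :: W') := by
            rw [← h2]; simp [Sp]
          have := Sp_ge T v W' (o + 1) _ h3
          simp at this
        | bl d' f' =>
          have h3 : (o, d, f) ∈ Sp T v o (.bl d' f' :: W') := by
            rw [← h2]; simp [Sp]
          have h4 : (o, d, f) = (o, d', f') := by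
            simp only [Sp, Finset.mem_insert] at h3
            rcases h3 with h3 | h3
            · exact h3
            · have := Sp_ge T v W' _ _ h3
              simp only at this
              omega
          simp only [Prod.mk.injEq, true_and] at h4
          obtain ⟨rfl, rfl⟩ := h4
          have h5 := List.append_cancel_left h1
          have hn : ∀ X : List Sy, (o, d, f) ∉ Sp T v (o + (blk T v).length) X := by
            intro X hX
            have := Sp_ge T v X _ _ hX
            simp only at this
            omega
          have h6 : Sp T v (o + (blk T v).length) W = Sp T v (o + (blk T v).length) W' := by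
            have h7 := congrArg (fun S => Finset.erase S (o, d, f)) h2
            simp only [Sp] at h7
            rwa [Finset.erase_insert (hn W), Finset.erase_insert (hn W')] at h7
          rw [ih W' _ h5 h6]

theorem WS_card (n : ℕ) : (WS n).card ≤ (Fintype.card Sy) ^ n := by
  unfold WS
  refine Finset.card_image_le.trans ?_
  rw [Finset.card_univ, Fintype.card_fun, Fintype.card_fin]

theorem WS_len (n : ℕ) (W : List Sy) (hW : W ∈ WS n) : W.length = n := by
  unfold WS at hW
  rw [Finset.mem_image] at hW
  obtain ⟨f, _, rfl⟩ := hW
  exact List.length_ofFn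

theorem Sy_card : 1 ≤ Fintype.card Sy := Fintype.card_pos_iff.2 ⟨.lt .xp⟩

end K2WMUL

open K2WMUL in
/-- W11 -/
theorem T_Wmul_proof (h : T_Wover) : T_Wmul := by
  intro k hk T L v hv hs N
  set D := (blk T v).length with hD
  set Q := (univ : Finset (Dir × Dir)).card with hQ
  refine ⟨2 ^ (N * (2 * D) * Q) + (Fintype.card Sy) ^ (D + 3), ?_⟩
  intro n w
  set F := (VN T L v N n).filter (fun W => EX T v W = w) with hF
  rcases Nat.lt_or_ge n (D + 3) with hn | hn
  · have h1 : F.card ≤ (WS n).card := by
      refine Finset.card_le_card fun W hW => ?_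
      rw [hF, Finset.mem_filter, VN, Finset.mem_filter] at hW
      exact hW.1.1
    have h2 := WS_card n
    have h3 : (Fintype.card Sy) ^ n ≤ (Fintype.card Sy) ^ (D + 3) :=
      Nat.pow_le_pow_right Sy_card hn.le
    exact (h1.trans (h2.trans h3)).trans (Nat.le_add_left _ _)
  refine le_trans ?_ (Nat.le_add_right _ _)
  rcases F.eq_empty_or_nonempty with he | ⟨W0, hW0⟩
  · rw [he]; simp
  · rw [hF, Finset.mem_filter, VN, Finset.mem_filter] at hW0
    obtain ⟨⟨hl0, hn0, hV0⟩, hw0⟩ := hW0
    have hl1 : D + 3 ≤ W0.length := by rw [WS_len n W0 hl0]; exact hn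
    set J : Finset (ℕ × Dir × Dir) :=
      ((Sp T v 0 W0).biUnion (fun q => Finset.Ico (q.1 + 1 - D) (q.1 + D))) ×ˢ
        (univ : Finset (Dir × Dir)) with hJ
    have hJc : J.card ≤ N * (2 * D) * Q := by
      rw [hJ, Finset.card_product]
      refine Nat.mul_le_mul_right _ ?_
      refine Finset.card_biUnion_le.trans ?_
      calc ∑ q ∈ Sp T v 0 W0, (Finset.Ico (q.1 + 1 - D) (q.1 + D)).card
          ≤ ∑ _q ∈ Sp T v 0 W0, 2 * D := by
            refine Finset.sum_le_sum fun q _ => ?_
            rw [Nat.card_Ico]
            omega
        _ = (Sp T v 0 W0).card * (2 * D) := by rw [Finset.sum_const, smul_eq_mul]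
        _ ≤ N * (2 * D) := by
            refine Nat.mul_le_mul_right _ ?_
            rw [← hn0]
            exact Sp_card T v W0 0
    have hle : F.card ≤ J.powerset.card := by
      refine Finset.card_le_card_of_injOn (fun W => Sp T v 0 W) ?_ ?_
      · intro W hW
        rw [Finset.mem_coe, hF, Finset.mem_filter, VN, Finset.mem_filter] at hW
        obtain ⟨⟨_, _, hV⟩, hw⟩ := hW
        rw [Finset.mem_coe, Finset.mem_powerset]
        rintro ⟨m, d, f⟩ hm
        obtain ⟨A, B, h1, h2⟩ := Sp_mem T v W 0 m d f hm
        obtain ⟨A0, B0, d0, f0, h3, h4, h5⟩ :=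
          h k hk T L v hv hs W0 W hV0 hV hl1 (by rw [hw0, hw]) A B d f h1
        rw [hJ, Finset.mem_product]
        refine ⟨?_, Finset.mem_univ _⟩
        rw [Finset.mem_biUnion]
        refine ⟨(0 + (EX T v A0).length, d0, f0), ?_, ?_⟩
        · rw [h3]; exact mem_Sp T v A0 B0 0 d0 f0
        · simp only [Finset.mem_Ico]
          omega
      · intro W hW W' hW' he
        rw [Finset.mem_coe, hF, Finset.mem_filter] at hW hW'
        exact inj T v W W' 0 (by rw [hW.2, hW'.2]) he
    refine hle.trans ?_
    rw [Finset.card_powerset]
    exact Nat.pow_le_pow_right (by norm_num) hJc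

end KN
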