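import Pool.Agent.H246K2.Stubs

/-!
# K2 WOVER: every block of `W` overlaps a block of `W₀`
-/

set_option autoImplicit false

namespace KN.K2WOVER

open Finset Filter Topology
open scoped Classical

theorem EX_append (T : ℕ) (v : List Dir) (X Y : List Sy) :
    EX T v (X ++ Y) = EX T v X ++ EX T v Y := by
  simp [EX, List.flatMap_append]

theorem EX_cons (T : ℕ) (v : List Dir) (s : Sy) (Y : List Sy) :
    EX T v (s :: Y) = syw T v s ++ EX T v Y := by
  simp [EX]

theorem BS_append (X Y : List Sy) : BS (X ++ Y) = BS X ++ BS Y := by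
  simp [BS]

theorem BS_cons (s : Sy) (Y : List Sy) : BS (s :: Y) = syl s :: BS Y := by
  simp [BS]

theorem len_lt (T : ℕ) (v : List Dir) (f : Dir) : (syw T v (.lt f)).length = 1 := by
  simp [syw]

theorem len_bl (T : ℕ) (v : List Dir) (d f : Dir) :
    (syw T v (.bl d f)).length = (blk T v).length := by
  simp [syw]

theorem blk_pos (T : ℕ) (v : List Dir) : 0 < (blk T v).length := by
  simp [blk]

/-- splitting at a position that is not inside a block -/
theorem split (T : ℕ) (v : List Dir) (W : List Sy) : ∀ n : ℕ, n ≤ (EX T v W).length →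
    (∀ A B d f, W = A ++ .bl d f :: B →
      ¬ ((EX T v A).length < n ∧ n < (EX T v A).length + (blk T v).length)) →
    ∃ X Y, W = X ++ Y ∧ (EX T v X).length = n := by
  induction W with
  | nil =>
    intro n hn _
    refine ⟨[], [], rfl, ?_⟩
    simp [EX] at hn ⊢
    omega
  | cons s W ih =>
    intro n hn hb
    by_cases h0 : n = 0
    · exact ⟨[], s :: W, rfl, by simp [EX, h0]⟩
    · have hs : (syw T v s).length ≤ n := by
        cases s with
        | lt f => rw [len_lt]; omega
        | bl d f =>
          rw [len_bl]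
          have := hb [] W d f rfl
          simp [EX] at this
          exact this (by omega)
      rw [EX_cons, List.length_append] at hn
      obtain ⟨X, Y, hXY, hX⟩ := ih (n - (syw T v s).length) (by omega) (by
        intro A B d f hW hc
        apply hb (s :: A) B d f (by rw [hW]; rfl)
        rw [EX_cons, List.length_append]
        omega)
      refine ⟨s :: X, Y, by rw [hXY]; rfl, ?_⟩
      rw [EX_cons, List.length_append, hX]
      omega

/-- a word without blocks -/
theorem noblock (T : ℕ) (v : List Dir) (C : List Sy) (h : ∀ A B d f, C ≠ A ++ .bl d f :: B) :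
    EX T v C = BS C := by
  induction C with
  | nil => rfl
  | cons s C ih =>
    rw [EX_cons, BS_cons, ih (fun A B d f hC => h (s :: A) B d f (by rw [hC]; rfl))]
    cases s with
    | lt f => rfl
    | bl d f => exact absurd rfl (h [] C d f)

theorem main (T : ℕ) (v : List Dir) (W₀ : List Sy) (l1 I l2 : List Dir)
    (hI : I.length = (blk T v).length) (hW : EX T v W₀ = l1 ++ I ++ l2)
    (hb : ∀ A B d f, W₀ = A ++ .bl d f :: B →
      ¬ (l1.length < (EX T v A).length + (blk T v).length ∧
        (EX T v A).length < l1.length + (blk T v).length)) :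
    ∃ X C Z, W₀ = X ++ C ++ Z ∧ EX T v X = l1 ∧ EX T v Z = l2 ∧ BS C = I := by
  have hD := blk_pos T v
  obtain ⟨X, Y, hXY, hX⟩ := split T v W₀ l1.length (by rw [hW]; simp) (by
    intro A B d f hAB hc
    exact hb A B d f hAB ⟨hc.2, by omega⟩)
  subst hXY
  rw [EX_append, List.append_assoc] at hW
  obtain ⟨hX1, hY1⟩ := List.append_inj hW hX
  obtain ⟨C, Z, hCZ, hC⟩ := split T v Y I.length (by rw [hY1]; simp) (by
    intro A B d f hAB hc
    apply hb (X ++ A) B d f (by rw [hAB]; simp)
    rw [EX_append, List.length_append, hX]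
    omega)
  subst hCZ
  rw [EX_append] at hY1
  obtain ⟨hC1, hZ1⟩ := List.append_inj hY1 hC
  refine ⟨X, C, Z, by simp, hX1, hZ1, ?_⟩
  rw [← hC1, ← noblock T v C]
  intro A B d f hAB
  apply hb (X ++ A) (B ++ Z) d f (by rw [hAB]; simp)
  have : (EX T v C).length = (EX T v A).length + ((blk T v).length + (EX T v B).length) := by
    rw [hAB, EX_append, EX_cons, List.length_append, List.length_append, len_bl]
  rw [EX_append, List.length_append, hX]
  omega

end KN.K2WOVER

namespace KN

open Finset Filter Topology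
open scoped Classical
open K2WOVER

theorem T_Wover_proof (hT2 : T_T2) (hbas : T_Wbas) (hrep : T_Wrep) (hrt : T_rt)
    (hrtc : T_rtc) : T_Wover := by
  intro k hk T L v hv hsame W₀ W hV₀ hV hlen hEX A B d f hW
  by_contra hno
  have hD := blk_pos T v
  obtain ⟨hperp, hroom⟩ := hV.room A B d f hW
  obtain ⟨⟨d', f', hperp', hd', hf', hinv1, hinv2, hR1, hR2⟩, hneg, hpp, hadd⟩ :=
    hrtc d f hperp
  obtain ⟨_, hneg', hpp', hadd'⟩ := hrtc d' f' hperp'
  have hEXW : EX T v W₀ = EX T v A ++ (blk T v).map (rt d f) ++ EX T v B := by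
    rw [hEX, hW, EX_append, EX_cons]
    simp [syw]
  obtain ⟨X, C, Z, hXCZ, hX, hZ, hC⟩ := main T v W₀ (EX T v A) ((blk T v).map (rt d f))
    (EX T v B) (by simp) hEXW (by
      intro A₀ B₀ d₀ f₀ h0 hc
      exact hno ⟨A₀, B₀, d₀, f₀, h0, hc.1, hc.2⟩)
  have hBS : BS W₀ = BS X ++ (blk T v).map (rt d f) ++ BS Z := by
    rw [hXCZ, BS_append, BS_append, hC]
  -- the position of the block
  have hposv : pos v = (0, 0, 1) := by
    have h1 := hv.1.2.1
    simp only [pos] at h1
    have : pos v = - vec .zm := eq_neg_of_add_eq_zero_left h1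
    rw [this]; rfl
  have hrepx : ∀ n : ℕ, pos (List.replicate n .xm) = (-(n : ℤ), 0, 0) := by
    intro n
    induction n with
    | zero => rfl
    | succ n ih =>
      rw [List.replicate_succ, pos, ih]
      simp only [vec, Prod.mk_add_mk, Prod.mk.injEq]
      push_cast
      refine ⟨by ring, by simp, by simp⟩
  have hrepp : ∀ n : ℕ, pos (List.replicate n .xp) = ((n : ℤ), 0, 0) := by
    intro n
    induction n with
    | zero => rfl
    | succ n ih =>
      rw [List.replicate_succ, pos, ih]
      simp only [vec, Prod.mk_add_mk, Prod.mk.injEq]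
      push_cast
      refine ⟨by ring, by simp, by simp⟩
  have hposb : pos (blk T v) = vec .zp := by
    rw [blk, pos_append, pos_append, hrepx, hrepp, hposv]
    simp [vec]
  have hposI : pos ((blk T v).map (rt d f)) = vec f := by
    rw [(hpp _).1, hposb]
    simp [Rp, vec]
  have hIne : (blk T v).map (rt d f) ≠ [] := by
    intro h
    have := congrArg List.length h
    simp at this
    rw [this] at hD
    simp at hD
  -- SAP of the word without the block
  have hlenBS : (BS X ++ f :: BS Z).length + (blk T v).length = W₀.length + 1 := by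
    have h1 : (BS C).length = (blk T v).length := by rw [hC]; simp
    have h2 : (BS C).length = C.length := by simp [BS]
    rw [hXCZ]
    simp only [List.length_append, List.length_cons]
    have h3 : (BS X).length = X.length := by simp [BS]
    have h4 : (BS Z).length = Z.length := by simp [BS]
    omega
  have hSAP1 : SAP (BS X ++ f :: BS Z) := by
    apply (hrep (BS X) (BS Z) ((blk T v).map (rt d f)) f hposI hIne).2
    · rw [← hBS]; exact hV₀.base
    · omega
  -- rotated
  have hSAP2 := (hrt d' f' hperp' _ hSAP1).1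
  have hmapf : (BS X ++ f :: BS Z).map (rt d' f') =
      (BS X).map (rt d' f') ++ .zp :: (BS Z).map (rt d' f') := by
    rw [List.map_append, List.map_cons, hf']
  have hmapI : ((blk T v).map (rt d f)).map (rt d' f') = blk T v := by
    rw [List.map_map]
    conv_rhs => rw [← List.map_id (blk T v)]
    apply List.map_congr_left
    intro e _
    exact hinv1 e
  have hmapW : (BS W₀).map (rt d' f') =
      (BS X).map (rt d' f') ++ blk T v ++ (BS Z).map (rt d' f') := by
    rw [hBS, List.map_append, List.map_append, hmapI]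
  -- the room
  have hsub : ∀ p ∈ path (BS X ++ f :: BS Z), p ∈ path (EX T v A ++ f :: EX T v B) := by
    intro p hp
    have h := (hbas T L v hv (X ++ .lt f :: Z)).2.1 p (by
      rw [BS_append, BS_cons]; exact hp)
    rw [EX_append, EX_cons, hX, hZ] at h
    simpa [syw] using h
  have hposZ : pos (EX T v B) = pos (BS Z) := by
    rw [← hZ]; exact (hbas T L v hv Z).1
  have hroom2 : RmD T L d f (BS X ++ f :: BS Z) (pos (BS Z)) := by
    rw [hposZ] at hroom
    refine ⟨fun j h1 h2 => ⟨fun h => (hroom.1 j h1 h2).1 (hsub _ h),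
      fun h => (hroom.1 j h1 h2).2 (hsub _ h)⟩, fun h a b c e g hm => hroom.2 h a b c e g
        (hsub _ hm)⟩
  have hkey : ∀ h : Z3, pos ((BS Z).map (rt d' f')) + h ∈
      path ((BS X).map (rt d' f') ++ .zp :: (BS Z).map (rt d' f')) →
      pos (BS Z) + Rp d f h ∈ path (BS X ++ f :: BS Z) := by
    intro h hm
    rw [← hmapf, (hpp' _).2, (hpp' _).1] at hm
    obtain ⟨p, hp, hpe⟩ := List.mem_map.1 hm
    have h1 := congrArg (Rp d f) hpe
    rw [hR2, hadd, hR2] at h1
    rwa [← h1]
  have hspot : Spot T L ((BS X).map (rt d' f')) ((BS Z).map (rt d' f')) := by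
    refine ⟨by rw [← hmapf]; exact hSAP2, ?_, ?_⟩
    · intro j h1 h2
      exact ⟨fun h => (hroom2.1 j h1 h2).1 (hkey _ h), fun h => (hroom2.1 j h1 h2).2 (hkey _ h)⟩
    · intro h a b c e g hm
      exact hroom2.2 h a b c e g (hkey _ hm)
  apply hT2 k hk T L _ _ v hspot hv hsame
  rw [← hmapW]
  have hs := (hrt d' f' hperp' _ hV₀.base).2
  rcases hV₀.u with h | h
  · exact Or.inl (hs.symm.trans h)
  · exact Or.inr (hs.symm.trans h)

end KN
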