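import Pool.Agent.H246K2.Stubs

/-!
# Project K2, task WREP: a subwalk is replaced by an edge
-/

set_option autoImplicit false

namespace KN

namespace K2WREP

theorem sub_suffix (X Y : List Dir) : (path Y).Sublist (path (X ++ Y)) := by
  rw [path_append]
  exact List.sublist_append_right _ _

theorem sub_mid (l2 I : List Dir) (f : Dir) (hI : pos I = vec f) (hne : I ≠ []) :
    (path (f :: l2)).Sublist (path (I ++ l2)) := by
  cases I with
  | nil => exact absurd rfl hne
  | cons d I' =>
    have h1 : pos (d :: I' ++ l2) = pos (f :: l2) := by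
      rw [pos_append, hI]; simp only [pos]; abel
    rw [List.cons_append] at h1 ⊢
    simp only [pos] at h1
    simp only [path]
    rw [h1]
    exact (sub_suffix I' l2).cons_cons _

theorem sub_all (l1 l2 I : List Dir) (f : Dir) (hI : pos I = vec f) (hne : I ≠ []) :
    (path (l1 ++ f :: l2)).Sublist (path (l1 ++ I ++ l2)) := by
  rw [List.append_assoc, path_append l1 (f :: l2), path_append l1 (I ++ l2)]
  have h1 : pos (I ++ l2) = pos (f :: l2) := by
    rw [pos_append, hI]; simp only [pos]; abel
  rw [h1]
  exact List.Sublist.append (List.Sublist.refl _) (sub_mid l2 I f hI hne)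

theorem sub_tail (l1 l2 I : List Dir) (f : Dir) (hI : pos I = vec f) (hne : I ≠ []) :
    (path (l1 ++ f :: l2)).tail.Sublist (path (l1 ++ I ++ l2)).tail := by
  cases l1 with
  | nil =>
    cases I with
    | nil => exact absurd rfl hne
    | cons d I' =>
      simp only [List.nil_append, List.cons_append, path, List.tail_cons]
      exact sub_suffix I' l2
  | cons d l1' =>
    simp only [List.cons_append, path, List.tail_cons]
    exact sub_all l1' l2 I f hI hne

end K2WREP

theorem T_Wrep_proof : T_Wrep := by
  intro l1 l2 I f hI hne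
  refine ⟨fun p hp => (K2WREP.sub_all l1 l2 I f hI hne).subset hp, ?_⟩
  rintro ⟨_, hpos, hnd⟩ hlen
  refine ⟨hlen, ?_, hnd.sublist (K2WREP.sub_tail l1 l2 I f hI hne)⟩
  rw [← hpos, List.append_assoc, pos_append, pos_append, pos_append, hI]
  simp only [pos]
  abel

end KN
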