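import Pool.Agent.H246K2.Stubs

/-! Task WZERO. -/

namespace KN

open Finset
open scoped Classical

namespace K2WZERO

theorem mem_WS {n : ℕ} {W : List Sy} : W ∈ WS n ↔ W.length = n := by
  unfold WS
  rw [mem_image]
  constructor
  · rintro ⟨f, -, rfl⟩
    exact List.length_ofFn
  · rintro rfl
    exact ⟨fun i => W.get i, mem_univ _, List.ofFn_get W⟩

theorem BS_map (w : List Dir) : BS (w.map Sy.lt) = w := by
  unfold BS
  rw [List.map_map]
  exact List.map_id'' (fun _ => rfl) w

theorem EX_map (T : ℕ) (v w : List Dir) : EX T v (w.map Sy.lt) = w := by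
  unfold EX
  induction w with
  | nil => rfl
  | cons f w ih =>
    rw [List.map_cons, List.flatMap_cons, ih]
    rfl

theorem nB_map (w : List Dir) : nB (w.map Sy.lt) = 0 := by
  unfold nB
  rw [List.countP_eq_zero]
  intro x hx
  obtain ⟨f, -, rfl⟩ := List.mem_map.1 hx
  simp [isB]

theorem map_BS (W : List Sy) (h : nB W = 0) : (BS W).map Sy.lt = W := by
  unfold nB at h
  rw [List.countP_eq_zero] at h
  unfold BS
  rw [List.map_map]
  conv_rhs => rw [← List.map_id W]
  apply List.map_congr_left
  intro x hx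
  have := h x hx
  cases x with
  | lt f => rfl
  | bl d f => exact absurd rfl this

end K2WZERO

open K2WZERO in
theorem T_Wzero_proof : T_Wzero := by
  intro T L v n
  unfold a
  symm
  refine Finset.card_bij (fun w _ => w.map Sy.lt) ?_ ?_ ?_
  · intro w hw
    obtain ⟨h1, h2, h3⟩ := mem_K.1 hw
    unfold VN
    rw [mem_filter]
    refine ⟨mem_WS.2 (by rw [List.length_map, h1]), nB_map w, ?_⟩
    refine ⟨?_, ?_, ?_, ?_⟩
    · rw [BS_map]; exact h3
    · rw [BS_map]; exact h2
    · rw [EX_map]; exact h2
    · intro A B d f h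
      exfalso
      have h4 : nB (w.map Sy.lt) = 0 := nB_map w
      rw [h] at h4
      unfold nB at h4
      rw [List.countP_eq_zero] at h4
      exact h4 (.bl d f) (by simp) rfl
  · intro w1 _ w2 _ h
    have h1 := congrArg BS h
    rwa [BS_map, BS_map] at h1
  · intro W hW
    unfold VN at hW
    rw [mem_filter] at hW
    obtain ⟨h1, h2, h3⟩ := hW
    refine ⟨BS W, mem_K.2 ⟨?_, h3.base, h3.u⟩, map_BS W h2⟩
    unfold BS
    rw [List.length_map]
    exact mem_WS.1 h1

end KN
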