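import Pool.Agent.H246KN.GEN
import Pool.Agent.H246K2.ALL
import Pool.Agent.H246K2.AMB
import Pool.Agent.H246K2.ARC1
import Pool.Agent.H246K2.ARC2
import Pool.Agent.H246K2.BLOCK
import Pool.Agent.H246K2.CONO
import Pool.Agent.H246K2.CONT
import Pool.Agent.H246K2.CONVX
import Pool.Agent.H246K2.FLIP
import Pool.Agent.H246K2.FRAME
import Pool.Agent.H246K2.GAUGE
import Pool.Agent.H246K2.GRA
import Pool.Agent.H246K2.HAIR
import Pool.Agent.H246K2.HGO
import Pool.Agent.H246K2.ISO
import Pool.Agent.H246K2.JFLAT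
import Pool.Agent.H246K2.JLOOPS
import Pool.Agent.H246K2.LIFT
import Pool.Agent.H246K2.LIP
import Pool.Agent.H246K2.LL
import Pool.Agent.H246K2.LUNIQ
import Pool.Agent.H246K2.LVO
import Pool.Agent.H246K2.LW
import Pool.Agent.H246K2.LWO
import Pool.Agent.H246K2.MANY
import Pool.Agent.H246K2.MAST
import Pool.Agent.H246K2.MCS
import Pool.Agent.H246K2.MFLAT
import Pool.Agent.H246K2.NEAR
import Pool.Agent.H246K2.NONAB
import Pool.Agent.H246K2.POT2
import Pool.Agent.H246K2.ROOM
import Pool.Agent.H246K2.RT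
import Pool.Agent.H246K2.RTC
import Pool.Agent.H246K2.SAPL
import Pool.Agent.H246K2.SAPR
import Pool.Agent.H246K2.SEG2
import Pool.Agent.H246K2.SHBO
import Pool.Agent.H246K2.SHCO
import Pool.Agent.H246K2.SHDO
import Pool.Agent.H246K2.SHIFT
import Pool.Agent.H246K2.SQUARE
import Pool.Agent.H246K2.SSAP
import Pool.Agent.H246K2.STEP
import Pool.Agent.H246K2.TFLAT
import Pool.Agent.H246K2.TONE
import Pool.Agent.H246K2.TOWE
import Pool.Agent.H246K2.TOWU
import Pool.Agent.H246K2.TRE
import Pool.Agent.H246K2.TTWO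
import Pool.Agent.H246K2.UNAB
import Pool.Agent.H246K2.VEX
import Pool.Agent.H246K2.WBAS
import Pool.Agent.H246K2.WCL
import Pool.Agent.H246K2.WCNT
import Pool.Agent.H246K2.WCON
import Pool.Agent.H246K2.WCR
import Pool.Agent.H246K2.WFLIP
import Pool.Agent.H246K2.WINS
import Pool.Agent.H246K2.WLOOK
import Pool.Agent.H246K2.WMUL
import Pool.Agent.H246K2.WOVER
import Pool.Agent.H246K2.WREP
import Pool.Agent.H246K2.WROT
import Pool.Agent.H246K2.WTYPE
import Pool.Agent.H246K2.WZERO

/-!
# Project K2: the composed theorems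
-/

set_option autoImplicit false

namespace KN

open Filter

theorem d_shBo : T_shBo := T_shBo_proof S_lin_proof T_hgo_proof T_arc1o_proof
theorem d_shCo : T_shCo :=
  T_shCo_proof S_rot_proof c_sub S_lin_proof T_hgo_proof T_arc1o_proof T_arc2o_proof
theorem d_shDo : T_shDo := T_shDo_proof T_hgo_proof T_arc2o_proof
theorem d_connecto : T_connecto := T_connecto_proof d_shBo d_shCo d_shDo
theorem d_wconR : T_wconR :=
  T_wconR_proof d_connecto T_lwo_proof T_lvo_proof T_sapR_proof S_simple_proof S_rot_proof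
    S_motion_proof
theorem d_wconL : T_wconL := T_wconL_proof d_wconR T_sapL_proof
theorem d_master : T_master := T_master_proof T_hair_proof d_wconL T_sapL_proof
theorem d_T1 : T_T1 := T_T1_proof d_master
theorem d_T2 : T_T2 := T_T2_proof d_master
theorem d_ssap : T_ssap := T_ssap_proof T_hair_proof T_sapL_proof
theorem d_LL : T_LL := T_LL_proof T_frame_proof T_room_proof
theorem d_cont : T_cont := T_cont_proof T_LW_proof
theorem d_many : T_many := T_many_proof d_cont
theorem d_step : T_step := T_step_proof T_gra_proof T_rt_proof T_rtc_proof T_flip_proof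
theorem d_lip : T_lip := T_lip_proof T_seg2_proof
theorem d_near : T_near := T_near_proof d_lip T_mcs_proof
theorem d_iso : T_iso := T_iso_proof d_near
theorem d_amb : T_amb := T_amb_proof d_iso
theorem d_convex : T_convex := T_convex_proof T_lift_proof T_luniq_proof
theorem d_square : T_square := T_square_proof d_convex T_pot2_proof
theorem d_unab : T_unab := T_unab_proof d_amb d_square c_sq
theorem d_gauge : T_gauge := T_gauge_proof T_block_proof
theorem d_jflat : T_jflat := T_jflat_proof T_mflat_proof T_tflat_proof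
theorem d_tre : T_tre := T_tre_proof d_unab d_gauge T_nonab_proof d_jflat T_jloops_proof
theorem d_Wbas : T_Wbas := T_Wbas_proof T_Wrep_proof
theorem d_Wrot : T_Wrot := T_Wrot_proof d_Wbas T_rt_proof T_rtc_proof
theorem d_Wflip : T_Wflip := T_Wflip_proof d_Wbas T_Wrep_proof T_flip_proof
theorem d_Wins : T_Wins := T_Wins_proof d_Wbas d_ssap
theorem d_Wcon : T_Wcon :=
  T_Wcon_proof d_step d_Wbas d_Wrot T_Wlook_proof d_Wflip d_Wins T_rtc_proof
theorem d_Wcnt : T_Wcnt := T_Wcnt_proof d_Wcon d_Wbas d_many T_rtc_proof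
theorem d_Wover : T_Wover := T_Wover_proof d_T2 d_Wbas T_Wrep_proof T_rt_proof T_rtc_proof
theorem d_Wmul : T_Wmul := T_Wmul_proof d_Wover

theorem d_Wtype : T_Wtype :=
  T_Wtype_proof d_master d_Wbas T_Wrep_proof d_Wrot T_rt_proof T_rtc_proof
theorem d_towu : T_towu := T_towu_proof d_wconL
theorem d_towe : T_towe := T_towe_proof T_vex_proof
theorem d_all : T_all :=
  T_all_proof d_Wcnt T_Wzero_proof d_Wmul d_Wtype d_towu d_Wbas T_vex_proof d_LL

theorem K2_main (k : List V) (hk : NonInv k) (hw : ∃ w, SAP w ∧ Same (vl w) k) (N : ℕ)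
    (l : List V) (hl : Tow k N l) : ∃ c : ℝ, 0 < c ∧ ∀ᶠ j : ℕ in atTop,
      c * (2 * j : ℝ) ^ (2 * N / 3 : ℝ) * pq U (2 * j) ≤ pq (KT l) (2 * j) := by
  obtain ⟨c, m, hc, hm, h⟩ := d_all k hk hw N l hl
  exact T_shift_proof (KT l) (2 * N / 3) c m (by positivity) hc hm h

end KN
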