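import Pool.Agent.H246K2.Stubs
import Pool.Agent.H246KN.Basic

/-! # H1: counting, one block (task CNT1, helper781) -/

set_option autoImplicit false

namespace KN

open Finset Filter Topology
open scoped Classical

namespace K2CNT1

/-- the three alternatives of `Gd` -/
def Alt (w : List Dir) (d f : Dir) (l1 l2 : List Dir) (t : Fin 3) : Prop :=
  (t = 0 ∧ w.map (rt d f) = l1 ++ .zp :: l2) ∨
    (t = 1 ∧ ∃ m, l1 = m ++ [.xm] ∧ w.map (rt d f) = m ++ .zp :: .xm :: l2) ∨
    (t = 2 ∧ ∃ m, l2 = .xp :: m ∧ w.map (rt d f) = l1 ++ .xp :: .zp :: m)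

theorem alt_length {w : List Dir} {d f : Dir} {l1 l2 : List Dir} {t : Fin 3}
    (h : Alt w d f l1 l2 t) : (l1 ++ .zp :: l2).length = w.length := by
  rcases h with ⟨-, h⟩ | ⟨-, m, h1, h⟩ | ⟨-, m, h1, h⟩
  · have := congrArg List.length h
    simp at this
    simp [this]
  · have := congrArg List.length h
    simp at this
    subst h1
    simp
    omega
  · have := congrArg List.length h
    simp at this
    subst h1
    simp
    omega

theorem alt_unique {w w' : List Dir} {d f : Dir} {l1 l2 : List Dir} {t : Fin 3}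
    (h : Alt w d f l1 l2 t) (h' : Alt w' d f l1 l2 t) : w.map (rt d f) = w'.map (rt d f) := by
  rcases h with ⟨h0, h⟩ | ⟨h0, m, h1, h⟩ | ⟨h0, m, h1, h⟩ <;>
  rcases h' with ⟨h0', h'⟩ | ⟨h0', m', h1', h'⟩ | ⟨h0', m', h1', h'⟩ <;>
  first
  | (exfalso; rw [h0] at h0'; exact absurd h0' (by decide))
  | skip
  · rw [h, h']
  · have e : m = m' := by
      have := h1.symm.trans h1'
      exact (List.append_inj' this rfl).1
    rw [h, h', e]
  · have e : m = m' := by
      have := h1.symm.trans h1'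
      simpa using this
    rw [h, h', e]

theorem mem_W_iff (n : ℕ) (w : List Dir) : w ∈ W n ↔ w.length = n := by
  unfold W
  simp only [Finset.mem_image, Finset.mem_univ, true_and]
  constructor
  · rintro ⟨g, rfl⟩
    simp
  · rintro rfl
    exact ⟨w.get, List.ofFn_get w⟩

end K2CNT1

open K2CNT1 in
theorem T_cnt1_proof (hr : T_rtc) : T_cnt1 := by
  intro T L n C hC
  have hC' : ∀ p : (Σ _ : List Dir, Z3), ∃ q : Dir × Dir × List Dir × List Dir × Fin 3,
      p.1 ∈ K U n → p.2 ∈ C p.1 →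
        perp q.1 q.2.1 ∧ Spot T L q.2.2.1 q.2.2.2.1 ∧
        Same (vl p.1) (vl (q.2.2.1 ++ .zp :: q.2.2.2.1)) ∧
        Alt p.1 q.1 q.2.1 q.2.2.1 q.2.2.2.1 q.2.2.2.2 ∧
        near 6 (pos q.2.2.2.1) (Rp q.1 q.2.1 p.2) := by
    rintro ⟨w, x⟩
    by_cases hw : w ∈ K U n ∧ x ∈ C w
    · obtain ⟨d, f, l1, l2, ⟨h1, h2, h3, h4⟩, h5⟩ := hC w hw.1 x hw.2
      rcases h4 with h | ⟨m, e, h, -⟩ | ⟨m, e, h, -⟩
      · exact ⟨(d, f, l1, l2, 0), fun _ _ => ⟨h1, h2, h3, Or.inl ⟨rfl, h⟩, h5⟩⟩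
      · exact ⟨(d, f, l1, l2, 1), fun _ _ => ⟨h1, h2, h3, Or.inr (Or.inl ⟨rfl, m, e, h⟩), h5⟩⟩
      · exact ⟨(d, f, l1, l2, 2), fun _ _ => ⟨h1, h2, h3, Or.inr (Or.inr ⟨rfl, m, e, h⟩), h5⟩⟩
    · exact ⟨(.xp, .xp, [], [], 0), fun a b => absurd ⟨a, b⟩ hw⟩
  choose q hq using hC'
  -- target
  set box : Finset ℤ := Finset.Icc (-6) 6 with hbox
  set S : Finset (Σ _ : List Dir, Z3) := (K U n).sigma C with hS
  set Tg : Finset ((Σ _ : List Dir, ℕ) × (Dir × Dir) × Fin 3 × Z3) :=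
    ((K U n).sigma (spots T L)) ×ˢ (univ ×ˢ (univ ×ˢ (box ×ˢ (box ×ˢ box)))) with hTg
  let F : (Σ _ : List Dir, Z3) → ((Σ _ : List Dir, ℕ) × (Dir × Dir) × Fin 3 × Z3) := fun p =>
    (⟨(q p).2.2.1 ++ .zp :: (q p).2.2.2.1, (q p).2.2.1.length⟩, ((q p).1, (q p).2.1),
      (q p).2.2.2.2, Rp (q p).1 (q p).2.1 p.2 - pos (q p).2.2.2.1)
  have hmap : ∀ p ∈ S, F p ∈ Tg := by
    intro p hp
    rw [hS, Finset.mem_sigma] at hp
    obtain ⟨h1, h2, h3, h4, h5⟩ := hq p hp.1 hp.2
    have hpK := hp.1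
    unfold K at hpK
    rw [Finset.mem_filter] at hpK
    have hlen : ((q p).2.2.1 ++ .zp :: (q p).2.2.2.1).length = n := by
      rw [alt_length h4]
      exact (mem_W_iff n p.1).1 hpK.1
    have hK : (q p).2.2.1 ++ .zp :: (q p).2.2.2.1 ∈ K U n := by
      unfold K
      rw [Finset.mem_filter]
      refine ⟨(mem_W_iff n _).2 hlen, h2.1, ?_⟩
      rcases hpK.2.2 with h | h
      · exact Or.inl ((h3.symm).trans h)
      · exact Or.inr ((h3.symm).trans h)
    rw [hTg, Finset.mem_product, Finset.mem_product, Finset.mem_product, Finset.mem_product,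
      Finset.mem_product, Finset.mem_sigma]
    refine ⟨⟨hK, ?_⟩, Finset.mem_univ _, Finset.mem_univ _, ?_, ?_, ?_⟩
    · unfold spots
      rw [Finset.mem_filter, Finset.mem_range]
      refine ⟨by simp [F], ?_, ?_⟩
      · simp [F]
      · have e : ((q p).2.2.1 ++ .zp :: (q p).2.2.2.1).drop ((q p).2.2.1.length + 1) =
            (q p).2.2.2.1 := by
          rw [List.drop_append]
          simp
        show Rm T L ((q p).2.2.1 ++ .zp :: (q p).2.2.2.1)
          (pos (((q p).2.2.1 ++ .zp :: (q p).2.2.2.1).drop ((q p).2.2.1.length + 1)))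
        rw [e]
        exact h2.2
    · have := abs_le.1 h5.1
      show (Rp (q p).1 (q p).2.1 p.2 - pos (q p).2.2.2.1).1 ∈ box
      rw [hbox, Finset.mem_Icc, Prod.fst_sub]
      push_cast at this
      omega
    · have := abs_le.1 h5.2.1
      show (Rp (q p).1 (q p).2.1 p.2 - pos (q p).2.2.2.1).2.1 ∈ box
      rw [hbox, Finset.mem_Icc, Prod.snd_sub, Prod.fst_sub]
      push_cast at this
      omega
    · have := abs_le.1 h5.2.2
      show (Rp (q p).1 (q p).2.1 p.2 - pos (q p).2.2.2.1).2.2 ∈ box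
      rw [hbox, Finset.mem_Icc, Prod.snd_sub, Prod.snd_sub]
      push_cast at this
      omega
  have hinj : Set.InjOn F (S : Set (Σ _ : List Dir, Z3)) := by
    intro p hp p' hp' he
    rw [Finset.mem_coe, hS, Finset.mem_sigma] at hp hp'
    obtain ⟨h1, -, -, h4, -⟩ := hq p hp.1 hp.2
    obtain ⟨-, -, -, h4', -⟩ := hq p' hp'.1 hp'.2
    simp only [F, Prod.mk.injEq, Sigma.mk.injEq, heq_eq_eq] at he
    obtain ⟨⟨e1, e2⟩, ⟨e3, e4⟩, e5, e6⟩ := he
    obtain ⟨e7, e8⟩ := List.append_inj e1 e2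
    have e9 : (q p).2.2.2.1 = (q p').2.2.2.1 := by simpa using e8
    rw [← e3, ← e4, ← e5, ← e7, ← e9] at h4'
    have hw := alt_unique h4 h4'
    obtain ⟨⟨d', f', -, -, -, r1, -, r2, -⟩, -, -, -⟩ := hr _ _ h1
    have hw' : p.1 = p'.1 := by
      have := congrArg (List.map (rt d' f')) hw
      rw [List.map_map, List.map_map] at this
      have hid : (rt d' f') ∘ (rt (q p).1 (q p).2.1) = id := by
        funext e
        exact r1 e
      rwa [hid, List.map_id, List.map_id] at this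
    have hx : p.2 = p'.2 := by
      rw [← e3, ← e4, ← e9] at e6
      have e10 : Rp (q p).1 (q p).2.1 p.2 = Rp (q p).1 (q p).2.1 p'.2 := sub_left_injective e6
      rw [← r2 p.2, e10, r2]
    cases p
    cases p'
    simp only at hw' hx
    rw [hw', hx]
  have hcard := Finset.card_le_card_of_injOn F hmap hinj
  rw [hS, Finset.card_sigma, hTg, Finset.card_product, Finset.card_product, Finset.card_product,
    Finset.card_product, Finset.card_product, Finset.card_sigma] at hcard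
  have c1 : (univ : Finset (Dir × Dir)).card = 36 := by decide
  have c2 : (univ : Finset (Fin 3)).card = 3 := by decide
  have c3 : box.card = 13 := by decide
  rw [c1, c2, c3] at hcard
  calc ∑ w ∈ K U n, (C w).card ≤ _ := hcard
    _ = 36 * 3 * 13 ^ 3 * ∑ w ∈ K U n, (spots T L w).card := by ring

end KN
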