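import Pool.Agent.H246K2.Stubs

/-!
# CNT2: multiplicity, one block
-/

set_option autoImplicit false

namespace KN

open Finset Filter Topology
open scoped Classical

noncomputable section

namespace K2CNT2

theorem pos_rep_xp (m : ℕ) : pos (List.replicate m .xp) = ((m : ℤ), 0, 0) := by
  induction m with
  | zero => rfl
  | succ m ih =>
    rw [List.replicate_succ, pos, ih]
    simp [vec]

theorem pos_rep_xm (m : ℕ) : pos (List.replicate m .xm) = (-(m : ℤ), 0, 0) := by
  induction m with
  | zero => rfl
  | succ m ih =>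
    rw [List.replicate_succ, pos, ih]
    simp [vec]
    ring

theorem pos_blk {T L : ℕ} {v : List Dir} (hv : SmR L v) : pos (blk T v) = vec .zp := by
  have h1 : pos v + vec .zm = 0 := hv.1.2.1
  have h2 : pos v = vec .zp := by
    have h3 : vec .zp + vec .zm = 0 := by decide
    have : pos v + vec .zm = vec .zp + vec .zm := by rw [h1, h3]
    exact add_right_cancel this
  unfold blk
  rw [pos_append, pos_append, pos_rep_xp, pos_rep_xm, h2]
  simp [vec]

theorem blk_ne {T : ℕ} {v : List Dir} : blk T v ≠ [] := by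
  unfold blk
  simp [List.replicate_succ]

theorem blk_len {T : ℕ} {v : List Dir} : 1 ≤ (blk T v).length :=
  List.length_pos_iff.mpr blk_ne

/-- a valid pair (word, index of a spot) -/
structure VP (T L : ℕ) (v : List Dir) (n : ℕ) (w' w : List Dir) (i : ℕ) : Prop where
  len : w.length = n
  lt : i < n
  spot : Spot T L (w.take i) (w.drop (i + 1))
  u : U w
  eq : w = w.take i ++ .zp :: w.drop (i + 1)
  im : w' = w.take i ++ blk T v ++ w.drop (i + 1)

theorem vp_of {T L : ℕ} {v : List Dir} {n : ℕ} {w : List Dir} {i : ℕ} (hw : w ∈ K U n)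
    (hi : i ∈ spots T L w) : VP T L v n (w.take i ++ blk T v ++ w.drop (i + 1)) w i := by
  rw [mem_K] at hw
  unfold spots at hi
  rw [mem_filter, mem_range] at hi
  obtain ⟨hlen, hsap, hu⟩ := hw
  obtain ⟨hi1, hi2, hi3⟩ := hi
  have heq : w = w.take i ++ .zp :: w.drop (i + 1) := by
    conv_lhs => rw [← List.take_append_drop i w, drop_eq_getD_cons w i hi1, hi2]
  refine ⟨hlen, by omega, ⟨?_, ?_⟩, hu, heq, rfl⟩
  · rw [← heq]; exact hsap
  · rw [← heq]; exact hi3

theorem vp_inj {T L : ℕ} {v : List Dir} {n : ℕ} {w' w1 w2 : List Dir} {i : ℕ}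
    (h1 : VP T L v n w' w1 i) (h2 : VP T L v n w' w2 i) : w1 = w2 := by
  have e := h1.im.symm.trans h2.im
  have l1 : (w1.take i).length = i := by
    rw [List.length_take, h1.len]; have := h1.lt; omega
  have l2 : (w2.take i).length = i := by
    rw [List.length_take, h2.len]; have := h2.lt; omega
  rw [List.append_assoc, List.append_assoc] at e
  obtain ⟨e1, e2⟩ := List.append_inj e (l1.trans l2.symm)
  have e3 := List.append_cancel_left e2
  rw [h1.eq, h2.eq, e1, e3]

theorem four_le {l1 c l2 : List Dir} (h : pos (l1 ++ .zp :: (c ++ .zp :: l2)) = 0) :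
    4 ≤ (l1 ++ .zp :: (c ++ .zp :: l2)).length := by
  have h1 := even_of_closed h
  by_contra hlt
  have h2 : (l1 ++ .zp :: (c ++ .zp :: l2)).length = l1.length + c.length + l2.length + 2 := by
    simp only [List.length_append, List.length_cons]; omega
  rw [h2] at h1 hlt
  have e1 : l1 = [] := List.length_eq_zero_iff.mp (by omega)
  have e2 : c = [] := List.length_eq_zero_iff.mp (by omega)
  have e3 : l2 = [] := List.length_eq_zero_iff.mp (by omega)
  subst e1 e2 e3
  revert h
  decide

theorem vp_two (h2 : T_T2) (hrep : T_Wrep) {k : List V} (hk : NonInv k) {T L : ℕ}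
    {v : List Dir} (hv : SmR L v) (hvk : Same (vl (.zm :: v)) k) {n : ℕ} {w' w1 w2 : List Dir}
    {i j : ℕ} (hw1 : VP T L v n w' w1 i) (hw2 : VP T L v n w' w2 j) (_ : i ≤ j) :
    j < i + (blk T v).length := by
  by_contra hcon
  push Not at hcon
  set I := blk T v with hI
  set l1 := w1.take i with hl1
  set l2 := w2.drop (j + 1) with hl2
  have len1 : l1.length = i := by
    rw [hl1, List.length_take, hw1.len]; have := hw1.lt; omega
  have len2 : (w2.take j).length = j := by
    rw [List.length_take, hw2.len]; have := hw2.lt; omega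
  have e := hw1.im.symm.trans hw2.im
  set c := (w2.take j).drop (i + I.length) with hc
  have e1 : l1 ++ I = (w2.take j).take (i + I.length) := by
    have h3 := congrArg (List.take (i + I.length)) e
    have h4 : (l1 ++ I).length = i + I.length := by rw [List.length_append, len1]
    rw [← h4, List.take_left, h4, List.append_assoc, List.take_append_of_le_length (by omega)] at h3
    exact h3
  have e2 : w2.take j = l1 ++ I ++ c := by
    rw [e1, hc, List.take_append_drop]
  have e3 : w1.drop (i + 1) = c ++ I ++ l2 := by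
    rw [e2] at e
    have h3 : (l1 ++ I) ++ w1.drop (i + 1) = (l1 ++ I) ++ (c ++ I ++ l2) := by
      rw [e]; simp only [List.append_assoc, hI, hl2]
    exact List.append_cancel_left h3
  have ew1 : w1 = (l1 ++ .zp :: c) ++ I ++ l2 := by
    have := hw1.eq
    rw [e3] at this
    rw [this]
    simp only [List.append_assoc, List.cons_append, ← hl1]
  have ew2 : w2 = l1 ++ I ++ (c ++ .zp :: l2) := by
    have := hw2.eq
    rw [e2] at this
    rw [this]
    simp only [List.append_assoc, ← hl2]
  have hposI : pos I = vec .zp := pos_blk hv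
  obtain ⟨hr1, hr2⟩ := hrep (l1 ++ .zp :: c) l2 I .zp hposI blk_ne
  have hsap1 : SAP w1 := by rw [hw1.eq]; exact hw1.spot.1
  have ew0 : (l1 ++ .zp :: c) ++ .zp :: l2 = l1 ++ .zp :: (c ++ .zp :: l2) := by
    simp only [List.append_assoc, List.cons_append]
  have hpos0 : pos (l1 ++ .zp :: (c ++ .zp :: l2)) = 0 := by
    have h3 := hsap1.2.1
    rw [ew1, pos_append, pos_append, hposI] at h3
    rw [← ew0, pos_append, pos]
    rw [← h3]; abel
  have hlen0 := four_le hpos0
  rw [← ew1, ew0] at hr1 hr2
  have hsap0 : SAP (l1 ++ .zp :: (c ++ .zp :: l2)) := hr2 hsap1 hlen0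
  have hposd : pos (w1.drop (i + 1)) = pos (c ++ .zp :: l2) := by
    rw [e3, pos_append, pos_append, pos_append, hposI, pos]; abel
  have hspot : Spot T L l1 (c ++ .zp :: l2) := by
    refine ⟨hsap0, ?_, ?_⟩
    · intro m hm1 hm2
      obtain ⟨h3, h4⟩ := hw1.spot.2.1 m hm1 hm2
      rw [← hw1.eq, hposd] at h3 h4
      exact ⟨fun h => h3 (hr1 _ h), fun h => h4 (hr1 _ h)⟩
    · intro h h3 h4 h5 h6 h7 h8
      have h9 := hw1.spot.2.2 h h3 h4 h5 h6 h7
      rw [← hw1.eq, hposd] at h9
      exact h9 (hr1 _ h8)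
  have := h2 k hk T L l1 (c ++ .zp :: l2) v hspot hv hvk
  apply this
  have hu2 := hw2.u
  rw [ew2] at hu2
  exact hu2

end K2CNT2

open K2CNT2 in
theorem T_cnt2_proof (h1 : T_T1) (h2 : T_T2) (hrep : T_Wrep) : T_cnt2 := by
  intro k hk T L v hv hvk n
  rw [← Finset.card_sigma]
  refine Finset.card_le_mul_card_image_of_maps_to
    (f := fun x : (_ : List Dir) × ℕ => x.1.take x.2 ++ blk T v ++ x.1.drop (x.2 + 1)) ?_ _ ?_
  · rintro ⟨w, i⟩ hx
    rw [Finset.mem_sigma] at hx
    obtain ⟨hw, hi⟩ := hx
    have hvp := vp_of (v := v) hw hi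
    have hu := hvp.u
    rw [hvp.eq] at hu
    obtain ⟨hs, hsame⟩ := h1 T L _ _ v hvp.spot hv hu
    rw [mem_K]
    refine ⟨?_, hs, Or.inl (hsame.trans hvk)⟩
    change (w.take i ++ blk T v ++ w.drop (i + 1)).length = n + (blk T v).length - 1
    have h3 : i < n := hvp.lt
    have h4 : w.length = n := hvp.len
    have h5 : 1 ≤ (blk T v).length := blk_len
    rw [List.length_append, List.length_append, List.length_take, List.length_drop, h4]
    omega
  · intro w' _
    set s := ((K U n).sigma (fun w => spots T L w)).filter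
      (fun x => x.1.take x.2 ++ blk T v ++ x.1.drop (x.2 + 1) = w') with hs
    have hmem : ∀ x ∈ s, VP T L v n w' x.1 x.2 := by
      intro x hx
      rw [hs, mem_filter, Finset.mem_sigma] at hx
      have := vp_of (v := v) hx.1.1 hx.1.2
      rw [hx.2] at this
      exact this
    have hinj : Set.InjOn (fun x : (_ : List Dir) × ℕ => x.2) s := by
      rintro ⟨w1, i⟩ hx ⟨w2, j⟩ hy hij
      obtain rfl : i = j := hij
      have h3 : w1 = w2 := vp_inj (hmem ⟨w1, i⟩ (Finset.mem_coe.mp hx))
        (hmem ⟨w2, i⟩ (Finset.mem_coe.mp hy))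
      rw [h3]
    rw [← Finset.card_image_of_injOn hinj]
    rcases s.eq_empty_or_nonempty with hemp | hne
    · rw [hemp]; simp
    · obtain ⟨x0, hx0, hmin⟩ := Finset.exists_min_image s (fun x => x.2) hne
      have hsub : s.image (fun x => x.2) ⊆ Finset.Ico x0.2 (x0.2 + (blk T v).length) := by
        intro j hj
        rw [Finset.mem_image] at hj
        obtain ⟨x, hx, rfl⟩ := hj
        rw [Finset.mem_Ico]
        exact ⟨hmin x hx, vp_two h2 hrep hk hv hvk (hmem x0 hx0) (hmem x hx) (hmin x hx)⟩
      calc (s.image (fun x => x.2)).card ≤ (Finset.Ico x0.2 (x0.2 + (blk T v).length)).card :=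
            Finset.card_le_card hsub
        _ = (blk T v).length := by simp

end

end KN
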