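import Pool.Agent.H246K2.Stubs

/-!
# JFLAT: the gauge field of a connected sum with the trefoil is flat outside the polygon
-/

set_option autoImplicit false

namespace KN

open Finset Filter Topology
open scoped Classical

noncomputable section

namespace K2JFLAT

/-- the word `w` has a letter `d` starting at `p` -/
def At (w : List Dir) (d : Dir) (p : Z3) : Prop := ∃ a b : List Dir, w = a ++ d :: b ∧ pos b = p

theorem eg_iff (w : List Dir) (q : Z3) (f : Dir) :
    Eg w q f ↔ At w f q ∨ At w (neg f) (q + vec f) := by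
  unfold Eg At
  constructor
  · rintro ⟨a, b, h | h⟩
    · exact Or.inl ⟨a, b, h⟩
    · exact Or.inr ⟨a, b, h⟩
  · rintro (⟨a, b, h⟩ | ⟨a, b, h⟩)
    · exact ⟨a, b, Or.inl h⟩
    · exact ⟨a, b, Or.inr h⟩

theorem at_nil (d : Dir) (p : Z3) : ¬ At [] d p := by
  rintro ⟨a, b, h, _⟩
  simp at h

theorem at_cons (e : Dir) (w : List Dir) (d : Dir) (p : Z3) :
    At (e :: w) d p ↔ (d = e ∧ pos w = p) ∨ At w d p := by
  constructor
  · rintro ⟨a, b, h, hp⟩
    cases a with
    | nil =>
      simp only [List.nil_append, List.cons.injEq] at h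
      obtain ⟨h1, h2⟩ := h
      subst h1; subst h2
      exact Or.inl ⟨rfl, hp⟩
    | cons c a =>
      simp only [List.cons_append, List.cons.injEq] at h
      exact Or.inr ⟨a, b, h.2, hp⟩
  · rintro (⟨rfl, hp⟩ | ⟨a, b, h, hp⟩)
    · exact ⟨[], w, rfl, hp⟩
    · exact ⟨e :: a, b, by rw [h]; rfl, hp⟩

theorem at_append (u w : List Dir) (d : Dir) (p : Z3) :
    At (u ++ w) d p ↔ At u d (p - pos w) ∨ At w d p := by
  induction u with
  | nil =>
    simp only [List.nil_append]
    exact ⟨fun h => Or.inr h, fun h => h.resolve_left (at_nil _ _)⟩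
  | cons e u ih =>
    rw [List.cons_append, at_cons, at_cons, ih, pos_append, or_assoc, eq_sub_iff_add_eq]

/-- letters with a small first coordinate do not contribute -/
theorem cz_append (u w : List Dir) (x y z : ℤ) (h : ∀ p ∈ path u, (p + pos w).1 < x) :
    cz (u ++ w) x y z = cz w x y z := by
  induction u with
  | nil => rfl
  | cons d u ih =>
    rw [List.cons_append, cz, ih (fun p hp => h p (by simp [path, hp]))]
    have h1 : (pos (u ++ w)).1 < x := by
      rw [pos_append]; exact h _ (by simp [path, pos_mem_path])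
    rw [if_neg (fun hh => by omega), if_neg (fun hh => by omega)]
    simp

theorem cy_append (u w : List Dir) (x y z : ℤ) (h : ∀ p ∈ path u, (p + pos w).1 < x) :
    cy (u ++ w) x y z = cy w x y z := by
  induction u with
  | nil => rfl
  | cons d u ih =>
    rw [List.cons_append, cy, ih (fun p hp => h p (by simp [path, hp]))]
    have h1 : (pos (u ++ w)).1 < x := by
      rw [pos_append]; exact h _ (by simp [path, pos_mem_path])
    rw [if_neg (fun hh => by omega), if_neg (fun hh => by omega)]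
    simp

theorem cz_zero (w : List Dir) (x y z : ℤ) (h : ∀ p ∈ path w, p.1 < x) : cz w x y z = 0 := by
  have := cz_append w [] x y z (fun p hp => by simpa [pos] using h p hp)
  rw [List.append_nil] at this
  rw [this]; rfl

theorem cy_zero (w : List Dir) (x y z : ℤ) (h : ∀ p ∈ path w, p.1 < x) : cy w x y z = 0 := by
  have := cy_append w [] x y z (fun p hp => by simpa [pos] using h p hp)
  rw [List.append_nil] at this
  rw [this]; rfl

theorem pos_v0 : pos v0 = (0, 0, 1) := by decide +kernel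

theorem mem_left (l1 l2 : List Dir) (e : Dir) (p : Z3) (hp : p ∈ path l1) :
    p + pos (e :: l2) ∈ path (l1 ++ e :: l2) := by
  rw [mem_path_iff] at hp ⊢
  obtain ⟨i, hi, rfl⟩ := hp
  refine ⟨i, by simp; omega, ?_⟩
  rw [List.drop_append_of_le_length hi, pos_append]

theorem mem_right (l1 l2 : List Dir) (e : Dir) (p : Z3) (hp : p ∈ path l2) :
    p ∈ path (l1 ++ e :: l2) := by
  rw [path_append]
  simp [path, hp]

section

variable {l1 l2 : List Dir} (hF : Facing l1 v0 l2)
include hF

theorem posm : pos (l1 ++ .xm :: .zp :: .xp :: l2) = 0 := by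
  have h := hF.1.2.1
  rw [pos_append] at h ⊢
  rw [← h]
  simp only [pos, vec]
  congr 1
  ext <;> simp

theorem czm (b c : ℤ) : cz (l1 ++ .xm :: .zp :: .xp :: l2) ((pos l2).1 + 1) b c =
    if b = (pos l2).2.1 ∧ c = (pos l2).2.2 then 1 else 0 := by
  rw [cz_append]
  · rw [cz, cz, cz, cz_zero l2]
    · simp only [pos, vec, Prod.fst_add, Prod.snd_add, reduceCtorEq, false_and, if_false, add_zero,
        zero_add, true_and, le_refl]
      simp only [eq_comm]
    · intro p hp
      have := hF.2.1 p (mem_right l1 l2 .zp p hp)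
      omega
  · intro p hp
    have := hF.2.1 _ (mem_left l1 l2 .zp p hp)
    simp only [pos, vec, Prod.fst_add] at this ⊢
    omega

theorem cym (b c : ℤ) : cy (l1 ++ .xm :: .zp :: .xp :: l2) ((pos l2).1 + 1) b c = 0 := by
  rw [cy_append]
  · rw [cy, cy, cy, cy_zero l2]
    · simp
    · intro p hp
      have := hF.2.1 p (mem_right l1 l2 .zp p hp)
      omega
  · intro p hp
    have := hF.2.1 _ (mem_left l1 l2 .zp p hp)
    simp only [pos, vec, Prod.fst_add] at this ⊢
    omega

end

/-- letters of `m` are letters of the connected sum, except for `zp` at `O` -/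
theorem at_m (l1 l2 : List Dir) (d : Dir) (p : Z3)
    (h : At (l1 ++ .xm :: .zp :: .xp :: l2) d p) :
    At (join l1 v0 l2) d p ∨ (d = .zp ∧ p = pos l2 + (1, 0, 0)) := by
  unfold join
  rw [at_append, at_cons, at_cons, at_cons] at h
  rw [at_append, at_cons, at_append, at_cons]
  have e : pos (v0 ++ .xp :: l2) = pos (.zp :: .xp :: l2) := by
    rw [pos_append, pos_v0]; simp only [pos, vec]; abel
  rcases h with h | ⟨h, h'⟩ | ⟨h, h'⟩ | h | h
  · left; left
    have e2 : pos (.xm :: (v0 ++ .xp :: l2)) = pos (.xm :: .zp :: .xp :: l2) := by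
      rw [pos, e]; rfl
    rw [e2]; exact h
  · left; right; left; exact ⟨h, by rw [e]; exact h'⟩
  · right; exact ⟨h, h'.symm⟩
  · left; right; right; right; left; exact h
  · left; right; right; right; right; exact h

/-- letters of `v0` are letters of the connected sum -/
theorem at_v (l1 l2 : List Dir) (d : Dir) (p : Z3) (h : At v0 d (p - (pos l2 + (1, 0, 0)))) :
    At (join l1 v0 l2) d p := by
  unfold join
  rw [at_append, at_cons, at_append, at_cons]
  right; right; left
  exact h

theorem eg_v (l1 l2 : List Dir) (f : Dir) (q : Z3) (h : Eg v0 (q - (pos l2 + (1, 0, 0))) f) :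
    Eg (join l1 v0 l2) q f := by
  rw [eg_iff] at h ⊢
  rcases h with h | h
  · exact Or.inl (at_v _ _ _ _ h)
  · refine Or.inr (at_v _ _ _ _ ?_)
    rw [add_sub_right_comm]; exact h

theorem jl1 (y : Z3) (m : List Dir) (c : Z3) : (jgauge y m).g1 c = 1 := rfl
theorem ml1 (τ : S3) (m : List Dir) (c : Z3) : (mgauge τ m).g1 c = 1 := rfl
theorem tl1 (c : Z3) : tgauge.g1 c = 1 := rfl

theorem jl2 (y : Z3) (m : List Dir) (c : Z3) (h : c.1 ≤ y.1) :
    (jgauge y m).g2 c = (mgauge (Equiv.swap 0 1) m).g2 c := if_pos h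
theorem jl3 (y : Z3) (m : List Dir) (c : Z3) (h : c.1 ≤ y.1) :
    (jgauge y m).g3 c = (mgauge (Equiv.swap 0 1) m).g3 c := if_pos h
theorem jr2 (y : Z3) (m : List Dir) (c : Z3) (h : y.1 < c.1) :
    (jgauge y m).g2 c = tgauge.g2 (c - y - (1, 0, 0)) := if_neg (not_le.2 h)
theorem jr3 (y : Z3) (m : List Dir) (c : Z3) (h : y.1 < c.1) :
    (jgauge y m).g3 c = tgauge.g3 (c - y - (1, 0, 0)) := if_neg (not_le.2 h)

theorem sh (q y u : Z3) : q - u - y - (1, 0, 0) = q - (y + (1, 0, 0)) - u := by
  abel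

theorem f1 (q : Z3) (a b c : ℤ) : (q - (a, b, c)).1 = q.1 - a := rfl

/-- the gauge field of `m` next to the interface -/
theorem mg2 {l1 l2 : List Dir} (hF : Facing l1 v0 l2) (q : Z3) (he : q.1 = (pos l2).1 + 1) :
    (mgauge (Equiv.swap 0 1 : S3) (l1 ++ .xm :: .zp :: .xp :: l2)).g2 (q - (1, 1, 0)) =
      if q.2.1 - (pos l2).2.1 = 0 ∧ q.2.2 - (pos l2).2.2 = 0 then Equiv.swap 0 1 else 1 := by
  have e2 : (q - (1, 1, 0)).1 + 1 = (pos l2).1 + 1 := by simp [he]
  have e3 : (q - (1, 1, 0)).2.1 + 1 = q.2.1 := by simp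
  have e4 : (q - (1, 1, 0)).2.2 = q.2.2 := by simp
  have e5 : cz (l1 ++ .xm :: .zp :: .xp :: l2) ((q - (1, 1, 0)).1 + 1) ((q - (1, 1, 0)).2.1 + 1)
      (q - (1, 1, 0)).2.2 = if q.2.1 = (pos l2).2.1 ∧ q.2.2 = (pos l2).2.2 then 1 else 0 := by
    rw [e2, e3, e4]; exact czm hF _ _
  unfold mgauge
  simp only
  by_cases hc : q.2.1 = (pos l2).2.1 ∧ q.2.2 = (pos l2).2.2
  · rw [if_pos hc] at e5
    rw [if_neg (by rw [e5]; decide), if_pos ⟨by omega, by omega⟩]
  · rw [if_neg hc] at e5
    rw [if_pos e5, if_neg (fun hh => hc ⟨by omega, by omega⟩)]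

theorem mg3 {l1 l2 : List Dir} (hF : Facing l1 v0 l2) (q : Z3) (he : q.1 = (pos l2).1 + 1) :
    (mgauge (Equiv.swap 0 1 : S3) (l1 ++ .xm :: .zp :: .xp :: l2)).g3 (q - (1, 0, 1)) = 1 := by
  have e2 : (q - (1, 0, 1)).1 + 1 = (pos l2).1 + 1 := by simp [he]
  have e5 : cy (l1 ++ .xm :: .zp :: .xp :: l2) ((q - (1, 0, 1)).1 + 1) (q - (1, 0, 1)).2.1
      ((q - (1, 0, 1)).2.2 + 1) = 0 := by
    rw [e2]; exact cym hF _ _
  unfold mgauge
  simp only
  rw [if_pos e5]

end K2JFLAT

open K2JFLAT in
theorem T_jflat_proof (h1 : T_mflat) (h2 : T_tflat) : T_jflat := by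
  intro l1 l2 hF q
  obtain ⟨t1, -, t3, t4⟩ := h2
  have hM := h1 S3 (Equiv.swap 0 1) (by simp) _ (posm hF)
  rcases le_or_gt q.1 (pos l2).1 with hq | hq
  · -- left part
    obtain ⟨M1, M2, M3⟩ := hM q
    have key : ∀ f : Dir, f ≠ .zm → Eg (l1 ++ .xm :: .zp :: .xp :: l2) q f →
        Eg (join l1 v0 l2) q f := by
      intro f hf h
      rw [eg_iff] at h ⊢
      rcases h with h | h
      · rcases at_m l1 l2 _ _ h with h | ⟨h, h'⟩
        · exact Or.inl h
        · exfalso
          rw [h'] at hq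
          simp only [Prod.fst_add] at hq
          omega
      · rcases at_m l1 l2 _ _ h with h | ⟨h, h'⟩
        · exact Or.inr h
        · exfalso
          apply hf
          rw [← neg_neg_dir f, h]
          rfl
    refine ⟨M1.imp (key _ (by decide)) ?_, M2.imp (key _ (by decide)) ?_,
      M3.imp (key _ (by decide)) ?_⟩
    · intro h
      unfold Fl12 at h ⊢
      rw [jl1, jl1, jl2 _ _ _ (by rw [f1]; omega), jl2 _ _ _ (by rw [f1]; omega)]
      exact h
    · intro h
      unfold Fl13 at h ⊢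
      rw [jl1, jl1, jl3 _ _ _ (by rw [f1]; omega), jl3 _ _ _ (by rw [f1]; omega)]
      exact h
    · intro h
      unfold Fl23 at h ⊢
      rw [jl2 _ _ _ (by rw [f1]; omega), jl3 _ _ _ (by rw [f1]; omega),
        jl3 _ _ _ (by rw [f1]; omega), jl2 _ _ _ (by rw [f1]; omega)]
      exact h
  · obtain ⟨N1, N2, N3⟩ := t1 (q - (pos l2 + (1, 0, 0)))
    have key : ∀ f : Dir, f ≠ .zm → (f ≠ .zp ∨ q.1 ≠ (pos l2).1 + 1) →
        Eg (.zm :: v0) (q - (pos l2 + (1, 0, 0))) f → Eg (join l1 v0 l2) q f := by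
      intro f hf hf2 h
      apply eg_v
      rw [eg_iff] at h ⊢
      rw [at_cons, at_cons] at h
      rcases h with (⟨h, _⟩ | h) | (⟨h, h'⟩ | h)
      · exact absurd h hf
      · exact Or.inl h
      · exfalso
        have hfz : f = .zp := by rw [← neg_neg_dir f, h]; rfl
        rcases hf2 with hf2 | hf2
        · exact hf2 hfz
        · apply hf2
          rw [hfz, pos_v0] at h'
          have := congrArg Prod.fst h'
          simp only [vec, Prod.fst_add, Prod.fst_sub] at this
          omega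
      · exact Or.inr h
    have G3 : Eg (join l1 v0 l2) q .xp ∨
        Fl23 (jgauge (pos l2) (l1 ++ .xm :: .zp :: .xp :: l2)) q := by
      refine N3.imp (key _ (by decide) (Or.inl (by decide))) ?_
      intro h
      unfold Fl23 at h ⊢
      rw [jr2 _ _ _ (by rw [f1]; omega), jr3 _ _ _ (by rw [f1]; omega),
        jr3 _ _ _ (by rw [f1]; omega), jr2 _ _ _ (by rw [f1]; omega)]
      simp only [sh]
      exact h
    rcases eq_or_ne q.1 ((pos l2).1 + 1) with he | he
    · -- the interface
      have e0 : q - (pos l2 + (1, 0, 0)) =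
          (0, q.2.1 - (pos l2).2.1, q.2.2 - (pos l2).2.2) := by
        ext
        · simp [he]
        · simp
        · simp
      refine ⟨?_, ?_, G3⟩
      · refine (t3 (q.2.1 - (pos l2).2.1) (q.2.2 - (pos l2).2.2)).symm.imp ?_ ?_
        · intro h
          apply eg_v
          rw [e0]; exact h
        · intro h
          unfold Fl12
          rw [jl1, jl1, jr2 _ _ _ (by rw [f1]; omega), jl2 _ _ _ (by rw [f1]; omega), mg2 hF q he,
            sh, e0]
          have e1 : ((0 : ℤ), q.2.1 - (pos l2).2.1, q.2.2 - (pos l2).2.2) - (0, 1, 0) =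
              ((0 : ℤ), q.2.1 - (pos l2).2.1 - 1, q.2.2 - (pos l2).2.2) := by
            ext <;> simp
          rw [e1, h, one_mul, mul_one]
      · refine (t4 (q.2.1 - (pos l2).2.1) (q.2.2 - (pos l2).2.2)).symm.imp ?_ ?_
        · intro h
          apply eg_v
          rw [e0]; exact h
        · intro h
          unfold Fl13
          rw [jl1, jl1, jr3 _ _ _ (by rw [f1]; omega), jl3 _ _ _ (by rw [f1]; omega), mg3 hF q he,
            sh, e0]
          have e1 : ((0 : ℤ), q.2.1 - (pos l2).2.1, q.2.2 - (pos l2).2.2) - (0, 0, 1) =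
              ((0 : ℤ), q.2.1 - (pos l2).2.1, q.2.2 - (pos l2).2.2 - 1) := by
            ext <;> simp
          rw [e1, h]
    · -- right part
      refine ⟨N1.imp (key _ (by decide) (Or.inr he)) ?_,
        N2.imp (key _ (by decide) (Or.inl (by decide))) ?_, G3⟩
      · intro h
        unfold Fl12 at h ⊢
        rw [jl1, jl1, jr2 _ _ _ (by rw [f1]; omega), jr2 _ _ _ (by rw [f1]; omega)]
        simp only [sh]
        exact h
      · intro h
        unfold Fl13 at h ⊢
        rw [jl1, jl1, jr3 _ _ _ (by rw [f1]; omega), jr3 _ _ _ (by rw [f1]; omega)]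
        simp only [sh]
        exact h

end

end KN
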