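import Pool.Agent.H246K2.Stubs

/-!
# K2, task ONE: one block
-/

set_option autoImplicit false

namespace KN

open Finset Filter Topology
open scoped Classical

namespace K2ONE

theorem blk_length (T : ℕ) (v : List Dir) : (blk T v).length = 2 * (T + 1) + v.length := by
  unfold blk
  simp only [List.length_append, List.length_replicate]
  ring

end K2ONE

theorem T_one_proof (hvex : T_vex) (hLL : T_LL) (hstep : T_step) (hmany : T_many)
    (hcnt1 : T_cnt1) (hcnt2 : T_cnt2) : T_one := by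
  intro k hk hw
  obtain ⟨L, v, hv, hvk⟩ := hvex k hw
  obtain ⟨R, hR1, hR⟩ := hLL (2 * L + 4) L le_rfl
  obtain ⟨c, hc, hev⟩ := hmany R hR1
  set T := 2 * L + 4 with hT
  have hD := K2ONE.blk_length T v
  have hev2 := even_of_closed hv.1.2.1
  rw [List.length_cons] at hev2
  set D := (blk T v).length with hDdef
  have hDpos : 0 < D := by omega
  have hDR : (0 : ℝ) < (D : ℝ) := by exact_mod_cast hDpos
  refine ⟨c / (36 * 3 * 13 ^ 3 * D), D - 1, by positivity, by omega, ?_⟩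
  filter_upwards [hev] with n hn
  have hex : ∀ w : List Dir, ∃ C : Finset Z3, w ∈ K U n →
      (c * (n : ℝ) ^ (2 / 3 : ℝ) ≤ C.card ∧
        ∀ x ∈ C, ¬ near 6 x 0 ∧ ∃ N : Z3, Cont R {p | p ∈ path w} x N) := by
    intro w
    by_cases h : w ∈ K U n
    · obtain ⟨h1, h2, -⟩ := mem_K.1 h
      obtain ⟨C, hC⟩ := hn w h2 h1
      exact ⟨C, fun _ => hC⟩
    · exact ⟨∅, fun h' => absurd h' h⟩
  choose C hC using hex
  have h1 := hcnt1 T L n C (by
    intro w hw x hx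
    obtain ⟨h2, N, hN⟩ := (hC w hw).2 x hx
    exact hstep T L R hR w (mem_K.1 hw).2.1 x N hN h2)
  have h2 := hcnt2 k hk T L v hv hvk n
  rw [← hDdef, Nat.add_sub_assoc hDpos] at h2
  have h3 : ∑ w ∈ K U n, (C w).card ≤ 36 * 3 * 13 ^ 3 * (D * a (KT k) (n + (D - 1))) :=
    h1.trans (Nat.mul_le_mul_left _ h2)
  have h4 : (a U n : ℝ) * (c * (n : ℝ) ^ (2 / 3 : ℝ)) ≤ ((∑ w ∈ K U n, (C w).card : ℕ) : ℝ) := by
    push_cast
    have : (a U n : ℝ) * (c * (n : ℝ) ^ (2 / 3 : ℝ)) = ∑ w ∈ K U n, c * (n : ℝ) ^ (2 / 3 : ℝ) := by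
      rw [Finset.sum_const, nsmul_eq_mul]
      rfl
    rw [this]
    exact Finset.sum_le_sum (fun w hw => (hC w hw).1)
  have h5 : ((∑ w ∈ K U n, (C w).card : ℕ) : ℝ) ≤
      36 * 3 * 13 ^ 3 * (D * a (KT k) (n + (D - 1))) := by exact_mod_cast h3
  have h6 := h4.trans h5
  rw [div_mul_eq_mul_div, div_mul_eq_mul_div, div_le_iff₀ (by positivity)]
  linarith

end KN
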