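import Pool.Agent.H246K2.Stubs
import Pool.Agent.H246KN.All

/-!
# Rotations of words (task RT)
-/

set_option autoImplicit false

namespace KN

namespace K2RT

/-- rotation of the letters by 90 degrees around the third axis -/
def rq : Dir → Dir
  | .xp => .yp
  | .yp => .xm
  | .xm => .ym
  | .ym => .xp
  | .zp => .zp
  | .zm => .zm

/-- the same rotation of the lattice -/
def RQ (p : Z3) : Z3 := (-p.2.1, p.1, p.2.2)

theorem vec_rq (d : Dir) : vec (rq d) = RQ (vec d) := by cases d <;> decide

theorem RQ_add (p q : Z3) : RQ (p + q) = RQ p + RQ q := by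
  unfold RQ
  ext <;> simp [add_comm]

theorem RQ_inj : Function.Injective RQ := by
  rintro ⟨a, b, c⟩ ⟨a', b', c'⟩ h
  simp only [RQ, Prod.mk.injEq, neg_inj] at h
  rw [h.2.1, h.1, h.2.2]

/-- maps of letters that preserve the knot type -/
def Good (r : Dir → Dir) : Prop :=
  ∀ w : List Dir, SAP w → SAP (w.map r) ∧ Same (vl w) (vl (w.map r))

theorem good_id : Good id := by
  intro w hw
  rw [List.map_id]
  exact ⟨hw, Relation.EqvGen.refl _⟩

theorem good_comp {r s : Dir → Dir} (hr : Good r) (hs : Good s) : Good (r ∘ s) := by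
  intro w hw
  have h1 := hs w hw
  have h2 := hr _ h1.1
  rw [List.map_map] at h2
  exact ⟨h2.1, h1.2.trans h2.2⟩

theorem good_rx : Good rx := fun w hw => (c_words w hw).1

theorem good_rq : Good rq := by
  intro w hw
  refine ⟨WRD.SAP_map rq RQ vec_rq rfl RQ_add RQ_inj hw, ?_⟩
  have h4 := (S_motion_proof _ (S_simple_proof w hw)).2.2.1.1
  rw [WRD.vl_map rq RQ vec_rq rfl RQ_add]
  have e1 : (vl w).map (fun p => (-p.2.1, p.1, p.2.2)) =
      (path w.tail).map (fun p => emb (RQ p)) := by
    unfold vl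
    rw [List.map_map]
    refine List.map_congr_left fun p _ => ?_
    simp [emb, RQ]
  rw [e1] at h4
  exact h4

theorem good_iter {r : Dir → Dir} (hr : Good r) (n : ℕ) : Good (r^[n]) := by
  induction n with
  | zero => exact good_id
  | succ n ih =>
    rw [Function.iterate_succ]
    exact good_comp ih hr

/-- all rotations are products -/
theorem rt_prod : ∀ d f : Dir, perp d f → ∃ i j k : Fin 4, ∀ e : Dir,
    rt d f e = (rx^[i.1]) ((rq^[j.1]) ((rx^[k.1]) e)) := by
  decide +kernel

end K2RT

theorem T_rt_proof : T_rt := by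
  intro d f h
  obtain ⟨i, j, k, e⟩ := K2RT.rt_prod d f h
  have : rt d f = (rx^[i.1]) ∘ ((K2RT.rq^[j.1]) ∘ (rx^[k.1])) := funext e
  rw [this]
  exact K2RT.good_comp (K2RT.good_iter K2RT.good_rx _)
    (K2RT.good_comp (K2RT.good_iter K2RT.good_rq _) (K2RT.good_iter K2RT.good_rx _))

end KN
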