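import Pool.Agent.H246K2.Stubs
import Pool.Agent.H246KN.All

/-!
# K2: a polygon with an inserted block is knotted
-/

set_option autoImplicit false

namespace KN

open scoped Classical

theorem T_T2_proof (h : T_master) : T_T2 := by
  intro k hk T L l1 l2 v hsp hsm hvk hU
  set w : List Dir := l1 ++ .zp :: l2 with hw
  have hSAP : SAP w := hsp.1
  set Q : List Dir → Prop := fun w' => Same (vl w') (vl w) with hQdef
  have hQ : ∀ w' : List Dir, SAP w' → (Q w' ↔ Q (w'.map rx)) := by
    intro w' hw'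
    have h1 := (c_words w' hw').1.2
    constructor
    · intro h2
      exact h1.symm.trans h2
    · intro h2
      exact h1.trans h2
  have h1 := S_quartR_proof Q hQ w.length
  have hmem : w ∈ K Q w.length := mem_K.mpr ⟨rfl, hSAP, Same.refl _⟩
  have h2 : 0 < a Q w.length := Finset.card_pos.mpr ⟨w, hmem⟩
  have h3 : 0 < ((K Q w.length).filter (fun w' => ∃ m1 m2 : List Dir, w' = m1 ++ Dir.zp :: m2 ∧
    ∀ p ∈ path w', p.1 ≤ (pos m2).1)).card := by omega
  obtain ⟨w', hw'⟩ := Finset.card_pos.mp h3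
  rw [Finset.mem_filter, mem_K] at hw'
  obtain ⟨⟨_, hS', hQ'⟩, m1, m2, rfl, hle⟩ := hw'
  have hB : BgL L m1 m2 := by
    refine ⟨hS', fun p hp hc => ?_⟩
    have := hle p hp
    have := hc.1
    omega
  have hF : Facing m1 v m2 := ⟨hS', hle, hsm.1, fun p hp => (hsm.2 p hp).1⟩
  have hm := (h T L l1 l2 m1 m2 v hsp hsm hB (Same.symm hQ')).2
  refine hk m1 v m2 hF hvk ?_
  rcases hU with hU | hU
  · exact Or.inl (hm.symm.trans hU)
  · exact Or.inr (hm.symm.trans hU)

end KN

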